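import Pool.Agent.Lib.MP_410da7_agB.SpecD

/-!
# MP_410da7_ag, nef boundary (T1): CN, the rational curve through the generic point
-/

set_option autoImplicit false

namespace Pool.Agent.Lib.MP_410da7_agB

open Pool.Agent.Lib.MP_410da7_agA
open MvPolynomial KaehlerDifferential WithZero Module

namespace cNAux

/-- The numerical condition for a large `B₁`. -/
lemma num (n m₀ e₀ E₁ E₂ B₂ : ℕ) (h : (n + 1) * m₀ * E₂ < (B₂ + 1) * e₀) :
    (n + 1) * m₀ * ((B₂ + 1) * E₁ + (B₂ + (n + 1) * m₀ * (B₂ + 1) * E₁ + 1) * E₂) <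
      (B₂ + (n + 1) * m₀ * (B₂ + 1) * E₁ + 1) * (B₂ + 1) * e₀ := by
  have h1 : (B₂ + (n + 1) * m₀ * (B₂ + 1) * E₁ + 1) * ((n + 1) * m₀ * E₂ + 1) ≤
      (B₂ + (n + 1) * m₀ * (B₂ + 1) * E₁ + 1) * ((B₂ + 1) * e₀) := Nat.mul_le_mul_left _ h
  nlinarith [h1]

end cNAux

open cNAux in
theorem cN (hdn18 : DN18Stmt) (hefgn : EFGNStmt) : CNStmt := by
  intro K _ _ n N Mw m₀ e₀ E₂ B₂ Ψ W tt x hs L Λ _ _ _ _ _ _ _ _ a hN hnum
  have : CharZero L := charZero_of_injective_algebraMap (algebraMap ℂ L).injective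
  obtain ⟨c, κ, r, d, E₁, S, α, g, hC, hker⟩ := hdn18 K n N Mw m₀ e₀ E₂ Ψ W tt x hs L Λ a hN
  obtain ⟨Λ', _, _, _, _, Yp, y1, -, y3, y4, l₀, y5⟩ := hefgn L Λ (Mw + 1) κ r d n m₀ e₀ E₁ E₂
    (B₂ + (n + 1) * m₀ * (B₂ + 1) * E₁) B₂ S (tt.map Fin.castSuccEmb) _ (Fin.last (Mw + 1)) α g hC
    (Nat.le_add_right _ _) (num n m₀ e₀ E₁ E₂ B₂ hnum)
  set Y : Fin (Mw + 2) → K := Fin.snoc W (∑ l, c l • W l) with hY
  have hYc : ∀ l : Fin (Mw + 1), Y l.castSucc = W l := by
    intro l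
    rw [hY, Fin.snoc_castSucc]
  have hYl : Y (Fin.last (Mw + 1)) = ∑ l, c l • W l := by
    rw [hY, Fin.snoc_last]
  let _ : Algebra ℂ Λ' := ((algebraMap Λ Λ').comp (algebraMap ℂ Λ)).toAlgebra
  have : IsScalarTower ℂ Λ Λ' := IsScalarTower.of_algebraMap_eq (fun _ => rfl)
  have : IsScalarTower ℂ L Λ' := IsScalarTower.of_algebraMap_eq (fun c => by
    rw [IsScalarTower.algebraMap_apply ℂ Λ Λ', IsScalarTower.algebraMap_apply L Λ Λ',
      IsScalarTower.algebraMap_apply ℂ L Λ])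
  let ι : K →ₐ[ℂ] Λ' := (IsScalarTower.toAlgHom ℂ Λ Λ').comp (IsScalarTower.toAlgHom ℂ K Λ)
  have hι : ∀ f : K, ι f = algebraMap Λ Λ' (algebraMap K Λ f) := fun _ => rfl
  have hcf : ∀ l, (Yp l).coeff 0 = ι (Y l) := y4
  have h0 : (Yp 0).coeff 0 = 1 := by
    have e0 : Y 0 = 1 := by
      have := hYc 0
      rw [Fin.castSucc_zero, hs.W0] at this
      exact this
    rw [hcf, e0, map_one]
  have hYp0 : Yp 0 ≠ 0 := by
    intro h
    rw [h, Polynomial.coeff_zero] at h0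
    exact zero_ne_one h0
  -- the homogeneous relations
  have key : ∀ (e : ℕ) (P : MvPolynomial (Fin (Mw + 2)) ℂ), P.IsHomogeneous e → aeval Y P = 0 →
      aeval Yp P = 0 := by
    intro e P hP hP0
    have h1 : Ideal.span (Set.range S.F) ≤
        RingHom.ker (aeval Yp : MvPolynomial (Fin (Mw + 2)) L →ₐ[L] Polynomial Λ') := by
      rw [Ideal.span_le]
      rintro q ⟨j, rfl⟩
      exact y1 j
    have h2 := h1 (hker e P hP hP0)
    rw [RingHom.mem_ker, map_mul, map_pow, aeval_X, aeval_map_algebraMap] at h2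
    exact (mul_eq_zero.1 h2).resolve_left (pow_ne_zero _ hYp0)
  refine ⟨Λ', inferInstance, inferInstance, ι, fun l => Yp l.castSucc, ?_, ?_, ?_, ?_⟩
  · intro e P hP hP0
    have h1 := key e (rename Fin.castSucc P) hP.rename_isHomogeneous (by
      rw [aeval_rename]
      have e1 : Y ∘ Fin.castSucc = W := funext hYc
      rw [e1]
      exact hP0)
    rw [aeval_rename] at h1
    exact h1
  · intro t ht
    exact y3 _ (Finset.mem_map_of_mem Fin.castSuccEmb ht)
  · intro l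
    rw [hcf, hYc]
  · by_contra hcon
    push Not at hcon
    apply y5
    have hcon' : ∀ l : Fin (Mw + 1), Yp l.castSucc = Polynomial.C (ι (W l)) * Yp 0 := by
      intro l
      have h1 := hcon l
      rw [Fin.castSucc_zero] at h1
      exact h1
    refine Fin.lastCases ?_ (fun l => ?_) l₀
    · have h1 := key 1 (X (Fin.last (Mw + 1)) - ∑ l : Fin (Mw + 1), C (c l) * X l.castSucc) (by
        refine (isHomogeneous_X _ _).sub ?_
        refine IsHomogeneous.sum _ _ _ fun l _ => ?_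
        have h2 := (isHomogeneous_C (Fin (Mw + 2)) (c l)).mul
          (isHomogeneous_X ℂ (l.castSucc : Fin (Mw + 2)))
        rwa [zero_add] at h2) (by
        rw [map_sub, aeval_X, map_sum, hYl, sub_eq_zero]
        refine Finset.sum_congr rfl fun l _ => ?_
        rw [map_mul, aeval_C, aeval_X, hYc, Algebra.smul_def])
      rw [map_sub, aeval_X, map_sum, sub_eq_zero] at h1
      rw [hcf, hYl, h1, map_sum, map_sum, Finset.sum_mul]
      refine Finset.sum_congr rfl fun l _ => ?_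
      rw [map_mul, aeval_C, aeval_X, hcon' l, map_smul, Algebra.smul_def, map_mul, mul_assoc]
      rfl
    · rw [hcf, hYc]
      exact hcon' l

end Pool.Agent.Lib.MP_410da7_agB
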