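import Pool.Agent.Lib.MP_410da7_agB.SpecG

/-!
# MP_410da7_ag, nef boundary, block G: CrossDown
-/

set_option autoImplicit false

namespace Pool.Agent.Lib.MP_410da7_agB

open Pool.Agent.Lib.MP_410da7_agA
open MvPolynomial Module

namespace crossDownAux

variable {Ω : Type} [Field Ω]

theorem val_cross (𝒱 : ValuationSubring Ω) {x y t s : Ω} {j k : ℕ} (hkj : k < j)
    (hx0 : x ≠ 0) (hs : s ≠ 0) (hy : y = x * t ^ (j - k)) :
    𝒱.valuation (x * s ^ j) ≤ 𝒱.valuation (y * s ^ k) ↔ 𝒱.valuation s ≤ 𝒱.valuation t := by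
  have hks : j = (j - k) + k := by omega
  have h1 : x * s ^ j = x * s ^ (j - k) * s ^ k := by
    rw [mul_assoc, ← pow_add, ← hks]
  rw [h1, hy]
  simp only [map_mul, map_pow]
  rw [mul_le_mul_iff_left₀ (zero_lt_iff.2 (pow_ne_zero _ ((𝒱.valuation.ne_zero_iff).2 hs))),
    mul_le_mul_iff_right₀ (zero_lt_iff.2 ((𝒱.valuation.ne_zero_iff).2 hx0)),
    pow_le_pow_iff_left₀ zero_le zero_le (by omega)]

/-- If `k` dominates `j < k` at radius `|ρ|` then `|x_j| ≤ |x_k| |ρ|^(k-j)`. -/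
theorem val_low (𝒱 : ValuationSubring Ω) {x y ρ : Ω} {j k : ℕ} (hjk : j < k) (hρ : ρ ≠ 0)
    (h : 𝒱.valuation (x * ρ ^ j) ≤ 𝒱.valuation (y * ρ ^ k)) :
    𝒱.valuation x ≤ 𝒱.valuation y * 𝒱.valuation ρ ^ (k - j) := by
  have hks : k = (k - j) + j := by omega
  have h1 : y * ρ ^ k = y * ρ ^ (k - j) * ρ ^ j := by
    rw [mul_assoc, ← pow_add, ← hks]
  rw [h1] at h
  simp only [map_mul, map_pow] at h
  rwa [mul_le_mul_iff_left₀ (zero_lt_iff.2 (pow_ne_zero _ ((𝒱.valuation.ne_zero_iff).2 hρ)))] at h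

/-- The abstract crossing lemma from the outside. -/
theorem abs_down [IsAlgClosed Ω] (𝒱 : ValuationSubring Ω) (x : ℕ → Ω) (bad : ℕ → Prop)
    (hbad : ∀ m, bad m → x m ≠ 0) (h0 : bad 0) (D : ℕ) (hD : ∀ m, D < m → x m = 0)
    (h1 : ∀ m, bad m → ¬ ∀ j, 𝒱.valuation (x j) ≤ 𝒱.valuation (x m)) :
    ∃ (τ : Ω) (k o : ℕ), τ ≠ 0 ∧ 𝒱.valuation τ < 1 ∧ bad k ∧ ¬ bad o ∧
      (∀ m, 𝒱.valuation (x m * τ ^ m) ≤ 𝒱.valuation (x k * τ ^ k)) ∧
      𝒱.valuation (x o * τ ^ o) = 𝒱.valuation (x k * τ ^ k) ∧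
      ∀ m, o < m → 𝒱.valuation (x m * τ ^ m) < 𝒱.valuation (x k * τ ^ k) := by
  classical
  let P : ℕ → Prop := fun k => bad k ∧ ∃ ρ : Ω, ρ ≠ 0 ∧ 𝒱.valuation ρ ≤ 1 ∧
    ∀ j, 𝒱.valuation (x j * ρ ^ j) ≤ 𝒱.valuation (x k * ρ ^ k)
  have hPD : ∀ k, P k → k ≤ D := by
    intro k hk
    by_contra h
    exact hbad k hk.1 (hD k (by omega))
  have hx0 : x 0 ≠ 0 := hbad 0 h0
  -- index 0 dominates at a small radius
  have hP0 : P 0 := by
    refine ⟨h0, ?_⟩
    have hroot : ∀ j, ∃ t : Ω, 0 < j → x j ≠ 0 → t ^ j = x 0 / x j := by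
      intro j
      by_cases hj : 0 < j
      · obtain ⟨t, ht⟩ := IsAlgClosed.exists_pow_nat_eq (x 0 / x j) (n := j) hj
        exact ⟨t, fun _ _ => ht⟩
      · exact ⟨0, fun h => absurd h hj⟩
    choose t ht using hroot
    let F : ℕ → Ω := fun j => if 0 < j ∧ x j ≠ 0 then t j else 1
    obtain ⟨j₀, -, hmin⟩ := Finset.exists_min_image (Finset.range (D + 1))
      (fun j => 𝒱.valuation (F j)) ⟨0, by simp⟩
    have hF0 : F 0 = 1 := by simp [F]
    have hFne : ∀ j, F j ≠ 0 := by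
      intro j
      by_cases hj : 0 < j ∧ x j ≠ 0
      · simp only [F, if_pos hj]
        intro h
        have h2 := ht j hj.1 hj.2
        rw [h, zero_pow (by omega)] at h2
        exact div_ne_zero hx0 hj.2 h2.symm
      · simp only [F, if_neg hj]
        exact one_ne_zero
    refine ⟨F j₀, hFne j₀, ?_, fun j => ?_⟩
    · have := hmin 0 (by simp)
      simpa only [hF0, map_one] using this
    · rw [pow_zero, mul_one]
      by_cases hj : 0 < j ∧ x j ≠ 0
      · have hjD : j < D + 1 := by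
          by_contra h
          exact hj.2 (hD j (by omega))
        have h2 := hmin j (Finset.mem_range.2 hjD)
        simp only [F, if_pos hj] at h2
        have h3 : x 0 = x j * t j ^ (j - 0) := by
          rw [Nat.sub_zero, ht j hj.1 hj.2, mul_div_cancel₀ _ hj.2]
        have h4 := (val_cross 𝒱 hj.1 hj.2 (hFne j₀) h3).2 h2
        simpa using h4
      · rcases Nat.eq_zero_or_pos j with h | h
        · rw [h, pow_zero, mul_one]
        · have hx : x j = 0 := by
            by_contra hx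
            exact hj ⟨h, hx⟩
          rw [hx, zero_mul, map_zero]; exact zero_le
  -- the largest such index
  set k := Nat.findGreatest P D with hkdef
  have hPk : P k := Nat.findGreatest_spec (Nat.zero_le D) hP0
  have hkmax : ∀ m, k < m → ¬ P m := by
    intro m hm hPm
    exact Nat.findGreatest_is_greatest hm (hPD m hPm) hPm
  obtain ⟨hk, ρ, hρ0, hρ1, hρ⟩ := hPk
  have hxk : x k ≠ 0 := hbad k hk
  have hlow : ∀ j, j < k → 𝒱.valuation (x j) ≤ 𝒱.valuation (x k) * 𝒱.valuation ρ ^ (k - j) :=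
    fun j hj => val_low 𝒱 hj hρ0 (hρ j)
  have hlow1 : ∀ j, j < k → 𝒱.valuation (x j) ≤ 𝒱.valuation (x k) := by
    intro j hj
    refine (hlow j hj).trans ?_
    calc 𝒱.valuation (x k) * 𝒱.valuation ρ ^ (k - j) ≤ 𝒱.valuation (x k) * 1 :=
          mul_le_mul' le_rfl (Right.pow_le_one_of_le hρ1)
      _ = 𝒱.valuation (x k) := mul_one _
  let S : Finset ℕ := (Finset.range (D + 1)).filter (fun j => k < j ∧ x j ≠ 0)
  have hS : S.Nonempty := by
    by_contra hS
    rw [Finset.not_nonempty_iff_eq_empty] at hS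
    refine h1 k hk fun j => ?_
    rcases lt_trichotomy j k with h | h | h
    · exact hlow1 j h
    · rw [h]
    · have hx : x j = 0 := by
        by_contra hx
        have hjD : j < D + 1 := by
          by_contra h'
          exact hx (hD j (by omega))
        have : j ∈ S := Finset.mem_filter.2 ⟨Finset.mem_range.2 hjD, h, hx⟩
        rw [hS] at this
        exact absurd this (Finset.notMem_empty j)
      rw [hx, map_zero]; exact zero_le
  have hroot : ∀ j, ∃ t : Ω, k < j → x j ≠ 0 → t ^ (j - k) = x k / x j := by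
    intro j
    by_cases hj : k < j
    · obtain ⟨t, ht⟩ := IsAlgClosed.exists_pow_nat_eq (x k / x j) (n := j - k) (by omega)
      exact ⟨t, fun _ _ => ht⟩
    · exact ⟨0, fun h => absurd h hj⟩
  choose t ht using hroot
  have hxt : ∀ j, k < j → x j ≠ 0 → x k = x j * t j ^ (j - k) := by
    intro j hj hx
    rw [ht j hj hx, mul_div_cancel₀ _ hx]
  obtain ⟨j₀, hj₀, hmin⟩ := Finset.exists_min_image S (fun j => 𝒱.valuation (t j)) hS
  have hj₀' := (Finset.mem_filter.1 hj₀).2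
  have hmin' : ∀ j, k < j → x j ≠ 0 → 𝒱.valuation (t j₀) ≤ 𝒱.valuation (t j) := by
    intro j hj hx
    have hjD : j < D + 1 := by
      by_contra h'
      exact hx (hD j (by omega))
    exact hmin j (Finset.mem_filter.2 ⟨Finset.mem_range.2 hjD, hj, hx⟩)
  set τ := t j₀ with hτdef
  have hτ0 : τ ≠ 0 := by
    intro h
    have h2 := hxt j₀ hj₀'.1 hj₀'.2
    rw [← hτdef, h, zero_pow (by omega), mul_zero] at h2
    exact hxk h2
  have hρτ : 𝒱.valuation ρ ≤ 𝒱.valuation τ :=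
    (val_cross 𝒱 hj₀'.1 hj₀'.2 hρ0 (hxt j₀ hj₀'.1 hj₀'.2)).1 (hρ j₀)
  have hτv : 𝒱.valuation τ ≠ 0 := (𝒱.valuation.ne_zero_iff).2 hτ0
  have hdom : ∀ m, 𝒱.valuation (x m * τ ^ m) ≤ 𝒱.valuation (x k * τ ^ k) := by
    intro m
    rcases lt_trichotomy m k with h | h | h
    · have hks : k = (k - m) + m := by omega
      have e1 : x k * τ ^ k = x k * τ ^ (k - m) * τ ^ m := by
        rw [mul_assoc, ← pow_add, ← hks]
      rw [e1]
      simp only [map_mul, map_pow]
      refine mul_le_mul' ((hlow m h).trans (mul_le_mul' le_rfl (pow_le_pow_left' hρτ _))) le_rfl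
    · rw [h]
    · by_cases hx : x m = 0
      · rw [hx, zero_mul, map_zero]; exact zero_le
      · exact (val_cross 𝒱 h hx hτ0 (hxt m h hx)).2 (hmin' m h hx)
  have hτ1 : 𝒱.valuation τ < 1 := by
    by_contra hcon
    rw [not_lt] at hcon
    refine h1 k hk fun j => ?_
    rcases lt_trichotomy j k with h | h | h
    · exact hlow1 j h
    · rw [h]
    · by_cases hx : x j = 0
      · rw [hx, map_zero]; exact zero_le
      · have h3 := hxt j h hx
        have h4 : 1 ≤ 𝒱.valuation (t j) := hcon.trans (hmin' j h hx)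
        rw [h3, map_mul, map_pow]
        calc 𝒱.valuation (x j) = 𝒱.valuation (x j) * 1 := (mul_one _).symm
          _ ≤ 𝒱.valuation (x j) * 𝒱.valuation (t j) ^ (j - k) :=
            mul_le_mul' le_rfl (one_le_pow₀ h4)
  have heq : 𝒱.valuation (x j₀ * τ ^ j₀) = 𝒱.valuation (x k * τ ^ k) := by
    congr 1
    have h2 := hxt j₀ hj₀'.1 hj₀'.2
    rw [← hτdef] at h2
    rw [h2, mul_assoc, ← pow_add]
    congr 2
    omega
  have hνv : 𝒱.valuation (x k * τ ^ k) ≠ 0 :=
    (𝒱.valuation.ne_zero_iff).2 (mul_ne_zero hxk (pow_ne_zero _ hτ0))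
  let R : ℕ → Prop := fun m => 𝒱.valuation (x m * τ ^ m) = 𝒱.valuation (x k * τ ^ k)
  have hRD : ∀ m, R m → m ≤ D := by
    intro m hm
    by_contra h
    have h2 : R m := hm
    simp only [R] at h2
    rw [hD m (by omega), zero_mul, map_zero] at h2
    exact hνv h2.symm
  set o := Nat.findGreatest R D with hodef
  have ho : R o := Nat.findGreatest_spec (hRD j₀ heq) heq
  have homax : ∀ m, o < m → ¬ R m := by
    intro m hm hRm
    exact Nat.findGreatest_is_greatest hm (hRD m hRm) hRm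
  have hjo : j₀ ≤ o := by
    by_contra h
    exact homax j₀ (by omega) heq
  refine ⟨τ, k, o, hτ0, hτ1, hk, ?_, hdom, ho, fun m hm => lt_of_le_of_ne (hdom m) (homax m hm)⟩
  intro hb
  refine hkmax o (by omega) ⟨hb, τ, hτ0, hτ1.le, fun j => ?_⟩
  rw [show 𝒱.valuation (x o * τ ^ o) = 𝒱.valuation (x k * τ ^ k) from ho]
  exact hdom j

end crossDownAux

open crossDownAux in
theorem crossDown : CrossDownStmt := by
  classical
  intro Ω _ _ 𝒱 N D₁ p u hp0 ⟨l₀, hl₀⟩ hpD huD
  -- the dominating coefficients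
  have hx : ∀ m, ∃ x : Ω, (x = p.coeff m ∨ ∃ l, x = (u l).coeff m) ∧
      𝒱.valuation (p.coeff m) ≤ 𝒱.valuation x ∧
      ∀ l, 𝒱.valuation ((u l).coeff m) ≤ 𝒱.valuation x := by
    intro m
    let F : Option (Fin N) → Ω := fun a => a.elim (p.coeff m) (fun l => (u l).coeff m)
    obtain ⟨a, -, ha⟩ := Finset.exists_max_image (Finset.univ : Finset (Option (Fin N)))
      (fun a => 𝒱.valuation (F a)) ⟨none, Finset.mem_univ _⟩
    refine ⟨F a, ?_, ha none (Finset.mem_univ _), fun l => ha (some l) (Finset.mem_univ _)⟩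
    rcases a with _ | l
    · exact Or.inl rfl
    · exact Or.inr ⟨l, rfl⟩
  choose x hx1 hx2 hx3 using hx
  have hx0 : x 0 ≠ 0 := by
    intro h
    have := hx3 0 l₀
    rw [h, map_zero] at this
    exact hl₀ ((𝒱.valuation.zero_iff).1 (le_antisymm this zero_le))
  have hxp : ∀ j, 𝒱.valuation (x j) ≤ 𝒱.valuation (p.coeff D₁) := by
    intro j
    rcases hx1 j with h | ⟨l, h⟩
    · rw [h]; exact hpD j
    · rw [h]; exact (huD l j).le
  let D := p.natDegree + ∑ l, (u l).natDegree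
  have hD : ∀ m, D < m → x m = 0 := by
    intro m hm
    rcases hx1 m with h | ⟨l, h⟩
    · rw [h]
      exact Polynomial.coeff_eq_zero_of_natDegree_lt (by omega)
    · rw [h]
      apply Polynomial.coeff_eq_zero_of_natDegree_lt
      have : (u l).natDegree ≤ ∑ l, (u l).natDegree :=
        Finset.single_le_sum (f := fun l => (u l).natDegree) (fun _ _ => Nat.zero_le _)
          (Finset.mem_univ l)
      omega
  obtain ⟨τ, k, o, hτ0, hτ1, hk, ho, hdom, hoeq, holt⟩ := abs_down 𝒱 x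
    (fun m => x m ≠ 0 ∧ ∃ l, 𝒱.valuation ((u l).coeff m) = 𝒱.valuation (x m))
    (fun m h => h.1)
    ⟨hx0, by
      rcases hx1 0 with h | ⟨l, h⟩
      · rw [hp0] at h
        exact absurd h hx0
      · exact ⟨l, by rw [h]⟩⟩
    D hD
    (by
      rintro m ⟨-, l, hl⟩ h
      have h2 := h D₁
      rw [← hl] at h2
      exact absurd (huD l m) (not_lt.2 ((hx2 D₁).trans h2)))
  obtain ⟨hxk, lk, hlk⟩ := hk
  have hτv : 𝒱.valuation τ ≠ 0 := (𝒱.valuation.ne_zero_iff).2 hτ0
  have hν0 : x k * τ ^ k ≠ 0 := mul_ne_zero hxk (pow_ne_zero _ hτ0)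
  have hxo : x o ≠ 0 := by
    intro h
    rw [h, zero_mul, map_zero] at hoeq
    exact hν0 ((𝒱.valuation.zero_iff).1 hoeq.symm)
  have hne : ∀ l, 𝒱.valuation ((u l).coeff o) ≠ 𝒱.valuation (x o) :=
    fun l h => ho ⟨hxo, l, h⟩
  have hpm : ∀ m, 𝒱.valuation (p.coeff m * τ ^ m) ≤ 𝒱.valuation (x m * τ ^ m) := by
    intro m
    rw [map_mul, map_mul]
    exact mul_le_mul' (hx2 m) le_rfl
  have hum : ∀ l m, 𝒱.valuation ((u l).coeff m * τ ^ m) ≤ 𝒱.valuation (x m * τ ^ m) := by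
    intro l m
    rw [map_mul, map_mul]
    exact mul_le_mul' (hx3 m l) le_rfl
  have hpo : p.coeff o = x o := by
    rcases hx1 o with h | ⟨l, h⟩
    · exact h.symm
    · exact absurd (by rw [h]) (hne l)
  have hpD0 : 𝒱.valuation (p.coeff D₁) ≠ 0 := by
    intro h
    have := huD l₀ 0
    rw [h] at this
    exact absurd this (not_lt.2 zero_le)
  have hoD : o ≤ D₁ := by
    by_contra hcon
    rw [not_le] at hcon
    have h2 : 𝒱.valuation (x o * τ ^ o) < 𝒱.valuation (p.coeff D₁ * τ ^ D₁) := by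
      rw [map_mul, map_mul, map_pow, map_pow]
      calc 𝒱.valuation (x o) * 𝒱.valuation τ ^ o
          ≤ 𝒱.valuation (p.coeff D₁) * 𝒱.valuation τ ^ o := mul_le_mul' (hxp o) le_rfl
        _ < 𝒱.valuation (p.coeff D₁) * 𝒱.valuation τ ^ D₁ :=
          mul_lt_mul_of_pos_left
            (pow_lt_pow_right_of_lt_one₀ (zero_lt_iff.2 hτv) hτ1 hcon) (zero_lt_iff.2 hpD0)
    rw [hoeq] at h2
    exact absurd h2 (not_lt.2 ((hpm D₁).trans (hdom D₁)))
  refine ⟨τ, x k * τ ^ k, o, hτ0, hν0, hτ1, hoD, fun m => (hpm m).trans (hdom m),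
    fun l m => (hum l m).trans (hdom m), ⟨lk, k, ?_⟩, by rw [hpo]; exact hoeq,
    fun m hm => (hpm m).trans_lt (holt m hm), ?_⟩
  · rw [map_mul, map_mul, hlk]
  · intro l m hm
    rcases Nat.lt_or_ge o m with h | h
    · exact (hum l m).trans_lt (holt m h)
    · have : m = o := le_antisymm h hm
      subst this
      rw [← hoeq, map_mul, map_mul]
      exact mul_lt_mul_of_pos_right (lt_of_le_of_ne (hx3 m l) (hne l))
        (zero_lt_iff.2 ((𝒱.valuation.ne_zero_iff).2 (pow_ne_zero _ hτ0)))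

end Pool.Agent.Lib.MP_410da7_agB
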