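import Pool.Agent.Lib.MP_410da7_agB.SpecG

/-!
# MP_410da7_ag, nef boundary, block G: CrossUp
-/

set_option autoImplicit false

namespace Pool.Agent.Lib.MP_410da7_agB

open Pool.Agent.Lib.MP_410da7_agA
open MvPolynomial Module

namespace crossUpAux

variable {Ω : Type} [Field Ω]

theorem val_cross (𝒱 : ValuationSubring Ω) {x y t s : Ω} {j k : ℕ} (hjk : j < k)
    (hy : y ≠ 0) (hs : s ≠ 0) (hx : x = y * t ^ (k - j)) :
    𝒱.valuation (x * s ^ j) ≤ 𝒱.valuation (y * s ^ k) ↔ 𝒱.valuation t ≤ 𝒱.valuation s := by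
  have hks : k = (k - j) + j := by omega
  have h1 : y * s ^ k = y * s ^ (k - j) * s ^ j := by
    rw [mul_assoc, ← pow_add, ← hks]
  rw [h1, hx]
  simp only [map_mul, map_pow]
  rw [mul_le_mul_iff_left₀ (zero_lt_iff.2 (pow_ne_zero _ ((𝒱.valuation.ne_zero_iff).2 hs))),
    mul_le_mul_iff_right₀ (zero_lt_iff.2 ((𝒱.valuation.ne_zero_iff).2 hy)),
    pow_le_pow_iff_left₀ zero_le zero_le (by omega)]

/-- The abstract crossing lemma. -/
theorem abs_up [IsAlgClosed Ω] (𝒱 : ValuationSubring Ω) (x : ℕ → Ω) (bad : ℕ → Prop)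
    (hbad : ∀ m, bad m → x m ≠ 0) (h0 : ¬ bad 0) (hx0 : x 0 ≠ 0)
    (h1 : ∃ m, bad m ∧ ∀ j, 𝒱.valuation (x j) ≤ 𝒱.valuation (x m)) :
    ∃ (τ : Ω) (k o : ℕ), τ ≠ 0 ∧ 𝒱.valuation τ ≤ 1 ∧ bad k ∧ ¬ bad o ∧
      (∀ m, 𝒱.valuation (x m * τ ^ m) ≤ 𝒱.valuation (x k * τ ^ k)) ∧
      𝒱.valuation (x o * τ ^ o) = 𝒱.valuation (x k * τ ^ k) ∧
      ∀ m < o, 𝒱.valuation (x m * τ ^ m) < 𝒱.valuation (x k * τ ^ k) := by
  classical
  let P : ℕ → Prop := fun k => bad k ∧ ∃ ρ : Ω, ρ ≠ 0 ∧ 𝒱.valuation ρ ≤ 1 ∧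
    ∀ j, 𝒱.valuation (x j * ρ ^ j) ≤ 𝒱.valuation (x k * ρ ^ k)
  have hP : ∃ k, P k := by
    obtain ⟨m, hm, hm'⟩ := h1
    exact ⟨m, hm, 1, one_ne_zero, by simp, by simpa using hm'⟩
  set k := Nat.find hP with hkdef
  obtain ⟨hk, ρ, hρ0, hρ1, hρ⟩ := Nat.find_spec hP
  rw [← hkdef] at hk hρ
  have hxk : x k ≠ 0 := hbad k hk
  have hk0 : 0 < k := by
    rcases Nat.eq_zero_or_pos k with h | h
    · rw [h] at hk; exact absurd hk h0
    · exact h
  -- roots
  have hroot : ∀ j, ∃ t : Ω, j < k → t ^ (k - j) = x j / x k := by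
    intro j
    by_cases hj : j < k
    · obtain ⟨t, ht⟩ := IsAlgClosed.exists_pow_nat_eq (x j / x k) (n := k - j) (by omega)
      exact ⟨t, fun _ => ht⟩
    · exact ⟨0, fun h => absurd h hj⟩
  choose t ht using hroot
  have hxt : ∀ j, j < k → x j = x k * t j ^ (k - j) := by
    intro j hj
    rw [ht j hj, mul_div_cancel₀ _ hxk]
  let S : Finset ℕ := (Finset.range k).filter (fun j => x j ≠ 0)
  have hS : S.Nonempty := ⟨0, by simp [S, hk0, hx0]⟩
  obtain ⟨j₀, hj₀, hmax⟩ := Finset.exists_max_image S (fun j => 𝒱.valuation (t j)) hS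
  have hj₀k : j₀ < k := by
    have := (Finset.mem_filter.1 hj₀).1
    exact Finset.mem_range.1 this
  have hxj₀ : x j₀ ≠ 0 := (Finset.mem_filter.1 hj₀).2
  set τ := t j₀ with hτdef
  have hτ0 : τ ≠ 0 := by
    intro h
    have h2 := hxt j₀ hj₀k
    rw [← hτdef, h, zero_pow (by omega), mul_zero] at h2
    exact hxj₀ h2
  have hτρ : 𝒱.valuation τ ≤ 𝒱.valuation ρ :=
    (val_cross 𝒱 hj₀k hxk hρ0 (hxt j₀ hj₀k)).1 (hρ j₀)
  have hτ1 : 𝒱.valuation τ ≤ 1 := hτρ.trans hρ1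
  have hρv : 𝒱.valuation ρ ≠ 0 := (𝒱.valuation.ne_zero_iff).2 hρ0
  have hτv : 𝒱.valuation τ ≠ 0 := (𝒱.valuation.ne_zero_iff).2 hτ0
  have hdom : ∀ m, 𝒱.valuation (x m * τ ^ m) ≤ 𝒱.valuation (x k * τ ^ k) := by
    intro m
    rcases lt_trichotomy m k with h | h | h
    · by_cases hx : x m = 0
      · rw [hx, zero_mul, map_zero]; exact zero_le
      · exact (val_cross 𝒱 h hxk hτ0 (hxt m h)).2
          (hmax m (Finset.mem_filter.2 ⟨Finset.mem_range.2 h, hx⟩))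
    · rw [h]
    · have h2 := hρ m
      have hmk : m = (m - k) + k := by omega
      have e1 : ∀ s : Ω, x m * s ^ m = x m * s ^ (m - k) * s ^ k := by
        intro s
        rw [mul_assoc, ← pow_add, ← hmk]
      rw [e1 ρ] at h2
      rw [e1 τ]
      simp only [map_mul, map_pow] at h2 ⊢
      rw [mul_le_mul_iff_left₀ (zero_lt_iff.2 (pow_ne_zero _ hρv))] at h2
      rw [mul_le_mul_iff_left₀ (zero_lt_iff.2 (pow_ne_zero _ hτv))]
      exact (mul_le_mul' le_rfl (pow_le_pow_left' hτρ _)).trans h2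
  have heq : 𝒱.valuation (x j₀ * τ ^ j₀) = 𝒱.valuation (x k * τ ^ k) := by
    congr 1
    have h2 := hxt j₀ hj₀k
    rw [← hτdef] at h2
    rw [h2, mul_assoc, ← pow_add]
    congr 2
    omega
  have hO : ∃ m, 𝒱.valuation (x m * τ ^ m) = 𝒱.valuation (x k * τ ^ k) := ⟨j₀, heq⟩
  set o := Nat.find hO with hodef
  have ho := Nat.find_spec hO
  rw [← hodef] at ho
  have hoj : o ≤ j₀ := Nat.find_min' hO heq
  refine ⟨τ, k, o, hτ0, hτ1, hk, ?_, hdom, ho, ?_⟩
  · intro hb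
    have : P o := ⟨hb, τ, hτ0, hτ1, fun j => by rw [ho]; exact hdom j⟩
    have h3 : k ≤ o := Nat.find_min' hP this
    omega
  · intro m hm
    exact lt_of_le_of_ne (hdom m) (Nat.find_min hO hm)

end crossUpAux

open crossUpAux in
theorem crossUp : CrossUpStmt := by
  classical
  intro Ω _ _ 𝒱 N p u hp0 hu0 ⟨l₀, m₀, hlm⟩
  -- the dominating coefficients
  have hx : ∀ m, ∃ x : Ω, (x = p.coeff m ∨ ∃ l, x = (u l).coeff m) ∧
      𝒱.valuation (p.coeff m) ≤ 𝒱.valuation x ∧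
      ∀ l, 𝒱.valuation ((u l).coeff m) ≤ 𝒱.valuation x := by
    intro m
    let F : Option (Fin N) → Ω := fun a => a.elim (p.coeff m) (fun l => (u l).coeff m)
    obtain ⟨a, -, ha⟩ := Finset.exists_max_image (Finset.univ : Finset (Option (Fin N)))
      (fun a => 𝒱.valuation (F a)) ⟨none, Finset.mem_univ _⟩
    refine ⟨F a, ?_, ha none (Finset.mem_univ _), fun l => ha (some l) (Finset.mem_univ _)⟩
    rcases a with _ | l
    · exact Or.inl rfl
    · exact Or.inr ⟨l, rfl⟩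
  choose x hx1 hx2 hx3 using hx
  have hx0 : x 0 ≠ 0 := by
    intro h
    have := hx2 0
    rw [h, map_zero] at this
    exact hp0 ((𝒱.valuation.zero_iff).1 (le_antisymm this zero_le))
  -- the largest coefficient of the u
  obtain ⟨l₁, m₁, hmax⟩ : ∃ l₁ m₁, ∀ l m, 𝒱.valuation ((u l).coeff m) ≤
      𝒱.valuation ((u l₁).coeff m₁) := by
    let D := ∑ l, (u l).natDegree
    have hne : ((Finset.univ : Finset (Fin N)) ×ˢ Finset.range (D + 1)).Nonempty :=
      ⟨(l₀, 0), by simp⟩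
    obtain ⟨a, -, ha⟩ := Finset.exists_max_image
      ((Finset.univ : Finset (Fin N)) ×ˢ Finset.range (D + 1))
      (fun a => 𝒱.valuation ((u a.1).coeff a.2)) hne
    refine ⟨a.1, a.2, fun l m => ?_⟩
    by_cases hm : m < D + 1
    · exact ha (l, m) (by simp [hm])
    · have : (u l).coeff m = 0 := by
        apply Polynomial.coeff_eq_zero_of_natDegree_lt
        have : (u l).natDegree ≤ D :=
          Finset.single_le_sum (f := fun l => (u l).natDegree) (fun _ _ => Nat.zero_le _)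
            (Finset.mem_univ l)
        omega
      rw [this, map_zero]; exact zero_le
  have hxle : ∀ j, 𝒱.valuation (x j) ≤ 𝒱.valuation ((u l₁).coeff m₁) := by
    intro j
    rcases hx1 j with h | ⟨l, h⟩
    · rw [h]; exact (hlm j).trans (hmax l₀ m₀)
    · rw [h]; exact hmax l j
  obtain ⟨τ, k, o, hτ0, hτ1, hk, ho, hdom, hoeq, holt⟩ := abs_up 𝒱 x
    (fun m => x m ≠ 0 ∧ ∃ l, 𝒱.valuation ((u l).coeff m) = 𝒱.valuation (x m))
    (fun m h => h.1)
    (by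
      rintro ⟨-, l, hl⟩
      rw [hu0 l, map_zero] at hl
      exact hx0 ((𝒱.valuation.zero_iff).1 hl.symm))
    hx0
    ⟨m₁, ⟨by
        intro h
        have h2 := hxle 0
        have h3 := hx3 m₁ l₁
        rw [h, map_zero] at h3
        exact hx0 ((𝒱.valuation.zero_iff).1 (le_antisymm (h2.trans h3) zero_le)),
      l₁, le_antisymm (hx3 m₁ l₁) (hxle m₁)⟩, fun j => (hxle j).trans (hx3 m₁ l₁)⟩
  obtain ⟨hxk, lk, hlk⟩ := hk
  have hτv : 𝒱.valuation τ ≠ 0 := (𝒱.valuation.ne_zero_iff).2 hτ0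
  have hν0 : x k * τ ^ k ≠ 0 := mul_ne_zero hxk (pow_ne_zero _ hτ0)
  have hxo : x o ≠ 0 := by
    intro h
    rw [h, zero_mul, map_zero] at hoeq
    exact hν0 ((𝒱.valuation.zero_iff).1 hoeq.symm)
  have hne : ∀ l, 𝒱.valuation ((u l).coeff o) ≠ 𝒱.valuation (x o) :=
    fun l h => ho ⟨hxo, l, h⟩
  have hpm : ∀ m, 𝒱.valuation (p.coeff m * τ ^ m) ≤ 𝒱.valuation (x m * τ ^ m) := by
    intro m
    rw [map_mul, map_mul]
    exact mul_le_mul' (hx2 m) le_rfl
  have hum : ∀ l m, 𝒱.valuation ((u l).coeff m * τ ^ m) ≤ 𝒱.valuation (x m * τ ^ m) := by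
    intro l m
    rw [map_mul, map_mul]
    exact mul_le_mul' (hx3 m l) le_rfl
  have hpo : p.coeff o = x o := by
    rcases hx1 o with h | ⟨l, h⟩
    · exact h.symm
    · exact absurd (by rw [h]) (hne l)
  refine ⟨τ, x k * τ ^ k, o, hτ0, hν0, hτ1, fun m => (hpm m).trans (hdom m),
    fun l m => (hum l m).trans (hdom m), ⟨lk, k, ?_⟩, by rw [hpo]; exact hoeq,
    fun m hm => (hpm m).trans_lt (holt m hm), ?_⟩
  · rw [map_mul, map_mul, hlk]
  · intro l m hm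
    rcases Nat.lt_or_ge m o with h | h
    · exact (hum l m).trans_lt (holt m h)
    · have : m = o := le_antisymm hm h
      subst this
      rw [← hoeq, map_mul, map_mul]
      exact mul_lt_mul_of_pos_right (lt_of_le_of_ne (hx3 m l) (hne l))
        (zero_lt_iff.2 ((𝒱.valuation.ne_zero_iff).2 (pow_ne_zero _ hτ0)))

end Pool.Agent.Lib.MP_410da7_agB
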