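import Pool.Agent.Lib.MP_410da7_agB.SpecD
import Pool.Agent.Lib.MP_410da7_agA.L.DL13
import Pool.Agent.Lib.MP_410da7_agA.D5

/-!
# MP_410da7_ag, nef boundary (T1): DN13, a unit minor and the frame `ds`
-/

set_option autoImplicit false

namespace Pool.Agent.Lib.MP_410da7_agB

open Pool.Agent.Lib.MP_410da7_agA
open MvPolynomial KaehlerDifferential WithZero Module

namespace dN13Aux

variable {K : Type} [Field K] [Algebra ℂ K] {n M : ℕ} {Y : Fin (M + 1) → K} {b : Fin (M + 1)}
  {v : Valuation K ℤᵐ⁰} {z : Fin n → K}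

theorem aff_le (h : RegAt Y b v z) (l : Fin (M + 1)) : v (aff Y b l) ≤ 1 := by
  unfold aff
  rw [map_div₀]
  have h1 : 0 < v (Y b) := zero_lt_iff.2 (by rw [ne_eq, map_eq_zero]; exact h.ne)
  rw [div_le_one₀ h1]
  exact h.max l

theorem loc_le (hv : Triv v) (h : RegAt Y b v z) {f : K} (hf : f ∈ locRing Y b v) :
    v f ≤ 1 := by
  obtain ⟨P, Q, hQ, hfQ⟩ := hf
  have h1 : v f = v (aeval (aff Y b) P) := by
    rw [← hfQ, map_mul, hQ, mul_one]
  rw [h1]
  exact Pool.Agent.Lib.MP_410da7_agA.dL6Aux.pol_le hv _ (aff_le h) P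

/-- The differentials of elements of the local ring are integral combinations of the `dz_i`. -/
theorem diff_eq (h : RegAt Y b v z) {f : K} (hf : f ∈ locRing Y b v) :
    ∃ c : Fin n → K, (∀ j, c j ∈ locRing Y b v) ∧ D ℂ K f = ∑ j, c j • D ℂ K (z j) := by
  have hset : {ω : Ω[locRing Y b v⁄ℂ] | ∃ i, ∃ h : z i ∈ locRing Y b v,
      ω = D ℂ (locRing Y b v) ⟨z i, h⟩} =
      Set.range fun i => D ℂ (locRing Y b v) ⟨z i, h.mem i⟩ := by
    ext ω
    constructor
    · rintro ⟨i, _, rfl⟩
      exact ⟨i, rfl⟩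
    · rintro ⟨i, rfl⟩
      exact ⟨i, h.mem i, rfl⟩
  have h1 := h.coord
  rw [hset] at h1
  have h2 : D ℂ (locRing Y b v) ⟨f, hf⟩ ∈
      Submodule.span (locRing Y b v) (Set.range fun i => D ℂ (locRing Y b v) ⟨z i, h.mem i⟩) := by
    rw [h1]
    trivial
  obtain ⟨c, hc⟩ := (Submodule.mem_span_range_iff_exists_fun _).1 h2
  refine ⟨fun j => c j, fun j => (c j).2, ?_⟩
  have h3 := congrArg (KaehlerDifferential.map ℂ ℂ (locRing Y b v) K) hc
  rw [map_sum, KaehlerDifferential.map_D] at h3
  change _ = D ℂ K f at h3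
  rw [← h3]
  refine Finset.sum_congr rfl fun j _ => ?_
  rw [map_smul, KaehlerDifferential.map_D]
  rfl

theorem psiD_le (hv : Triv v) (Ψ : Ω[K⁄ℂ] [⋀^Fin n]→ₗ[K] K) (h : RegAt Y b v z)
    {z' : Fin n → K} (hz' : ∀ i, z' i ∈ locRing Y b v) :
    v (Ψ fun i => D ℂ K (z' i)) ≤ v (Ψ fun i => D ℂ K (z i)) := by
  choose c hc1 hc2 using fun i => diff_eq h (hz' i)
  exact Pool.Agent.Lib.MP_410da7_agA.dL6Aux.psi_le Ψ v (fun i => D ℂ K (z i))
    (fun i => D ℂ K (z' i)) c (fun i j => loc_le hv h (hc1 i j)) hc2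

end dN13Aux

open Pool.Agent.Lib.MP_410da7_agA.d14Aux Pool.Agent.Lib.MP_410da7_agA.d13Aux dN13Aux
  Pool.Agent.Lib.MP_410da7_agA.dL13Aux in
theorem dN13 : DN13Stmt := by
  intro K _ _ n M r κ d Ψ y b F hM hE v z hv hLS
  classical
  have hle : ∀ l, v (aff y b l) ≤ 1 := aff_le hLS
  let s : Fin (M + 1) → v.integer := fun l => ⟨aff y b l, hle l⟩
  have hs : ∀ l, (s l : K) = aff y b l := fun l => rfl
  have hfun : (fun l => (s l : K)) = aff y b := rfl
  -- the residue field
  let κ' := IsLocalRing.ResidueField v.valuationSubring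
  let inc0 : v.integer →+* v.valuationSubring :=
    { toFun := fun f => ⟨f, (Valuation.mem_valuationSubring_iff v _).2 f.2⟩
      map_one' := rfl
      map_mul' := fun _ _ => rfl
      map_zero' := rfl
      map_add' := fun _ _ => rfl }
  let res : v.integer →+* κ' := (IsLocalRing.residue v.valuationSubring).comp inc0
  have hres0 : ∀ f : v.integer, res f = 0 ↔ v (f : K) < 1 := by
    intro f
    constructor
    · intro h
      exact Pool.Agent.Lib.MP_410da7_ag.val_lt_one_of_residue_eq_zero v (inc0 f) h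
    · intro h
      exact Pool.Agent.Lib.MP_410da7_ag.residue_eq_zero_of_val_lt_one v (inc0 f) h
  have hres1 : ∀ f : v.integer, v (f : K) = 1 → res f ≠ 0 := by
    intro f hf h
    rw [hres0, hf] at h
    exact lt_irrefl _ h
  -- the local ring
  let inc : locRing y b v →+* v.integer :=
    { toFun := fun f => ⟨f, loc_le hv hLS f.2⟩
      map_one' := rfl
      map_mul' := fun _ _ => rfl
      map_zero' := rfl
      map_add' := fun _ _ => rfl }
  have hloc : ∀ f : locRing y b v, ∃ P Q : MvPolynomial (Fin (M + 1)) ℂ, res (ev hv s Q) ≠ 0 ∧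
      inc f * ev hv s Q = ev hv s P := by
    intro f
    obtain ⟨P, Q, h1, h2⟩ := f.2
    refine ⟨P, Q, hres1 _ ?_, ?_⟩
    · rw [coe_ev]; exact h1
    · apply Subtype.ext
      change (f : K) * ((ev hv s Q : v.integer) : K) = ((ev hv s P : v.integer) : K)
      rw [coe_ev, coe_ev]
      exact h2
  let u : Fin n → locRing y b v := fun i => ⟨z i, hLS.mem i⟩
  have hspan : Submodule.span (locRing y b v) (Set.range fun i => D ℂ (locRing y b v) (u i)) =
      ⊤ := by
    rw [← hLS.coord]
    congr 1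
    ext ω
    constructor
    · rintro ⟨i, rfl⟩
      exact ⟨i, hLS.mem i, rfl⟩
    · rintro ⟨i, _, rfl⟩
      exact ⟨i, rfl⟩
  have hker : finrank κ' (Ker (Jm hv s res F) b) ≤ n := by
    choose Pu Qu hQu hPQu using fun i => hloc (u i)
    have hDsmul : ∀ (c : κ') (ξ : Fin (M + 1) → κ') (P : MvPolynomial (Fin (M + 1)) ℂ),
        Dx hv s res (c • ξ) P = c * Dx hv s res ξ P := by
      intro c ξ P
      unfold Dx
      rw [Finset.mul_sum]
      refine Finset.sum_congr rfl fun l _ => ?_
      rw [Pi.smul_apply, smul_eq_mul]; ring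
    have hDadd : ∀ (ξ ξ' : Fin (M + 1) → κ') (P : MvPolynomial (Fin (M + 1)) ℂ),
        Dx hv s res (ξ + ξ') P = Dx hv s res ξ P + Dx hv s res ξ' P := by
      intro ξ ξ' P
      unfold Dx
      rw [← Finset.sum_add_distrib]
      refine Finset.sum_congr rfl fun l _ => ?_
      rw [Pi.add_apply]; ring
    let Φ : (Fin (M + 1) → κ') →ₗ[κ'] (Fin n → κ') :=
      { toFun := fun ξ i => Dx hv s res ξ (Pu i) - res (inc (u i)) * Dx hv s res ξ (Qu i)
        map_add' := by
          intro x y
          funext i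
          simp only [Pi.add_apply]
          rw [hDadd, hDadd]; ring
        map_smul' := by
          intro c x
          funext i
          simp only [Pi.smul_apply, RingHom.id_apply, smul_eq_mul]
          rw [hDsmul, hDsmul]; ring }
    have hinj : Function.Injective (Φ.comp (Ker (Jm hv s res F) b).subtype) := by
      rw [← LinearMap.ker_eq_bot, LinearMap.ker_eq_bot']
      rintro ⟨ξ, hξ⟩ h0
      have h0' : ∀ i, Dx hv s res ξ (Pu i) - res (inc (u i)) * Dx hv s res ξ (Qu i) = 0 :=
        fun i => congrFun h0 i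
      obtain ⟨hξb, hξF⟩ := (mem_Ker_Jm hv s res F b ξ).mp hξ
      obtain ⟨δ, hδ, hadd, hmul⟩ := Pool.Agent.Lib.MP_410da7_agA.dL13Aux.exists_der hv s res inc hloc ξ
        (Dx_ker d5 y b F hE hLS.ne hv s hs res ξ hξb hξF)
      have hδu : ∀ i, δ (u i) = 0 := by
        intro i
        have h1 := hδ (u i) (Pu i) (Qu i) (hQu i) (hPQu i)
        rw [h0' i] at h1
        exact (mul_eq_zero.1 h1).resolve_right (hQu i)
      have hδ0 := der_zero (res.comp inc) u hspan δ hadd hmul (by
        intro c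
        have h1 := hδ (algebraMap ℂ (locRing y b v) c) (C c) 1 (by
          rw [map_one, map_one]; exact one_ne_zero) (by
          rw [map_one, mul_one, ev_C]; rfl)
        rw [Dx_C, Dx_one, map_one, map_one, mul_one, mul_zero, sub_zero] at h1
        exact h1) hδu
      apply Subtype.ext
      funext l
      have hsl : aff y b l ∈ locRing y b v := ⟨X l, 1, by rw [map_one, map_one], by
        rw [map_one, mul_one, aeval_X]⟩
      have h1 := hδ ⟨aff y b l, hsl⟩ (X l) 1 (by
        rw [map_one, map_one]; exact one_ne_zero) (by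
        rw [map_one, mul_one, ev_X]
        rfl)
      rw [Dx_X, Dx_one, hδ0, zero_mul, mul_zero, sub_zero] at h1
      exact h1.symm
    have h1 := LinearMap.finrank_le_finrank_of_injective hinj
    rwa [Module.finrank_fin_fun] at h1
  obtain ⟨J, e, heb, hminor⟩ := minor_unit hv hM s res (fun f hf => (hres0 f).mpr hf) F b hker
  rw [hfun] at hminor
  refine ⟨J, e, heb, hminor, ?_⟩
  -- the matrices
  let A : Matrix (Fin r) (Fin r) v.integer := Matrix.of fun i k =>
    ev hv s (pderiv (e (Sum.inr k)) (F (J i)))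
  let B : Matrix (Fin r) (Fin n) v.integer := Matrix.of fun i a =>
    ev hv s (pderiv (e (Sum.inl a.succ)) (F (J i)))
  have hdet : ((A.det : v.integer) : K) = minor F (e ∘ Sum.inr) (aff y b) J := by
    have h1 : ((A.det : v.integer) : K) = v.integer.subtype A.det := rfl
    rw [h1, RingHom.map_det]
    unfold minor
    congr 1
    ext i k
    rw [RingHom.mapMatrix_apply, Matrix.map_apply]
    change ((ev hv s (pderiv (e (Sum.inr k)) (F (J i))) : v.integer) : K) = _
    rw [coe_ev]
    rfl
  have hAu : IsUnit A.det := by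
    have h1 : v ((A.det : v.integer) : K) = 1 := by rw [hdet]; exact hminor
    have h2 : ((A.det : v.integer) : K) ≠ 0 := by
      intro h
      rw [h, map_zero] at h1
      exact zero_ne_one h1
    refine IsUnit.of_mul_eq_one (⟨((A.det : v.integer) : K)⁻¹, ?_⟩ : v.integer) ?_
    · change v _ ≤ 1
      rw [map_inv₀, h1, inv_one]
    · apply Subtype.ext
      exact mul_inv_cancel₀ h2
  let T : Matrix (Fin r) (Fin n) v.integer := A⁻¹ * B
  have h0 : D ℂ K ((s (e (Sum.inl 0)) : v.integer) : K) = 0 := by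
    have h1 : ((s (e (Sum.inl 0)) : v.integer) : K) = 1 := by
      rw [heb]
      exact div_self hLS.ne
    rw [h1]
    exact Derivation.map_one_eq_zero _
  have hT : ∀ k, D ℂ K ((s (e (Sum.inr k)) : v.integer) : K) =
      - ∑ a : Fin n, ((T k a : v.integer) : K) •
        D ℂ K ((s (e (Sum.inl a.succ)) : v.integer) : K) := by
    intro k
    refine solve A B hAu (fun a : Fin n => D ℂ K ((s (e (Sum.inl a.succ)) : v.integer) : K))
      (fun k => D ℂ K ((s (e (Sum.inr k)) : v.integer) : K)) ?_ k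
    intro i
    have h1 : D ℂ K (aeval (fun l => (s l : K)) (F (J i))) = 0 := by
      rw [hfun, aff_zero d5 y b F hE hLS.ne (J i), map_zero]
    rw [Pool.Agent.Lib.MP_410da7_ag.D_aeval, Pool.Agent.Lib.MP_410da7_ag.dmap_apply,
      sum_split e, h0, smul_zero, zero_add] at h1
    simp only [Pool.Agent.Lib.MP_410da7_ag.grad, ← coe_ev hv] at h1
    exact h1
  refine le_antisymm ?_ ?_
  · refine psiD_le hv Ψ hLS fun a => ?_
    exact ⟨X (e (Sum.inl a.succ)), 1, by rw [map_one, map_one], by
      rw [map_one, mul_one, aeval_X]⟩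
  · -- the differentials of the `z i`
    choose P Q hQ hPQ using fun i => hLS.mem i
    have hQ0 : ∀ i, aeval (aff y b) (Q i) ≠ 0 := by
      intro i h
      have h1 := hQ i
      rw [h, map_zero] at h1
      exact zero_ne_one h1
    have hz1 : ∀ i, v (z i) ≤ 1 := fun i => loc_le hv hLS (hLS.mem i)
    refine Pool.Agent.Lib.MP_410da7_agA.dL6Aux.psi_le Ψ v _ _ (fun i a => (aeval (aff y b) (Q i))⁻¹ *
      (((wf hv s e T (P i) a : v.integer) : K) - z i * ((wf hv s e T (Q i) a : v.integer) : K)))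
      (fun i a => ?_) fun i => ?_
    · rw [map_mul, map_inv₀, hQ, inv_one, one_mul]
      refine (v.map_sub _ _).trans (max_le (wf hv s e T (P i) a).2 ?_)
      rw [map_mul]
      exact mul_le_one' (hz1 i) (wf hv s e T (Q i) a).2
    · have e1 := D_wf hv s e T h0 hT (P i)
      have e2 := D_wf hv s e T h0 hT (Q i)
      rw [hfun] at e1 e2
      rw [← hPQ i, Derivation.leibniz, e2] at e1
      have e3 : aeval (aff y b) (Q i) • D ℂ K (z i) =
          ∑ a : Fin n, (((wf hv s e T (P i) a : v.integer) : K) -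
            z i * ((wf hv s e T (Q i) a : v.integer) : K)) •
              D ℂ K ((s (e (Sum.inl a.succ)) : v.integer) : K) := by
        simp only [sub_smul, Finset.sum_sub_distrib, mul_smul]
        rw [← e1, ← Finset.smul_sum]
        abel
      calc D ℂ K (z i) = (aeval (aff y b) (Q i))⁻¹ • (aeval (aff y b) (Q i) • D ℂ K (z i)) := by
            rw [smul_smul, inv_mul_cancel₀ (hQ0 i), one_smul]
        _ = _ := by
            rw [e3, Finset.smul_sum]
            refine Finset.sum_congr rfl fun a _ => ?_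
            rw [smul_smul]

end Pool.Agent.Lib.MP_410da7_agB
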