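import Pool.Agent.Lib.MP_410da7_agB.SpecD
import Pool.Agent.Lib.MP_410da7_agA.D5

/-!
# MP_410da7_ag, nef boundary (C46, T1): DN15, the relations `x_t χ x_b^E = ∏ a_i^{λ_i} q_t`
-/

set_option autoImplicit false

namespace Pool.Agent.Lib.MP_410da7_agB

open Pool.Agent.Lib.MP_410da7_agA
open MvPolynomial WithZero

theorem dN15 : DN15Stmt := by
  classical
  have h5 : D5Stmt := d5
  intro K _ _ n M κ d y tt b F hy0 htt hE v z lam hv hL
  have hyb0 := hL.reg.ne
  have hZ0 : ∏ i, z i ^ lam i ≠ 0 := by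
    obtain ⟨q, _, hq⟩ := hL.div 0 htt
    intro h
    rw [h, mul_zero, hy0] at hq
    exact one_div_ne_zero hyb0 hq
  have hz0 : ∀ i, lam i ≠ 0 → z i ≠ 0 := by
    intro i hi h0
    exact hZ0 (Finset.prod_eq_zero (Finset.mem_univ i) (by rw [h0, zero_pow hi]))
  -- the modified coordinates
  set z' : Fin n → K := fun i => if lam i = 0 then 1 else z i with hz'
  have hz'0 : ∀ i, z' i ≠ 0 := by
    intro i
    by_cases hi : lam i = 0
    · simp [hz', hi]
    · simpa [hz', hi] using hz0 i hi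
  have hprod : ∏ i, z i ^ lam i = ∏ i, z' i ^ lam i := by
    refine Finset.prod_congr rfl fun i _ => ?_
    by_cases hi : lam i = 0
    · rw [hi, pow_zero, pow_zero]
    · simp [hz', hi]
  have hvz' : ∀ i, v (z' i) = if lam i = 0 then 1 else v (z i) := by
    intro i
    by_cases hi : lam i = 0
    · simp [hz', hi]
    · simp [hz', hi]
  have hex : ∀ i, ∃ P Q : MvPolynomial (Fin (M + 1)) ℂ,
      v (aeval (aff y b) Q) = 1 ∧ z' i * aeval (aff y b) Q = aeval (aff y b) P := by
    intro i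
    by_cases hi : lam i = 0
    · exact ⟨1, 1, by rw [map_one, map_one], by simp [hz', hi]⟩
    · obtain ⟨P, Q, h1, h2⟩ := hL.reg.mem i
      exact ⟨P, Q, h1, by simpa [hz', hi] using h2⟩
  choose Pi Qi hQi hPQi using hex
  -- the coordinates in `tt`
  have hext : ∀ t, ∃ P Q : MvPolynomial (Fin (M + 1)) ℂ, v (aeval (aff y b) Q) = 1 ∧
      (t ∈ tt → y t / y b * aeval (aff y b) Q = aeval (aff y b) P * ∏ i, z i ^ lam i) := by
    intro t
    by_cases ht : t ∈ tt
    · obtain ⟨q, ⟨P, Q, h1, h2⟩, h3⟩ := hL.div t ht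
      refine ⟨P, Q, h1, fun _ => ?_⟩
      rw [h3, ← h2]
      ring
    · exact ⟨1, 1, by rw [map_one, map_one], fun h => absurd h ht⟩
  choose Pt Qt hQt hPQt using hext
  set W : MvPolynomial (Fin (M + 1)) ℂ := (∏ t ∈ tt, Qt t) * ∏ i, Qi i ^ lam i with hW
  have hWs : aeval (aff y b) W =
      (∏ t ∈ tt, aeval (aff y b) (Qt t)) * ∏ i, aeval (aff y b) (Qi i) ^ lam i := by
    rw [hW, map_mul, map_prod, map_prod]
    simp only [map_pow]
  have hWv : v (aeval (aff y b) W) = 1 := by
    rw [hWs, map_mul, map_prod, map_prod, Finset.prod_eq_one fun t _ => hQt t, one_mul]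
    refine Finset.prod_eq_one fun i _ => ?_
    rw [map_pow, hQi, one_pow]
  set G : Fin (M + 1) → MvPolynomial (Fin (M + 1)) ℂ :=
    fun t => Pt t * ∏ t' ∈ tt.erase t, Qt t' with hGd
  have hrel : ∀ t ∈ tt, y t / y b * aeval (aff y b) W =
      (∏ i, aeval (aff y b) (Pi i) ^ lam i) * aeval (aff y b) (G t) := by
    intro t ht
    have h1 : ∏ i, aeval (aff y b) (Pi i) ^ lam i =
        (∏ i, z' i ^ lam i) * ∏ i, aeval (aff y b) (Qi i) ^ lam i := by
      rw [← Finset.prod_mul_distrib]
      refine Finset.prod_congr rfl fun i _ => ?_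
      rw [← hPQi, mul_pow]
    have h2 : ∏ t' ∈ tt, aeval (aff y b) (Qt t') =
        aeval (aff y b) (Qt t) * ∏ t' ∈ tt.erase t, aeval (aff y b) (Qt t') :=
      (Finset.mul_prod_erase tt _ ht).symm
    have h3 : aeval (aff y b) (G t) =
        aeval (aff y b) (Pt t) * ∏ t' ∈ tt.erase t, aeval (aff y b) (Qt t') := by
      rw [hGd]
      simp only [map_mul, map_prod]
    rw [hWs, h1, h2, h3, ← hprod]
    have h4 := hPQt t ht
    calc y t / y b * (aeval (aff y b) (Qt t) * (∏ t' ∈ tt.erase t, aeval (aff y b) (Qt t')) *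
          ∏ i, aeval (aff y b) (Qi i) ^ lam i)
        = (y t / y b * aeval (aff y b) (Qt t)) * (∏ t' ∈ tt.erase t, aeval (aff y b) (Qt t')) *
          ∏ i, aeval (aff y b) (Qi i) ^ lam i := by ring
      _ = _ := by rw [h4]; ring
  set e' : ℕ := ∑ t ∈ tt, (G t).totalDegree with he'
  have hGe : ∀ t ∈ tt, (G t).totalDegree ≤ e' := fun t ht =>
    Finset.single_le_sum (f := fun t => (G t).totalDegree) (fun _ _ => Nat.zero_le _) ht
  have ha : ∀ i, (hom b (Pi i).totalDegree (Pi i)).IsHomogeneous (Pi i).totalDegree :=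
    fun i => (h5 ℂ K M b _ (Pi i) le_rfl).1
  have ha'' : ∀ i, aeval y (hom b (Pi i).totalDegree (Pi i)) =
      y b ^ (Pi i).totalDegree * aeval (aff y b) (Pi i) :=
    fun i => (h5 ℂ K M b _ (Pi i) le_rfl).2 y hyb0
  obtain ⟨hχ, hχ'⟩ := h5 ℂ K M b W.totalDegree W le_rfl
  have hχ'' := hχ' y hyb0
  have hq : ∀ t ∈ tt, (hom b e' (G t)).IsHomogeneous e' := fun t ht =>
    (h5 ℂ K M b e' (G t) (hGe t ht)).1
  have hq'' : ∀ t ∈ tt, aeval y (hom b e' (G t)) = y b ^ e' * aeval (aff y b) (G t) :=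
    fun t ht => (h5 ℂ K M b e' (G t) (hGe t ht)).2 y hyb0
  have hdiv : ∀ i, aeval y (hom b (Pi i).totalDegree (Pi i)) / y b ^ (Pi i).totalDegree =
      aeval (aff y b) (Pi i) := fun i => by
    rw [ha'', mul_div_cancel_left₀ _ (pow_ne_zero _ hyb0)]
  have hPv : ∀ i, v (aeval (aff y b) (Pi i)) = v (z' i) := fun i => by
    rw [← hPQi, map_mul, hQi, mul_one]
  have hP0 : ∀ i, aeval (aff y b) (Pi i) ≠ 0 := fun i => by
    rw [← Valuation.ne_zero_iff v, hPv]
    exact (Valuation.ne_zero_iff v).2 (hz'0 i)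
  have hbh : (X b : MvPolynomial (Fin (M + 1)) ℂ).IsHomogeneous 1 := isHomogeneous_X ℂ b
  set A : MvPolynomial (Fin (M + 1)) ℂ :=
    ∏ i, hom b (Pi i).totalDegree (Pi i) ^ lam i with hA
  set s : ℕ := ∑ i, lam i * (Pi i).totalDegree with hs
  have hAh : A.IsHomogeneous s := by
    have h1 := IsHomogeneous.prod Finset.univ
      (fun i => hom b (Pi i).totalDegree (Pi i) ^ lam i) (fun i => (Pi i).totalDegree * lam i)
      (fun i _ => (ha i).pow (lam i))
    rw [← hA] at h1
    have h2 : ∑ i, (Pi i).totalDegree * lam i = s := by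
      rw [hs]
      refine Finset.sum_congr rfl fun i _ => ?_
      rw [mul_comm]
    rwa [h2] at h1
  have hAy : aeval y A = y b ^ s * ∏ i, aeval (aff y b) (Pi i) ^ lam i := by
    rw [hA, map_prod, hs, ← Finset.prod_pow_eq_pow_sum, ← Finset.prod_mul_distrib]
    refine Finset.prod_congr rfl fun i _ => ?_
    rw [map_pow, ha'', mul_pow, ← pow_mul, mul_comm (lam i)]
  have hG : ∀ t ∈ tt, (X t * hom b W.totalDegree W * X b ^ (s + e') -
      A * hom b e' (G t) * X b ^ (W.totalDegree + 1) :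
      MvPolynomial (Fin (M + 1)) ℂ).IsHomogeneous (1 + W.totalDegree + (s + e')) := by
    intro t ht
    have h0h : (X t : MvPolynomial (Fin (M + 1)) ℂ).IsHomogeneous 1 := isHomogeneous_X ℂ t
    refine IsHomogeneous.sub ?_ ?_
    · have := (h0h.mul hχ).mul (hbh.pow (s + e'))
      rwa [one_mul] at this
    · have h1 := (hAh.mul (hq t ht)).mul (hbh.pow (W.totalDegree + 1))
      rw [one_mul] at h1
      have h2 : s + e' + (W.totalDegree + 1) = 1 + W.totalDegree + (s + e') := by ring
      rwa [h2] at h1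
  have hG0 : ∀ t ∈ tt, aeval y (X t * hom b W.totalDegree W * X b ^ (s + e') -
      A * hom b e' (G t) * X b ^ (W.totalDegree + 1) :
      MvPolynomial (Fin (M + 1)) ℂ) = 0 := by
    intro t ht
    simp only [map_sub, map_mul, map_pow, aeval_X, hAy, hχ'', hq'' t ht]
    have h1 : y b ^ s * (∏ i, aeval (aff y b) (Pi i) ^ lam i) *
        (y b ^ e' * aeval (aff y b) (G t)) *
        y b ^ (W.totalDegree + 1) = y b ^ (s + e' + W.totalDegree) *
        (y b * ((∏ i, aeval (aff y b) (Pi i) ^ lam i) * aeval (aff y b) (G t))) := by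
      rw [pow_add, pow_add, pow_add]
      ring
    rw [h1, ← hrel t ht, ← mul_assoc (y b), mul_div_cancel₀ _ hyb0, pow_add (y b) (s + e')]
    ring
  have hspan : ∀ t ∈ tt, _ := fun t ht => hE.gen _ _ (hG t ht) (hG0 t ht) b
  obtain ⟨t₀, ht₀, hgen⟩ := hL.gen
  have hyt0 : y t₀ ≠ 0 := by
    intro h
    rw [h, zero_div, map_zero] at hgen
    exact ((Valuation.ne_zero_iff v).2 hZ0) hgen.symm
  refine ⟨{ s := n
            a := fun i => hom b (Pi i).totalDegree (Pi i)
            χ := hom b W.totalDegree W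
            q := fun t => hom b e' (G t) * X b ^ (W.totalDegree + 1 + d)
            e := fun i => (Pi i).totalDegree
            lam := lam
            e₁ := W.totalDegree
            e₂ := e' + (W.totalDegree + 1 + d)
            N := 1
            E := s + e' + d
            ha := ha
            hχ := hχ
            hq := fun t ht => by
              have := (hq t ht).mul (hbh.pow (W.totalDegree + 1 + d))
              rwa [one_mul] at this
            deg := by rw [← hs]; ring
            rel := fun t ht => by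
              convert hspan t ht using 1
              rw [pow_one, pow_add, pow_add]
              ring }, t₀, ht₀, hyt0, ?_, ?_, ?_, ?_⟩
  · show v (aeval y (hom b W.totalDegree W) / y b ^ W.totalDegree) = 1
    rw [hχ'', mul_div_cancel_left₀ _ (pow_ne_zero _ hyb0)]
    exact hWv
  · show ∀ i, aeval y (hom b (Pi i).totalDegree (Pi i)) ≠ 0
    intro i
    rw [ha'']
    exact mul_ne_zero (pow_ne_zero _ hyb0) (hP0 i)
  · show v (∏ i, aeval y (hom b (Pi i).totalDegree (Pi i)) / y b ^ (Pi i).totalDegree) =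
      ∏ i, (if lam i = 0 then 1 else v (z i))
    rw [map_prod]
    refine Finset.prod_congr rfl fun i _ => ?_
    rw [hdiv, hPv, hvz']
  · show v ((∏ i, (aeval y (hom b (Pi i).totalDegree (Pi i)) /
      y b ^ (Pi i).totalDegree) ^ lam i) * y b / y t₀) = 1
    have h2 : v (∏ i, (aeval y (hom b (Pi i).totalDegree (Pi i)) /
        y b ^ (Pi i).totalDegree) ^ lam i) = v (∏ i, z i ^ lam i) := by
      rw [hprod, map_prod, map_prod]
      refine Finset.prod_congr rfl fun i _ => ?_
      rw [map_pow, map_pow, hdiv, hPv]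
    rw [mul_div_assoc, map_mul, h2, ← hgen, ← map_mul]
    have h3 : y t₀ / y b * (y b / y t₀) = 1 := by
      field_simp
    rw [h3, map_one]

end Pool.Agent.Lib.MP_410da7_agB
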