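import Pool.Agent.Lib.MP_410da7_agB.SpecD
import Pool.Agent.Lib.MP_410da7_agA.DAux
import Pool.Agent.Lib.MP_410da7_agA.L.DL16
import Pool.Agent.Lib.MP_410da7_agA.D1
import Pool.Agent.Lib.MP_410da7_agA.D8
import Pool.Agent.Lib.MP_410da7_agA.D9
import Pool.Agent.Lib.MP_410da7_agA.D10

/-!
# MP_410da7_ag, nef boundary (T1): DN16, the certificate at the finite places
-/

set_option autoImplicit false

namespace Pool.Agent.Lib.MP_410da7_agB

open Pool.Agent.Lib.MP_410da7_agA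
open MvPolynomial KaehlerDifferential WithZero Module

namespace dN16Aux

/-- The value of the form `dz_1 ∧ ... ∧ dz_n` is at most the size of the logarithmic form. -/
lemma val_le_kSize {K : Type} [Field K] [Algebra ℂ K] {M n : ℕ} (Ψ : Ω[K⁄ℂ] [⋀^Fin n]→ₗ[K] K)
    {v : Valuation K ℤᵐ⁰} (hv : Triv v) {Y : Fin (M + 1) → K} {tt : Finset (Fin (M + 1))}
    {b : Fin (M + 1)} {z : Fin n → K} {lam : Fin n → ℕ} (h : LSW Y tt b v z lam) (h0 : 0 ∈ tt)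
    (hY0 : Y 0 ≠ 0) : v (Ψ fun i => D ℂ K (z i)) ≤ kSize Ψ v z lam := by
  obtain ⟨u, _, hbd⟩ := h.div 0 h0
  have hz0 : ∀ i, lam i ≠ 0 → z i ≠ 0 := by
    intro i hi h0
    have h1 : ∏ i, z i ^ lam i = 0 := Finset.prod_eq_zero (Finset.mem_univ i) (by
      rw [h0, zero_pow hi])
    rw [h1, mul_zero] at hbd
    exact div_ne_zero hY0 h.reg.ne hbd
  have hp0 : (∏ i, if lam i = 0 then (1 : ℤᵐ⁰) else v (z i)) ≠ 0 := by
    refine Finset.prod_ne_zero_iff.2 fun i _ => ?_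
    split
    · exact one_ne_zero
    · exact (Valuation.ne_zero_iff v).2 (hz0 i ‹_›)
  have hp1 : (∏ i, if lam i = 0 then (1 : ℤᵐ⁰) else v (z i)) ≤ 1 := by
    refine Finset.prod_le_one' fun i _ => ?_
    split
    · exact le_rfl
    · exact dL16Aux.locRing_le hv h.reg.ne h.reg.max (h.reg.mem i)
  rw [kSize, le_div_iff₀ (pos_iff_ne_zero.2 hp0)]
  calc v (Ψ fun i => D ℂ K (z i)) * (∏ i, if lam i = 0 then (1 : ℤᵐ⁰) else v (z i))
      ≤ v (Ψ fun i => D ℂ K (z i)) * 1 := by gcongr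
    _ = v (Ψ fun i => D ℂ K (z i)) := mul_one _

/-- The coordinates `y` of the model generate `K`. -/
lemma adjoin_y {K : Type} [Field K] [Algebra ℂ K] {n N Mw M κ r d E₂ : ℕ}
    {Ψ : Ω[K⁄ℂ] [⋀^Fin n]→ₗ[K] K} {W : Fin (Mw + 1) → K} {tt : Finset (Fin (Mw + 1))}
    {x : Fin N → K} {y : Fin (M + 1) → K} {tt' : Finset (Fin (M + 1))} {b : Fin (M + 1)}
    {S : System ℂ M κ r d} (hs : SitN Ψ W tt x E₂) (hm : ModelN n W tt y tt' b S) :
    IntermediateField.adjoin ℂ (Set.range y) = ⊤ := by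
  rw [eq_top_iff, ← hs.gen]
  refine IntermediateField.adjoin.mono _ _ _ ?_
  rintro _ ⟨l, rfl⟩
  obtain ⟨l', hl'⟩ := hs.xW l
  obtain ⟨l'', hl''⟩ := hm.sub l'
  exact ⟨l'', by rw [hl'', hl']⟩

end dN16Aux

open Pool.Agent.Lib.MP_410da7_agA.DAux dN16Aux in
theorem dN16 (hdn5 : DN5Stmt) (hdn13 : DN13Stmt) : DN16Stmt := by
  intro K _ _ n N Mw M κ r d m₀ e₀ E₂ Ψ W tt x y tt' b S hs hm L Λ _ _ _ _ _ _ _ _ _ a hN e' he'0
    he'I V hVL hVW
  have hd9 : D9Stmt := d9 d8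
  have hd10 : D10Stmt := d10
  obtain ⟨w, hw1, hwV⟩ := d1 L Λ hN.trdeg hN.fg V hVL
  set v : Valuation K ℤᵐ⁰ := w.comap (algebraMap K Λ) with hv
  have htriv : Triv v := triv_comap hw1
  have hvW : ∀ l, v (W l) ≤ 1 := fun l => (hwV _).1 (hVW l)
  have hyK := adjoin_y hs hm
  obtain ⟨b₁, z, lam, hls₁, hnz⟩ := hN.neg w hw1
  rw [← hv] at hls₁ hnz
  have hb₁ : v (W b₁) = 1 := by
    refine le_antisymm (hvW b₁) ?_
    have h1 := hls₁.reg.max 0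
    rwa [hs.W0, map_one] at h1
  have hlsy : LSW y tt' 0 v z lam :=
    hdn5 K n Mw M W y tt tt' b₁ 0 v z lam htriv hm.lin hm.sub hm.tt1 hm.tt2 hls₁
      (by rw [hm.y0, map_one, hb₁])
  obtain ⟨J, e, he0, hJ, hJ'⟩ := hdn13 K n M r κ d Ψ y 0 S.F hm.dimM hm.eqs v z htriv hlsy.reg
  have haff : aff y 0 = y := by
    funext l
    rw [aff, hm.y0, div_one]
  rw [haff] at hJ hJ'
  have hfin : ∃ T : Set K, T.Finite ∧ IntermediateField.adjoin ℂ T = ⊤ :=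
    ⟨_, Set.finite_range _, hyK⟩
  have hΨ0 := psi_ne hd9 hd10 hs.trdeg hm.dimM Ψ hs.Ψ0 hm.eqs.hom hm.eqs.zero hm.y0 hyK he'0
    (by rw [he'I]; exact hm.J0)
  have hrel := rel9 hd9 hd10 hs.trdeg hfin hm.dimM Ψ hm.eqs.hom hm.eqs.zero hm.y0 J he0 he'0 v
  rw [hJ, mul_one, he'I] at hrel
  -- the curve is negative
  have hsize : size x v = 1 := by
    rw [size, sup_eq_right]
    refine Finset.sup_le fun l _ => ?_
    obtain ⟨l', hl'⟩ := hs.xW l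
    rw [← hl']
    exact hvW l'
  rw [hsize, one_pow, one_mul] at hnz
  have hk := val_le_kSize Ψ htriv hlsy hm.tt0 (by rw [hm.y0]; exact one_ne_zero)
  set ψ := Ψ (fun i : Fin n => D ℂ K (y (e (Sum.inl i.succ)))) with hψ
  set ψ₀ := Ψ (fun i : Fin n => D ℂ K (y (e' (Sum.inl i.succ)))) with hψ₀
  set mJ := minor S.F S.I₀ y J with hmJ
  have hψa : v ψ ^ m₀ ≤ w a := by
    refine le_trans ?_ hnz
    rw [hJ']
    gcongr
  have hv0 : v ψ₀ ≠ 0 := (Valuation.ne_zero_iff v).2 hΨ0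
  have hmul : v ψ * v mJ ≠ 0 := by
    rw [hrel]
    exact hv0
  have hψ1 : v ψ ≠ 0 := left_ne_zero_of_mul hmul
  have hm1 : v mJ ≠ 0 := right_ne_zero_of_mul hmul
  refine ⟨J, (Valuation.ne_zero_iff v).1 hm1, ?_⟩
  rw [hwV, map_inv₀, map_mul, map_div₀, map_pow, map_pow]
  have e1 : w (algebraMap K Λ ψ₀) = v ψ₀ := rfl
  have e2 : w (algebraMap K Λ mJ) = v mJ := rfl
  rw [e1, e2, ← hrel]
  have h1 : w a / (v ψ * v mJ) ^ m₀ * v mJ ^ m₀ = w a / v ψ ^ m₀ := by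
    rw [mul_pow, div_mul_eq_mul_div, mul_div_mul_right _ _ (pow_ne_zero _ hm1)]
  rw [h1, inv_div]
  exact div_le_one_of_le₀ hψa zero_le

end Pool.Agent.Lib.MP_410da7_agB
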