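import Pool.Agent.Lib.MP_410da7_agB.SpecD
import Pool.Agent.Lib.MP_410da7_agA.DAux
import Pool.Agent.Lib.MP_410da7_agA.D17
import Pool.Agent.Lib.MP_410da7_agA.D8
import Pool.Agent.Lib.MP_410da7_agA.D9
import Pool.Agent.Lib.MP_410da7_agA.D10

/-!
# MP_410da7_ag, nef boundary (C46, T1): DN17, places at infinity
-/

set_option autoImplicit false

namespace Pool.Agent.Lib.MP_410da7_agB

open Pool.Agent.Lib.MP_410da7_agA
open MvPolynomial KaehlerDifferential WithZero Module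

namespace dN17Aux

/-- The coordinates `y` generate `K`. -/
theorem adjoin_y {K : Type} [Field K] [Algebra ℂ K] {n N Mw M κ r d E₂ : ℕ}
    {Ψ : Ω[K⁄ℂ] [⋀^Fin n]→ₗ[K] K} {W : Fin (Mw + 1) → K} {tt : Finset (Fin (Mw + 1))}
    {x : Fin N → K} {y : Fin (M + 1) → K} {tt' : Finset (Fin (M + 1))} {b : Fin (M + 1)}
    {S : System ℂ M κ r d} (hsit : SitN Ψ W tt x E₂) (hm : ModelN n W tt y tt' b S) :
    IntermediateField.adjoin ℂ (Set.range y) = ⊤ := by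
  rw [eq_top_iff, ← hsit.gen, IntermediateField.adjoin_le_iff]
  rintro _ ⟨l, rfl⟩
  obtain ⟨l', hl'⟩ := hsit.xW l
  obtain ⟨l'', hl''⟩ := hm.sub l'
  rw [← hl', ← hl'']
  exact IntermediateField.subset_adjoin _ _ ⟨l'', rfl⟩

/-- A coordinate `y_l` whose value is the size. -/
theorem exists_size {K : Type} [Field K] [Algebra ℂ K] {n N Mw M κ r d E₂ : ℕ}
    {Ψ : Ω[K⁄ℂ] [⋀^Fin n]→ₗ[K] K} {W : Fin (Mw + 1) → K} {tt : Finset (Fin (Mw + 1))}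
    {x : Fin N → K} {y : Fin (M + 1) → K} {tt' : Finset (Fin (M + 1))} {b : Fin (M + 1)}
    {S : System ℂ M κ r d} (hsit : SitN Ψ W tt x E₂) (hm : ModelN n W tt y tt' b S)
    (v : Valuation K ℤᵐ⁰) : ∃ l, v (y l) = size x v := by
  by_cases h : ∃ l, 1 < v (x l)
  · obtain ⟨l₁, hl₁⟩ := h
    have : Nonempty (Fin N) := ⟨l₁⟩
    obtain ⟨l₀, hl₀⟩ := Finite.exists_max (fun l => v (x l))
    have hX1 : 1 < v (x l₀) := lt_of_lt_of_le hl₁ (hl₀ l₁)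
    obtain ⟨l', hl'⟩ := hsit.xW l₀
    obtain ⟨l'', hl''⟩ := hm.sub l'
    refine ⟨l'', ?_⟩
    rw [hl'', hl', size]
    refine le_antisymm ?_ (sup_le (Finset.sup_le fun l _ => hl₀ l) hX1.le)
    exact le_sup_of_le_left (Finset.le_sup (f := fun l => v (x l)) (Finset.mem_univ l₀))
  · push Not at h
    refine ⟨0, ?_⟩
    rw [hm.y0, map_one, size]
    exact le_antisymm le_sup_right (sup_le (Finset.sup_le fun l _ => h l) le_rfl)

end dN17Aux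

open DAux d17Aux dN17Aux in
theorem dN17 (hdn5 : DN5Stmt) (hdn13 : DN13Stmt) (hdn15 : DN15Stmt) : DN17Stmt := by
  intro K _ _ n N Mw M κ r d m₀ e₀ E₁ E₂ Ψ W tt x y tt' b S hsit hm g hg
    L Λ _ _ _ _ _ _ _ _ _ a hN e' he'0 he'I w hw1 hwle
  have hd9 : D9Stmt := d9 d8
  have hd10 : D10Stmt := d10
  set v : Valuation K ℤᵐ⁰ := w.comap (algebraMap K Λ) with hv
  have htriv : Triv v := triv_comap hw1
  have hyK := adjoin_y hsit hm
  have hyb0 : y b ≠ 0 := hm.yb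
  have hfin : ∃ T : Set K, T.Finite ∧ IntermediateField.adjoin ℂ T = ⊤ :=
    ⟨_, Set.finite_range _, hyK⟩
  -- the size
  obtain ⟨l₀, hl₀⟩ := exists_size hsit hm v
  have hX1 : 1 ≤ size x v := le_sup_right
  have hX0 : size x v ≠ 0 := (lt_of_lt_of_le zero_lt_one hX1).ne'
  have hxX : ∀ l, v (x l) ≤ size x v := fun l =>
    le_sup_of_le_left (Finset.le_sup (f := fun l => v (x l)) (Finset.mem_univ l))
  have hyl0 : y l₀ ≠ 0 := by
    intro h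
    rw [h, map_zero] at hl₀
    exact hX0 hl₀.symm
  -- the chart
  obtain ⟨b₁, z, lam, hLS₁, hnz⟩ := hN.neg w hw1
  rw [← hv] at hLS₁ hnz
  have hvb : v (y b) = v (W b₁) := by
    refine le_antisymm ?_ (hwle b₁)
    obtain ⟨c, hc⟩ := hm.lin b
    rw [hc]
    refine v.map_sum_le fun l _ => ?_
    rw [Algebra.smul_def, map_mul]
    by_cases h0 : c l = 0
    · rw [h0, map_zero, map_zero, zero_mul]
      exact zero_le
    · rw [htriv _ h0, one_mul]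
      exact hLS₁.reg.max l
  have hLS : LSW y tt' b v z lam :=
    hdn5 K n Mw M W y tt tt' b₁ b v z lam htriv hm.lin hm.sub hm.tt1 hm.tt2 hLS₁ hvb
  obtain ⟨J, e, he0, hJ, hψz⟩ := hdn13 K n M r κ d Ψ y b S.F hm.dimM hm.eqs v z htriv hLS.reg
  obtain ⟨T, t, htt, hyt0, hT1, hT2, hT3, hT5⟩ := hdn15 K n M κ d y tt' b S.F hm.y0 hm.tt0 hm.eqs
    v z lam htriv hLS
  set ζ := ∏ i, aeval y (T.a i) / y b ^ T.e i with hζ
  have hζ0 : ζ ≠ 0 := Finset.prod_ne_zero_iff.2 fun i _ =>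
    div_ne_zero (hT2 i) (pow_ne_zero _ hyb0)
  set q := kSize Ψ v z lam with hq
  set X := size x v with hX
  have hvζ0 : v ζ ≠ 0 := (Valuation.ne_zero_iff v).2 hζ0
  have hθ2 : q * v ζ = v (Ψ fun i => D ℂ K (aff y b (e (Sum.inl i.succ)))) := by
    rw [hψz, hq, kSize, ← hT3]
    exact div_mul_cancel₀ _ hvζ0
  -- the minors
  have hΨ0 := psi_ne hd9 hd10 hsit.trdeg hm.dimM Ψ hsit.Ψ0 hm.eqs.hom hm.eqs.zero hm.y0 hyK he'0
    (by rw [he'I]; exact hm.J0)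
  have hyaff : y = fun l => y b * aff y b l := by
    funext l
    rw [aff, mul_div_cancel₀ _ hyb0]
  have hcone : coneDet Ψ y (e ∘ Sum.inl) =
      y b ^ (n + 1) * Ψ (fun i => D ℂ K (aff y b (e (Sum.inl i.succ)))) := by
    have h1 := (hd10 K n M Ψ (aff y b) (e ∘ Sum.inl)).1 (y b)
    rw [← hyaff] at h1
    rw [h1, (hd10 K n M Ψ (aff y b) (e ∘ Sum.inl)).2]
    · rfl
    · rw [Function.comp_apply, he0]
      exact div_self hyb0
  have hcone' : coneDet Ψ y (e' ∘ Sum.inl) =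
      Ψ (fun i => D ℂ K (y (e' (Sum.inl i.succ)))) := by
    refine (hd10 K n M Ψ y (e' ∘ Sum.inl)).2 ?_
    rw [Function.comp_apply, he'0]
    exact hm.y0
  have hminor := minor_scale hm.eqs.hom (e ∘ Sum.inr) J (y b) (aff y b)
  rw [← hyaff] at hminor
  have h9 := hd9 K n M r κ d hsit.trdeg hfin hm.dimM Ψ S.F y
    hm.eqs.hom hm.eqs.zero J e e' v
  rw [hcone, hcone', hminor, he'I, map_mul, map_mul, map_pow, map_zpow₀, hJ, mul_one, ← hθ2] at h9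
  set ψ₀ := Ψ (fun i => D ℂ K (y (e' (Sum.inl i.succ)))) with hψ₀
  set mJ := minor S.F S.I₀ y J with hmJ
  have hv0 : v ψ₀ ≠ 0 := (Valuation.ne_zero_iff v).2 hΨ0
  have hY0' : v (y b) ≠ 0 := (Valuation.ne_zero_iff v).2 hyb0
  have hprod : v (y b) ^ (n + 1) * (q * v ζ) * v mJ ≠ 0 := by
    rw [h9]
    exact mul_ne_zero hv0 (zpow_ne_zero _ hY0')
  have hm1 : v mJ ≠ 0 := right_ne_zero_of_mul hprod
  have hq1 : q ≠ 0 := left_ne_zero_of_mul (right_ne_zero_of_mul (left_ne_zero_of_mul hprod))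
  refine ⟨T, J, l₀, t, hyl0, htt, hyt0, hT1, hT2, (Valuation.ne_zero_iff v).1 hm1, hT5, ?_, ?_, ?_⟩
  · change v (y b * g / y l₀ ^ E₁) ≤ 1
    obtain ⟨P, hPd, hPg⟩ := hg
    rw [hPg, map_div₀, map_pow, hl₀]
    have h1 : v (aeval x P) ≤ X ^ E₁ :=
      (val_aeval_le htriv x X hX1 hxX P).trans (pow_le_pow_right₀ hX1 hPd)
    exact div_le_one_of_le₀ h1 zero_le
  · intro t' ht'
    change v (y t' / y l₀ ^ E₂) ≤ 1
    obtain ⟨t₁, ht₁, hyt⟩ := hm.tt1 t' ht'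
    rw [hyt, map_div₀, map_pow, hl₀]
    exact div_le_one_of_le₀ (hsit.tt_le v htriv t₁ ht₁) zero_le
  · rw [map_mul, map_div₀, map_pow]
    change 1 ≤ w a / v ψ₀ ^ m₀ * v (mJ ^ m₀ *
      y b ^ (((n : ℤ) + 1 - r * ((d : ℤ) - 1)) * m₀) * ζ ^ m₀ / y l₀ ^ e₀)
    rw [map_div₀, map_mul, map_mul, map_pow, map_pow, map_pow, map_zpow₀, hl₀]
    set Yb := v (y b) with hYb
    have h10 : v ψ₀ = v mJ * Yb ^ ((n : ℤ) + 1 - r * ((d : ℤ) - 1)) * (q * v ζ) := by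
      have h11 : Yb ^ ((n : ℤ) + 1 - r * ((d : ℤ) - 1)) =
          Yb ^ (n + 1) / Yb ^ ((r : ℤ) * ((d : ℤ) - 1)) := by
        rw [zpow_sub₀ hY0']
        congr 1
        exact_mod_cast zpow_natCast Yb (n + 1)
      rw [h11]
      have h12 : v ψ₀ = Yb ^ (n + 1) * (q * v ζ) * v mJ / Yb ^ ((r : ℤ) * ((d : ℤ) - 1)) := by
        rw [h9, mul_div_cancel_right₀ _ (zpow_ne_zero _ hY0')]
      rw [h12, mul_div_assoc', div_mul_eq_mul_div]
      congr 1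
      ac_rfl
    have h13 : Yb ^ (((n : ℤ) + 1 - r * ((d : ℤ) - 1)) * m₀) =
        (Yb ^ ((n : ℤ) + 1 - r * ((d : ℤ) - 1))) ^ m₀ := by
      rw [zpow_mul, zpow_natCast]
    set Q := Yb ^ ((n : ℤ) + 1 - r * ((d : ℤ) - 1)) with hQ
    have hQ0 : Q ≠ 0 := zpow_ne_zero _ hY0'
    rw [h10, h13]
    have hgoal : w a / (v mJ * Q * (q * v ζ)) ^ m₀ * (v mJ ^ m₀ * Q ^ m₀ * v ζ ^ m₀ / X ^ e₀) =
        w a / (X ^ e₀ * q ^ m₀) := by
      have h14 : (v mJ * Q * (q * v ζ)) ^ m₀ =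
          q ^ m₀ * (v mJ ^ m₀ * Q ^ m₀ * v ζ ^ m₀) := by
        simp only [mul_pow]
        ac_rfl
      have h15 : v mJ ^ m₀ * Q ^ m₀ * v ζ ^ m₀ ≠ 0 :=
        mul_ne_zero (mul_ne_zero (pow_ne_zero _ hm1) (pow_ne_zero _ hQ0)) (pow_ne_zero _ hvζ0)
      have h16 : q ^ m₀ * (v mJ ^ m₀ * Q ^ m₀ * v ζ ^ m₀) * X ^ e₀ =
          X ^ e₀ * q ^ m₀ * (v mJ ^ m₀ * Q ^ m₀ * v ζ ^ m₀) := by
        ac_rfl
      rw [h14, div_mul_div_comm, h16, mul_div_mul_right _ _ h15]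
    rw [hgoal]
    exact (one_le_div₀ (zero_lt_iff.2
      (mul_ne_zero (pow_ne_zero _ hX0) (pow_ne_zero _ hq1)))).2 hnz

end Pool.Agent.Lib.MP_410da7_agB
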