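import Pool.Agent.Lib.MP_410da7_agB.SpecD
import Pool.Agent.Lib.MP_410da7_agA.D18Aux
import Pool.Agent.Lib.MP_410da7_agA.D2
import Pool.Agent.Lib.MP_410da7_agA.D5
import Pool.Agent.Lib.MP_410da7_agA.D6
import Pool.Agent.Lib.MP_410da7_agA.D7
import Pool.Agent.Lib.MP_410da7_agA.D8
import Pool.Agent.Lib.MP_410da7_agA.D9
import Pool.Agent.Lib.MP_410da7_agA.D10
import Pool.Agent.Lib.MP_410da7_agA.L.DL4

/-!
# MP_410da7_ag, nef boundary (C46, T1): DN18, the certificate (the end of block D)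
-/

set_option autoImplicit false

namespace Pool.Agent.Lib.MP_410da7_agB

open Pool.Agent.Lib.MP_410da7_agA
open MvPolynomial KaehlerDifferential WithZero Module

namespace dN18Aux

/-- Base change of the relations at infinity. -/
noncomputable def logMapN {M κ r d : ℕ} {S : System ℂ M κ r d} {b : Fin (M + 1)}
    {tt : Finset (Fin (M + 1))} (T : LogPolyN S.F b tt) (L : Type) [Field L] [Algebra ℂ L] :
    LogPolyN (S.map L).F b tt where
  s := T.s
  a := fun i => MvPolynomial.map (algebraMap ℂ L) (T.a i)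
  χ := MvPolynomial.map (algebraMap ℂ L) T.χ
  q := fun t => MvPolynomial.map (algebraMap ℂ L) (T.q t)
  e := T.e
  lam := T.lam
  e₁ := T.e₁
  e₂ := T.e₂
  N := T.N
  E := T.E
  ha := fun i => (T.ha i).map _
  hχ := T.hχ.map _
  hq := fun t ht => (T.hq t ht).map _
  deg := T.deg
  rel := fun t ht => by
    have h := Ideal.mem_map_of_mem (MvPolynomial.map (algebraMap ℂ L)) (T.rel t ht)
    rw [Ideal.map_span, ← Set.range_comp] at h
    simp only [map_sub, map_mul, map_pow, map_prod, MvPolynomial.map_X] at h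
    exact h

/-- A polynomial in elements of a valuation ring. -/
theorem aeval_mem {K L Λ : Type} [Field K] [Algebra ℂ K] [Field L] [Field Λ]
    [Algebra ℂ L] [Algebra L Λ] [Algebra K Λ] [Algebra ℂ Λ] [IsScalarTower ℂ L Λ]
    [IsScalarTower ℂ K Λ] {N : ℕ} {x : Fin N → K} {V : ValuationSubring Λ}
    (hV : ∀ c : L, algebraMap L Λ c ∈ V) (h : ∀ l, algebraMap K Λ (x l) ∈ V)
    (P : MvPolynomial (Fin N) ℂ) : algebraMap K Λ (aeval x P) ∈ V := by
  induction P using MvPolynomial.induction_on with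
  | C a =>
    rw [aeval_C, ← IsScalarTower.algebraMap_apply ℂ K Λ, IsScalarTower.algebraMap_apply ℂ L Λ]
    exact hV _
  | add p q hp hq => rw [map_add, map_add]; exact V.add_mem _ _ hp hq
  | mul_X p l hp =>
    rw [map_mul, map_mul, aeval_X]
    exact V.mul_mem _ _ hp (h l)

/-- A linear combination of elements of a valuation ring. -/
theorem comb_mem {K L Λ : Type} [Field K] [Algebra ℂ K] [Field L] [Field Λ]
    [Algebra ℂ L] [Algebra L Λ] [Algebra K Λ] [Algebra ℂ Λ] [IsScalarTower ℂ L Λ]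
    [IsScalarTower ℂ K Λ] {N : ℕ} {x : Fin N → K} {V : ValuationSubring Λ}
    (hV : ∀ c : L, algebraMap L Λ c ∈ V) (h : ∀ l, algebraMap K Λ (x l) ∈ V)
    (c : Fin N → ℂ) : algebraMap K Λ (∑ l, c l • x l) ∈ V := by
  rw [map_sum]
  refine sum_mem fun l _ => ?_
  rw [Algebra.smul_def, map_mul, ← IsScalarTower.algebraMap_apply ℂ K Λ,
    IsScalarTower.algebraMap_apply ℂ L Λ]
  exact V.mul_mem _ _ (hV _) (h l)

/-- The value of a linear combination. -/
theorem comb_le {K : Type} [Field K] [Algebra ℂ K] {N : ℕ} {x : Fin N → K} {v : Valuation K ℤᵐ⁰}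
    (hv : Triv v) {X : ℤᵐ⁰} (h : ∀ l, v (x l) ≤ X) (c : Fin N → ℂ) :
    v (∑ l, c l • x l) ≤ X := by
  refine v.map_sum_le fun l _ => ?_
  rw [Algebra.smul_def, map_mul]
  by_cases h0 : c l = 0
  · rw [h0, map_zero, map_zero, zero_mul]
    exact zero_le
  · rw [hv _ h0, one_mul]
    exact h l

end dN18Aux

open DAux d18Aux dN18Aux in
theorem dN18 (hdng : DNgStmt) (hdn16 : DN16Stmt) (hdn17 : DN17Stmt) : DN18Stmt := by
  classical
  intro K _ _ n N Mw m₀ e₀ E₂ Ψ W tt x hsit L Λ _ _ _ _ _ _ _ _ _ a hN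
  have hd2 : D2Stmt := d2
  have hd7 : D7Stmt := d7 d5 d6
  have hd9 : D9Stmt := d9 d8
  have hd10 : D10Stmt := d10
  have hWgen : IntermediateField.adjoin ℂ (Set.range W) = ⊤ := by
    rw [eq_top_iff, ← hsit.gen]
    refine IntermediateField.adjoin.mono _ _ _ ?_
    rintro _ ⟨l, rfl⟩
    exact hsit.xW l
  obtain ⟨s, w, hw1, hwinf, hwall⟩ := hd2 L Λ hN.trdeg hN.fg (Mw + 1)
    (fun l => algebraMap K Λ (W l))
  obtain ⟨l₁, hl₁⟩ := exists_transcendental hWgen hN.gen hN.trdeg
  have hncent : ∀ j, ¬ Cent W ((w j).comap (algebraMap K Λ)) := by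
    intro j h
    obtain ⟨l, hl⟩ := hwinf j
    exact absurd (h l) (not_le.2 hl)
  obtain ⟨c, hc⟩ := dL4 K (Mw + 1) s W
    (fun j => (w j).comap (algebraMap K Λ)) (fun j => triv_comap (hw1 j)) hncent
  obtain ⟨z, hz⟩ : ∃ z, z = ∑ l, c l • W l := ⟨_, rfl⟩
  have hzv : ∀ j, w j (algebraMap K Λ z) = size W ((w j).comap (algebraMap K Λ)) := by
    intro j
    rw [hz]
    exact hc j
  have hWsize : ∀ j l, w j (algebraMap K Λ (W l)) ≤
      size W ((w j).comap (algebraMap K Λ)) := fun j l =>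
    le_trans (Finset.le_sup (f := fun l => (w j).comap (algebraMap K Λ) (W l))
      (Finset.mem_univ l)) le_sup_left
  -- the places
  have hVx : ∀ V : ValuationSubring Λ, (∀ c : L, algebraMap L Λ c ∈ V) →
      algebraMap K Λ z ∈ V → ∀ l, algebraMap K Λ (W l) ∈ V := by
    intro V hV hyV
    by_contra hcon
    push Not at hcon
    obtain ⟨j, hj⟩ := hwall V hV hcon
    obtain ⟨l, hl⟩ := hcon
    rw [hj, not_le] at hl
    have h2 := (hj _).1 hyV
    rw [hzv] at h2
    exact absurd h2 (not_le.2 (lt_of_lt_of_le hl (hWsize j l)))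
  have htrans : Transcendental L (algebraMap K Λ z) := by
    intro halg
    rw [← mem_all_iff] at halg
    apply hl₁
    rw [← mem_all_iff]
    intro V hV
    exact hVx V hV (halg V hV) l₁
  have hz0 : z ≠ 0 := by
    intro h
    rw [h, map_zero] at htrans
    exact htrans isAlgebraic_zero
  -- the model
  refine ⟨c, ?_⟩
  rw [← hz]
  obtain ⟨y, hy⟩ : ∃ y : Fin (Mw + 1 + 1) → K, y = Fin.snoc W z := ⟨_, rfl⟩
  obtain ⟨b, hb⟩ : ∃ b : Fin (Mw + 1 + 1), b = Fin.last (Mw + 1) := ⟨_, rfl⟩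
  have hyb' : y b = z := by rw [hy, hb, Fin.snoc_last]
  have hyc : ∀ l : Fin (Mw + 1), y l.castSucc = W l := fun l => by rw [hy, Fin.snoc_castSucc]
  have hy0 : y 0 = 1 := by
    have h := hyc 0
    rwa [Fin.castSucc_zero, hsit.W0] at h
  have hyb : y b ≠ 0 := by rw [hyb']; exact hz0
  have hlin : ∀ l', ∃ c : Fin (Mw + 1) → ℂ, y l' = ∑ l, c l • W l := by
    intro l'
    refine Fin.lastCases ?_ (fun l => ?_) l'
    · exact ⟨c, by rw [← hb, hyb', hz]⟩
    · refine ⟨Pi.single l 1, ?_⟩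
      rw [hyc, Finset.sum_eq_single l]
      · rw [Pi.single_eq_same, one_smul]
      · intro i _ hi
        rw [Pi.single_eq_of_ne hi, zero_smul]
      · intro h
        exact absurd (Finset.mem_univ l) h
  have hyK : IntermediateField.adjoin ℂ (Set.range y) = ⊤ := by
    rw [eq_top_iff, ← hWgen]
    refine IntermediateField.adjoin.mono _ _ _ ?_
    rintro _ ⟨l, rfl⟩
    exact ⟨_, hyc l⟩
  obtain ⟨tt', htt'⟩ : ∃ tt' : Finset (Fin (Mw + 1 + 1)), tt' = tt.map Fin.castSuccEmb :=
    ⟨_, rfl⟩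
  have htt0 : 0 ∈ tt' := by
    rw [htt', Finset.mem_map]
    exact ⟨0, hsit.tt0, Fin.castSucc_zero⟩
  have htt1 : ∀ t' ∈ tt', ∃ t ∈ tt, y t' = W t := by
    intro t' ht'
    rw [htt', Finset.mem_map] at ht'
    obtain ⟨t, ht, rfl⟩ := ht'
    exact ⟨t, ht, hyc t⟩
  have htt2 : ∀ t ∈ tt, ∃ t' ∈ tt', y t' = W t := by
    intro t ht
    refine ⟨t.castSucc, ?_, hyc t⟩
    rw [htt', Finset.mem_map]
    exact ⟨t, ht, rfl⟩
  have hmax : ∀ j l, w j (algebraMap K Λ (y l)) ≤ w j (algebraMap K Λ (y b)) := by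
    intro j l
    rw [hyb', hzv]
    obtain ⟨c', hc'⟩ := hlin l
    rw [hc']
    exact comb_le (v := (w j).comap (algebraMap K Λ)) (triv_comap (hw1 j)) (hWsize j) c'
  have hmaxW : ∀ j l, w j (algebraMap K Λ (W l)) ≤ w j (algebraMap K Λ (y b)) := by
    intro j l
    rw [hyb', hzv]
    exact hWsize j l
  rw [← hy, ← hb, ← htt']
  rw [← hyb'] at hVx htrans
  clear hy
  obtain ⟨κ, r, d, S, hM, heqs, hI, hI0, hg, hJ0⟩ := hd7 ℂ K n (Mw + 1) y hy0 hyK hsit.trdeg
  have hm : ModelN n W tt y tt' b S :=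
    ⟨hy0, hyb, hlin, fun l => ⟨_, hyc l⟩, htt0, htt1, htt2, hM, heqs, hI, hI0, hg, hJ0⟩
  obtain ⟨e', he'0, he'I⟩ := exists_enum' hM S.I₀ hI hI0
  have hΨ0 := psi_ne hd9 hd10 hsit.trdeg hM Ψ hsit.Ψ0 heqs.hom heqs.zero hy0 hyK he'0
    (by rw [he'I]; exact hJ0)
  have hKΛ : ∀ f : K, f ≠ 0 → algebraMap K Λ f ≠ 0 := fun f hf h =>
    hf ((map_eq_zero_iff _ (algebraMap K Λ).injective).1 h)
  have hVy : ∀ V : ValuationSubring Λ, (∀ c : L, algebraMap L Λ c ∈ V) →
      algebraMap K Λ (y b) ∉ V → ∃ j, ∀ f, f ∈ V ↔ w j f ≤ 1 := by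
    intro V hV hyV
    refine hwall V hV ?_
    by_contra hcon
    push Not at hcon
    apply hyV
    obtain ⟨c', hc'⟩ := hlin b
    rw [hc']
    exact comb_mem hV hcon c'
  -- the denominator
  obtain ⟨g, E₁, Qg, Pg, hg0, hgQ, hgP⟩ := hdng K N (Mw + 1) x W hsit.gen
  have hgyb : ∃ P : MvPolynomial (Fin N) ℂ, P.totalDegree ≤ E₁ ∧ y b * g = aeval x P := by
    refine ⟨∑ l, c l • Pg l, ?_, ?_⟩
    · refine totalDegree_finsetSum_le fun l _ => ?_
      exact (totalDegree_smul_le _ _).trans (hgP l).1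
    · rw [hyb', hz, map_sum, Finset.sum_mul]
      refine Finset.sum_congr rfl fun l _ => ?_
      rw [map_smul, ← (hgP l).2, smul_mul_assoc, mul_comm (W l)]
  refine ⟨κ, r, d, E₁, S.map L,
    a / algebraMap K Λ (Ψ fun i => D ℂ K (y (e' (Sum.inl i.succ)))) ^ m₀, algebraMap K Λ g,
    ?_, ?_⟩
  · constructor
    · exact hM
    · show algebraMap K Λ (y 0) = 1
      rw [hy0, map_one]
    · exact htt0
    · intro j
      have h := aeval_map_L (L := L) (Λ := Λ) y (S.F j)
      rw [heqs.zero j, map_zero] at h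
      exact h
    · have h := aeval_map_L (L := L) (Λ := Λ) y S.g
      intro h0
      exact hKΛ _ hg (h.symm.trans h0)
    · have h := minor_map_L (L := L) (Λ := Λ) S.F S.I₀ y S.J₀
      intro h0
      exact hKΛ _ hJ0 (h.symm.trans h0)
    · exact htrans
    · exact finite_of_transcendental hN.trdeg hN.fg htrans
    · exact hN.m0
    · exact hN.e0
    · exact div_ne_zero hN.a0 (pow_ne_zero _ (hKΛ _ hΨ0))
    · exact hKΛ _ hg0
    · intro V hV hyV l
      obtain ⟨c', hc'⟩ := hlin l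
      show algebraMap K Λ (y l) ∈ V
      rw [hc']
      exact comb_mem hV (hVx V hV hyV) c'
    · intro V hV hyV l
      obtain ⟨j, hj⟩ := hVy V hV hyV
      rw [hj, map_div₀]
      exact div_le_one_of_le₀ (hmax j l) zero_le
    · intro V hV hyV
      rw [hgQ]
      refine aeval_mem hV (fun l => ?_) Qg
      obtain ⟨l', hl'⟩ := hsit.xW l
      rw [← hl']
      exact hVx V hV hyV l'
    · intro V hV hyV
      obtain ⟨J, j1, j2⟩ := hdn16 K n N Mw (Mw + 1) κ r d m₀ e₀ E₂ Ψ W tt x y tt' b S hsit hm L Λ a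
        hN e' he'0 he'I V hV (hVx V hV hyV)
      have h := minor_map_L (L := L) (Λ := Λ) S.F S.I₀ y J
      refine ⟨J, fun h0 => hKΛ _ j1 (h.symm.trans h0), ?_⟩
      have h' : minor (S.map L).F (S.map L).I₀ (fun l => algebraMap K Λ (y l)) J =
          algebraMap K Λ (minor S.F S.I₀ y J) := h
      rw [h']
      exact j2
    · have h17 := fun j => hdn17 K n N Mw (Mw + 1) κ r d m₀ e₀ E₁ E₂ Ψ W tt x y tt' b S hsit hm g
        hgyb L Λ a hN e' he'0 he'I (w j) (hw1 j) (hmaxW j)
      choose T J l t t1 t2 t3 t4 t5 t6 t7 t8 t9 t10 using h17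
      have h2 : ∀ j, aeval (fun l => algebraMap K Λ (y l)) (logMapN (T j) L).χ =
          algebraMap K Λ (aeval y (T j).χ) := fun j =>
        aeval_map_L (L := L) (Λ := Λ) y (T j).χ
      have h3 : ∀ j, ∀ i : Fin (T j).s, aeval (fun l => algebraMap K Λ (y l))
          ((logMapN (T j) L).a i) = algebraMap K Λ (aeval y ((T j).a i)) :=
        fun j i => aeval_map_L (L := L) (Λ := Λ) y ((T j).a i)
      have hχ0 : ∀ j, aeval y (T j).χ ≠ 0 := by
        intro j h0
        have h := t4 j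
        rw [h0, zero_div, map_zero, map_zero] at h
        exact zero_ne_one h
      refine ⟨s, fun j => logMapN (T j) L, ?_, ?_, ?_⟩
      · intro j
        rw [h2 j]
        exact hKΛ _ (hχ0 j)
      · intro j i
        exact (h3 j i) ▸ hKΛ _ (t5 j i)
      · intro V hV hyV
        obtain ⟨j, hj⟩ := hVy V hV hyV
        have h1 : minor (S.map L).F (S.map L).I₀ (fun l => algebraMap K Λ (y l)) (J j) =
            algebraMap K Λ (minor S.F S.I₀ y (J j)) :=
          minor_map_L (L := L) (Λ := Λ) S.F S.I₀ y (J j)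
        refine ⟨j, J j, l j, t j, ?_, ?_, t2 j, ?_, ?_, ?_, ?_, ?_, ?_⟩
        · rw [h1]
          exact hKΛ _ (t6 j)
        · exact hKΛ _ (t1 j)
        · exact hKΛ _ (t3 j)
        · rw [hj, h2, map_inv₀]
          have h4 : algebraMap K Λ (aeval y (T j).χ) /
              algebraMap K Λ (y b) ^ (logMapN (T j) L).e₁ =
              algebraMap K Λ (aeval y (T j).χ / y b ^ (T j).e₁) := by
            rw [map_div₀, map_pow]
            rfl
          rw [h4, t4, inv_one]
        · have h5 : (∏ i : Fin (logMapN (T j) L).s,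
              aeval (fun l => algebraMap K Λ (y l)) ((logMapN (T j) L).a i) /
              algebraMap K Λ (y b) ^ (logMapN (T j) L).e i) =
              algebraMap K Λ (∏ i : Fin (T j).s, aeval y ((T j).a i) / y b ^ (T j).e i) := by
            rw [map_prod]
            refine Finset.prod_congr rfl fun i _ => ?_
            rw [h3 j i, map_div₀, map_pow]
            rfl
          have h4 : tauN (S.map L) n m₀ e₀ (fun l => algebraMap K Λ (y l)) b
              (a / algebraMap K Λ (Ψ fun i => D ℂ K (y (e' (Sum.inl i.succ)))) ^ m₀)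
              (logMapN (T j) L) (J j) (algebraMap K Λ (y (l j))) =
              a / algebraMap K Λ (Ψ fun i => D ℂ K (y (e' (Sum.inl i.succ)))) ^ m₀ *
              algebraMap K Λ (minor S.F S.I₀ y (J j) ^ m₀ *
                y b ^ (((n : ℤ) + 1 - r * ((d : ℤ) - 1)) * m₀) *
                (∏ i, aeval y ((T j).a i) / y b ^ (T j).e i) ^ m₀ / y (l j) ^ e₀) := by
            rw [tauN, h1, h5, map_div₀ (algebraMap K Λ) (_ * _ * _),
              map_mul (algebraMap K Λ) (_ * _),
              map_mul (algebraMap K Λ) (_ ^ m₀), map_pow, map_zpow₀, map_pow, map_pow]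
            rw [mul_div_assoc']
            congr 1
            simp only [mul_assoc]
          rw [hj, h4, map_inv₀]
          exact inv_le_one_of_one_le₀ (t10 j)
        · have h5 : (∏ i : Fin (logMapN (T j) L).s,
              (aeval (fun l => algebraMap K Λ (y l)) ((logMapN (T j) L).a i) /
              algebraMap K Λ (y b) ^ (logMapN (T j) L).e i) ^ (logMapN (T j) L).lam i) =
              algebraMap K Λ (∏ i : Fin (T j).s,
                (aeval y ((T j).a i) / y b ^ (T j).e i) ^ (T j).lam i) := by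
            rw [map_prod]
            refine Finset.prod_congr rfl fun i _ => ?_
            rw [h3 j i, map_pow, map_div₀, map_pow]
            rfl
          rw [hj, h5, ← map_mul, ← map_div₀]
          exact (t7 j).le
        · rw [hj, ← map_mul, ← map_pow, ← map_div₀]
          exact t8 j
        · intro t' ht'
          rw [hj, ← map_pow, ← map_div₀]
          exact t9 j t' ht'
  · intro e P hPh hP
    have h1 := heqs.gen e P hPh hP 0
    have h4 := Ideal.mem_map_of_mem (MvPolynomial.map (algebraMap ℂ L)) h1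
    rw [Ideal.map_span, ← Set.range_comp, map_mul, map_pow, MvPolynomial.map_X] at h4
    exact h4

end Pool.Agent.Lib.MP_410da7_agB
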