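import Pool.Agent.Lib.MP_410da7_agB.SpecD
import Pool.Agent.Lib.MP_410da7_agA.L.DL5

/-!
# MP_410da7_ag, nef boundary (C46, T1), DN5: change of the chart and of the homogeneous coordinates
-/

set_option autoImplicit false

namespace Pool.Agent.Lib.MP_410da7_agB

open Pool.Agent.Lib.MP_410da7_agA
open MvPolynomial KaehlerDifferential WithZero Module

open dL5Aux in
theorem dN5 : DN5Stmt := by
  intro K _ _ n Mw M W y tt tt' b b' v z lam hv hlin hsub h1 h2 hLS hval
  have hWb : W b ≠ 0 := hLS.reg.ne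
  have hvb : v (W b) ≠ 0 := (Valuation.ne_zero_iff v).mpr hWb
  have hyb : y b' ≠ 0 := by
    rw [← Valuation.ne_zero_iff v, hval]
    exact hvb
  obtain ⟨b'', hb''⟩ := hsub b
  have hvu : v (W b / y b') = 1 := by
    rw [map_div₀, hval, div_self hvb]
  have hvu' : v (y b' / W b) = 1 := by
    rw [map_div₀, hval, div_self hvb]
  have hlinO : ∀ l', y l' / W b ∈ locRing W b v := by
    intro l'
    obtain ⟨c, hc⟩ := hlin l'
    rw [hc, Finset.sum_div]
    refine Subalgebra.sum_mem _ fun l _ => ?_
    rw [smul_div_assoc]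
    exact Subalgebra.smul_mem _ (aff_mem W b v l) _
  have hEq : locRing y b' v = locRing W b v := by
    apply le_antisymm
    · refine loc_le y b' v _ ?_ (fun g hg hg1 => inv_mem W b v hg hg1)
      intro l'
      have h1 : y l' / y b' = (y l' / W b) * (y b' / W b)⁻¹ := by
        field_simp
      rw [h1]
      exact Subalgebra.mul_mem _ (hlinO l') (inv_mem W b v (hlinO b') hvu')
    · refine loc_le W b v _ ?_ (fun g hg hg1 => inv_mem y b' v hg hg1)
      intro l
      obtain ⟨l', hl'⟩ := hsub l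
      have h1 : W l / W b = (y l' / y b') * (y b'' / y b')⁻¹ := by
        rw [hl', hb'']
        field_simp
      rw [h1]
      refine Subalgebra.mul_mem _ (aff_mem y b' v l') (inv_mem y b' v (aff_mem y b' v b'') ?_)
      rw [hb'']
      exact hvu
  have hw : W b / y b' ∈ locRing W b v := by
    rw [← hEq, ← hb'']
    exact aff_mem y b' v b''
  refine ⟨⟨hyb, ?_, ?_, ?_⟩, ?_, ?_⟩
  · intro l'
    obtain ⟨c, hc⟩ := hlin l'
    rw [hc, hval]
    refine Valuation.map_sum_le v fun l _ => ?_
    rw [Algebra.smul_def, map_mul]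
    by_cases hcl : c l = 0
    · rw [hcl, map_zero, map_zero, zero_mul]
      exact zero_le
    · rw [hv _ hcl, one_mul]
      exact hLS.reg.max l
  · intro i
    rw [hEq]
    exact hLS.reg.mem i
  · exact coord_of_eq _ _ z hEq hLS.reg.coord
  · intro t' ht'
    obtain ⟨t, ht, hyt⟩ := h1 t' ht'
    obtain ⟨q, hq, hq'⟩ := hLS.div t ht
    refine ⟨q * (W b / y b'), ?_, ?_⟩
    · rw [hEq]
      exact Subalgebra.mul_mem _ hq hw
    · have h3 : y t' / y b' = (W t / W b) * (W b / y b') := by
        rw [← hyt]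
        field_simp
      rw [h3, hq']
      ring
  · obtain ⟨t, ht, hgen⟩ := hLS.gen
    obtain ⟨t', ht', hyt⟩ := h2 t ht
    refine ⟨t', ht', ?_⟩
    have h3 : y t' / y b' = (W t / W b) * (W b / y b') := by
      rw [← hyt]
      field_simp
    rw [h3, map_mul, hvu, mul_one, hgen]

end Pool.Agent.Lib.MP_410da7_agB
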