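import Pool.Agent.Lib.MP_410da7_agB.SpecD

/-!
# MP_410da7_ag, nef boundary (C46, T1): DNg, a common denominator
-/

set_option autoImplicit false

namespace Pool.Agent.Lib.MP_410da7_agB

open MvPolynomial

theorem dNg : DNgStmt := by
  classical
  intro K _ _ N M x W hx
  have h1 : ∀ l, ∃ r s : MvPolynomial (Fin N) ℂ, aeval x s ≠ 0 ∧ W l * aeval x s = aeval x r := by
    intro l
    have h2 : W l ∈ IntermediateField.adjoin ℂ (Set.range x) := by
      rw [hx]
      exact IntermediateField.mem_top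
    obtain ⟨r, s, h3⟩ := (IntermediateField.mem_adjoin_range_iff ℂ x (W l)).1 h2
    by_cases h4 : aeval x s = 0
    · rw [h4, div_zero] at h3
      exact ⟨0, 1, by rw [map_one]; exact one_ne_zero, by rw [h3, zero_mul, map_zero]⟩
    · exact ⟨r, s, h4, by rw [h3, div_mul_cancel₀ _ h4]⟩
  choose r s hs hrs using h1
  refine ⟨aeval x (∏ l, s l), Finset.univ.sup fun l => (r l * ∏ l' ∈ Finset.univ.erase l, s l').totalDegree,
    ∏ l, s l, fun l => r l * ∏ l' ∈ Finset.univ.erase l, s l', ?_, rfl, fun l => ⟨?_, ?_⟩⟩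
  · rw [map_prod]
    exact Finset.prod_ne_zero_iff.2 fun l _ => hs l
  · exact Finset.le_sup (f := fun l => (r l * ∏ l' ∈ Finset.univ.erase l, s l').totalDegree)
      (Finset.mem_univ l)
  · rw [← Finset.mul_prod_erase Finset.univ s (Finset.mem_univ l), map_mul, map_mul, ← hrs]
    ring

end Pool.Agent.Lib.MP_410da7_agB
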