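import Pool.Agent.Lib.MP_410da7_agB.SpecE
import Pool.Agent.Lib.MP_410da7_agV.EV1
import Pool.Agent.Lib.MP_410da7_agV.EV2
import Pool.Agent.Lib.MP_410da7_agA.E5
import Pool.Agent.Lib.MP_410da7_agA.E6Aux

/-!
# MP_410da7_ag, nef boundary (C46, T1), E3N: transport of the certificate (helper66)

After `MP_410da7_agV/EV3.lean`.
-/

set_option autoImplicit false

namespace Pool.Agent.Lib.MP_410da7_agB

open Pool.Agent.Lib.MP_410da7_agA
open MvPolynomial Module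

namespace e3NAux

open e6Aux

variable {L Λ k Λ' : Type} [Field L] [Field Λ] [Algebra L Λ] [Field k] [Field Λ'] [Algebra k Λ']
  {s : Spz L Λ k Λ'}

/-- a unit of `O` and its image -/
structure UV (s : Spz L Λ k Λ') (x : Λ) (x' : Λ') : Prop where
  un : Un s x
  v : s.v x = x'

theorem UV.mul {a b : Λ} {a' b' : Λ'} (ha : UV s a a') (hb : UV s b b') :
    UV s (a * b) (a' * b') :=
  ⟨ha.un.mul hb.un, by rw [e6Aux.v_mul ha.un.mem hb.un.mem, ha.v, hb.v]⟩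

theorem UV.inv {a : Λ} {a' : Λ'} (ha : UV s a a') : UV s a⁻¹ a'⁻¹ :=
  ⟨ha.un.symm, by rw [ha.un.v_inv, ha.v]⟩

theorem UV.div {a b : Λ} {a' b' : Λ'} (ha : UV s a a') (hb : UV s b b') :
    UV s (a / b) (a' / b') := by
  rw [div_eq_mul_inv, div_eq_mul_inv]
  exact ha.mul hb.inv

theorem UV.pow {a : Λ} {a' : Λ'} (ha : UV s a a') (n : ℕ) : UV s (a ^ n) (a' ^ n) :=
  ⟨ha.un.pow n, by rw [v_pow ha.un.mem, ha.v]⟩

theorem UV.zpow {a : Λ} {a' : Λ'} (ha : UV s a a') (n : ℤ) : UV s (a ^ n) (a' ^ n) :=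
  ⟨(ha.un.zpow n).1, by rw [(ha.un.zpow n).2, ha.v]⟩

theorem UV.one : UV s (1 : Λ) (1 : Λ') :=
  ⟨⟨one_ne_zero, s.O.one_mem, by rw [inv_one]; exact s.O.one_mem⟩, v_one⟩

theorem UV.prod {ι : Type} (t : Finset ι) {f : ι → Λ} {f' : ι → Λ'}
    (h : ∀ i ∈ t, UV s (f i) (f' i)) : UV s (∏ i ∈ t, f i) (∏ i ∈ t, f' i) := by
  classical
  induction t using Finset.induction_on with
  | empty =>
    rw [Finset.prod_empty, Finset.prod_empty]
    exact UV.one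
  | insert i t hi ih =>
    rw [Finset.prod_insert hi, Finset.prod_insert hi]
    exact (h i (Finset.mem_insert_self i t)).mul
      (ih fun j hj => h j (Finset.mem_insert_of_mem hj))

theorem UV.ne {a : Λ} {a' : Λ'} (ha : UV s a a') : a' ≠ 0 := by
  rw [← ha.v]
  exact ha.un.vne

theorem in_prod {V ι : Type} (t : Finset ι) (f : ι → MvPolynomial V L)
    (h : ∀ i ∈ t, s.In (f i)) :
    s.In (∏ i ∈ t, f i) ∧ s.red (∏ i ∈ t, f i) = ∏ i ∈ t, s.red (f i) := by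
  classical
  induction t using Finset.induction_on with
  | empty =>
    rw [Finset.prod_empty, Finset.prod_empty]
    exact (e5 L Λ k Λ' s V).2.2.1
  | insert i t hi ih =>
    obtain ⟨h1, h2⟩ := ih fun j hj => h j (Finset.mem_insert_of_mem hj)
    have h3 := in_mul e5 (h i (Finset.mem_insert_self i t)) h1
    rw [Finset.prod_insert hi, Finset.prod_insert hi, h3.2, h2]
    exact ⟨h3.1, rfl⟩

variable {M κ r d : ℕ} {b₀ : Fin (M + 1)} {tt : Finset (Fin (M + 1))}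

/-- the transported relation -/
noncomputable def redT {F : Fin κ → MvPolynomial (Fin (M + 1)) L}
    {F' : Fin κ → MvPolynomial (Fin (M + 1)) k} (s : Spz L Λ k Λ') (T : LogPolyN F b₀ tt)
    (hrel : ∀ t ∈ tt, X t * s.red T.χ ^ T.N * X b₀ ^ T.E -
      (∏ i, s.red (T.a i) ^ T.lam i) * s.red (T.q t) ∈ Ideal.span (Set.range F')) :
    LogPolyN F' b₀ tt where
  s := T.s
  a := fun i => s.red (T.a i)
  χ := s.red T.χ
  q := fun t => s.red (T.q t)
  e := T.e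
  lam := T.lam
  e₁ := T.e₁
  e₂ := T.e₂
  N := T.N
  E := T.E
  ha := fun i => hom e5 (T.ha i)
  hχ := hom e5 T.hχ
  hq := fun t ht => hom e5 (T.hq t ht)
  deg := T.deg
  rel := hrel

theorem rel {F : Fin κ → MvPolynomial (Fin (M + 1)) L} (T : LogPolyN F b₀ tt)
    (t : Fin (M + 1)) (w : Fin κ → MvPolynomial (Fin (M + 1)) L)
    (hw : ∑ j, w j * F j = X t * T.χ ^ T.N * X b₀ ^ T.E - (∏ i, T.a i ^ T.lam i) * T.q t)
    (ha : ∀ i, s.In (T.a i)) (hχ : s.In T.χ) (hq : s.In (T.q t)) (hwI : ∀ j, s.In (w j))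
    (hF : ∀ j, s.In (F j)) :
    X t * s.red T.χ ^ T.N * X b₀ ^ T.E - (∏ i, s.red (T.a i) ^ T.lam i) * s.red (T.q t) ∈
      Ideal.span (Set.range fun j => s.red (F j)) := by
  refine Ideal.mem_span_range_iff_exists_fun.2 ⟨fun j => s.red (w j), ?_⟩
  have h1 : X t * T.χ ^ T.N * X b₀ ^ T.E =
      ∑ j, w j * F j + (∏ i, T.a i ^ T.lam i) * T.q t := by
    rw [hw]
    ring
  have hX0 := in_X (s := s) (V := Fin (M + 1)) e5 t
  have hXb := in_pow (s := s) e5 (in_X e5 b₀).1 T.E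
  have hχN := in_pow e5 hχ T.N
  have hL1 := in_mul e5 hX0.1 hχN.1
  have hL2 := in_mul e5 hL1.1 hXb.1
  have hS := in_sum (s := s) e5 Finset.univ (fun j => w j * F j)
    (fun j _ => (in_mul e5 (hwI j) (hF j)).1)
  have haN := in_prod (s := s) Finset.univ (fun i => T.a i ^ T.lam i)
    fun i _ => (in_pow e5 (ha i) _).1
  have hR1 := in_mul e5 haN.1 hq
  have hR2 := in_add e5 hS.1 hR1.1
  have h2 : s.red (X t * T.χ ^ T.N * X b₀ ^ T.E) =
      s.red (∑ j, w j * F j + (∏ i, T.a i ^ T.lam i) * T.q t) := by rw [h1]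
  rw [hL2.2, hL1.2, hX0.2, hχN.2, hXb.2, (in_X e5 b₀).2, hR2.2, hS.2, hR1.2, haN.2] at h2
  have h3 : ∏ i, s.red (T.a i ^ T.lam i) = ∏ i, s.red (T.a i) ^ T.lam i :=
    Finset.prod_congr rfl fun i _ => (in_pow e5 (ha i) _).2
  rw [h2, h3, add_sub_cancel_right]
  exact Finset.sum_congr rfl fun j _ => ((in_mul e5 (hwI j) (hF j)).2).symm

theorem uv_of {q : ℕ} {CL : Finset L} {E : Finset Λ} (h : s.Ok q CL E) {y : Λ} (hy : y ∈ E)
    (h0 : y ≠ 0) : UV s y (s.v y) := ⟨un_of h hy h0, rfl⟩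

/-- the elements of `LocInf` -/
theorem uv_loc {S : System L M κ r d} (n m₀ e₀ E₁ : ℕ)
    {y : Fin (M + 1) → Λ} {l t : Fin (M + 1)} {α g : Λ} {T : LogPolyN S.F b₀ tt}
    {J : Fin r → Fin κ} {S' : System k M κ r d}
    (hrel : ∀ t ∈ tt, X t * s.red T.χ ^ T.N * X b₀ ^ T.E -
      (∏ i, s.red (T.a i) ^ T.lam i) * s.red (T.q t) ∈ Ideal.span (Set.range S'.F))
    (hJ : UV s (minor S.F S.I₀ y J) (minor S'.F S'.I₀ (fun l => s.v (y l)) J))
    (hα : UV s α (s.v α)) (hg : UV s g (s.v g)) (hb : UV s (y b₀) (s.v (y b₀)))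
    (hl : UV s (y l) (s.v (y l))) (ht : UV s (y t) (s.v (y t)))
    (hχ : UV s (aeval y T.χ) (aeval (fun l => s.v (y l)) (s.red T.χ)))
    (ha : ∀ i, UV s (aeval y (T.a i)) (aeval (fun l => s.v (y l)) (s.red (T.a i)))) :
    UV s (aeval y T.χ / y b₀ ^ T.e₁)⁻¹
      (aeval (fun l => s.v (y l)) (redT s T hrel).χ / s.v (y b₀) ^ (redT s T hrel).e₁)⁻¹ ∧
    UV s (tauN S n m₀ e₀ y b₀ α T J (y l))⁻¹
      (tauN S' n m₀ e₀ (fun l => s.v (y l)) b₀ (s.v α) (redT s T hrel) J (s.v (y l)))⁻¹ ∧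
    UV s ((∏ i, (aeval y (T.a i) / y b₀ ^ T.e i) ^ T.lam i) * y b₀ / y t)
      ((∏ i, (aeval (fun l => s.v (y l)) ((redT s T hrel).a i) /
        s.v (y b₀) ^ (redT s T hrel).e i) ^ (redT s T hrel).lam i) *
          s.v (y b₀) / s.v (y t)) ∧
    UV s (y b₀ * g / y l ^ E₁) (s.v (y b₀) * s.v g / s.v (y l) ^ E₁) := by
  refine ⟨(hχ.div (hb.pow _)).inv, ?_, ?_, (hb.mul hg).div (hl.pow _)⟩
  · exact ((((hα.mul (hJ.pow m₀)).mul (hb.zpow _)).mul
      ((UV.prod Finset.univ fun i _ => (ha i).div (hb.pow (T.e i))).pow m₀)).div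
        (hl.pow e₀)).inv
  · exact ((UV.prod Finset.univ fun i _ =>
      ((ha i).div (hb.pow (T.e i))).pow (T.lam i)).mul hb).div ht

end e3NAux

open e3NAux e6Aux in
theorem e3N : E3NStmt := by
  classical
  intro L Λ _ _ _ M κ r d n m₀ e₀ E₁ E₂ S tt y b₀ α g hC
  obtain ⟨t, T, hχ0, ha0, hloc⟩ := hC.c_inf
  have hz : y b₀ ≠ 0 := by
    intro h
    have := hC.trans
    rw [h] at this
    exact this isAlgebraic_zero
  have hw₀ : ∀ (i : Fin t) (x : Fin (M + 1)), ∃ w : Fin κ → MvPolynomial (Fin (M + 1)) L,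
      x ∈ tt → ∑ j, w j * S.F j = X x * (T i).χ ^ (T i).N * X b₀ ^ (T i).E -
        (∏ j, (T i).a j ^ (T i).lam j) * (T i).q x := by
    intro i x
    by_cases hx : x ∈ tt
    · obtain ⟨w, hw⟩ := Ideal.mem_span_range_iff_exists_fun.1 ((T i).rel x hx)
      exact ⟨w, fun _ => hw⟩
    · exact ⟨0, fun h => absurd h hx⟩
  choose w hw using hw₀
  -- the elements
  obtain ⟨G₀, hG₀⟩ : ∃ G₀ : Finset Λ, G₀ = Finset.univ.image y ∪
    (Finset.univ.image (fun l => y l / y b₀) ∪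
    (Finset.univ.image (fun J => (α * minor S.F S.I₀ y J ^ m₀)⁻¹) ∪
    (Finset.univ.image (fun i : Fin t => (aeval y (T i).χ / y b₀ ^ (T i).e₁)⁻¹) ∪
    (Finset.univ.image (fun p : Fin t × (Fin r → Fin κ) × Fin (M + 1) =>
      (tauN S n m₀ e₀ y b₀ α (T p.1) p.2.1 (y p.2.2))⁻¹) ∪
    (Finset.univ.image (fun p : Fin t × Fin (M + 1) =>
      (∏ j, (aeval y ((T p.1).a j) / y b₀ ^ (T p.1).e j) ^ (T p.1).lam j) * y b₀ / y p.2) ∪
    (Finset.univ.image (fun l => y b₀ * g / y l ^ E₁) ∪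
    (Finset.univ.image (fun p : Fin (M + 1) × Fin (M + 1) => y p.1 / y p.2 ^ E₂) ∪
      {g}))))))) := ⟨_, rfl⟩
  have g1 : ∀ l, y l ∈ G₀ := fun l => by
    have : y l ∈ Finset.univ.image y := Finset.mem_image_of_mem _ (Finset.mem_univ l)
    rw [hG₀]
    simp only [Finset.mem_union]
    tauto
  have g2 : ∀ l, y l / y b₀ ∈ G₀ := fun l => by
    have : y l / y b₀ ∈ Finset.univ.image (fun l => y l / y b₀) :=
      Finset.mem_image.2 ⟨l, Finset.mem_univ _, rfl⟩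
    rw [hG₀]
    simp only [Finset.mem_union]
    tauto
  have g3 : ∀ J, (α * minor S.F S.I₀ y J ^ m₀)⁻¹ ∈ G₀ := fun J => by
    have : (α * minor S.F S.I₀ y J ^ m₀)⁻¹ ∈
        Finset.univ.image (fun J => (α * minor S.F S.I₀ y J ^ m₀)⁻¹) :=
      Finset.mem_image.2 ⟨J, Finset.mem_univ _, rfl⟩
    rw [hG₀]
    simp only [Finset.mem_union]
    tauto
  have g4 : ∀ i, (aeval y (T i).χ / y b₀ ^ (T i).e₁)⁻¹ ∈ G₀ := fun i => by
    have : (aeval y (T i).χ / y b₀ ^ (T i).e₁)⁻¹ ∈ Finset.univ.image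
        (fun i : Fin t => (aeval y (T i).χ / y b₀ ^ (T i).e₁)⁻¹) :=
      Finset.mem_image.2 ⟨i, Finset.mem_univ _, rfl⟩
    rw [hG₀]
    simp only [Finset.mem_union]
    tauto
  have g5 : ∀ i J l, (tauN S n m₀ e₀ y b₀ α (T i) J (y l))⁻¹ ∈ G₀ := fun i J l => by
    have : (tauN S n m₀ e₀ y b₀ α (T i) J (y l))⁻¹ ∈ Finset.univ.image
        (fun p : Fin t × (Fin r → Fin κ) × Fin (M + 1) =>
          (tauN S n m₀ e₀ y b₀ α (T p.1) p.2.1 (y p.2.2))⁻¹) :=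
      Finset.mem_image.2 ⟨(i, J, l), Finset.mem_univ _, rfl⟩
    rw [hG₀]
    simp only [Finset.mem_union]
    tauto
  have g6 : ∀ i x, (∏ j, (aeval y ((T i).a j) / y b₀ ^ (T i).e j) ^ (T i).lam j) * y b₀ /
      y x ∈ G₀ := fun i x => by
    have : (∏ j, (aeval y ((T i).a j) / y b₀ ^ (T i).e j) ^ (T i).lam j) * y b₀ / y x ∈
        Finset.univ.image (fun p : Fin t × Fin (M + 1) =>
          (∏ j, (aeval y ((T p.1).a j) / y b₀ ^ (T p.1).e j) ^ (T p.1).lam j) * y b₀ /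
            y p.2) :=
      Finset.mem_image.2 ⟨(i, x), Finset.mem_univ _, rfl⟩
    rw [hG₀]
    simp only [Finset.mem_union]
    tauto
  have g7 : ∀ l, y b₀ * g / y l ^ E₁ ∈ G₀ := fun l => by
    have : y b₀ * g / y l ^ E₁ ∈ Finset.univ.image (fun l => y b₀ * g / y l ^ E₁) :=
      Finset.mem_image.2 ⟨l, Finset.mem_univ _, rfl⟩
    rw [hG₀]
    simp only [Finset.mem_union]
    tauto
  have g8 : ∀ x l, y x / y l ^ E₂ ∈ G₀ := fun x l => by
    have : y x / y l ^ E₂ ∈ Finset.univ.image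
        (fun p : Fin (M + 1) × Fin (M + 1) => y p.1 / y p.2 ^ E₂) :=
      Finset.mem_image.2 ⟨(x, l), Finset.mem_univ _, rfl⟩
    rw [hG₀]
    simp only [Finset.mem_union]
    tauto
  have g9 : g ∈ G₀ := by
    rw [hG₀]
    simp only [Finset.mem_union, Finset.mem_singleton]
    tauto
  obtain ⟨CL2, E2, h2⟩ := MP_410da7_agV.eV2 MP_410da7_agV.eV1 L Λ
    (G₀.filter fun g => g ≠ 0) fun g hg => (Finset.mem_filter.1 hg).2
  obtain ⟨CT, hCT⟩ : ∃ CT : Fin t → Finset L, CT = fun i => cf (T i).χ ∪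
    (Finset.univ.biUnion (fun x => cf ((T i).q x)) ∪
    (Finset.univ.biUnion (fun j => cf ((T i).a j)) ∪
      Finset.univ.biUnion (fun x => Finset.univ.biUnion (fun j => cf (w i x j))))) := ⟨_, rfl⟩
  obtain ⟨CL, hCL⟩ : ∃ CL : Finset L, CL = cf S.g ∪ (Finset.univ.biUnion (fun j => cf (S.F j)) ∪
    (Finset.univ.biUnion (fun j => Finset.univ.biUnion fun i => cf (S.A j i)) ∪
    (Finset.univ.biUnion CT ∪ CL2))) := ⟨_, rfl⟩
  obtain ⟨E, hE⟩ : ∃ E : Finset Λ, E = G₀ ∪ (E2 ∪ ({α, aeval y S.g} ∪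
    (Finset.univ.image (fun J => minor S.F S.I₀ y J) ∪
    (Finset.univ.image (fun i => aeval y (T i).χ) ∪
    Finset.univ.biUnion (fun i => Finset.univ.image fun j => aeval y ((T i).a j)))))) :=
      ⟨_, rfl⟩
  have hG₀E : G₀ ⊆ E := fun a ha => by
    rw [hE]
    simp only [Finset.mem_union]
    tauto
  have hE2 : E2 ⊆ E := fun a ha => by
    rw [hE]
    simp only [Finset.mem_union]
    tauto
  have hC2 : CL2 ⊆ CL := fun a ha => by
    rw [hCL]
    simp only [Finset.mem_union]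
    tauto
  have hFC : ∀ j, cf (S.F j) ⊆ CL := fun j a ha => by
    have : a ∈ Finset.univ.biUnion (fun j => cf (S.F j)) :=
      Finset.mem_biUnion.2 ⟨j, Finset.mem_univ j, ha⟩
    rw [hCL]
    simp only [Finset.mem_union]
    tauto
  have hAC : ∀ j i, cf (S.A j i) ⊆ CL := fun j i a ha => by
    have : a ∈ Finset.univ.biUnion (fun j => Finset.univ.biUnion fun i => cf (S.A j i)) :=
      Finset.mem_biUnion.2 ⟨j, Finset.mem_univ j, Finset.mem_biUnion.2 ⟨i, Finset.mem_univ i, ha⟩⟩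
    rw [hCL]
    simp only [Finset.mem_union]
    tauto
  have hgC : cf S.g ⊆ CL := fun a ha => by
    rw [hCL]
    simp only [Finset.mem_union]
    tauto
  have hTC : ∀ i, CT i ⊆ CL := fun i a ha => by
    have : a ∈ Finset.univ.biUnion CT := Finset.mem_biUnion.2 ⟨i, Finset.mem_univ i, ha⟩
    rw [hCL]
    simp only [Finset.mem_union]
    tauto
  have hTχC : ∀ i, cf (T i).χ ⊆ CL := fun i a ha => hTC i (by
    rw [hCT]
    simp only [Finset.mem_union]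
    tauto)
  have hTqC : ∀ i x, cf ((T i).q x) ⊆ CL := fun i x a ha => hTC i (by
    have : a ∈ Finset.univ.biUnion (fun x => cf ((T i).q x)) :=
      Finset.mem_biUnion.2 ⟨x, Finset.mem_univ x, ha⟩
    rw [hCT]
    simp only [Finset.mem_union]
    tauto)
  have hTaC : ∀ i j, cf ((T i).a j) ⊆ CL := fun i j a ha => hTC i (by
    have : a ∈ Finset.univ.biUnion (fun j => cf ((T i).a j)) :=
      Finset.mem_biUnion.2 ⟨j, Finset.mem_univ j, ha⟩
    rw [hCT]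
    simp only [Finset.mem_union]
    tauto)
  have hwC : ∀ i x j, cf (w i x j) ⊆ CL := fun i x j a ha => hTC i (by
    have : a ∈ Finset.univ.biUnion (fun x => Finset.univ.biUnion (fun j => cf (w i x j))) :=
      Finset.mem_biUnion.2 ⟨x, Finset.mem_univ x, Finset.mem_biUnion.2 ⟨j, Finset.mem_univ j, ha⟩⟩
    rw [hCT]
    simp only [Finset.mem_union]
    tauto)
  have hαE : α ∈ E := by rw [hE]; simp
  have hgE : aeval y S.g ∈ E := by rw [hE]; simp
  have hJE : ∀ J, minor S.F S.I₀ y J ∈ E := fun J => by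
    have : minor S.F S.I₀ y J ∈ Finset.univ.image (fun J => minor S.F S.I₀ y J) :=
      Finset.mem_image_of_mem _ (Finset.mem_univ J)
    rw [hE]
    simp only [Finset.mem_union]
    tauto
  have hχE : ∀ i, aeval y (T i).χ ∈ E := fun i => by
    have : aeval y (T i).χ ∈ Finset.univ.image (fun i => aeval y (T i).χ) :=
      Finset.mem_image.2 ⟨i, Finset.mem_univ i, rfl⟩
    rw [hE]
    simp only [Finset.mem_union]
    tauto
  have haE : ∀ i j, aeval y ((T i).a j) ∈ E := fun i j => by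
    have : aeval y ((T i).a j) ∈ Finset.univ.biUnion
        (fun i => Finset.univ.image fun j => aeval y ((T i).a j)) :=
      Finset.mem_biUnion.2 ⟨i, Finset.mem_univ i, Finset.mem_image.2 ⟨j, Finset.mem_univ j, rfl⟩⟩
    rw [hE]
    simp only [Finset.mem_union]
    tauto
  refine ⟨CL, E, fun l => hG₀E (g1 l), fun j m hm => hFC j (mem_cf hm), ?_⟩
  intro k Λ' _ _ _ s q hok htr hfin
  have cmem : ∀ G : MvPolynomial (Fin (M + 1)) L, cf G ⊆ CL → s.In G := fun G hG =>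
    in_of fun a ha => (hok.hC a (hG ha)).1
  have hF : ∀ j, s.In (S.F j) := fun j => cmem _ (hFC j)
  have hA : ∀ j i, s.In (S.A j i) := fun j i => cmem _ (hAC j i)
  have hg : s.In S.g := cmem _ hgC
  have hTχ : ∀ i, s.In (T i).χ := fun i => cmem _ (hTχC i)
  have hTq : ∀ i x, s.In ((T i).q x) := fun i x => cmem _ (hTqC i x)
  have hTa : ∀ i j, s.In ((T i).a j) := fun i j => cmem _ (hTaC i j)
  have hwI : ∀ i x j, s.In (w i x j) := fun i x j => cmem _ (hwC i x j)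
  have hy : ∀ l, y l ∈ s.O := fun l => (hok.hE _ (hG₀E (g1 l))).1
  have uα : UV s α (s.v α) := uv_of hok hαE hC.α0
  have ug : UV s g (s.v g) := uv_of hok (hG₀E g9) hC.gne
  have uy : ∀ l, y l ≠ 0 → UV s (y l) (s.v (y l)) := fun l hl => uv_of hok (hG₀E (g1 l)) hl
  have uχ : ∀ i, UV s (aeval y (T i).χ) (aeval (fun l => s.v (y l)) (s.red (T i).χ)) :=
    fun i => ⟨un_of hok (hχE i) (hχ0 i), (v_aeval e5 (hTχ i) hy).2⟩
  have ua : ∀ i j, UV s (aeval y ((T i).a j))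
      (aeval (fun l => s.v (y l)) (s.red ((T i).a j))) :=
    fun i j => ⟨un_of hok (haE i j) (ha0 i j), (v_aeval e5 (hTa i j) hy).2⟩
  have hrel : ∀ j, s.red S.g * s.red (S.F j) = ∑ i, s.red (S.A j i) * s.red (S.F (S.J₀ i)) := by
    intro j
    rw [← (in_mul e5 hg (hF j)).2, S.rel j, (in_sum e5 Finset.univ _ fun i _ =>
      (in_mul e5 (hA j i) (hF (S.J₀ i))).1).2]
    exact Finset.sum_congr rfl fun i _ => (in_mul e5 (hA j i) (hF (S.J₀ i))).2
  obtain ⟨S', hS', hSI, hSJ, hSg⟩ : ∃ S' : System k M κ r d,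
      (S'.F = fun j => s.red (S.F j)) ∧ S'.I₀ = S.I₀ ∧ S'.J₀ = S.J₀ ∧ S'.g = s.red S.g :=
    ⟨⟨fun j => s.red (S.F j), fun j => hom e5 (S.hom j), S.I₀, S.J₀, s.red S.g,
      fun j i => s.red (S.A j i), hrel⟩, rfl, rfl, rfl, rfl⟩
  have hminor : ∀ J : Fin r → Fin κ, s.v (minor S.F S.I₀ y J) =
      minor S'.F S'.I₀ (fun l => s.v (y l)) J := by
    intro J
    rw [(v_minor e5 S.I₀ J hF hy).2, hS', hSI]
  have uJ : ∀ J, minor S.F S.I₀ y J ≠ 0 → UV s (minor S.F S.I₀ y J)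
      (minor S'.F S'.I₀ (fun l => s.v (y l)) J) := fun J hJ =>
    ⟨un_of hok (hJE J) hJ, hminor J⟩
  have hTrel : ∀ i, ∀ x ∈ tt, X x * s.red (T i).χ ^ (T i).N * X b₀ ^ (T i).E -
      (∏ j, s.red ((T i).a j) ^ (T i).lam j) * s.red ((T i).q x) ∈
        Ideal.span (Set.range S'.F) := by
    intro i x hx
    rw [hS']
    exact rel (T i) x (w i x) (hw i x hx) (hTa i) (hTχ i) (hTq i x) (hwI i x) hF
  -- transport at `V'`
  have key : ∀ V' : ValuationSubring Λ', (∀ c : k, algebraMap k Λ' c ∈ V') →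
      ∃ V : ValuationSubring Λ, (∀ c : L, algebraMap L Λ c ∈ V) ∧
        (∀ x ∈ G₀, (x ∈ V ↔ s.v x ∈ V')) := by
    intro V' hV'
    obtain ⟨V, hV, h3⟩ := h2 k Λ' s q (ok_mono hok hC2 hE2) V' hV'
    refine ⟨V, hV, ?_⟩
    intro x hx
    by_cases hx0 : x = 0
    · rw [hx0, v_zero]
      exact ⟨fun _ => V'.zero_mem, fun _ => V.zero_mem⟩
    · exact h3 x (Finset.mem_filter.2 ⟨hx, hx0⟩)
  have hχ' : ∀ i, aeval (fun l => s.v (y l)) (redT s (T i) (hTrel i)).χ ≠ 0 :=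
    fun i => (uχ i).ne
  have ha' : ∀ i j, aeval (fun l => s.v (y l)) ((redT s (T i) (hTrel i)).a j) ≠ 0 :=
    fun i j => (ua i j).ne
  have hloc' : ∀ V' : ValuationSubring Λ', (∀ c : k, algebraMap k Λ' c ∈ V') →
      s.v (y b₀) ∉ V' → ∃ (i : Fin t) (J : Fin r → Fin κ) (l x : Fin (M + 1)),
        LocInf S' tt n m₀ e₀ E₁ E₂ (fun l => s.v (y l)) b₀ (s.v α) (s.v g)
          (redT s (T i) (hTrel i)) J l x V' := by
    intro V' hV' hb'
    obtain ⟨V, hV, h4⟩ := key V' hV'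
    obtain ⟨i, J, l, x, hL⟩ := hloc V hV fun h => hb' ((h4 _ (g1 b₀)).1 h)
    refine ⟨i, J, l, x, ?_⟩
    obtain ⟨k1, k2, k3, k4⟩ := uv_loc (t := x) n m₀ e₀ E₁ (hTrel i) (uJ J hL.J0) uα ug
      (uy _ hz) (uy l hL.l0) (uy x hL.t0) (uχ i) (ua i)
    refine ⟨(uJ J hL.J0).ne, (uy l hL.l0).ne, hL.tmem, (uy x hL.t0).ne, ?_, ?_, ?_, ?_, ?_⟩
    · rw [← k1.v]
      exact (h4 _ (g4 _)).1 hL.χV
    · rw [← k2.v]
      exact (h4 _ (g5 _ _ _)).1 hL.τV
    · have h7 := (h4 _ (g6 i x)).1 hL.ζV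
      rw [k3.v] at h7
      exact h7
    · have h7 := (h4 _ (g7 l)).1 hL.xV
      rw [k4.v] at h7
      exact h7
    · intro x' hx'
      have h7 := (h4 _ (g8 x' l)).1 (hL.rV x' hx')
      rw [v_div (hy x') ((uy l hL.l0).pow E₂).un, v_pow (hy l)] at h7
      exact h7
  refine ⟨S', fun j => by rw [hS'], ⟨?_, ?_, ?_, ?_⟩⟩
  · refine ⟨hC.dimM, ?_, hC.tt0, ?_, ?_, ?_, htr, hfin, hC.m0, hC.e0, uα.ne, ug.ne, ?_, ?_, ?_,
      ?_, ⟨t, _, hχ', ha', hloc'⟩⟩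
    · show s.v (y 0) = 1
      rw [hC.y0, v_one]
    · intro j
      rw [hS', ← (v_aeval e5 (hF j) hy).2, hC.yF, v_zero]
    · rw [hSg, ← (v_aeval e5 hg hy).2]
      exact (un_of hok hgE hC.g0).vne
    · rw [hSJ]
      exact (uJ _ hC.J0).ne
    · intro V' hV' hb' l
      obtain ⟨V, hV, h4⟩ := key V' hV'
      exact (h4 _ (g1 l)).1 (hC.y_fin V hV ((h4 _ (g1 b₀)).2 hb') l)
    · intro V' hV' hb' l
      obtain ⟨V, hV, h4⟩ := key V' hV'
      show s.v (y l) / s.v (y b₀) ∈ V'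
      rw [← v_div (hy _) (uy _ hz).un]
      exact (h4 _ (g2 l)).1 (hC.y_inf V hV (fun h => hb' ((h4 _ (g1 b₀)).1 h)) l)
    · intro V' hV' hb'
      obtain ⟨V, hV, h4⟩ := key V' hV'
      exact (h4 _ g9).1 (hC.g_fin V hV ((h4 _ (g1 b₀)).2 hb'))
    · intro V' hV' hb'
      obtain ⟨V, hV, h4⟩ := key V' hV'
      obtain ⟨J, hJ, hJV⟩ := hC.c_fin V hV ((h4 _ (g1 b₀)).2 hb')
      refine ⟨J, (uJ J hJ).ne, ?_⟩
      have h7 := (h4 _ (g3 J)).1 hJV
      rw [(uα.mul ((uJ J hJ).pow m₀)).inv.v] at h7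
      exact h7
  · intro j
    rw [hS']
    exact fixed e5 hok (hF j)
  · rw [hSg]
    exact fixed e5 hok hg
  · exact ⟨t, fun i => redT s (T i) (hTrel i), fun i j => fixed e5 hok (hTa i j),
      fun i => fixed e5 hok (hTχ i), hχ', ha', hloc'⟩

end Pool.Agent.Lib.MP_410da7_agB
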