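import Pool.Agent.Lib.MP_410da7_agB.Defs

/-!
# MP_410da7_ag, nef boundary (C46, version 3): block F (the family) and the theorem in characteristic p

As in version 2 (`MP_410da7_agA/L/Defs.lean`: F13L, F14L, FG15L, FG16L), but the conclusion on the
coordinate `x_0` is replaced by: the coordinates `x_t`, `t ∈ tt`, of the deformed curve have poles at
most `R`.
-/

set_option autoImplicit false

namespace Pool.Agent.Lib.MP_410da7_agB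

open Pool.Agent.Lib.MP_410da7_agA
open MvPolynomial Module

/-- F13N. The coordinates in `tt` keep their poles.
PROOF. The proof of `f13LAux.regular` (`MP_410da7_agA/L/F13L.lean`) with `X t` instead of `X 0`. Let
`Ω`, `s` be as there (`f13Aux.exists_point`), so that `push (C.cf w i) p ∈ 𝔓` iff the coefficient of
`t^i` of `ev C w s p` is zero (`ev_coeff`). CASE `P w = 0`: then `R w = 0` (`R0`, `RP`) and
`f13Aux.low_coeff` (degree `1`) gives the claim for `i < 0`. CASE `0 < P w`: the relation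
`x_t χ^N x_b^E = ∏ a_i^{λ_i} q_t` (`T.rel t`): `ev(χ(h))` has order exactly `- e₁ P_w`, `ev(x_b(h))` order
exactly `- P_w`, `ev(a_i(h))` order at least `μ'_i - e_i P_w`, `ev(q_t(h))` at least `- e₂ P_w`. By `deg`
`ev(x_t(h))` is zero or has order at least `∑ λ_i μ'_i - P_w ≥ - R_w`. -/
def F13NStmt : Prop :=
  ∀ (k Λ : Type) [Field k] [Field Λ] [Algebra k Λ] (C : Curve k Λ) (M κ r d D : ℕ)
    (S : System k M κ r d) (tt : Finset (Fin (M + 1))) (Y : Fin (M + 1) → Λ)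
    (P R ℓ μ : C.pt → ℤ) (b₀ : Fin (M + 1)),
    PtDataN C S tt Y P R ℓ μ b₀ → ∀ (ω : Fin D → Λ), (∀ j, ω j ∈ C.L P) →
    ∀ (𝔓 : Ideal (MvPolynomial (Fin (M + 1) × Fin D) k)), 𝔓.IsPrime →
    𝔓 ≤ mx (Fin (M + 1) × Fin D) k → (∀ j, hval Y ω (S.F j) ∈ ext Λ 𝔓) →
    (∀ w, 0 < P w → ∃ (T : LogPolyN S.F b₀ tt) (μ' : Fin T.s → ℕ), aeval Y T.χ ≠ 0 ∧
      C.ord w (aeval Y T.χ) = - (T.e₁ * P w) ∧ P w ≤ R w + ∑ i, (T.lam i : ℤ) * μ' i ∧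
      ∀ i, ∀ j < (μ' i : ℤ) - T.e i * P w, push (C.cf w j) (hval Y ω (T.a i)) ∈ 𝔓) →
    ∀ t ∈ tt, ∀ w, ∀ i < - R w, push (C.cf w i) (hpt Y ω t) ∈ 𝔓

/-- F14N. THE FAMILY.
PROOF. The proof of `f14L` (`MP_410da7_agA/L/F14L.lean`) with `LogPolyN`, and F13N at the end. -/
def F14NStmt : Prop :=
  ∀ (k Λ : Type) [Field k] [Field Λ] [Algebra k Λ] (C : Curve k Λ) (M κ r d b D n : ℕ)
    (S : System k M κ r d) (tt : Finset (Fin (M + 1))) (Y : Fin (M + 1) → Λ)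
    (P R ℓ μ : C.pt → ℤ) (b₀ : Fin (M + 1)),
    PtDataN C S tt Y P R ℓ μ b₀ → ∀ (c : Fin b → C.pt), Function.Injective c → 0 < b →
    (∀ i, P (c i) = 0) → ∀ (ω : Fin D → Λ), LinearIndependent k ω →
    Submodule.span k (Set.range ω) = C.L (P - ptDiv c) → M = n + r →
    ∑ᶠ w, ℓ w + ∑ᶠ w, μ w < (n + 1) * D →
    ∃ 𝔓 : Ideal (MvPolynomial (Fin (M + 1) × Fin D) k), 𝔓.IsPrime ∧
      𝔓 ≤ mx (Fin (M + 1) × Fin D) k ∧ 𝔓 ≠ mx (Fin (M + 1) × Fin D) k ∧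
      (∀ j, hval Y ω (S.F j) ∈ ext Λ 𝔓) ∧
      ∀ t ∈ tt, ∀ w, ∀ i < - R w, push (C.cf w i) (hpt Y ω t) ∈ 𝔓

/-- FG15N. Frobenius: as FG15L (`MP_410da7_agA/L/FG15L.lean`); `R` is scaled as well. -/
def FG15NStmt : Prop :=
  ∀ (k Λ : Type) [Field k] [Field Λ] [Algebra k Λ] (p e₀ : ℕ) [Fact p.Prime] [CharP k p]
    (C : Curve k Λ) (M κ r d : ℕ) (S : System k M κ r d) (tt : Finset (Fin (M + 1)))
    (y : Fin (M + 1) → Λ) (P R ℓ μ : C.pt → ℤ) (b₀ : Fin (M + 1)) (m : ℕ), 0 < e₀ →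
    (∀ j, FixedBy (p ^ e₀) (S.F j)) → FixedBy (p ^ e₀) S.g → PtDataN C S tt y P R ℓ μ b₀ →
    (∀ w, 0 < P w → ∃ (T : LogPolyN S.F b₀ tt) (μ' : Fin T.s → ℕ),
      (∀ i, FixedBy (p ^ e₀) (T.a i)) ∧ FixedBy (p ^ e₀) T.χ ∧ ∑ i, (μ' i : ℤ) ≤ μ w ∧
      aeval y T.χ ≠ 0 ∧ C.ord w (aeval y T.χ) = - (T.e₁ * P w) ∧
      (∀ i, ∀ j < (μ' i : ℤ) - T.e i * P w, C.cf w j (aeval y (T.a i)) = 0) ∧
      P w ≤ R w + ∑ i, (T.lam i : ℤ) * μ' i) →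
    PtDataN C S tt (fun l => y l ^ (p ^ e₀) ^ m) (((p ^ e₀) ^ m : ℤ) • P)
      (((p ^ e₀) ^ m : ℤ) • R) (((p ^ e₀) ^ m : ℤ) • ℓ) (((p ^ e₀) ^ m : ℤ) • μ) b₀

/-- GN7. THE BUBBLE (the end of block G; the lemmas are in `SpecG.lean`, the proof is there). `𝔓` is a
prime ideal strictly smaller than the ideal of the origin, the `F_j(h)` vanish modulo `𝔓` and the
coordinates in `tt` have poles at most `R`. Then through the value of `Y` at one of the points `c i`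
there is a rational curve `Yp` of degree `≤ B₁`, and of degree `≤ B₂` in the coordinates in `tt`, which
is not constant in the projective space. -/
def GN7Stmt : Prop :=
  ∀ (k Λ : Type) [Field k] [Field Λ] [Algebra k Λ] (C : Curve k Λ) (M κ d D b B₁ B₂ : ℕ)
    (F : Fin κ → MvPolynomial (Fin (M + 1)) k), (∀ j, (F j).IsHomogeneous d) →
    ∀ (tt : Finset (Fin (M + 1))), 0 ∈ tt → ∀ (Y : Fin (M + 1) → Λ), Y 0 = 1 →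
    ∀ (P R : C.pt → ℤ), (∀ w, 0 ≤ R w) → (∀ w, R w ≤ P w) → {w | P w ≠ 0}.Finite →
    (∀ l, Y l ∈ C.L P) → (∀ t ∈ tt, Y t ∈ C.L R) →
    ∀ (b₀ : Fin (M + 1)), (∀ w, 0 < P w → Y b₀ ≠ 0 ∧ C.ord w (Y b₀) = - P w) →
    ∀ (c : Fin b → C.pt), Function.Injective c → (∀ i, P (c i) = 0) → B₂ ≤ B₁ →
    (B₂ + 1) * ∑ᶠ w, P w + (B₁ + 1) * ∑ᶠ w, R w < (B₁ + 1) * (B₂ + 1) * b →
    ∀ (ω : Fin D → Λ), LinearIndependent k ω → (∀ j, ω j ∈ C.L (P - ptDiv c)) →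
    ∀ (𝔓 : Ideal (MvPolynomial (Fin (M + 1) × Fin D) k)), 𝔓.IsPrime →
    𝔓 ≤ mx (Fin (M + 1) × Fin D) k → 𝔓 ≠ mx (Fin (M + 1) × Fin D) k →
    (∀ j, hval Y ω (F j) ∈ ext Λ 𝔓) →
    (∀ t ∈ tt, ∀ w, ∀ i < - R w, push (C.cf w i) (hpt Y ω t) ∈ 𝔓) →
    ∃ (i : Fin b) (k' : Type) (_ : Field k') (_ : Algebra k k')
      (Yp : Fin (M + 1) → Polynomial k'),
      (∀ j, aeval Yp (F j) = 0) ∧ (∀ l, (Yp l).natDegree ≤ B₁) ∧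
      (∀ t ∈ tt, (Yp t).natDegree ≤ B₂) ∧
      (∀ l, (Yp l).coeff 0 = algebraMap k k' (C.cf (c i) 0 (Y l))) ∧
      ∃ l, Yp l ≠ Polynomial.C (algebraMap k k' (C.cf (c i) 0 (Y l))) * Yp 0

/-- FG16N. THE THEOREM IN CHARACTERISTIC `p`.
PROOF. The proof of `fG16L` (`MP_410da7_agA/L/FG16L.lean`): `fG16Aux.numbers` with `B` replaced by
`(B₁ + 1)(B₂ + 1) - 1` and `s = (B₂ + 1) ∑ P + (B₁ + 1) ∑ R`; then FG15N, F14N and, instead of G4,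
`GN7Stmt`, applied to `q • P`, `q • R` (`(B₂+1) ∑ qP + (B₁+1) ∑ qR = q s < (B₁+1)(B₂+1) b`). The last
claim: `cf w 0 (y^q) = (cf w 0 y)^q` (`fG16Aux.cf_pow`). -/
def FG16NStmt : Prop :=
  ∀ (k Λ : Type) [Field k] [Field Λ] [Algebra k Λ] (p e₀ : ℕ) [Fact p.Prime] [CharP k p]
    (C : Curve k Λ) (M κ r d n : ℕ) (S : System k M κ r d) (tt : Finset (Fin (M + 1)))
    (y : Fin (M + 1) → Λ) (P R ℓ μ : C.pt → ℤ) (b₀ : Fin (M + 1)), M = n + r → 0 < e₀ →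
    (∀ j, FixedBy (p ^ e₀) (S.F j)) →
    FixedBy (p ^ e₀) S.g → PtDataN C S tt y P R ℓ μ b₀ →
    (∀ w, 0 < P w → ∃ (T : LogPolyN S.F b₀ tt) (μ' : Fin T.s → ℕ),
      (∀ i, FixedBy (p ^ e₀) (T.a i)) ∧ FixedBy (p ^ e₀) T.χ ∧ ∑ i, (μ' i : ℤ) ≤ μ w ∧
      aeval y T.χ ≠ 0 ∧ C.ord w (aeval y T.χ) = - (T.e₁ * P w) ∧
      (∀ i, ∀ j < (μ' i : ℤ) - T.e i * P w, C.cf w j (aeval y (T.a i)) = 0) ∧
      P w ≤ R w + ∑ i, (T.lam i : ℤ) * μ' i) →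
    ∀ (a' γ : ℤ) (B₁ B₂ : ℕ), B₂ ≤ B₁ → 1 ≤ a' →
    ∑ᶠ w, ℓ w + ∑ᶠ w, μ w + a' ≤ (n + 1) * ∑ᶠ w, P w →
    (n + 1) * ((B₂ + 1) * ∑ᶠ w, P w + (B₁ + 1) * ∑ᶠ w, R w) < (B₁ + 1) * (B₂ + 1) * a' →
    (∀ m : ℕ, (m : ℤ) * ∑ᶠ w, P w ≤ finrank k (C.L ((m : ℤ) • P)) + γ) →
    ∀ (U : Set C.pt), U.Infinite → (∀ w ∈ U, P w = 0) →
    ∃ (m : ℕ) (w : C.pt) (_ : w ∈ U) (k' : Type) (_ : Field k') (_ : Algebra k k')
      (Yp : Fin (M + 1) → Polynomial k'),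
      (∀ j, aeval Yp (S.F j) = 0) ∧ (∀ l, (Yp l).natDegree ≤ B₁) ∧
      (∀ t ∈ tt, (Yp t).natDegree ≤ B₂) ∧
      (∀ l, (Yp l).coeff 0 = algebraMap k k' (C.cf w 0 (y l) ^ (p ^ e₀) ^ m)) ∧
      ∃ l, Yp l ≠ Polynomial.C (algebraMap k k' (C.cf w 0 (y l) ^ (p ^ e₀) ^ m)) * Yp 0

end Pool.Agent.Lib.MP_410da7_agB
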