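import Pool.Agent.Lib.MP_410da7_agB.SpecE
import Pool.Agent.Lib.MP_410da7_agB.SpecF
import Pool.Agent.Lib.MP_410da7_agA.E9
import Pool.Agent.Lib.MP_410da7_agA.F1
import Pool.Agent.Lib.MP_410da7_agA.F2
import Pool.Agent.Lib.MP_410da7_agA.E1
import Pool.Agent.Lib.MP_410da7_agA.E2
import Pool.Agent.Lib.MP_410da7_agA.E3
import Pool.Agent.Lib.MP_410da7_agA.E4
import Pool.Agent.Lib.MP_410da7_agA.FF1
import Pool.Agent.Lib.MP_410da7_agA.FF2
import Pool.Agent.Lib.MP_410da7_agA.FF3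
import Pool.Agent.Lib.MP_410da7_agA.FF4
import Pool.Agent.Lib.MP_410da7_agA.FF5
import Pool.Agent.Lib.MP_410da7_agA.FF6
import Pool.Agent.Lib.MP_410da7_agA.FF7
import Pool.Agent.Lib.MP_410da7_agA.FF8
import Pool.Agent.Lib.MP_410da7_agA.FF9
import Pool.Agent.Lib.MP_410da7_agA.FF10

/-!
# MP_410da7_ag, nef boundary (C46, T1), EFGN: the end theorem of the blocks E, F, G
-/

set_option autoImplicit false

namespace Pool.Agent.Lib.MP_410da7_agB

open Pool.Agent.Lib.MP_410da7_agA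
open MvPolynomial Module

open efgAux

theorem eFGN (he3n : E3NStmt) (he8n : E8NStmt) (he9n : E9NStmt) (hfg16n : FG16NStmt) :
    EFGNStmt := by
  have hff5 : FF5Stmt := ff5 ff2 ff3 ff4
  have hff7 : FF7Stmt := ff7 f1
  have hff10 : FF10Stmt := ff10 f2 ff8 (ff9 f2 ff6)
  have he4 : E4Stmt := e4 e1 e2 e3
  intro L Λ _ _ _ _ M κ r d n m₀ e₀ E₁ E₂ B₁ B₂ S tt y b₀ α g hc hB21 hB
  classical
  by_contra hno
  obtain ⟨Bd, hBd⟩ : ∃ Bd : Fin (M + 1) → ℕ, Bd = fun l => if l ∈ tt then B₂ else B₁ := ⟨_, rfl⟩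
  have hBd1 : ∀ l, Bd l ≤ B₁ := by
    intro l
    rw [hBd]
    by_cases h : l ∈ tt
    · simp only [h, if_true]
      exact hB21
    · simp only [h, if_false]
      exact le_rfl
  have hBd2 : ∀ t ∈ tt, Bd t = B₂ := by
    intro t ht
    rw [hBd]
    simp only [ht, if_true]
  -- E9N
  obtain ⟨E', hE'⟩ := he9n Λ (M + 1) κ Bd (fun j => map (algebraMap L Λ) (S.F j)) y 0 hc.y0 (by
    rintro ⟨Ω, _, iΩ, Y, hY, hYB, hYy, hYl⟩
    apply hno
    let iL : Algebra L Ω := ((algebraMap Λ Ω).comp (algebraMap L Λ)).toAlgebra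
    refine ⟨Ω, inferInstance, iL, iΩ, IsScalarTower.of_algebraMap_eq' rfl, Y, ?_,
      fun l => (hYB l).trans (hBd1 l), fun t ht => (hYB t).trans (hBd2 t ht).le, hYy, hYl⟩
    intro j
    rw [← hY j, aeval_def, aeval_def, eval₂_map]
    rfl)
  -- E3N, E4
  obtain ⟨CL, E, hyE, hFC, hE⟩ := he3n L Λ M κ r d n m₀ e₀ E₁ E₂ S tt y b₀ α g hc
  obtain ⟨p, e, hp, k, Λ', i1, i2, i3, i4, i5, s, he, hOk, -, htr, hfd⟩ :=
    he4 L Λ (y b₀) hc.trans hc.fin CL (E ∪ E')
  have hOk' : s.Ok (p ^ e) CL E :=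
    ⟨hOk.hC, fun u hu => hOk.hE u (Finset.mem_union_left _ hu), hOk.frob⟩
  obtain ⟨S', hS', hcQ⟩ := hE k Λ' s (p ^ e) hOk' htr hfd
  -- the curve
  obtain ⟨x, hx⟩ := ff1 k Λ' (s.v (y b₀)) htr hfd
  obtain ⟨C, hC⟩ := hff5 k Λ' x hx
  obtain ⟨hinf, hpole⟩ := hff7 k Λ' C hC x hx
  obtain ⟨P, hP⟩ : ∃ P : C.pt → ℤ, P = fun w => max 0 (-(C.ord w (s.v (y b₀)))) := ⟨_, rfl⟩
  obtain ⟨R, ℓ, μ, a', hPt, hlog, ha', hsum, hlt⟩ := he8n k Λ' C (p ^ e) M κ r d n m₀ e₀ E₁ E₂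
    B₁ B₂ S' tt (fun l => s.v (y l)) b₀ (s.v α) (s.v g) hcQ hB (hpole _ htr) P
    (fun w => by rw [hP])
  obtain ⟨γ, hγ⟩ := hff10 k Λ' C hC x hx
  -- the set of good points
  obtain ⟨U, hU⟩ : ∃ U : Set C.pt, U = {w | P w = 0 ∧ ∀ u ∈ E ∪ E', 0 ≤ C.ord w (s.v u)} :=
    ⟨_, rfl⟩
  have hUinf : U.Infinite := by
    have hfin : Uᶜ.Finite := by
      have h10 : ({w | P w ≠ 0} ∪ ⋃ u ∈ (E ∪ E' : Finset Λ),
          {w | C.ord w (s.v u) ≠ 0}).Finite := by
        refine hPt.Pfin.union (Set.Finite.biUnion (Finset.finite_toSet _) fun u _ => ?_)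
        by_cases hu : s.v u = 0
        · have h11 : {w | C.ord w (s.v u) ≠ 0} = ∅ := by
            ext w
            simp [hu, Curve.ord]
          rw [h11]
          exact Set.finite_empty
        · exact C.finite _ hu
      refine h10.subset fun w hw => ?_
      rw [hU, Set.mem_compl_iff, Set.mem_ofPred_eq] at hw
      by_cases hw0 : P w = 0
      · right
        by_contra h11
        apply hw
        refine ⟨hw0, fun u hu => ?_⟩
        by_contra h12
        apply h11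
        rw [Set.mem_iUnion₂]
        exact ⟨u, hu, fun h13 => h12 h13.ge⟩
      · left
        exact hw0
    intro hUf
    exact Set.infinite_univ (α := C.pt) (by
      rw [← Set.union_compl_self U]
      exact hUf.union hfin)
  obtain ⟨m, w, hwU, k', i6, i7, Yp, hYp, hYpB, hYpBt, hYpy, hYpl⟩ := hfg16n k Λ' p e C M κ r d n
    S' tt (fun l => s.v (y l)) P R ℓ μ b₀ hc.dimM he hcQ.F_fix hcQ.g_fix hPt hlog a' γ B₁ B₂ hB21
    ha' hsum hlt
    (by
      intro m
      have h10 := hγ ((m : ℤ) • P) (hPt.Pfin.subset fun w hw h0 => hw (by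
        change (m : ℤ) • P w = 0
        rw [h0, smul_zero]))
      have h11 : ∑ᶠ w, ((m : ℤ) • P) w = (m : ℤ) * ∑ᶠ w, P w := by
        rw [mul_finsum]
        rfl
      rwa [h11] at h10)
    U hUinf (fun w hw => by rw [hU] at hw; exact hw.1)
  rw [hU] at hwU
  obtain ⟨-, hwU⟩ := hwU
  -- the homomorphism
  let ε : rr s C w →+* k' :=
    (algebraMap k k').comp ((iterateFrobenius k p (e * m)).comp ((vh C w).comp (rh s C w)))
  have hε : ∀ u : rr s C w, ε u = algebraMap k k' ((C.exp w (s.v u)).coeff 0 ^ (p ^ e) ^ m) := by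
    intro u
    rw [← pow_mul]
    rfl
  have hmem : ∀ u ∈ E ∪ E', u ∈ rr s C w := fun u hu =>
    ⟨(hOk.hE u hu).1, mem_vr_of_ord C w (hwU u hu)⟩
  have hA : ∀ j m', coeff m' (S.F j) ∈ s.A := by
    intro j m'
    by_cases h : m' ∈ (S.F j).support
    · exact (hOk.hC _ (hFC j m' h)).1
    · rw [notMem_support_iff.1 h]
      exact s.A.zero_mem
  have hfinal := hE' (rr s C w) (fun u hu => hmem u (Finset.mem_union_right _ hu)) k' ε
    (fun j => map (algebraMap k k') (S'.F j)) (by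
      intro j m'
      have h10 : algebraMap L Λ (coeff m' (S.F j)) ∈ rr s C w := by
        refine ⟨s.incl ⟨_, hA j m'⟩, ?_⟩
        rw [v_alg s (hA j m')]
        exact alg_mem_vr C w _
      have h11 : coeff m' (map (algebraMap L Λ) (S.F j)) = algebraMap L Λ (coeff m' (S.F j)) :=
        coeff_map _ _ _
      refine ⟨by rw [h11]; exact h10, ?_⟩
      rw [hε]
      simp only [h11]
      rw [v_alg s (hA j m'), cf_alg, coeff_map, hS' j, coeff_red, pow_fix (hOk.frob _ (hA j m'))])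
    Yp (by
      intro j
      rw [← hYp j, aeval_def, aeval_def, eval₂_map]
      rfl)
    (by
      intro l
      by_cases h : l ∈ tt
      · rw [hBd2 l h]
        exact hYpBt l h
      · rw [hBd]
        simp only [h, if_false]
        exact hYpB l) (by
      intro l
      refine ⟨hmem _ (Finset.mem_union_left _ (hyE l)), ?_⟩
      rw [hε, hYpy l]
      rfl)
  obtain ⟨l, hl⟩ := hYpl
  apply hl
  rw [← hYpy l]
  exact hfinal l

end Pool.Agent.Lib.MP_410da7_agB
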