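import Pool.Agent.Lib.MP_410da7_agB.SpecF
import Pool.Agent.Lib.MP_410da7_agA.L.F13L

/-!
# MP_410da7_ag, nef boundary, F13N (helper7)

The coordinates in `tt` keep their poles.
-/

set_option autoImplicit false

namespace Pool.Agent.Lib.MP_410da7_agB

open Pool.Agent.Lib.MP_410da7_agA
open MvPolynomial Module

namespace f13NAux

open EvW f13Aux f13LAux

variable {k Λ : Type} [Field k] [Field Λ] [Algebra k Λ] {Ω : Type} [Field Ω] [Algebra k Ω]

/-- The relation at a pole: `ev (x_t(h))` has poles at most `R`. -/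
lemma regular (hf10 : F10Stmt) (C : Curve k Λ) {M κ r d D : ℕ} {S : System k M κ r d}
    {tt : Finset (Fin (M + 1))} {Y : Fin (M + 1) → Λ} {P R ℓ μ : C.pt → ℤ} {b₀ : Fin (M + 1)}
    (hD : PtDataN C S tt Y P R ℓ μ b₀)
    {ω : Fin D → Λ} (hω : ∀ j, ω j ∈ C.L P) {𝔓 : Ideal (MvPolynomial (Fin (M + 1) × Fin D) k)}
    (h𝔓 : 𝔓 ≤ mx (Fin (M + 1) × Fin D) k) (hF : ∀ j, hval Y ω (S.F j) ∈ ext Λ 𝔓)
    (s : Fin (M + 1) × Fin D → Ω) (hs : ∀ q, aeval s q = 0 ↔ q ∈ 𝔓) (w : C.pt) (hw : 0 < P w)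
    (T : LogPolyN S.F b₀ tt) (μ' : Fin T.s → ℕ) (hχ : aeval Y T.χ ≠ 0)
    (hχord : C.ord w (aeval Y T.χ) = - (T.e₁ * P w))
    (hPT : P w ≤ R w + ∑ i, (T.lam i : ℤ) * μ' i)
    (hT : ∀ i, ∀ j < (μ' i : ℤ) - T.e i * P w, push (C.cf w j) (hval Y ω (T.a i)) ∈ 𝔓)
    (t : Fin (M + 1)) (ht : t ∈ tt) (i : ℤ) (hi : i < - R w) :
    (ev C w s (hval Y ω (X t : MvPolynomial (Fin (M + 1)) k))).coeff i = 0 := by
  have hs' : ∀ q : MvPolynomial (Fin (M + 1) × Fin D) k, aeval s q = 0 →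
      q ∈ mx (Fin (M + 1) × Fin D) k := fun q hq => h𝔓 ((hs q).1 hq)
  let Φ : MvPolynomial (Fin (M + 1)) k →+* LaurentSeries Ω :=
    (ev C w s).comp (aeval (hpt Y ω) : MvPolynomial (Fin (M + 1)) k →ₐ[k] _).toRingHom
  have hΦ : ∀ G, Φ G = ev C w s (hval Y ω G) := fun G => rfl
  have hker : Ideal.span (Set.range S.F) ≤ RingHom.ker Φ := by
    rw [Ideal.span_le]
    rintro _ ⟨j, rfl⟩
    rw [SetLike.mem_coe, RingHom.mem_ker, hΦ]
    exact ev_ext C w s (fun q hq => (hs q).2 hq) (hF j)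
  have hrel := hker (T.rel t ht)
  rw [RingHom.mem_ker, map_sub, map_mul, map_mul, map_mul, map_pow, map_pow, map_prod,
    sub_eq_zero] at hrel
  obtain ⟨c0, cord⟩ := order_ev hf10 C w P hD.YP hω T.hχ s hs' hχ hχord
  obtain ⟨b0, bord⟩ := order_ev hf10 C w P hD.YP hω (isHomogeneous_X k b₀) s hs'
    (by rw [aeval_X]; exact (hD.Yb w hw).1)
    (by rw [aeval_X, (hD.Yb w hw).2, Nat.cast_one, one_mul])
  rw [← hΦ] at c0 cord b0 bord ⊢
  by_cases hx : Φ (X t) = 0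
  · rw [hx, HahnSeries.coeff_zero]
  have hL : Φ (X t) * Φ T.χ ^ T.N * Φ (X b₀) ^ T.E ≠ 0 :=
    mul_ne_zero (mul_ne_zero hx (pow_ne_zero _ c0)) (pow_ne_zero _ b0)
  have hR := hL
  rw [hrel] at hR
  have hq0 := right_ne_zero_of_mul hR
  have hP0 := left_ne_zero_of_mul hR
  have ha0 : ∀ i, Φ (T.a i ^ T.lam i) ≠ 0 := fun i =>
    Finset.prod_ne_zero_iff.1 hP0 i (Finset.mem_univ i)
  have hord := congrArg HahnSeries.order hrel
  rw [HahnSeries.order_mul (mul_ne_zero hx (pow_ne_zero _ c0)) (pow_ne_zero _ b0),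
    HahnSeries.order_mul hx (pow_ne_zero _ c0), HahnSeries.order_mul hP0 hq0,
    HahnSeries.order_pow, HahnSeries.order_pow, cord, bord] at hord
  have hqo : -(T.e₂ * P w) ≤ (Φ (T.q t)).order :=
    le_order hq0 (low_coeff hf10 C w P hD.YP hω (T.hq t ht) s)
  have hao : ∀ i ∈ Finset.univ, (T.lam i : ℤ) * (μ' i - T.e i * P w) ≤
      (Φ (T.a i ^ T.lam i)).order := by
    intro i _
    rw [map_pow, HahnSeries.order_pow, nsmul_eq_mul]
    rcases Nat.eq_zero_or_pos (T.lam i) with h0 | h0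
    · rw [h0, Nat.cast_zero, zero_mul, zero_mul]
    · have h1 : Φ (T.a i) ≠ 0 := by
        intro h
        apply ha0 i
        rw [map_pow, h, zero_pow h0.ne']
      refine mul_le_mul_of_nonneg_left (le_order h1 fun j hj => ?_) (by positivity)
      rw [hΦ, ev_coeff, hs]
      exact hT i j hj
  have hprod := (order_prod Finset.univ (fun i => Φ (T.a i ^ T.lam i))
    (fun i => (T.lam i : ℤ) * (μ' i - T.e i * P w)) (fun i _ => ha0 i) hao).2
  have hdeg : (1 + T.N * T.e₁ + T.E : ℤ) = (∑ i, (T.lam i : ℤ) * T.e i) + T.e₂ := by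
    exact_mod_cast T.deg
  simp only [nsmul_eq_mul, Nat.cast_one] at hord
  have hsum : ∑ i, (T.lam i : ℤ) * (μ' i - T.e i * P w) =
      (∑ i, (T.lam i : ℤ) * μ' i) - (∑ i, (T.lam i : ℤ) * T.e i) * P w := by
    rw [Finset.sum_mul, ← Finset.sum_sub_distrib]
    refine Finset.sum_congr rfl fun i _ => ?_
    ring
  rw [hsum] at hprod
  have hdegP : (1 + T.N * T.e₁ + T.E : ℤ) * P w =
      ((∑ i, (T.lam i : ℤ) * T.e i) + T.e₂) * P w := by rw [hdeg]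
  have h0 : - R w ≤ (Φ (X t)).order := by nlinarith
  exact HahnSeries.coeff_eq_zero_of_lt_order (lt_of_lt_of_le hi h0)

end f13NAux

open EvW f13Aux in
theorem f13N (hf10 : F10Stmt) : F13NStmt := by
  intro k Λ _ _ _ C M κ r d D S tt Y P R ℓ μ b₀ hD ω hω 𝔓 h𝔓p h𝔓 hF hlog t ht w i hi
  have := h𝔓p
  obtain ⟨Ω, _, _, s, hs⟩ := exists_point 𝔓
  have hX : hpt Y ω t = hval Y ω (X t : MvPolynomial (Fin (M + 1)) k) := by rw [hval, aeval_X]
  rw [← hs, ← ev_coeff, hX]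
  have hP0 : 0 ≤ P w := (hD.R0 w).trans (hD.RP w)
  rcases hP0.lt_or_eq with hw | hw
  · obtain ⟨T, μ', h1, h2, h3, h4⟩ := hlog w hw
    exact f13NAux.regular hf10 C hD hω h𝔓 hF s hs w hw T μ' h1 h2 h3 h4 t ht i hi
  · refine low_coeff hf10 C w P hD.YP hω (isHomogeneous_X k t) s i ?_
    have h1 := hD.R0 w
    rw [← hw, mul_zero, neg_zero]
    omega

end Pool.Agent.Lib.MP_410da7_agB
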