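import Pool.Agent.Lib.MP_410da7_agB.SpecF
import Pool.Agent.Lib.MP_410da7_agA.FG16

/-!
# MP_410da7_ag, nef boundary (C46), version 3: FG16N

The theorem in characteristic `p`. The proof of `fG16L`.
-/

set_option autoImplicit false

namespace Pool.Agent.Lib.MP_410da7_agB

open Pool.Agent.Lib.MP_410da7_agA
open MvPolynomial Module

open EvW fG16Aux in
theorem fG16N (hf4 : F4Stmt) (hf14n : F14NStmt) (hfg15n : FG15NStmt) (hgn7 : GN7Stmt) :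
    FG16NStmt := by
  classical
  intro k Λ _ _ _ p e₀ hpp _ C M κ r d n S tt y P R ℓ μ b₀ hM he hSF hSg hD hlog a' γ B₁ B₂ hB ha
    hsum hlt hγ U hU hUP
  have hQ : 2 ≤ p ^ e₀ := by
    calc 2 ≤ p := hpp.out.two_le
      _ = p ^ 1 := (pow_one p).symm
      _ ≤ p ^ e₀ := Nat.pow_le_pow_right hpp.out.pos he
  have hBB : (((B₁ + 1) * (B₂ + 1) - 1 : ℕ) : ℤ) + 1 = (B₁ + 1) * (B₂ + 1) := by
    have h1 : (B₁ + 1) * (B₂ + 1) - 1 + 1 = (B₁ + 1) * (B₂ + 1) :=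
      Nat.sub_add_cancel (Nat.mul_pos (Nat.succ_pos _) (Nat.succ_pos _))
    exact_mod_cast h1
  obtain ⟨m, b, hb, hb1, hb2⟩ := numbers n ((B₁ + 1) * (B₂ + 1) - 1) a' γ
    ((B₂ + 1) * ∑ᶠ w, P w + (B₁ + 1) * ∑ᶠ w, R w) (p ^ e₀) hQ ha (by rw [hBB]; exact hlt)
  rw [hBB] at hb2
  have hcast : ((p ^ e₀) ^ m : ℤ) = (((p ^ e₀) ^ m : ℕ) : ℤ) := by push_cast; rfl
  set q : ℕ := (p ^ e₀) ^ m with hq
  have hq0 : 0 < q := pow_pos (pow_pos hpp.out.pos _) _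
  have hD' := hfg15n k Λ p e₀ C M κ r d S tt y P R ℓ μ b₀ m he hSF hSg hD hlog
  rw [hcast] at hD'
  -- the points
  let c : Fin b → C.pt := fun i => (hU.natEmbedding U i : C.pt)
  have hcU : ∀ i, c i ∈ U := fun i => (hU.natEmbedding U i).2
  have hc : Function.Injective c := by
    intro i j h
    exact Fin.ext ((hU.natEmbedding U).injective (Subtype.ext h))
  have hqPc : ∀ i, ((q : ℤ) • P) (c i) = 0 := fun i => by
    rw [Pi.smul_apply, hUP _ (hcU i), smul_zero]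
  -- finite dimension
  have hfdq : FiniteDimensional k (C.L ((q : ℤ) • P)) := by
    refine f2 k Λ C (c ⟨0, hb⟩) _ (hD'.Pfin.subset fun w hw => ?_)
    exact ne_of_gt hw
  have hfd : FiniteDimensional k (C.L ((q : ℤ) • P - ptDiv c)) :=
    Submodule.finiteDimensional_of_le (L_sub_le C _ c)
  have hdim := hf4 k Λ C ((q : ℤ) • P) hfdq b c hc
  set D := finrank k (C.L ((q : ℤ) • P - ptDiv c)) with hDdef
  let bas := finBasis k (C.L ((q : ℤ) • P - ptDiv c))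
  let ω : Fin D → Λ := fun j => (bas j : Λ)
  have hω : LinearIndependent k ω :=
    bas.linearIndependent.map' (Submodule.subtype _) (Submodule.ker_subtype _)
  have hωspan : Submodule.span k (Set.range ω) = C.L ((q : ℤ) • P - ptDiv c) := by
    have h1 : Set.range ω = (C.L ((q : ℤ) • P - ptDiv c)).subtype '' Set.range bas := by
      rw [← Set.range_comp]
      rfl
    rw [h1, Submodule.span_image, bas.span_eq, Submodule.map_top, Submodule.range_subtype]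
  -- the sums
  have hsP : ∑ᶠ w, ((q : ℤ) • P) w = q * ∑ᶠ w, P w := (mul_finsum _ _).symm
  have hsR : ∑ᶠ w, ((q : ℤ) • R) w = q * ∑ᶠ w, R w := (mul_finsum _ _).symm
  have hsℓ : ∑ᶠ w, ((q : ℤ) • ℓ) w = q * ∑ᶠ w, ℓ w := (mul_finsum _ _).symm
  have hsμ : ∑ᶠ w, ((q : ℤ) • μ) w = q * ∑ᶠ w, μ w :=
    (mul_finsum _ _).symm
  have hcount : ∑ᶠ w, ((q : ℤ) • ℓ) w + ∑ᶠ w, ((q : ℤ) • μ) w < (n + 1) * D := by
    rw [hsℓ, hsμ]
    have h1 : (q : ℤ) * ∑ᶠ w, P w ≤ D + b + γ := by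
      have h2 := hγ q
      have h3 : (finrank k (C.L ((q : ℤ) • P)) : ℤ) ≤ D + b := by exact_mod_cast hdim
      linarith
    have h4 : (q : ℤ) * (∑ᶠ w, ℓ w + ∑ᶠ w, μ w + a') ≤ q * ((n + 1) * ∑ᶠ w, P w) :=
      mul_le_mul_of_nonneg_left hsum (by positivity)
    have h5 : ((n : ℤ) + 1) * (q * ∑ᶠ w, P w) ≤ (n + 1) * (D + b + γ) :=
      mul_le_mul_of_nonneg_left h1 (by positivity)
    nlinarith
  obtain ⟨𝔓, p1, p2, p3, p4, p5⟩ := hf14n k Λ C M κ r d b D n S tt _ _ _ _ _ b₀ hD' c hc hb hqPc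
    ω hω hωspan hM hcount
  have hineq : ((B₂ : ℤ) + 1) * ∑ᶠ w, ((q : ℤ) • P) w + (B₁ + 1) * ∑ᶠ w, ((q : ℤ) • R) w <
      (B₁ + 1) * (B₂ + 1) * b := by
    rw [hsP, hsR]
    refine lt_of_le_of_lt (le_of_eq ?_) hb2
    ring
  obtain ⟨i, k', _, _, Yp, y1, y2, y3, y4, y5⟩ := hgn7 k Λ C M κ d D b B₁ B₂ S.F S.hom tt hD'.tt0
    _ hD'.Y0 ((q : ℤ) • P) ((q : ℤ) • R) hD'.R0 hD'.RP hD'.Pfin hD'.YP hD'.YR b₀ hD'.Yb c hc hqPc
    hB hineq ω hω
    (fun j => by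
      rw [← hωspan]
      exact Submodule.subset_span ⟨j, rfl⟩) 𝔓 p1 p2 p3 p4 p5
  have hreg : ∀ l, ∀ i' < 0, C.cf (c i) i' (y l) = 0 := by
    intro l i' hi'
    apply hD.YP l (c i) i'
    rw [hUP _ (hcU i), neg_zero]
    exact hi'
  refine ⟨m, c i, hcU i, k', inferInstance, inferInstance, Yp, y1, y2, y3, fun l => ?_, ?_⟩
  · rw [y4 l, ← cf_pow C (c i) (y l) (hreg l)]
  · obtain ⟨l, hl⟩ := y5
    refine ⟨l, ?_⟩
    rw [← cf_pow C (c i) (y l) (hreg l)]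
    exact hl

end Pool.Agent.Lib.MP_410da7_agB
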