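import Pool.Agent.Lib.MP_410da7_agB.SpecG
import Pool.Agent.Lib.MP_410da7_agA.F3

/-!
# MP_410da7_ag, nef boundary: G1N, the number of the bad points
-/

set_option autoImplicit false

namespace Pool.Agent.Lib.MP_410da7_agB

open Pool.Agent.Lib.MP_410da7_agA
open MvPolynomial Module

open EvW in
theorem g1N : G1NStmt := by
  classical
  intro k Λ k' _ _ _ _ _ C D b B P Q hQ hQfin c hc hPc hQc ω hω hωL ρ hρ hρL S hS
  obtain ⟨j0, hj0⟩ : ∃ j, ρ j ≠ 0 := by
    by_contra h
    push Not at h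
    exact hρ (funext h)
  obtain ⟨φ, hφ⟩ : ∃ φ : k' →ₗ[k] k, φ (ρ j0) ≠ 0 := by
    by_contra h
    push Not at h
    exact hj0 ((Module.forall_dual_apply_eq_zero_iff k (ρ j0)).mp h)
  set y : Λ := ∑ j, φ (ρ j) • ω j with hy
  have hy0 : y ≠ 0 := by
    intro h0
    have := Fintype.linearIndependent_iff.mp hω (fun j => φ (ρ j)) h0 j0
    exact hφ this
  have hcf : ∀ w (m : ℤ), C.cf w m y = φ (∑ j, ρ j * algebraMap k k' (C.cf w m (ω j))) := by
    intro w m
    rw [hy, map_sum, map_sum]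
    refine Finset.sum_congr rfl fun j _ => ?_
    rw [map_smul, mul_comm (ρ j), ← Algebra.smul_def, map_smul, smul_eq_mul, smul_eq_mul, mul_comm]
  have hyL : y ∈ C.L Q := by
    intro w i hi
    have h1 := hcf w i
    rw [hρL w i hi, map_zero] at h1
    exact h1
  have hωc : ∀ j i, ∀ m : ℤ, m ≤ 0 → C.cf (c i) m (ω j) = 0 := by
    intro j i m hm
    apply hωL j (c i) m
    rw [Pi.sub_apply, ptDiv_apply hc, hPc]
    omega
  have hord : ∀ i ∈ S, ((B + 1 : ℕ) : ℤ) ≤ C.ord (c i) y := by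
    intro i hi
    by_contra hlt
    push Not at hlt
    have hne : C.exp (c i) y ≠ 0 := by
      rw [Ne, map_eq_zero]
      exact hy0
    have hcn : (C.exp (c i) y).coeff (C.exp (c i) y).order ≠ 0 :=
      HahnSeries.coeff_order_eq_zero.not.mpr hne
    apply hcn
    change (C.exp (c i) y).order < ((B + 1 : ℕ) : ℤ) at hlt
    change C.cf (c i) _ y = 0
    rw [hcf]
    rcases le_or_gt (C.exp (c i) y).order 0 with h1 | h1
    · rw [Finset.sum_eq_zero, map_zero]
      intro j _
      rw [hωc j i _ h1, map_zero, mul_zero]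
    · obtain ⟨m, hm⟩ := Int.eq_ofNat_of_zero_le h1.le
      rw [hm]
      rw [hS i hi m (by omega) (by omega), map_zero]
  let e : Fin S.card ≃ S := (Finset.equivFin S).symm
  have h3 := f3 k Λ C Q hQ hQfin S.card (B + 1) (fun i => c (e i))
    (fun i j h => e.injective (Subtype.ext (hc h))) (fun i => hQc _) y hyL hy0
    (fun i => hord _ (e i).2)
  rw [mul_comm] at h3
  exact h3

end Pool.Agent.Lib.MP_410da7_agB
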