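import Pool.Agent.Lib.MP_410da7_agB.SpecG
import Pool.Agent.Lib.MP_410da7_agV.GV3

/-!
# MP_410da7_ag, nef boundary: GN1, from `MP_410da7_agV/GV3.lean`
-/

set_option autoImplicit false

namespace Pool.Agent.Lib.MP_410da7_agB

open Pool.Agent.Lib.MP_410da7_agA
open MvPolynomial Module

theorem gN1 : GN1Stmt := by
  intro k V _ _ 𝔓 h1 h2 h3
  obtain ⟨Ω, i1, i2, i3, s, 𝒱, hs, hk, hr, v, hv⟩ :=
    Pool.Agent.Lib.MP_410da7_agV.gV3 k V 𝔓 h1 h2 h3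
  refine ⟨Ω, i1, i2, i3, s, 𝒱, hs, hk, ⟨v, hv⟩, ?_⟩
  intro x y hx hy
  obtain ⟨K, hK⟩ := hr y x hy hx
  refine ⟨K + 1, ?_⟩
  have hx0 : 0 < 𝒱.valuation x := by
    rw [zero_lt_iff]
    exact (Valuation.ne_zero_iff _).2 hx
  rw [pow_succ, map_mul]
  calc 𝒱.valuation (y ^ K) * 𝒱.valuation y ≤ 𝒱.valuation x * 𝒱.valuation y :=
        mul_le_mul_left hK _
    _ < 𝒱.valuation x * 1 := by
        exact mul_lt_mul_of_pos_left hy hx0
    _ = 𝒱.valuation x := mul_one _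

end Pool.Agent.Lib.MP_410da7_agB
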