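import Pool.Agent.Lib.MP_410da7_agB.GN5

/-!
# MP_410da7_ag, nef boundary: GN4, the bubble at a zero of `x_0`
-/

set_option autoImplicit false

namespace Pool.Agent.Lib.MP_410da7_agB

open Pool.Agent.Lib.MP_410da7_agA
open MvPolynomial Module

namespace gN4Aux

variable {Ω : Type} [Field Ω] (𝒱 : ValuationSubring Ω)

/-- A polynomial with constant term `1` and no zeros in the open unit disc has its coefficients in
the valuation ring. -/
theorem coeff_le_one [IsAlgClosed Ω] (p : Polynomial Ω) (h0 : p.coeff 0 = 1)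
    (hz : ∀ z, p.eval z = 0 → 1 ≤ 𝒱.valuation z) (m : ℕ) : 𝒱.valuation (p.coeff m) ≤ 1 := by
  have hp0 : p ≠ 0 := by
    intro h
    rw [h, Polynomial.coeff_zero] at h0
    exact zero_ne_one h0
  have hs := (IsAlgClosed.splits p).eq_prod_roots
  have hroot : ∀ z ∈ p.roots, z ≠ 0 ∧ z⁻¹ ∈ 𝒱 := by
    intro z hz1
    have h1 := (Polynomial.mem_roots hp0).1 hz1
    have h2 := hz z h1
    refine ⟨?_, ?_⟩
    · rintro rfl
      rw [map_zero] at h2
      exact absurd h2 (not_le.2 zero_lt_one)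
    · rw [← 𝒱.valuation_le_one_iff, map_inv₀]
      exact inv_le_one_of_one_le₀ h2
  have h1 : (p.roots.map fun z => Polynomial.X - Polynomial.C z) =
      p.roots.map fun z => Polynomial.C (-z) * (1 - Polynomial.C z⁻¹ * Polynomial.X) := by
    refine Multiset.map_congr rfl fun z hz1 => ?_
    have h2 := (hroot z hz1).1
    have h3 : Polynomial.C (-z) * (1 - Polynomial.C z⁻¹ * Polynomial.X) =
        Polynomial.C (-z) + Polynomial.C (z * z⁻¹) * Polynomial.X := by
      rw [Polynomial.C_mul, Polynomial.C_neg]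
      ring
    rw [h3, mul_inv_cancel₀ h2, Polynomial.C_neg, Polynomial.C_1]
    ring
  rw [h1, Multiset.prod_map_mul, ← mul_assoc] at hs
  have h2 : (p.roots.map fun z => (Polynomial.C (-z) : Polynomial Ω)).prod =
      Polynomial.C (p.roots.map fun z => -z).prod := by
    rw [map_multiset_prod, Multiset.map_map]
    rfl
  rw [h2, ← Polynomial.C_mul] at hs
  have h3 : ((p.roots.map fun z => (1 - Polynomial.C z⁻¹ * Polynomial.X : Polynomial Ω)).prod).coeff
      0 = 1 := by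
    rw [Polynomial.coeff_zero_eq_eval_zero, Polynomial.eval_multiset_prod, Multiset.map_map]
    rw [Multiset.prod_eq_one]
    intro x hx
    rw [Multiset.mem_map] at hx
    obtain ⟨z, _, rfl⟩ := hx
    simp
  have h4 := congrArg (fun q => Polynomial.coeff q 0) hs
  simp only [Polynomial.coeff_C_mul] at h4
  rw [h0, h3, mul_one] at h4
  rw [← h4, Polynomial.C_1, one_mul] at hs
  have h5 : p ∈ Polynomial.lifts 𝒱.subtype := by
    rw [hs]
    refine Subsemiring.multiset_prod_mem _ _ fun x hx => ?_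
    rw [Multiset.mem_map] at hx
    obtain ⟨z, hz1, rfl⟩ := hx
    refine ⟨1 - Polynomial.C ⟨z⁻¹, (hroot z hz1).2⟩ * Polynomial.X, ?_⟩
    simp
  rw [Polynomial.lifts_iff_coeff_lifts] at h5
  obtain ⟨x, hx⟩ := h5 m
  rw [← hx]
  exact (𝒱.valuation_le_one_iff _).2 x.2

/-- The coefficients of `f(z + t)`. -/
theorem taylor_coeff' (f : Polynomial Ω) (z : Ω) (m : ℕ) :
    (f.comp (Polynomial.X + Polynomial.C z)).coeff m =
      ∑ i ∈ f.support, f.coeff i * (z ^ (i - m) * (i.choose m : Ω)) := by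
  rw [Polynomial.comp_eq_sum_left, Polynomial.sum_def, Polynomial.finsetSum_coeff]
  refine Finset.sum_congr rfl fun i _ => ?_
  rw [Polynomial.coeff_C_mul, Polynomial.coeff_X_add_C_pow]

theorem natCast_le (n : ℕ) : 𝒱.valuation (n : Ω) ≤ 1 :=
  (𝒱.valuation_le_one_iff _).2 (natCast_mem 𝒱 n)

theorem fac_le {z : Ω} (hz : 𝒱.valuation z ≤ 1) (i m : ℕ) :
    𝒱.valuation (z ^ (i - m) * (i.choose m : Ω)) ≤ 1 := by
  rw [map_mul, map_pow]
  exact mul_le_one' (pow_le_one' hz _) (natCast_le 𝒱 _)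

theorem comp_lt {f : Polynomial Ω} {z x : Ω} (hz : 𝒱.valuation z ≤ 1) (hx : x ≠ 0)
    (h : ∀ m, 𝒱.valuation (f.coeff m) < 𝒱.valuation x) (m : ℕ) :
    𝒱.valuation ((f.comp (Polynomial.X + Polynomial.C z)).coeff m) < 𝒱.valuation x := by
  rw [taylor_coeff']
  refine 𝒱.valuation.map_sum_lt ((Valuation.ne_zero_iff _).2 hx) fun i _ => ?_
  rw [map_mul]
  exact lt_of_le_of_lt (mul_le_of_le_one_right' (fac_le 𝒱 hz i m)) (h i)

theorem comp_le {f : Polynomial Ω} {z x : Ω} (hz : 𝒱.valuation z ≤ 1)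
    (h : ∀ m, 𝒱.valuation (f.coeff m) ≤ 𝒱.valuation x) (m : ℕ) :
    𝒱.valuation ((f.comp (Polynomial.X + Polynomial.C z)).coeff m) ≤ 𝒱.valuation x := by
  rw [taylor_coeff']
  refine 𝒱.valuation.map_sum_le fun i _ => ?_
  rw [map_mul]
  exact (mul_le_of_le_one_right' (fac_le 𝒱 hz i m)).trans (h i)

/-- The top dominating coefficient is stable. -/
theorem comp_top {f : Polynomial Ω} {z : Ω} (hz : 𝒱.valuation z ≤ 1) (D₁ : ℕ)
    (h0 : f.coeff D₁ ≠ 0)
    (h : ∀ m, D₁ < m → 𝒱.valuation (f.coeff m) < 𝒱.valuation (f.coeff D₁)) :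
    𝒱.valuation ((f.comp (Polynomial.X + Polynomial.C z)).coeff D₁) =
      𝒱.valuation (f.coeff D₁) := by
  rw [taylor_coeff', ← Finset.add_sum_erase f.support
    (fun i => f.coeff i * (z ^ (i - D₁) * (i.choose D₁ : Ω)))
    (Polynomial.mem_support_iff.2 h0)]
  simp only [Nat.sub_self, pow_zero, Nat.choose_self, Nat.cast_one, mul_one]
  refine Valuation.map_add_eq_of_lt_left _ ?_
  refine 𝒱.valuation.map_sum_lt ((Valuation.ne_zero_iff _).2 h0) fun i hi => ?_
  rw [Finset.mem_erase] at hi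
  rcases lt_or_gt_of_ne hi.1 with hlt | hlt
  · rw [Nat.choose_eq_zero_of_lt hlt, Nat.cast_zero, mul_zero, mul_zero, map_zero]
    exact (Valuation.pos_iff _).2 h0
  · rw [map_mul]
    exact lt_of_le_of_lt (mul_le_of_le_one_right' (fac_le 𝒱 hz i D₁)) (h i hlt)

theorem comp_coeff_zero (f : Polynomial Ω) (z : Ω) :
    (f.comp (Polynomial.X + Polynomial.C z)).coeff 0 = f.eval z := by
  rw [Polynomial.coeff_zero_eq_eval_zero, Polynomial.eval_comp]
  simp

/-- Translation of the variable. -/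
theorem aeval_shift {k : Type} [Field k] [Algebra k Ω] {N : ℕ}
    (G : MvPolynomial (Fin N) k) (P : Fin N → Polynomial Ω) (z : Ω) :
    aeval (fun l => (P l).comp (Polynomial.X + Polynomial.C z)) G =
      (aeval P G).comp (Polynomial.X + Polynomial.C z) := by
  let φ : Polynomial Ω →ₐ[k] Polynomial Ω :=
    (Polynomial.aeval (Polynomial.X + Polynomial.C z : Polynomial Ω)).restrictScalars k
  have hφ : ∀ p : Polynomial Ω, φ p = p.comp (Polynomial.X + Polynomial.C z) := fun p => by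
    show Polynomial.aeval (Polynomial.X + Polynomial.C z : Polynomial Ω) p = _
    rw [Polynomial.aeval_def, Polynomial.comp]
    rfl
  have h2 := MvPolynomial.comp_aeval_apply P φ G
  rw [← hφ, h2]
  simp only [hφ]

/-- Reversal of a solution of homogeneous equations. -/
theorem reflect_zero {k K : Type} [Field k] [Field K] [Algebra k K] {N d o : ℕ}
    {G : MvPolynomial (Fin N) k} (hG : G.IsHomogeneous d) (Q : Fin N → Polynomial K)
    (hQ : ∀ l, (Q l).natDegree ≤ o) (h : aeval Q G = 0) :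
    aeval (fun l => Polynomial.reflect o (Q l)) G = 0 := by
  let x : RatFunc K := RatFunc.X⁻¹
  have hx0 : (RatFunc.X : RatFunc K) ≠ 0 := RatFunc.X_ne_zero
  let _ : Invertible x := invertibleOfNonzero (inv_ne_zero hx0)
  let ψ : Polynomial K →ₐ[k] RatFunc K :=
    (Polynomial.aeval (x : RatFunc K)).restrictScalars k
  let ι : Polynomial K →ₐ[k] RatFunc K :=
    (Polynomial.aeval (RatFunc.X : RatFunc K)).restrictScalars k
  have hι : ∀ p, ι p = algebraMap (Polynomial K) (RatFunc K) p := by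
    intro p
    show Polynomial.aeval (RatFunc.X : RatFunc K) p = _
    rw [← RatFunc.algebraMap_X, Polynomial.aeval_algebraMap_apply, Polynomial.aeval_X_left_apply]
  have hkey : ∀ l, ι (Polynomial.reflect o (Q l)) = RatFunc.X ^ o * ψ (Q l) := by
    intro l
    have h1 := Polynomial.eval₂_reflect_mul_pow (algebraMap K (RatFunc K)) x o (Q l) (hQ l)
    have h2 : ⅟x = RatFunc.X := by
      rw [invOf_eq_inv, inv_inv]
    rw [h2] at h1
    have h3 : ψ (Q l) = Polynomial.eval₂ (algebraMap K (RatFunc K)) x (Q l) := rfl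
    have h4 : ι (Polynomial.reflect o (Q l)) = Polynomial.eval₂ (algebraMap K (RatFunc K))
      RatFunc.X (Polynomial.reflect o (Q l)) := rfl
    rw [h3, ← h1, h4, mul_comm, mul_assoc, ← mul_pow, inv_mul_cancel₀ hx0, one_pow, mul_one]
  have h5 : ι (aeval (fun l => Polynomial.reflect o (Q l)) G) = 0 := by
    rw [MvPolynomial.comp_aeval_apply]
    simp only [hkey]
    rw [gN5Aux.aeval_smul hG]
    have h6 := MvPolynomial.comp_aeval_apply Q ψ G
    rw [← h6, h, map_zero, mul_zero]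
  rw [hι] at h5
  exact (map_eq_zero_iff _ (IsFractionRing.injective _ _)).1 h5

end gN4Aux

open gN5Aux gN4Aux in
theorem gN4 (hcd : CrossDownStmt) : GN4Stmt := by
  classical
  intro k Ω _ _ _ _ 𝒱 hk M κ d D₁ F hF y hy0 P₀ hP00 hu₀ hp₀ hp₀' hD1 b₀ G₀ G₁ δ hδ hE hG hFP
  set v := 𝒱.valuation with hv
  have hle1 : ∀ x : k, v (algebraMap k Ω x) ≤ 1 := fun x => (𝒱.valuation_le_one_iff _).2 (hk x)
  have hx0 : (P₀ 0).coeff D₁ ≠ 0 := by
    intro h
    rw [h, map_zero] at hD1
    exact not_lt_zero hD1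
  -- the zero
  obtain ⟨z, hz0, hz1⟩ : ∃ z, (P₀ 0).eval z = 0 ∧ v z < 1 := by
    by_contra hcon
    push Not at hcon
    exact absurd (coeff_le_one 𝒱 (P₀ 0) hP00 hcon D₁) (not_le.2 hD1)
  have hz : v z ≤ 1 := hz1.le
  obtain ⟨P, hPdef⟩ : ∃ P : Fin (M + 1) → Polynomial Ω,
      P = fun l => (P₀ l).comp (Polynomial.X + Polynomial.C z) := ⟨_, rfl⟩
  obtain ⟨u, hudef⟩ : ∃ u : Fin (M + 1) → Polynomial Ω,
      u = fun l => (P₀ l - Polynomial.C (algebraMap k Ω (y l)) * P₀ 0).comp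
        (Polynomial.X + Polynomial.C z) := ⟨_, rfl⟩
  have hucoeff : ∀ l m, (P l).coeff m = (u l).coeff m + algebraMap k Ω (y l) * (P 0).coeff m := by
    intro l m
    rw [hudef, hPdef]
    simp only [Polynomial.sub_comp, Polynomial.mul_comp, Polynomial.C_comp, Polynomial.coeff_sub,
      Polynomial.coeff_C_mul]
    ring
  have hPtop : v ((P 0).coeff D₁) = v ((P₀ 0).coeff D₁) := by
    rw [hPdef]
    exact comp_top 𝒱 hz D₁ hx0 hp₀'
  have hpz : (P 0).coeff 0 = 0 := by
    rw [hPdef]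
    simp only
    rw [comp_coeff_zero, hz0]
  -- the value of `P_{b₀}` at the zero
  have hGz : v ((G₁.eval z) * δ) ≤ 1 := by
    have h1 : ∀ m, v ((G₁ * Polynomial.C δ).coeff m) ≤ v 1 := by
      intro m
      rw [Polynomial.coeff_mul_C, map_one]
      exact hG m
    have h2 := comp_le 𝒱 hz h1 0
    rw [comp_coeff_zero, Polynomial.eval_mul, Polynomial.eval_C, map_one] at h2
    exact h2
  have hEz : v ((G₁.eval z) * ((P₀ b₀).eval z) - 1) < 1 := by
    have h1 : ∀ m, v ((G₀ * P₀ 0 + G₁ * P₀ b₀ - 1).coeff m) < v 1 := by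
      intro m
      rw [map_one]
      exact hE m
    have h2 := comp_lt 𝒱 hz one_ne_zero h1 0
    rw [comp_coeff_zero, map_one] at h2
    simp only [Polynomial.eval_sub, Polynomial.eval_add, Polynomial.eval_mul, hz0, mul_zero,
      zero_add, Polynomial.eval_one] at h2
    exact h2
  have hGP : v ((G₁.eval z) * ((P₀ b₀).eval z)) = 1 := by
    have h1 : (G₁.eval z) * ((P₀ b₀).eval z) =
        ((G₁.eval z) * ((P₀ b₀).eval z) - 1) + 1 := by ring
    have h2 : v ((G₁.eval z) * ((P₀ b₀).eval z) - 1) < v 1 := by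
      rw [map_one]
      exact hEz
    rw [h1, Valuation.map_add_eq_of_lt_right _ h2, map_one]
  have hδle : v δ ≤ v ((P₀ b₀).eval z) := by
    calc v δ = v δ * v ((G₁.eval z) * ((P₀ b₀).eval z)) := by rw [hGP, mul_one]
      _ = v ((G₁.eval z) * δ) * v ((P₀ b₀).eval z) := by
          rw [map_mul, map_mul]
          ac_rfl
      _ ≤ 1 * v ((P₀ b₀).eval z) := mul_le_mul_left hGz _
      _ = _ := one_mul _
  have hub : (u b₀).coeff 0 = (P₀ b₀).eval z := by
    rw [hudef]
    simp only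
    rw [comp_coeff_zero]
    simp only [Polynomial.eval_sub, Polynomial.eval_mul, Polynomial.eval_C, hz0, mul_zero,
      sub_zero]
  have hδ0 : 0 < v δ := (Valuation.pos_iff _).2 hδ
  have hub0 : (u b₀).coeff 0 ≠ 0 := by
    rw [hub]
    exact (Valuation.pos_iff _).1 (lt_of_lt_of_le hδ0 hδle)
  obtain ⟨τ, ν, o, hτ0, hν0, hτ1, hoD, c1, c2, ⟨l₁, m₁, c3⟩, c4, c5, c6⟩ :=
    hcd Ω 𝒱 (M + 1) D₁ (P 0) u hpz ⟨b₀, hub0⟩
      (by
        intro m
        rw [hPtop, hPdef]
        exact comp_le 𝒱 hz hp₀ m)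
      (by
        intro l m
        rw [hPtop, hudef]
        exact comp_lt 𝒱 hz hx0 (hu₀ l) m)
  have hδν : v δ ≤ v ν := by
    have h1 := c2 b₀ 0
    rw [pow_zero, mul_one, hub] at h1
    exact hδle.trans h1
  -- the scaled coefficients
  have hPle : ∀ l m, v ((P l).coeff m * τ ^ m) ≤ v ν := by
    intro l m
    have h1 : (P l).coeff m * τ ^ m = (u l).coeff m * τ ^ m +
        algebraMap k Ω (y l) * ((P 0).coeff m * τ ^ m) := by
      rw [hucoeff]
      ring
    rw [h1]
    refine v.map_add_le (c2 l m) ?_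
    rw [map_mul]
    exact (mul_le_of_le_one_left' (hle1 _)).trans (c1 m)
  have hmem : ∀ l m, ν⁻¹ * ((P l).coeff m * τ ^ m) ∈ 𝒱 := fun l m => mem_of_le 𝒱 (hPle l m) hν0
  have humem : ∀ l m, ν⁻¹ * ((u l).coeff m * τ ^ m) ∈ 𝒱 := fun l m => mem_of_le 𝒱 (c2 l m) hν0
  let φ : k →+* 𝒱 := (algebraMap k Ω).codRestrict 𝒱.toSubring hk
  let _ : Algebra k (IsLocalRing.ResidueField 𝒱) := ((IsLocalRing.residue 𝒱).comp φ).toAlgebra
  have hresk : ∀ x : k, res 𝒱 (algebraMap k Ω x) = algebraMap k (IsLocalRing.ResidueField 𝒱) x :=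
    fun x => res_of 𝒱 (hk x)
  -- polynomials over the valuation ring
  have hlift : ∀ l, ∃ A : Polynomial 𝒱, A.map 𝒱.subtype =
      Polynomial.C ν⁻¹ * (P l).comp (Polynomial.C τ * Polynomial.X) := by
    intro l
    rw [← Polynomial.mem_lifts, Polynomial.lifts_iff_coeff_lifts]
    intro m
    rw [Polynomial.coeff_C_mul, Polynomial.comp_C_mul_X_coeff]
    exact ⟨⟨_, hmem l m⟩, rfl⟩
  choose A hA using hlift
  have hAc : ∀ l m, (((A l).coeff m : 𝒱) : Ω) = ν⁻¹ * ((P l).coeff m * τ ^ m) := by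
    intro l m
    have h1 := congrArg (fun p => Polynomial.coeff p m) (hA l)
    simp only [Polynomial.coeff_map, Polynomial.coeff_C_mul, Polynomial.comp_C_mul_X_coeff] at h1
    exact h1
  obtain ⟨Q, hQ⟩ : ∃ Q : Fin (M + 1) → Polynomial (IsLocalRing.ResidueField 𝒱),
      Q = fun l => (A l).map (IsLocalRing.residue 𝒱) := ⟨_, rfl⟩
  have hQc : ∀ l m, (Q l).coeff m = res 𝒱 (ν⁻¹ * ((P l).coeff m * τ ^ m)) := by
    intro l m
    rw [hQ, res_of 𝒱 (hmem l m)]
    simp only [Polynomial.coeff_map]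
    congr 1
    exact Subtype.ext (hAc l m)
  -- the coefficients of `Q`
  have hQdec : ∀ l m, (Q l).coeff m = res 𝒱 (ν⁻¹ * ((u l).coeff m * τ ^ m)) +
      algebraMap k (IsLocalRing.ResidueField 𝒱) (y l) * (Q 0).coeff m := by
    intro l m
    have h1 : ν⁻¹ * ((P l).coeff m * τ ^ m) = ν⁻¹ * ((u l).coeff m * τ ^ m) +
        algebraMap k Ω (y l) * (ν⁻¹ * ((P 0).coeff m * τ ^ m)) := by
      rw [hucoeff]
      ring
    rw [hQc, hQc, h1, res_add 𝒱 (humem l m) (𝒱.mul_mem _ _ (hk _) (hmem 0 m)),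
      res_mul 𝒱 (hk _) (hmem 0 m), hresk]
  have hQhigh : ∀ l m, o < m → (Q l).coeff m = 0 := by
    intro l m hm
    have h1 : (Q 0).coeff m = 0 := by
      rw [hQc, res_eq_zero 𝒱 (hmem 0 m), lt_one_iff 𝒱 hν0]
      exact c5 m hm
    rw [hQdec, h1, mul_zero, add_zero, res_eq_zero 𝒱 (humem l m), lt_one_iff 𝒱 hν0]
    exact c6 l m hm.le
  obtain ⟨c, hc⟩ : ∃ c, c = (Q 0).coeff o := ⟨_, rfl⟩
  have hc0 : c ≠ 0 := by
    rw [hc, hQc, Ne, res_eq_zero 𝒱 (hmem 0 o), lt_one_iff 𝒱 hν0]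
    exact not_lt.2 c4.ge
  have hQo : ∀ l, (Q l).coeff o = algebraMap k (IsLocalRing.ResidueField 𝒱) (y l) * c := by
    intro l
    rw [hQdec, ← hc]
    have h1 : res 𝒱 (ν⁻¹ * ((u l).coeff o * τ ^ o)) = 0 := by
      rw [res_eq_zero 𝒱 (humem l o), lt_one_iff 𝒱 hν0]
      exact c6 l o le_rfl
    rw [h1, zero_add]
  have hQdeg : ∀ l, (Q l).natDegree ≤ o := by
    intro l
    rw [Polynomial.natDegree_le_iff_coeff_eq_zero]
    exact fun m hm => hQhigh l m hm
  -- the equations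
  have hFsmall : ∀ j m, v ((aeval P (F j)).coeff m) < v (δ ^ d) := by
    intro j m
    rw [hPdef, aeval_shift]
    exact comp_lt 𝒱 hz (pow_ne_zero _ hδ) (hFP j) m
  have hFQ : ∀ j, aeval Q (F j) = 0 := by
    intro j
    have e1 : Polynomial.map 𝒱.subtype (eval₂ ((Polynomial.C : 𝒱 →+* Polynomial 𝒱).comp φ) A
        (F j)) = aeval (fun l => Polynomial.C ν⁻¹ *
          (P l).comp (Polynomial.C τ * Polynomial.X)) (F j) := by
      have h1 := MvPolynomial.eval₂_comp_left (Polynomial.mapRingHom 𝒱.subtype)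
        ((Polynomial.C : 𝒱 →+* Polynomial 𝒱).comp φ) A (F j)
      rw [Polynomial.coe_mapRingHom] at h1
      rw [h1, aeval_def]
      congr 1
      · ext x : 1
        simp only [RingHom.comp_apply, Polynomial.coe_mapRingHom, Polynomial.map_C]
        rfl
      · funext l
        exact hA l
    have e2 : Polynomial.map (IsLocalRing.residue 𝒱)
        (eval₂ ((Polynomial.C : 𝒱 →+* Polynomial 𝒱).comp φ) A (F j)) = aeval Q (F j) := by
      have h1 := MvPolynomial.eval₂_comp_left (Polynomial.mapRingHom (IsLocalRing.residue 𝒱))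
        ((Polynomial.C : 𝒱 →+* Polynomial 𝒱).comp φ) A (F j)
      rw [Polynomial.coe_mapRingHom] at h1
      rw [h1, aeval_def]
      congr 1
      · ext x : 1
        simp only [RingHom.comp_apply, Polynomial.coe_mapRingHom, Polynomial.map_C]
        rfl
      · funext l
        rw [hQ]
        rfl
    ext m
    rw [Polynomial.coeff_zero]
    have h3 := congrArg (fun p => Polynomial.coeff p m) e1
    rw [aeval_smul (hF j), ← Polynomial.C_pow] at h3
    simp only [Polynomial.coeff_map, Polynomial.coeff_C_mul] at h3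
    rw [aeval_scale] at h3
    rw [← e2, Polynomial.coeff_map, IsLocalRing.residue_eq_zero_iff,
      ValuationSubring.valuation_lt_one_iff]
    have h4 : (((eval₂ ((Polynomial.C : 𝒱 →+* Polynomial 𝒱).comp φ) A (F j)).coeff m : 𝒱) : Ω) =
        ν⁻¹ ^ d * ((aeval P (F j)).coeff m * τ ^ m) := h3
    rw [h4, map_mul, map_mul, map_pow, map_pow, map_inv₀]
    have hν1 : 0 < v ν := (Valuation.pos_iff _).2 hν0
    have h5 : v ((aeval P (F j)).coeff m) * v τ ^ m < v ν ^ d := by
      calc v ((aeval P (F j)).coeff m) * v τ ^ m ≤ v ((aeval P (F j)).coeff m) :=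
            mul_le_of_le_one_right' (pow_le_one' hτ1.le _)
        _ < v (δ ^ d) := hFsmall j m
        _ = v δ ^ d := map_pow _ _ _
        _ ≤ v ν ^ d := pow_le_pow_left' hδν d
    rw [inv_pow, inv_mul_lt_iff₀ (pow_pos hν1 d), mul_one]
    exact h5
  -- the curve
  have hrc : ∀ l m, m ≤ o → (Polynomial.reflect o (Q l)).coeff m = (Q l).coeff (o - m) := by
    intro l m hm
    rw [Polynomial.coeff_reflect, Polynomial.revAt_le hm]
  refine ⟨IsLocalRing.ResidueField 𝒱, inferInstance, inferInstance,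
    fun l => Polynomial.C c⁻¹ * Polynomial.reflect o (Q l), fun j => ?_, fun l => ?_, fun l => ?_,
    l₁, ?_⟩
  · rw [aeval_smul (hF j), reflect_zero (hF j) Q hQdeg (hFQ j), mul_zero]
  · rw [Polynomial.natDegree_le_iff_coeff_eq_zero]
    intro m hm
    rw [Polynomial.coeff_C_mul, Polynomial.coeff_reflect,
      Polynomial.revAt_eq_self_of_lt (lt_of_le_of_lt hoD hm), hQhigh l m (lt_of_le_of_lt hoD hm),
      mul_zero]
  · rw [Polynomial.coeff_C_mul, hrc l 0 (Nat.zero_le _), Nat.sub_zero, hQo]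
    field_simp
  · intro h
    have hm₁ : m₁ ≤ o := by
      by_contra hcon
      exact absurd c3 (ne_of_lt (c6 l₁ m₁ (by omega)))
    have h2 := congrArg (fun p => Polynomial.coeff p (o - m₁)) h
    simp only [Polynomial.coeff_C_mul] at h2
    rw [hrc l₁ _ (Nat.sub_le _ _), hrc 0 _ (Nat.sub_le _ _), Nat.sub_sub_self hm₁] at h2
    have h3 : (Q l₁).coeff m₁ =
        algebraMap k (IsLocalRing.ResidueField 𝒱) (y l₁) * (Q 0).coeff m₁ := by
      have h4 : c * (c⁻¹ * (Q l₁).coeff m₁) = c * (algebraMap k (IsLocalRing.ResidueField 𝒱) (y l₁) *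
          (c⁻¹ * (Q 0).coeff m₁)) := congrArg (fun t => c * t) h2
      rw [← mul_assoc, mul_inv_cancel₀ hc0, one_mul] at h4
      rw [h4]
      have h5 : c * (algebraMap k (IsLocalRing.ResidueField 𝒱) (y l₁) * (c⁻¹ * (Q 0).coeff m₁)) =
          (c * c⁻¹) * (algebraMap k (IsLocalRing.ResidueField 𝒱) (y l₁) * (Q 0).coeff m₁) := by ring
      rw [h5, mul_inv_cancel₀ hc0, one_mul]
    rw [hQdec] at h3
    have h4 := add_eq_right.1 h3
    rw [res_eq_zero 𝒱 (humem l₁ m₁), lt_one_iff 𝒱 hν0] at h4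
    exact absurd c3 (ne_of_lt h4)

end Pool.Agent.Lib.MP_410da7_agB
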