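import Pool.Agent.Lib.MP_410da7_agB.SpecG

/-!
# MP_410da7_ag, nef boundary (C46), version 3: GN5, the bubble with centre `0`
-/

set_option autoImplicit false

namespace Pool.Agent.Lib.MP_410da7_agB

open Pool.Agent.Lib.MP_410da7_agA
open MvPolynomial Module

namespace gN5Aux

/-- Homogeneity. -/
theorem aeval_smul {k A : Type} [Field k] [CommRing A] [Algebra k A] {N d : ℕ}
    {G : MvPolynomial (Fin N) k} (hG : G.IsHomogeneous d) (c : A) (g : Fin N → A) :
    aeval (fun l => c * g l) G = c ^ d * aeval g G := by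
  rw [aeval_def, aeval_def, eval₂_eq', eval₂_eq', Finset.mul_sum]
  refine Finset.sum_congr rfl fun m hm => ?_
  have h1 : ∑ i, m i = d := by
    rw [hG.degree_eq_sum_deg_support hm]
    symm
    refine Finset.sum_subset (Finset.subset_univ _) fun i _ hi => ?_
    exact Finsupp.notMem_support_iff.1 hi
  simp only [mul_pow]
  rw [Finset.prod_mul_distrib, Finset.prod_pow_eq_pow_sum, h1]
  ring

/-- The degree. -/
theorem natDegree_aeval {k K : Type} [Field k] [Field K] [Algebra k K] {N d B : ℕ}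
    {G : MvPolynomial (Fin N) k} (hG : G.IsHomogeneous d) (Q : Fin N → Polynomial K)
    (hQ : ∀ l, (Q l).natDegree ≤ B) : (aeval Q G).natDegree ≤ d * B := by
  rw [aeval_def, eval₂_eq']
  refine Polynomial.natDegree_sum_le_of_forall_le _ _ fun m hm => ?_
  have h1 : ∑ i, m i = d := by
    rw [hG.degree_eq_sum_deg_support hm]
    symm
    refine Finset.sum_subset (Finset.subset_univ _) fun i _ hi => ?_
    exact Finsupp.notMem_support_iff.1 hi
  have h2 : (algebraMap k (Polynomial K)) (coeff m G) = Polynomial.C (algebraMap k K (coeff m G)) :=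
    rfl
  rw [h2]
  refine (Polynomial.natDegree_C_mul_le _ _).trans ?_
  refine (Polynomial.natDegree_prod_le _ _).trans ?_
  rw [← h1, Finset.sum_mul]
  refine Finset.sum_le_sum fun i _ => ?_
  exact Polynomial.natDegree_pow_le.trans (Nat.mul_le_mul_left _ (hQ i))

/-- Scaling of the variable. -/
theorem aeval_scale {k Ω : Type} [Field k] [Field Ω] [Algebra k Ω] {N : ℕ}
    (G : MvPolynomial (Fin N) k) (P : Fin N → Polynomial Ω) (τ : Ω) (m : ℕ) :
    (aeval (fun l => (P l).comp (Polynomial.C τ * Polynomial.X)) G).coeff m =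
      (aeval P G).coeff m * τ ^ m := by
  let φ : Polynomial Ω →ₐ[k] Polynomial Ω :=
    (Polynomial.aeval (Polynomial.C τ * Polynomial.X : Polynomial Ω)).restrictScalars k
  have hφ : ∀ p : Polynomial Ω, φ p = p.comp (Polynomial.C τ * Polynomial.X) := fun p => by
    show Polynomial.aeval (Polynomial.C τ * Polynomial.X : Polynomial Ω) p = _
    rw [Polynomial.aeval_def, Polynomial.comp]
    rfl
  have h1 : aeval (fun l => (P l).comp (Polynomial.C τ * Polynomial.X)) G = φ (aeval P G) := by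
    have h2 := MvPolynomial.comp_aeval_apply P φ G
    rw [h2]
    simp only [hφ]
  rw [h1, hφ, Polynomial.comp_C_mul_X_coeff]

variable {Ω : Type} [Field Ω] (𝒱 : ValuationSubring Ω)

/-- The residue class of `x` (`0` outside of the valuation ring). -/
noncomputable def res (x : Ω) : IsLocalRing.ResidueField 𝒱 := by
  classical
  exact if h : x ∈ 𝒱 then IsLocalRing.residue 𝒱 ⟨x, h⟩ else 0

theorem res_of {x : Ω} (h : x ∈ 𝒱) : res 𝒱 x = IsLocalRing.residue 𝒱 ⟨x, h⟩ := dif_pos h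

theorem res_add {x y : Ω} (hx : x ∈ 𝒱) (hy : y ∈ 𝒱) : res 𝒱 (x + y) = res 𝒱 x + res 𝒱 y := by
  rw [res_of 𝒱 hx, res_of 𝒱 hy, res_of 𝒱 (𝒱.add_mem _ _ hx hy), ← map_add]
  rfl

theorem res_mul {x y : Ω} (hx : x ∈ 𝒱) (hy : y ∈ 𝒱) : res 𝒱 (x * y) = res 𝒱 x * res 𝒱 y := by
  rw [res_of 𝒱 hx, res_of 𝒱 hy, res_of 𝒱 (𝒱.mul_mem _ _ hx hy), ← map_mul]
  rfl

theorem res_eq_zero {x : Ω} (hx : x ∈ 𝒱) : res 𝒱 x = 0 ↔ 𝒱.valuation x < 1 := by
  rw [res_of 𝒱 hx, IsLocalRing.residue_eq_zero_iff, ValuationSubring.valuation_lt_one_iff]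

theorem mem_of_le {x ν : Ω} (h : 𝒱.valuation x ≤ 𝒱.valuation ν) (hν : ν ≠ 0) :
    ν⁻¹ * x ∈ 𝒱 := by
  rw [← 𝒱.valuation_le_one_iff, map_mul, map_inv₀]
  have h0 : 𝒱.valuation ν ≠ 0 := (Valuation.ne_zero_iff _).2 hν
  calc (𝒱.valuation ν)⁻¹ * 𝒱.valuation x ≤ (𝒱.valuation ν)⁻¹ * 𝒱.valuation ν :=
        mul_le_mul_right h _
    _ = 1 := inv_mul_cancel₀ h0

theorem lt_one_iff {x ν : Ω} (hν : ν ≠ 0) :
    𝒱.valuation (ν⁻¹ * x) < 1 ↔ 𝒱.valuation x < 𝒱.valuation ν := by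
  have h0 : 0 < 𝒱.valuation ν := (Valuation.pos_iff _).2 hν
  rw [map_mul, map_inv₀, inv_mul_lt_iff₀ h0, mul_one]

end gN5Aux

open gN5Aux in
theorem gN5 (hcu : CrossUpStmt) : GN5Stmt := by
  classical
  intro k Ω _ _ _ _ 𝒱 hk M κ d B₁ F hF y hy0 Bd hBd P hP0 hFP hbig hu
  set v := 𝒱.valuation with hv
  have hle1 : ∀ x : k, v (algebraMap k Ω x) ≤ 1 := fun x => (𝒱.valuation_le_one_iff _).2 (hk x)
  obtain ⟨u, hudef⟩ : ∃ u : Fin (M + 1) → Polynomial Ω,
      u = fun l => P l - Polynomial.C (algebraMap k Ω (y l)) * P 0 := ⟨_, rfl⟩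
  have hucoeff : ∀ l m, (P l).coeff m = (u l).coeff m + algebraMap k Ω (y l) * (P 0).coeff m := by
    intro l m
    rw [hudef]
    simp only [Polynomial.coeff_sub, Polynomial.coeff_C_mul]
    ring
  have hp0 : (P 0).coeff 0 ≠ 0 := by
    rw [hP0, hy0, map_one]
    exact one_ne_zero
  have hu0 : ∀ l, (u l).coeff 0 = 0 := by
    intro l
    have h1 := hucoeff l 0
    rw [hP0, hP0 0, hy0, map_one, mul_one] at h1
    exact left_eq_add.1 ((add_comm _ _).trans h1.symm).symm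
  have hu' : ∃ l m, ∀ m', v ((P 0).coeff m') ≤ v ((u l).coeff m) := by
    rw [hudef]
    exact hu
  obtain ⟨τ, ν, o, hτ0, hν0, hτ1, c1, c2, ⟨l₁, m₁, c3⟩, c4, c5, c6⟩ :=
    hcu Ω 𝒱 (M + 1) (P 0) u hp0 hu0 hu'
  -- the scaled coefficients
  have hPle : ∀ l m, v ((P l).coeff m * τ ^ m) ≤ v ν := by
    intro l m
    have h1 : (P l).coeff m * τ ^ m = (u l).coeff m * τ ^ m +
        algebraMap k Ω (y l) * ((P 0).coeff m * τ ^ m) := by
      rw [hucoeff]
      ring
    rw [h1]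
    refine v.map_add_le (c2 l m) ?_
    rw [map_mul]
    exact (mul_le_of_le_one_left' (hle1 _)).trans (c1 m)
  have hmem : ∀ l m, ν⁻¹ * ((P l).coeff m * τ ^ m) ∈ 𝒱 := fun l m => mem_of_le 𝒱 (hPle l m) hν0
  have humem : ∀ l m, ν⁻¹ * ((u l).coeff m * τ ^ m) ∈ 𝒱 := fun l m => mem_of_le 𝒱 (c2 l m) hν0
  let φ : k →+* 𝒱 := (algebraMap k Ω).codRestrict 𝒱.toSubring hk
  let _ : Algebra k (IsLocalRing.ResidueField 𝒱) := ((IsLocalRing.residue 𝒱).comp φ).toAlgebra
  have hresk : ∀ x : k, res 𝒱 (algebraMap k Ω x) = algebraMap k (IsLocalRing.ResidueField 𝒱) x :=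
    fun x => res_of 𝒱 (hk x)
  -- polynomials over the valuation ring
  have hlift : ∀ l, ∃ A : Polynomial 𝒱, A.map 𝒱.subtype =
      Polynomial.C ν⁻¹ * (P l).comp (Polynomial.C τ * Polynomial.X) := by
    intro l
    rw [← Polynomial.mem_lifts, Polynomial.lifts_iff_coeff_lifts]
    intro m
    rw [Polynomial.coeff_C_mul, Polynomial.comp_C_mul_X_coeff]
    exact ⟨⟨_, hmem l m⟩, rfl⟩
  choose A hA using hlift
  have hAc : ∀ l m, (((A l).coeff m : 𝒱) : Ω) = ν⁻¹ * ((P l).coeff m * τ ^ m) := by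
    intro l m
    have h1 := congrArg (fun p => Polynomial.coeff p m) (hA l)
    simp only [Polynomial.coeff_map, Polynomial.coeff_C_mul, Polynomial.comp_C_mul_X_coeff] at h1
    exact h1
  obtain ⟨Q, hQ⟩ : ∃ Q : Fin (M + 1) → Polynomial (IsLocalRing.ResidueField 𝒱),
      Q = fun l => (A l).map (IsLocalRing.residue 𝒱) := ⟨_, rfl⟩
  have hQc : ∀ l m, (Q l).coeff m = res 𝒱 (ν⁻¹ * ((P l).coeff m * τ ^ m)) := by
    intro l m
    rw [hQ, res_of 𝒱 (hmem l m)]
    simp only [Polynomial.coeff_map]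
    congr 1
    exact Subtype.ext (hAc l m)
  -- the coefficients of `Q`
  have hQdec : ∀ l m, (Q l).coeff m = res 𝒱 (ν⁻¹ * ((u l).coeff m * τ ^ m)) +
      algebraMap k (IsLocalRing.ResidueField 𝒱) (y l) * (Q 0).coeff m := by
    intro l m
    have h1 : ν⁻¹ * ((P l).coeff m * τ ^ m) = ν⁻¹ * ((u l).coeff m * τ ^ m) +
        algebraMap k Ω (y l) * (ν⁻¹ * ((P 0).coeff m * τ ^ m)) := by
      rw [hucoeff]
      ring
    rw [hQc, hQc, h1, res_add 𝒱 (humem l m) (𝒱.mul_mem _ _ (hk _) (hmem 0 m)),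
      res_mul 𝒱 (hk _) (hmem 0 m), hresk]
  have hQdeg : ∀ l m, Bd l < m → (Q l).coeff m = 0 := by
    intro l m hm
    obtain ⟨l₂, m₂, hm₂, h1⟩ := hbig l
    rw [hQc, res_eq_zero 𝒱 (hmem l m), lt_one_iff 𝒱 hν0]
    have hvτ : 0 < v τ := (Valuation.pos_iff _).2 hτ0
    calc v ((P l).coeff m * τ ^ m) = v ((P l).coeff m) * v τ ^ m := by rw [map_mul, map_pow]
      _ ≤ v ((P l).coeff m) * v τ ^ m₂ :=
          mul_le_mul_right (pow_le_pow_right_of_le_one' hτ1 (by omega)) _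
      _ < v ((P l₂).coeff m₂) * v τ ^ m₂ := mul_lt_mul_of_pos_right (h1 m hm) (pow_pos hvτ _)
      _ = v ((P l₂).coeff m₂ * τ ^ m₂) := by rw [map_mul, map_pow]
      _ ≤ v ν := hPle l₂ m₂
  have hQlow : ∀ l, ∀ m < o, (Q l).coeff m = 0 := by
    intro l m hm
    have h1 : (Q 0).coeff m = 0 := by
      rw [hQc, res_eq_zero 𝒱 (hmem 0 m), lt_one_iff 𝒱 hν0]
      exact c5 m hm
    rw [hQdec, h1, mul_zero, add_zero, res_eq_zero 𝒱 (humem l m), lt_one_iff 𝒱 hν0]
    exact c6 l m hm.le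
  obtain ⟨c, hc⟩ : ∃ c, c = (Q 0).coeff o := ⟨_, rfl⟩
  have hc0 : c ≠ 0 := by
    rw [hc, hQc, Ne, res_eq_zero 𝒱 (hmem 0 o), lt_one_iff 𝒱 hν0]
    exact not_lt.2 c4.ge
  have hQo : ∀ l, (Q l).coeff o = algebraMap k (IsLocalRing.ResidueField 𝒱) (y l) * c := by
    intro l
    rw [hQdec, ← hc]
    have h1 : res 𝒱 (ν⁻¹ * ((u l).coeff o * τ ^ o)) = 0 := by
      rw [res_eq_zero 𝒱 (humem l o), lt_one_iff 𝒱 hν0]
      exact c6 l o le_rfl
    rw [h1, zero_add]
  -- the equations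
  have hFQ : ∀ j, aeval Q (F j) = 0 := by
    intro j
    have e1 : Polynomial.map 𝒱.subtype (eval₂ ((Polynomial.C : 𝒱 →+* Polynomial 𝒱).comp φ) A
        (F j)) = aeval (fun l => Polynomial.C ν⁻¹ *
          (P l).comp (Polynomial.C τ * Polynomial.X)) (F j) := by
      have h1 := MvPolynomial.eval₂_comp_left (Polynomial.mapRingHom 𝒱.subtype)
        ((Polynomial.C : 𝒱 →+* Polynomial 𝒱).comp φ) A (F j)
      rw [Polynomial.coe_mapRingHom] at h1
      rw [h1, aeval_def]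
      congr 1
      · ext x : 1
        simp only [RingHom.comp_apply, Polynomial.coe_mapRingHom, Polynomial.map_C]
        rfl
      · funext l
        exact hA l
    have e2 : Polynomial.map (IsLocalRing.residue 𝒱)
        (eval₂ ((Polynomial.C : 𝒱 →+* Polynomial 𝒱).comp φ) A (F j)) = aeval Q (F j) := by
      have h1 := MvPolynomial.eval₂_comp_left (Polynomial.mapRingHom (IsLocalRing.residue 𝒱))
        ((Polynomial.C : 𝒱 →+* Polynomial 𝒱).comp φ) A (F j)
      rw [Polynomial.coe_mapRingHom] at h1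
      rw [h1, aeval_def]
      congr 1
      · ext x : 1
        simp only [RingHom.comp_apply, Polynomial.coe_mapRingHom, Polynomial.map_C]
        rfl
      · funext l
        rw [hQ]
        rfl
    have hdeg : (aeval Q (F j)).natDegree ≤ d * B₁ := by
      refine natDegree_aeval (hF j) Q fun l => ?_
      rw [Polynomial.natDegree_le_iff_coeff_eq_zero]
      intro m hm
      exact hQdeg l m (lt_of_le_of_lt (hBd l) hm)
    ext m
    rw [Polynomial.coeff_zero]
    by_cases hm : m ≤ d * B₁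
    · have h3 := congrArg (fun p => Polynomial.coeff p m) e1
      rw [aeval_smul (hF j), ← Polynomial.C_pow] at h3
      simp only [Polynomial.coeff_map, Polynomial.coeff_C_mul] at h3
      rw [aeval_scale, hFP j m hm, zero_mul, mul_zero] at h3
      have h4 : (eval₂ ((Polynomial.C : 𝒱 →+* Polynomial 𝒱).comp φ) A (F j)).coeff m = 0 :=
        Subtype.ext h3
      rw [← e2, Polynomial.coeff_map, h4, map_zero]
    · exact Polynomial.coeff_eq_zero_of_natDegree_lt (lt_of_le_of_lt hdeg (not_le.1 hm))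
  -- the curve
  have hdiv : ∀ l, ∃ R : Polynomial (IsLocalRing.ResidueField 𝒱), Q l = Polynomial.X ^ o * R :=
    fun l => Polynomial.X_pow_dvd_iff.2 (hQlow l)
  choose R hR using hdiv
  have hRc : ∀ l m, (R l).coeff m = (Q l).coeff (m + o) := by
    intro l m
    rw [hR l, Polynomial.coeff_X_pow_mul]
  have hQY : ∀ l, Q l = (Polynomial.C c * Polynomial.X ^ o) * (Polynomial.C c⁻¹ * R l) := by
    intro l
    have h1 : (Polynomial.C c * Polynomial.X ^ o) * (Polynomial.C c⁻¹ * R l) =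
        Polynomial.C (c * c⁻¹) * (Polynomial.X ^ o * R l) := by
      rw [Polynomial.C_mul]
      ring
    rw [h1, mul_inv_cancel₀ hc0, Polynomial.C_1, one_mul]
    exact hR l
  have hne : (Polynomial.C c * Polynomial.X ^ o :
      Polynomial (IsLocalRing.ResidueField 𝒱)) ≠ 0 :=
    mul_ne_zero (Polynomial.C_ne_zero.2 hc0) (pow_ne_zero _ Polynomial.X_ne_zero)
  refine ⟨IsLocalRing.ResidueField 𝒱, inferInstance, inferInstance,
    fun l => Polynomial.C c⁻¹ * R l, fun j => ?_, fun l => ?_, fun l => ?_, l₁, ?_⟩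
  · have h1 := hFQ j
    have h2 : Q = fun l => (Polynomial.C c * Polynomial.X ^ o) * (Polynomial.C c⁻¹ * R l) :=
      funext hQY
    rw [h2, aeval_smul (hF j)] at h1
    exact (mul_eq_zero.1 h1).resolve_left (pow_ne_zero _ hne)
  · rw [Polynomial.natDegree_le_iff_coeff_eq_zero]
    intro m hm
    rw [Polynomial.coeff_C_mul, hRc, hQdeg l _ (by omega), mul_zero]
  · rw [Polynomial.coeff_C_mul, hRc, zero_add, hQo]
    field_simp
  · intro h
    have h1 : Q l₁ = Polynomial.C (algebraMap k (IsLocalRing.ResidueField 𝒱) (y l₁)) * Q 0 := by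
      have h' : Polynomial.C c⁻¹ * R l₁ = Polynomial.C (algebraMap k
          (IsLocalRing.ResidueField 𝒱) (y l₁)) * (Polynomial.C c⁻¹ * R 0) := h
      rw [hQY l₁, hQY 0, h']
      ring
    have h2 := congrArg (fun p => Polynomial.coeff p m₁) h1
    simp only [Polynomial.coeff_C_mul] at h2
    rw [hQdec] at h2
    have h3 := add_eq_right.1 h2
    rw [res_eq_zero 𝒱 (humem l₁ m₁), lt_one_iff 𝒱 hν0] at h3
    exact absurd c3 (ne_of_lt h3)

end Pool.Agent.Lib.MP_410da7_agB
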