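import Pool.Agent.Lib.MP_410da7_agB.SpecG

/-!
# MP_410da7_ag, nef boundary: GN6

The bubble for power series, from GN5 and GN4.
-/

set_option autoImplicit false

namespace Pool.Agent.Lib.MP_410da7_agB

open Pool.Agent.Lib.MP_410da7_agA
open MvPolynomial Module

namespace gN6Aux

variable {k Ω : Type} [Field k] [Field Ω] [Algebra k Ω]

/-! ### The truncation of `f(ϖ t)` -/

/-- The truncation of `f(ϖ t)` at degree `T`. -/
noncomputable def tr (ϖ : Ω) (T : ℕ) (f : PowerSeries Ω) : Polynomial Ω :=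
  PowerSeries.trunc (T + 1) (PowerSeries.rescale ϖ f)

lemma tr_coeff (ϖ : Ω) (T : ℕ) (f : PowerSeries Ω) (m : ℕ) :
    (tr ϖ T f).coeff m = if m ≤ T then ϖ ^ m * PowerSeries.coeff m f else 0 := by
  rw [tr, PowerSeries.coeff_trunc, PowerSeries.coeff_rescale]
  simp only [Nat.lt_succ_iff]

/-- The quotient map. -/
noncomputable def qm (Ω : Type) [Field Ω] (T : ℕ) : PowerSeries Ω →+*
    PowerSeries Ω ⧸ Ideal.span {(PowerSeries.X : PowerSeries Ω) ^ (T + 1)} :=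
  Ideal.Quotient.mk _

lemma qm_tr (ϖ : Ω) (T : ℕ) (f : PowerSeries Ω) :
    qm Ω T (tr ϖ T f : PowerSeries Ω) = qm Ω T (PowerSeries.rescale ϖ f) := by
  rw [qm, Ideal.Quotient.eq, Ideal.mem_span_singleton, PowerSeries.X_pow_dvd_iff]
  intro m hm
  rw [map_sub, Polynomial.coeff_coe, tr_coeff, if_pos (Nat.lt_succ_iff.1 hm),
    PowerSeries.coeff_rescale, sub_self]

lemma coeff_of_qm {T : ℕ} {p : Polynomial Ω} (h : qm Ω T (p : PowerSeries Ω) = 0) (m : ℕ)
    (hm : m ≤ T) : p.coeff m = 0 := by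
  rw [qm, Ideal.Quotient.eq_zero_iff_mem, Ideal.mem_span_singleton,
    PowerSeries.X_pow_dvd_iff] at h
  have := h m (Nat.lt_succ_iff.2 hm)
  rwa [Polynomial.coeff_coe] at this

lemma rescale_C (ϖ c : Ω) : PowerSeries.rescale ϖ (PowerSeries.C c) = PowerSeries.C c := by
  ext n
  rw [PowerSeries.coeff_rescale, PowerSeries.coeff_C]
  split_ifs with h
  · rw [h, pow_zero, one_mul]
  · rw [mul_zero]

/-- The equations up to degree `T`. -/
lemma coeff_aeval {N : ℕ} (ϖ : Ω) (T : ℕ) (H : Fin N → PowerSeries Ω)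
    (F : MvPolynomial (Fin N) k)
    (hF : eval₂ ((PowerSeries.C : Ω →+* PowerSeries Ω).comp (algebraMap k Ω)) H F = 0) (m : ℕ)
    (hm : m ≤ T) : (aeval (fun l => tr ϖ T (H l)) F).coeff m = 0 := by
  refine coeff_of_qm ?_ m hm
  have e1 := MvPolynomial.eval₂_comp_left ((qm Ω T).comp (PowerSeries.rescale ϖ))
    ((PowerSeries.C : Ω →+* PowerSeries Ω).comp (algebraMap k Ω)) H F
  have e2 := MvPolynomial.eval₂_comp_left
    ((qm Ω T).comp (Polynomial.coeToPowerSeries.ringHom (R := Ω)))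
    (algebraMap k (Polynomial Ω)) (fun l => tr ϖ T (H l)) F
  rw [hF, map_zero] at e1
  rw [aeval_def]
  change ((qm Ω T).comp (Polynomial.coeToPowerSeries.ringHom (R := Ω)))
    (eval₂ (algebraMap k (Polynomial Ω)) (fun l => tr ϖ T (H l)) F) = 0
  rw [e2, e1]
  congr 1
  · ext x : 1
    simp only [RingHom.comp_apply, Polynomial.coeToPowerSeries.ringHom_apply, rescale_C]
    congr 1
    exact Polynomial.coe_C _
  · ext l : 1
    exact qm_tr ϖ T (H l)

/-! ### Bounds -/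

/-- The coefficients are bounded by `|x ϖ^m|`. -/
def Bnd (𝒱 : ValuationSubring Ω) (ϖ x : Ω) (p : Polynomial Ω) : Prop :=
  ∀ m, 𝒱.valuation (p.coeff m) ≤ 𝒱.valuation (x * ϖ ^ m)

variable {𝒱 : ValuationSubring Ω} {ϖ : Ω}

lemma Bnd.add {x : Ω} {p q : Polynomial Ω} (hp : Bnd 𝒱 ϖ x p) (hq : Bnd 𝒱 ϖ x q) :
    Bnd 𝒱 ϖ x (p + q) := by
  intro m
  rw [Polynomial.coeff_add]
  exact 𝒱.valuation.map_add_le (hp m) (hq m)

lemma Bnd.mul {x y : Ω} {p q : Polynomial Ω} (hp : Bnd 𝒱 ϖ x p) (hq : Bnd 𝒱 ϖ y q) :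
    Bnd 𝒱 ϖ (x * y) (p * q) := by
  intro m
  rw [Polynomial.coeff_mul]
  refine 𝒱.valuation.map_sum_le fun ij hij => ?_
  rw [Finset.HasAntidiagonal.mem_antidiagonal] at hij
  rw [map_mul]
  refine (mul_le_mul' (hp _) (hq _)).trans_eq ?_
  rw [← map_mul, ← hij, pow_add]
  congr 1
  ring

lemma bnd_C {c : Ω} (hc : 𝒱.valuation c ≤ 1) : Bnd 𝒱 ϖ 1 (Polynomial.C c) := by
  intro m
  rw [Polynomial.coeff_C, one_mul]
  split_ifs with h
  · rw [h, pow_zero, map_one]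
    exact hc
  · rw [map_zero]
    exact zero_le

lemma Bnd.pow {x : Ω} {p : Polynomial Ω} (hp : Bnd 𝒱 ϖ x p) (n : ℕ) :
    Bnd 𝒱 ϖ (x ^ n) (p ^ n) := by
  induction n with
  | zero =>
    rw [pow_zero, pow_zero, ← Polynomial.C_1]
    exact bnd_C (by rw [map_one])
  | succ n ih =>
    rw [pow_succ, pow_succ]
    exact ih.mul hp

lemma bnd_prod {ι : Type} (s : Finset ι) (x : ι → Ω) (p : ι → Polynomial Ω)
    (h : ∀ i ∈ s, Bnd 𝒱 ϖ (x i) (p i)) : Bnd 𝒱 ϖ (∏ i ∈ s, x i) (∏ i ∈ s, p i) := by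
  classical
  induction s using Finset.induction_on with
  | empty =>
    rw [Finset.prod_empty, Finset.prod_empty, ← Polynomial.C_1]
    exact bnd_C (by rw [map_one])
  | insert a s ha ih =>
    rw [Finset.prod_insert ha, Finset.prod_insert ha]
    exact (h a (Finset.mem_insert_self _ _)).mul
      (ih fun i hi => h i (Finset.mem_insert_of_mem hi))

lemma bnd_sum {ι : Type} (s : Finset ι) (x : Ω) (p : ι → Polynomial Ω)
    (h : ∀ i ∈ s, Bnd 𝒱 ϖ x (p i)) : Bnd 𝒱 ϖ x (∑ i ∈ s, p i) := by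
  intro m
  rw [Polynomial.finsetSum_coeff]
  exact 𝒱.valuation.map_sum_le fun i hi => h i hi m

/-- The value of a homogeneous polynomial. -/
lemma bnd_aeval (hk : ∀ x : k, algebraMap k Ω x ∈ 𝒱) {N d : ℕ} (F : MvPolynomial (Fin N) k)
    (hF : F.IsHomogeneous d) (x : Ω) (P : Fin N → Polynomial Ω) (hP : ∀ l, Bnd 𝒱 ϖ x (P l)) :
    Bnd 𝒱 ϖ (x ^ d) (aeval P F) := by
  rw [aeval_def, eval₂_eq]
  refine bnd_sum _ _ _ fun s hs => ?_
  have hd : ∑ i ∈ s.support, s i = d := by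
    by_contra h
    exact (mem_support_iff.1 hs) (hF.coeff_eq_zero h)
  have h1 : Bnd 𝒱 ϖ (1 : Ω) (algebraMap k (Polynomial Ω) (coeff s F)) :=
    bnd_C ((𝒱.valuation_le_one_iff _).2 (hk _))
  have h2 := bnd_prod (𝒱 := 𝒱) (ϖ := ϖ) s.support (fun i => x ^ s i) (fun i => P i ^ s i)
    fun i _ => (hP i).pow _
  rw [Finset.prod_pow_eq_pow_sum, hd] at h2
  have h3 := h1.mul h2
  rwa [one_mul] at h3

lemma bnd_tr {x : Ω} {f : PowerSeries Ω} (T : ℕ)
    (h : ∀ m, 𝒱.valuation (PowerSeries.coeff m f) ≤ 𝒱.valuation x) : Bnd 𝒱 ϖ x (tr ϖ T f) := by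
  intro m
  rw [tr_coeff]
  split_ifs
  · rw [map_mul, map_mul, mul_comm]
    exact mul_le_mul' (h m) le_rfl
  · rw [map_zero]
    exact zero_le

lemma val_lt (h0 : ϖ ≠ 0) (h1 : 𝒱.valuation ϖ < 1) {m n : ℕ} (h : m < n) {x : Ω}
    (hx : x ≠ 0) : 𝒱.valuation (x * ϖ ^ n) < 𝒱.valuation (x * ϖ ^ m) := by
  have hx' : 0 < 𝒱.valuation x := zero_lt_iff.2 ((Valuation.ne_zero_iff _).2 hx)
  have h0' : 0 < 𝒱.valuation ϖ := zero_lt_iff.2 ((Valuation.ne_zero_iff _).2 h0)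
  rw [map_mul, map_mul, map_pow, map_pow]
  exact mul_lt_mul_of_pos_left (pow_lt_pow_right_of_lt_one₀ h0' h1 h) hx'

lemma val_le (h0 : ϖ ≠ 0) (h1 : 𝒱.valuation ϖ < 1) {m n : ℕ} (h : m ≤ n) (x : Ω) :
    𝒱.valuation (x * ϖ ^ n) ≤ 𝒱.valuation (x * ϖ ^ m) := by
  rcases eq_or_ne x 0 with hx | hx
  · rw [hx, zero_mul, zero_mul]
  · rcases Nat.lt_or_eq_of_le h with h | h
    · exact (val_lt h0 h1 h hx).le
    · rw [h]

end gN6Aux

open gN6Aux in
theorem gN6 (hg5 : GN5Stmt) (hg4 : GN4Stmt) : GN6Stmt := by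
  classical
  intro k Ω _ _ _ _ 𝒱 hk harch M κ d B₁ B₂ F hF tt h0tt hB y hy0 H hHy hHF θ hθ hHθ hatt htt b₀
    G₀ G₁ δ hδ hG hG₀ hG₁
  have hle1 : ∀ x : k, 𝒱.valuation (algebraMap k Ω x) ≤ 1 := fun x =>
    (𝒱.valuation_le_one_iff _).2 (hk x)
  have hθ0 : θ ≠ 0 := by
    intro h
    rw [h, map_zero] at hθ
    exact not_lt_zero hθ
  -- the root `ϖ`
  obtain ⟨ϖ, hϖ⟩ := IsAlgClosed.exists_pow_nat_eq θ⁻¹ (Nat.succ_pos B₁)
  have hϖ0 : ϖ ≠ 0 := by
    intro h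
    rw [h, zero_pow (Nat.succ_ne_zero _)] at hϖ
    exact inv_ne_zero hθ0 hϖ.symm
  have hϖ1 : 𝒱.valuation ϖ < 1 := by
    by_contra h
    have h1 : 1 ≤ 𝒱.valuation ϖ := not_lt.1 h
    have h2 : 1 ≤ 𝒱.valuation (ϖ ^ (B₁ + 1)) := by
      rw [map_pow]
      exact one_le_pow_of_one_le' h1 _
    have h3 : 𝒱.valuation (ϖ ^ (B₁ + 1)) < 1 := by
      have : ϖ ^ (B₁ + 1) = θ⁻¹ := hϖ
      rw [this, map_inv₀]
      exact inv_lt_one_of_one_lt₀ hθ
    exact absurd h2 (not_le.2 h3)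
  -- the truncation degree
  obtain ⟨n₁, hn₁⟩ := harch (δ * θ⁻¹) ϖ (mul_ne_zero hδ (inv_ne_zero hθ0)) hϖ1
  obtain ⟨n₂, hn₂⟩ := harch (δ ^ d * (θ ^ d)⁻¹) ϖ
    (mul_ne_zero (pow_ne_zero _ hδ) (inv_ne_zero (pow_ne_zero _ hθ0))) hϖ1
  obtain ⟨T, hT1, hT2, hT3, hT4⟩ : ∃ T : ℕ, n₁ ≤ T ∧ n₂ ≤ T ∧ d * B₁ ≤ T ∧ B₁ ≤ T :=
    ⟨n₁ + n₂ + d * B₁ + B₁, by omega, by omega, by omega, by omega⟩
  have hs1 : ∀ m, T < m → 𝒱.valuation (δ⁻¹ * θ * ϖ ^ m) < 1 := by
    intro m hm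
    have h1 : 𝒱.valuation (δ⁻¹ * θ * ϖ ^ m) ≤ 𝒱.valuation (δ⁻¹ * θ * ϖ ^ n₁) :=
      val_le hϖ0 hϖ1 (by omega) _
    refine lt_of_le_of_lt h1 ?_
    have h2 : 0 < 𝒱.valuation (δ⁻¹ * θ) :=
      zero_lt_iff.2 ((Valuation.ne_zero_iff _).2 (mul_ne_zero (inv_ne_zero hδ) hθ0))
    have h3 := mul_lt_mul_of_pos_left hn₁ h2
    rw [← map_mul, ← map_mul] at h3
    have h4 : δ⁻¹ * θ * (δ * θ⁻¹) = 1 := by
      field_simp
    rwa [h4, map_one] at h3
  have hs2 : ∀ m, T < m → 𝒱.valuation (θ ^ d * ϖ ^ m) < 𝒱.valuation (δ ^ d) := by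
    intro m hm
    have h1 : 𝒱.valuation (θ ^ d * ϖ ^ m) ≤ 𝒱.valuation (θ ^ d * ϖ ^ n₂) :=
      val_le hϖ0 hϖ1 (by omega) _
    refine lt_of_le_of_lt h1 ?_
    have h2 : 0 < 𝒱.valuation (θ ^ d) :=
      zero_lt_iff.2 ((Valuation.ne_zero_iff _).2 (pow_ne_zero _ hθ0))
    have h3 := mul_lt_mul_of_pos_left hn₂ h2
    rw [← map_mul, ← map_mul] at h3
    have h4 : θ ^ d * (δ ^ d * (θ ^ d)⁻¹) = δ ^ d := by
      have := pow_ne_zero d hθ0
      field_simp
    rwa [h4] at h3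
  -- the polynomials
  let P : Fin (M + 1) → Polynomial Ω := fun l => tr ϖ T (H l)
  have hPc : ∀ l m, (P l).coeff m = if m ≤ T then ϖ ^ m * PowerSeries.coeff m (H l) else 0 :=
    fun l m => tr_coeff ϖ T (H l) m
  have hP0 : ∀ l, (P l).coeff 0 = algebraMap k Ω (y l) := by
    intro l
    rw [hPc, if_pos (Nat.zero_le _), pow_zero, one_mul, hHy]
  have hP00 : (P 0).coeff 0 = 1 := by rw [hP0, hy0, map_one]
  have hPb : ∀ l, Bnd 𝒱 ϖ θ (P l) := fun l => bnd_tr T (hHθ l)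
  have hPF : ∀ j, ∀ m ≤ T, (aeval P (F j)).coeff m = 0 := fun j m hm =>
    coeff_aeval ϖ T H (F j) (hHF j) m hm
  -- the coefficient of absolute value greater than one
  obtain ⟨l₁, m₁, hm₁, hatt⟩ := hatt
  have hPl₁ : 𝒱.valuation ((P l₁).coeff m₁) = 𝒱.valuation (θ * ϖ ^ m₁) := by
    rw [hPc, if_pos (by omega), map_mul, map_mul, hatt, mul_comm]
  have hPl₁' : 1 < 𝒱.valuation ((P l₁).coeff m₁) := by
    rw [hPl₁]
    refine lt_of_lt_of_le ?_ (val_le hϖ0 hϖ1 hm₁ θ)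
    have h1 : θ * ϖ ^ B₁ = ϖ⁻¹ := by
      have h2 : ϖ ^ (B₁ + 1) = θ⁻¹ := hϖ
      have h3 : θ * ϖ ^ B₁ * ϖ = 1 := by
        rw [mul_assoc, ← pow_succ, h2, mul_inv_cancel₀ hθ0]
      exact eq_inv_of_mul_eq_one_left h3
    rw [h1, map_inv₀]
    exact (one_lt_inv₀ (zero_lt_iff.2 ((Valuation.ne_zero_iff _).2 hϖ0))).2 hϖ1
  by_cases hA : ∃ l m, ∀ m', 𝒱.valuation ((P 0).coeff m') ≤
      𝒱.valuation ((P l - Polynomial.C (algebraMap k Ω (y l)) * P 0).coeff m)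
  · -- CASE A
    obtain ⟨k', _, _, Yp, c1, c2, c3, c4⟩ := hg5 k Ω 𝒱 hk M κ d B₁ F hF y hy0
      (fun l => if l ∈ tt then B₂ else B₁) (fun l => by
        show (if l ∈ tt then B₂ else B₁) ≤ B₁
        split_ifs <;> omega) P hP0 (fun j m hm => hPF j m (by omega)) (by
        intro l
        by_cases hl : l ∈ tt
        · simp only [hl, if_true]
          rcases htt with ha | ⟨θ₁, hb, t₂, ht₂, m₂, hm₂, hne, heq⟩
          · refine ⟨0, 0, Nat.zero_le _, fun m hm => ?_⟩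
            have h1 : Bnd 𝒱 ϖ 1 (P l) := bnd_tr T fun m => by
              rw [map_one]
              exact ha l hl m
            rw [hP00]
            refine lt_of_le_of_lt (h1 m) ?_
            have h2 := val_lt (𝒱 := 𝒱) hϖ0 hϖ1 (show 0 < m by omega) one_ne_zero
            rwa [pow_zero, one_mul (1 : Ω)] at h2
          · refine ⟨t₂, m₂, hm₂, fun m hm => ?_⟩
            have hθ₁ : θ₁ ≠ 0 := by
              intro h
              rw [h, map_zero] at heq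
              exact hne ((Valuation.zero_iff _).1 heq)
            have h1 : Bnd 𝒱 ϖ θ₁ (P l) := bnd_tr T (hb l hl)
            have h2 : 𝒱.valuation ((P t₂).coeff m₂) = 𝒱.valuation (θ₁ * ϖ ^ m₂) := by
              rw [hPc, if_pos (by omega), map_mul, map_mul, heq, mul_comm]
            rw [h2]
            exact lt_of_le_of_lt (h1 m) (val_lt hϖ0 hϖ1 (by omega) hθ₁)
        · simp only [hl, if_false]
          refine ⟨l₁, m₁, hm₁, fun m hm => ?_⟩
          rw [hPl₁]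
          exact lt_of_le_of_lt (hPb l m) (val_lt hϖ0 hϖ1 (by omega) hθ0)) hA
    refine ⟨k', inferInstance, inferInstance, Yp, c1, fun l => ?_, fun t ht => ?_, c3, c4⟩
    · have h1 := c2 l
      split_ifs at h1 <;> omega
    · have h1 := c2 t
      simp only [ht, if_true] at h1
      exact h1
  · -- CASE B
    push Not at hA
    -- the last maximal coefficient of `P 0`
    obtain ⟨D₁, hD₁T, hD₁⟩ := Finset.exists_max_image (Finset.range (T + 1))
      (fun m => toLex (𝒱.valuation ((P 0).coeff m), m)) ⟨0, Finset.mem_range.2 (Nat.succ_pos _)⟩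
    have hmax : ∀ m, 𝒱.valuation ((P 0).coeff m) ≤ 𝒱.valuation ((P 0).coeff D₁) := by
      intro m
      by_cases hm : m ≤ T
      · have h1 := hD₁ m (Finset.mem_range.2 (by omega))
        rw [Prod.Lex.toLex_le_toLex] at h1
        rcases h1 with h1 | h1
        · exact h1.le
        · exact h1.1.le
      · rw [hPc 0 m, if_neg hm, map_zero]
        exact zero_le
    have hpos : 1 ≤ 𝒱.valuation ((P 0).coeff D₁) := by
      have h1 := hmax 0
      rwa [hP00, map_one] at h1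
    have hmax' : ∀ m, D₁ < m → 𝒱.valuation ((P 0).coeff m) < 𝒱.valuation ((P 0).coeff D₁) := by
      intro m hm
      by_cases hmT : m ≤ T
      · have h1 := hD₁ m (Finset.mem_range.2 (by omega))
        rw [Prod.Lex.toLex_le_toLex] at h1
        rcases h1 with h1 | h1
        · exact h1
        · exact absurd h1.2 (by simp only; omega)
      · rw [hPc 0 m, if_neg hmT, map_zero]
        exact lt_of_lt_of_le zero_lt_one hpos
    have hu : ∀ l m, 𝒱.valuation ((P l - Polynomial.C (algebraMap k Ω (y l)) * P 0).coeff m) <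
        𝒱.valuation ((P 0).coeff D₁) := by
      intro l m
      obtain ⟨m', hm'⟩ := hA l m
      exact lt_of_lt_of_le hm' (hmax m')
    have hPle : ∀ l m, 𝒱.valuation ((P l).coeff m) ≤ 𝒱.valuation ((P 0).coeff D₁) := by
      intro l m
      have h1 : (P l).coeff m = (P l - Polynomial.C (algebraMap k Ω (y l)) * P 0).coeff m +
          algebraMap k Ω (y l) * (P 0).coeff m := by
        rw [Polynomial.coeff_sub, Polynomial.coeff_C_mul, sub_add_cancel]
      rw [h1]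
      refine 𝒱.valuation.map_add_le (hu l m).le ?_
      rw [map_mul]
      exact (mul_le_mul' (hle1 _) (hmax m)).trans_eq (one_mul _)
    have hgt : 1 < 𝒱.valuation ((P 0).coeff D₁) := lt_of_lt_of_le hPl₁' (hPle l₁ m₁)
    have hD₁B : D₁ ≤ B₂ := by
      by_contra hcon
      have hcon : B₂ < D₁ := not_le.1 hcon
      rcases htt with ha | ⟨θ₁, hb, t₂, ht₂, m₂, hm₂, hne, heq⟩
      · have h1 : Bnd 𝒱 ϖ 1 (P 0) := bnd_tr T fun m => by
          rw [map_one]
          exact ha 0 h0tt m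
        have h2 := h1 D₁
        have h3 : 𝒱.valuation (1 * ϖ ^ D₁) ≤ 𝒱.valuation (1 * ϖ ^ 0) :=
          val_le hϖ0 hϖ1 (Nat.zero_le _) 1
        rw [pow_zero, one_mul (1 : Ω), map_one] at h3
        exact absurd hgt (not_lt.2 (h2.trans h3))
      · have hθ₁ : θ₁ ≠ 0 := by
          intro h
          rw [h, map_zero] at heq
          exact hne ((Valuation.zero_iff _).1 heq)
        have h1 : Bnd 𝒱 ϖ θ₁ (P 0) := bnd_tr T (hb 0 h0tt)
        have h2 : 𝒱.valuation ((P t₂).coeff m₂) = 𝒱.valuation (θ₁ * ϖ ^ m₂) := by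
          rw [hPc, if_pos (by omega), map_mul, map_mul, heq, mul_comm]
        have h3 := lt_of_le_of_lt (h1 D₁) (val_lt hϖ0 hϖ1 (show m₂ < D₁ by omega) hθ₁)
        rw [← h2] at h3
        exact absurd h3 (not_lt.2 (hPle t₂ m₂))
    have hBG : ∀ f : PowerSeries Ω, (∀ m, 𝒱.valuation (PowerSeries.coeff m f * δ) ≤ 1) →
        Bnd 𝒱 ϖ δ⁻¹ (tr ϖ T f) := by
      intro f hf
      refine bnd_tr T fun m => ?_
      have h1 : PowerSeries.coeff m f = PowerSeries.coeff m f * δ * δ⁻¹ := by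
        rw [mul_assoc, mul_inv_cancel₀ hδ, mul_one]
      rw [h1, map_mul]
      exact (mul_le_mul' (hf m) le_rfl).trans_eq (one_mul _)
    obtain ⟨k', _, _, Yp, c1, c2, c3, c4⟩ := hg4 k Ω 𝒱 hk M κ d D₁ F hF y hy0 P hP00 hu hmax
      hmax' hgt b₀ (tr ϖ T G₀) (tr ϖ T G₁) δ hδ (by
        intro m
        by_cases hm : m ≤ T
        · have h1 : (tr ϖ T G₀ * P 0 + tr ϖ T G₁ * P b₀ - 1).coeff m = 0 := by
            refine coeff_of_qm ?_ m hm
            have h2 : ((tr ϖ T G₀ * P 0 + tr ϖ T G₁ * P b₀ - 1 : Polynomial Ω) :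
                PowerSeries Ω) = (tr ϖ T G₀ : PowerSeries Ω) * (tr ϖ T (H 0) : PowerSeries Ω) +
                (tr ϖ T G₁ : PowerSeries Ω) * (tr ϖ T (H b₀) : PowerSeries Ω) - 1 := by
              simp only [P, Polynomial.coe_sub, Polynomial.coe_add, Polynomial.coe_mul,
                Polynomial.coe_one]
            have h3 : PowerSeries.rescale ϖ G₀ * PowerSeries.rescale ϖ (H 0) +
                PowerSeries.rescale ϖ G₁ * PowerSeries.rescale ϖ (H b₀) = 1 := by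
              rw [← map_mul, ← map_mul, ← map_add, hG, map_one]
            have h4 := congrArg (qm Ω T) h3
            rw [map_add (qm Ω T), map_mul (qm Ω T), map_mul (qm Ω T)] at h4
            rw [h2, map_sub, map_add (qm Ω T), map_mul (qm Ω T), map_mul (qm Ω T), qm_tr, qm_tr,
              qm_tr, qm_tr, h4, sub_self]
          rw [h1, map_zero]
          exact zero_lt_one
        · have h1 : Bnd 𝒱 ϖ (δ⁻¹ * θ) (tr ϖ T G₀ * P 0 + tr ϖ T G₁ * P b₀) :=
            ((hBG G₀ hG₀).mul (hPb 0)).add ((hBG G₁ hG₁).mul (hPb b₀))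
          rw [Polynomial.coeff_sub, Polynomial.coeff_one, if_neg (by omega), sub_zero]
          exact lt_of_le_of_lt (h1 m) (hs1 m (by omega))) (by
        intro m
        rw [tr_coeff]
        split_ifs
        · rw [mul_assoc, map_mul, map_pow]
          exact mul_le_one' (pow_le_one' hϖ1.le _) (hG₁ m)
        · rw [zero_mul, map_zero]
          exact zero_le) (by
        intro j m
        by_cases hm : m ≤ T
        · rw [hPF j m hm, map_zero]
          exact zero_lt_iff.2 ((Valuation.ne_zero_iff _).2 (pow_ne_zero _ hδ))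
        · exact lt_of_le_of_lt (bnd_aeval hk (F j) (hF j) θ P hPb m) (hs2 m (by omega)))
    exact ⟨k', inferInstance, inferInstance, Yp, c1, fun l => (c2 l).trans (hD₁B.trans hB),
      fun t _ => (c2 t).trans hD₁B, c3, c4⟩

end Pool.Agent.Lib.MP_410da7_agB
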