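import Pool.Agent.Lib.MP_410da7_agB.SpecG
import Pool.Agent.Lib.MP_410da7_agA.G4

/-!
# MP_410da7_ag, nef boundary (C46, T1), GN7: the bubble (helper66)

After `MP_410da7_agA/G4.lean`.
-/

set_option autoImplicit false

namespace Pool.Agent.Lib.MP_410da7_agB

open Pool.Agent.Lib.MP_410da7_agA
open MvPolynomial Module

namespace gN7Aux

open EvW g4Aux

variable {k Λ : Type} [Field k] [Field Λ] [Algebra k Λ] {Ω : Type} [Field Ω] [Algebra k Ω]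

/-- Reduction of a linear combination. -/
theorem exists_e (𝒱 : ValuationSubring Ω) (hk : ∀ c : k, algebraMap k Ω c ∈ 𝒱) {D : ℕ}
    (a : Fin D → Ω) (θ : Ω) (hθ : θ ≠ 0) (ha : ∀ j, a j / θ ∈ 𝒱) (x : Fin D → k) :
    ∃ e : 𝒱, IsLocalRing.residue 𝒱 e = ∑ j, IsLocalRing.residue 𝒱 ⟨a j / θ, ha j⟩ *
        IsLocalRing.residue 𝒱 ⟨algebraMap k Ω (x j), hk (x j)⟩ ∧
      ∑ j, a j * algebraMap k Ω (x j) = θ * (e : Ω) := by
  refine ⟨∑ j, ⟨a j / θ, ha j⟩ * ⟨algebraMap k Ω (x j), hk (x j)⟩, ?_, ?_⟩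
  · simp only [map_sum, map_mul]
  · have h2 : ((∑ j, (⟨a j / θ, ha j⟩ : 𝒱) * ⟨algebraMap k Ω (x j), hk (x j)⟩ : 𝒱) : Ω) =
        ∑ j, a j / θ * algebraMap k Ω (x j) := by
      change 𝒱.subtype _ = _
      simp only [map_sum, map_mul]
      rfl
    rw [h2, Finset.mul_sum]
    refine Finset.sum_congr rfl fun j _ => ?_
    rw [← mul_assoc, mul_div_cancel₀ _ hθ]

theorem red_zero (𝒱 : ValuationSubring Ω) (hk : ∀ c : k, algebraMap k Ω c ∈ 𝒱) {D : ℕ}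
    (a : Fin D → Ω) (θ : Ω) (hθ : θ ≠ 0) (ha : ∀ j, a j / θ ∈ 𝒱) (x : Fin D → k)
    (h : ∑ j, a j * algebraMap k Ω (x j) = 0) :
    ∑ j, IsLocalRing.residue 𝒱 ⟨a j / θ, ha j⟩ *
        IsLocalRing.residue 𝒱 ⟨algebraMap k Ω (x j), hk (x j)⟩ = 0 := by
  obtain ⟨e, he, he2⟩ := exists_e 𝒱 hk a θ hθ ha x
  rw [← he]
  rw [h] at he2
  have h3 : (e : Ω) = 0 := (mul_eq_zero.1 he2.symm).resolve_left hθ
  have h4 : e = 0 := Subtype.ext h3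
  rw [h4, map_zero]

theorem red_ne (𝒱 : ValuationSubring Ω) (hk : ∀ c : k, algebraMap k Ω c ∈ 𝒱) {D : ℕ}
    (a : Fin D → Ω) (θ : Ω) (hθ : θ ≠ 0) (ha : ∀ j, a j / θ ∈ 𝒱) (x : Fin D → k)
    (h : ∑ j, IsLocalRing.residue 𝒱 ⟨a j / θ, ha j⟩ *
        IsLocalRing.residue 𝒱 ⟨algebraMap k Ω (x j), hk (x j)⟩ ≠ 0) :
    𝒱.valuation (∑ j, a j * algebraMap k Ω (x j)) = 𝒱.valuation θ := by
  obtain ⟨e, he, he2⟩ := exists_e 𝒱 hk a θ hθ ha x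
  rw [← he] at h
  have he1 : 𝒱.valuation e = 1 := by
    rw [← ValuationSubring.valuation_eq_one_iff]
    by_contra h5
    exact h ((IsLocalRing.residue_eq_zero_iff _).2 ((IsLocalRing.mem_maximalIdeal _).2 h5))
  rw [he2, map_mul, he1, mul_one]

theorem val_le_one (𝒱 : ValuationSubring Ω) (hk : ∀ c : k, algebraMap k Ω c ∈ 𝒱) (x : k) :
    𝒱.valuation (algebraMap k Ω x) ≤ 1 := (𝒱.valuation_le_one_iff _).2 (hk x)

theorem Hs_bd (𝒱 : ValuationSubring Ω) (hk : ∀ c : k, algebraMap k Ω c ∈ 𝒱) (C : Curve k Λ)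
    (w : C.pt) {N D : ℕ} (s : Fin N × Fin D → Ω) (Y : Fin N → Λ) (ω : Fin D → Λ) (l : Fin N)
    (θ : Ω) (h1 : 1 ≤ 𝒱.valuation θ) (h2 : ∀ j, 𝒱.valuation (s (l, j)) ≤ 𝒱.valuation θ) (m : ℕ) :
    𝒱.valuation (PowerSeries.coeff m (Hs C w s Y ω l)) ≤ 𝒱.valuation θ := by
  rw [Hs_coeff]
  refine 𝒱.valuation.map_add_le ((val_le_one 𝒱 hk _).trans h1)
    (𝒱.valuation.map_sum_le fun j _ => ?_)
  rw [map_mul]
  exact (mul_le_mul' (h2 j) (val_le_one 𝒱 hk _)).trans_eq (mul_one _)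

theorem Hs_att (𝒱 : ValuationSubring Ω) (hk : ∀ c : k, algebraMap k Ω c ∈ 𝒱) (C : Curve k Λ)
    (w : C.pt) {N D : ℕ} (s : Fin N × Fin D → Ω) (Y : Fin N → Λ) (ω : Fin D → Λ) (l : Fin N)
    (θ : Ω) (hθ : θ ≠ 0) (h1 : 1 < 𝒱.valuation θ) (h2 : ∀ j, s (l, j) / θ ∈ 𝒱) (m : ℕ)
    (h : ∑ j, IsLocalRing.residue 𝒱 ⟨s (l, j) / θ, h2 j⟩ *
        IsLocalRing.residue 𝒱 ⟨algebraMap k Ω (C.cf w m (ω j)), hk _⟩ ≠ 0) :
    𝒱.valuation (PowerSeries.coeff m (Hs C w s Y ω l)) = 𝒱.valuation θ := by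
  have h3 := red_ne 𝒱 hk (fun j => s (l, j)) θ hθ h2 (fun j => C.cf w m (ω j)) h
  rw [Hs_coeff, Valuation.map_add_eq_of_lt_right]
  · exact h3
  · rw [h3]
    exact lt_of_le_of_lt (val_le_one 𝒱 hk _) h1

/-- The power series of a combination of regular functions. -/
noncomputable def gs (Ω : Type) [Field Ω] [Algebra k Ω] (C : Curve k Λ) (w : C.pt) {n : ℕ}
    (β : Fin n → Λ) (γ : Fin n → Ω) : PowerSeries Ω :=
  PowerSeries.mk fun m => ∑ i, γ i * algebraMap k Ω (C.cf w m (β i))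

theorem gs_of (C : Curve k Λ) (w : C.pt) {n : ℕ} (β : Fin n → Λ) (γ : Fin n → Ω)
    (hβ : ∀ i, ∀ i' < 0, C.cf w i' (β i) = 0) {V : Type} (s : V → Ω) :
    HahnSeries.ofPowerSeries ℤ Ω (gs Ω C w β γ) =
      ∑ i, HahnSeries.C (γ i) * ev C w s (MvPolynomial.C (β i)) := by
  ext i
  rw [HahnSeries.coeff_sum]
  have h1 : ∀ j, (HahnSeries.C (γ j) * ev C w s (MvPolynomial.C (β j))).coeff i =
      γ j * algebraMap k Ω (C.cf w i (β j)) := by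
    intro j
    rw [HahnSeries.C_mul_eq_smul, HahnSeries.coeff_smul, smul_eq_mul, ev_C]
    rfl
  rw [Finset.sum_congr rfl fun j _ => h1 j]
  rcases lt_or_ge i 0 with hi | hi
  · rw [Finset.sum_eq_zero fun j _ => by rw [hβ j i hi, map_zero, mul_zero]]
    rw [HahnSeries.ofPowerSeries_apply]
    apply HahnSeries.embDomain_of_notMem_range
    rintro ⟨n, hn⟩
    have : ((n : ℕ) : ℤ) = i := by simpa using hn
    omega
  · obtain ⟨n, rfl⟩ := Int.eq_ofNat_of_zero_le hi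
    refine (HahnSeries.ofPowerSeries_apply_coeff (Γ := ℤ) (gs Ω C w β γ) n).trans ?_
    rw [gs, PowerSeries.coeff_mk]

theorem gs_bd (𝒱 : ValuationSubring Ω) (hk : ∀ c : k, algebraMap k Ω c ∈ 𝒱) (C : Curve k Λ)
    (w : C.pt) {n : ℕ} (β : Fin n → Λ) (γ : Fin n → Ω) (δ : Ω)
    (h : ∀ i, 𝒱.valuation (γ i * δ) ≤ 1) (m : ℕ) :
    𝒱.valuation (PowerSeries.coeff m (gs Ω C w β γ) * δ) ≤ 1 := by
  rw [gs, PowerSeries.coeff_mk, Finset.sum_mul]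
  refine 𝒱.valuation.map_sum_le fun i _ => ?_
  have h1 : γ i * algebraMap k Ω (C.cf w m (β i)) * δ =
      (γ i * δ) * algebraMap k Ω (C.cf w m (β i)) := by ring
  rw [h1, map_mul]
  exact mul_le_one' (h i) (val_le_one 𝒱 hk _)

theorem exists_delta (𝒱 : ValuationSubring Ω) {n : ℕ} (γ₀ γ₁ : Fin n → Ω) :
    ∃ δ : Ω, δ ≠ 0 ∧ (∀ i, 𝒱.valuation (γ₀ i * δ) ≤ 1) ∧ ∀ i, 𝒱.valuation (γ₁ i * δ) ≤ 1 := by
  let f : Option (Fin n ⊕ Fin n) → Ω := fun o => o.elim 1 (Sum.elim γ₀ γ₁)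
  obtain ⟨o, ho⟩ := Finite.exists_max (fun o => 𝒱.valuation (f o))
  have h1 : 𝒱.valuation 1 ≤ 𝒱.valuation (f o) := ho none
  have h0 : f o ≠ 0 := by
    intro h
    rw [h, map_zero, map_one] at h1
    exact absurd h1 (not_le.2 zero_lt_one)
  have h2 : ∀ o', 𝒱.valuation (f o' * (f o)⁻¹) ≤ 1 := by
    intro o'
    rw [map_mul, map_inv₀]
    have h3 : 𝒱.valuation (f o) ≠ 0 := (Valuation.ne_zero_iff _).2 h0
    calc 𝒱.valuation (f o') * (𝒱.valuation (f o))⁻¹ ≤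
        𝒱.valuation (f o) * (𝒱.valuation (f o))⁻¹ := mul_le_mul_left (ho o') _
      _ = 1 := mul_inv_cancel₀ h3
  exact ⟨(f o)⁻¹, inv_ne_zero h0, fun i => h2 (some (Sum.inl i)), fun i => h2 (some (Sum.inr i))⟩

end gN7Aux

open EvW g4Aux gN7Aux in
theorem gN7 (hgn1 : GN1Stmt) (hg1n : G1NStmt) (ho2 : O2Stmt) (hgn6 : GN6Stmt) : GN7Stmt := by
  classical
  intro k Λ _ _ _ C M κ d D b B₁ B₂ F hF tt htt0 Y hY0 P R hR0 hRP hPfin hYP hYR b₀ hb₀ c hc hPc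
    hB hnum ω hω hωL 𝔓 hp hmx hne hFP hpush
  obtain ⟨Ω, _, _, _, s, 𝒱, hs, hk, ⟨v₁, hv₁⟩, harch⟩ :=
    hgn1 k (Fin (M + 1) × Fin D) 𝔓 hp hmx hne
  have hP0 : ∀ w, 0 ≤ P w := fun w => (hR0 w).trans (hRP w)
  have hωP : ∀ j, ω j ∈ C.L P := fun j => L_sub_le C P c (hωL j)
  have hRc : ∀ i, R (c i) = 0 := fun i => by
    have h1 := hR0 (c i)
    have h2 := hRP (c i)
    rw [hPc] at h2
    omega
  have hRfin : {w | R w ≠ 0}.Finite := hPfin.subset fun w hw => by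
    intro h
    apply hw
    have h1 := hR0 w
    have h2 := hRP w
    rw [h] at h2
    omega
  let _ : Algebra k (IsLocalRing.ResidueField 𝒱) :=
    ((IsLocalRing.residue 𝒱).comp ((algebraMap k Ω).codRestrict 𝒱.toSubring hk)).toAlgebra
  -- the maximal coordinate
  have : Nonempty (Fin (M + 1) × Fin D) := ⟨v₁⟩
  obtain ⟨v₀, hv₀⟩ := Finite.exists_max (fun v => 𝒱.valuation (s v))
  have hθ : 1 < 𝒱.valuation (s v₀) := by
    have h2 : ¬ 𝒱.valuation (s v₁) ≤ 1 := fun h => hv₁ ((𝒱.valuation_le_one_iff _).1 h)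
    exact lt_of_lt_of_le (not_le.1 h2) (hv₀ v₁)
  have ne_of : ∀ θ : Ω, 1 < 𝒱.valuation θ → θ ≠ 0 := by
    intro θ h h0
    rw [h0, map_zero] at h
    exact not_lt_zero h
  have hθ0 := ne_of _ hθ
  have hρmem : ∀ j, s (v₀.1, j) / s v₀ ∈ 𝒱 := by
    intro j
    rw [← 𝒱.valuation_le_one_iff, map_div₀]
    exact div_le_one_of_le₀ (hv₀ _) zero_le
  have hρne : ∀ (v : Fin (M + 1) × Fin D) (h0 : s v ≠ 0) (hm : ∀ j, s (v.1, j) / s v ∈ 𝒱),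
      (fun j => IsLocalRing.residue 𝒱 ⟨s (v.1, j) / s v, hm j⟩) ≠ 0 := by
    intro v h0 hm h
    have h1 := congrFun h v.2
    have h2 : (⟨s (v.1, v.2) / s v, hm v.2⟩ : 𝒱) = 1 := Subtype.ext (div_self h0)
    simp only [Pi.zero_apply] at h1
    rw [h2, map_one] at h1
    exact one_ne_zero h1
  -- the bad points
  obtain ⟨S₁, hS₁⟩ : ∃ S₁ : Finset (Fin b), S₁ = Finset.univ.filter fun i => ∀ m : ℕ, 1 ≤ m →
    m ≤ B₁ → ∑ j, IsLocalRing.residue 𝒱 ⟨s (v₀.1, j) / s v₀, hρmem j⟩ *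
      algebraMap k (IsLocalRing.ResidueField 𝒱) (C.cf (c i) m (ω j)) = 0 := ⟨_, rfl⟩
  have hc1 : (((B₁ + 1) * S₁.card : ℕ) : ℤ) ≤ ∑ᶠ w, P w := by
    refine hg1n k Λ (IsLocalRing.ResidueField 𝒱) C D b B₁ P P hP0 hPfin c hc hPc hPc ω hω hωL
      (fun j => IsLocalRing.residue 𝒱 ⟨s (v₀.1, j) / s v₀, hρmem j⟩) (hρne v₀ hθ0 hρmem) ?_ S₁ ?_
    · intro w i hi
      refine Finset.sum_eq_zero fun j _ => ?_
      have : C.cf w i (ω j) = 0 := hωP j w i hi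
      rw [this, map_zero, mul_zero]
    · intro i hi m h1 h2
      rw [hS₁, Finset.mem_filter] at hi
      exact hi.2 m h1 h2
  -- regularity at the points `c i`
  have hYi : ∀ i l, ∀ i' < 0, C.cf (c i) i' (Y l) = 0 := by
    intro i l i' hi'
    apply hYP l (c i) i'
    rw [hPc, neg_zero]
    exact hi'
  have hωi : ∀ i j, ∀ i' < 1, C.cf (c i) i' (ω j) = 0 := by
    intro i j i' hi'
    apply hωL j (c i) i'
    rw [Pi.sub_apply, hPc, ptDiv_apply hc]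
    omega
  -- the end
  have hend : ∀ i : Fin b, i ∉ S₁ →
      ((∀ t ∈ tt, ∀ m, 𝒱.valuation (PowerSeries.coeff m (Hs C (c i) s Y ω t)) ≤ 1) ∨
      ∃ θ₁ : Ω, (∀ t ∈ tt, ∀ m, 𝒱.valuation (PowerSeries.coeff m (Hs C (c i) s Y ω t)) ≤
        𝒱.valuation θ₁) ∧
        ∃ t ∈ tt, ∃ m ≤ B₂, PowerSeries.coeff m (Hs C (c i) s Y ω t) ≠ 0 ∧
          𝒱.valuation (PowerSeries.coeff m (Hs C (c i) s Y ω t)) = 𝒱.valuation θ₁) →
      ∃ (i : Fin b) (k' : Type) (_ : Field k') (_ : Algebra k k')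
      (Yp : Fin (M + 1) → Polynomial k'),
      (∀ j, aeval Yp (F j) = 0) ∧ (∀ l, (Yp l).natDegree ≤ B₁) ∧
      (∀ t ∈ tt, (Yp t).natDegree ≤ B₂) ∧
      (∀ l, (Yp l).coeff 0 = algebraMap k k' (C.cf (c i) 0 (Y l))) ∧
      ∃ l, Yp l ≠ Polynomial.C (algebraMap k k' (C.cf (c i) 0 (Y l))) * Yp 0 := by
    intro i hi htt
    obtain ⟨m₂, n, β, γ₀, γ₁, hβ, hid⟩ := ho2 k Λ Ω C M D P Y b₀ hP0 hPfin hY0 hYP hb₀ ω hωP s
      (fun q hq => hmx ((hs q).2 hq))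
    obtain ⟨δ, hδ, hδ₀, hδ₁⟩ := exists_delta 𝒱 γ₀ γ₁
    have hβi : ∀ i₁, ∀ i' < 0, C.cf (c i) i' (β i₁) = 0 := by
      intro i₁ i' hi'
      apply hβ i₁ (c i) i'
      rw [Pi.smul_apply, hPc, smul_zero, neg_zero]
      exact hi'
    have hi2 : ∃ m : ℕ, 1 ≤ m ∧ m ≤ B₁ ∧
        ∑ j, IsLocalRing.residue 𝒱 ⟨s (v₀.1, j) / s v₀, hρmem j⟩ *
          algebraMap k (IsLocalRing.ResidueField 𝒱) (C.cf (c i) m (ω j)) ≠ 0 := by
      by_contra h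
      push Not at h
      apply hi
      rw [hS₁, Finset.mem_filter]
      exact ⟨Finset.mem_univ _, h⟩
    obtain ⟨m, hm1, hmB, hm⟩ := hi2
    have hcf0 : ∀ l, PowerSeries.coeff 0 (Hs C (c i) s Y ω l) =
        algebraMap k Ω (C.cf (c i) 0 (Y l)) := by
      intro l
      rw [Hs_coeff, Finset.sum_eq_zero, add_zero]
      · rfl
      · intro j _
        have : C.cf (c i) ((0 : ℕ) : ℤ) (ω j) = 0 := hωi i j _ (by simp)
        rw [this, map_zero, mul_zero]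
    have hy0 : C.cf (c i) 0 (Y 0) = 1 := by
      rw [hY0]
      change (C.exp (c i) 1).coeff 0 = 1
      rw [map_one, HahnSeries.coeff_one, if_pos rfl]
    have hω0 : ∀ j, ∀ i' < 0, C.cf (c i) i' (ω j) = 0 := fun j i' hi' =>
      hωi i j i' (by omega)
    have hone : gs Ω C (c i) β γ₀ * Hs C (c i) s Y ω 0 +
        gs Ω C (c i) β γ₁ * Hs C (c i) s Y ω b₀ = 1 := by
      apply HahnSeries.ofPowerSeries_injective (Γ := ℤ)
      rw [map_add, map_mul, map_mul, map_one, gs_of C (c i) β γ₀ hβi s,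
        gs_of C (c i) β γ₁ hβi s, ofPowerSeries_Hs C (c i) s Y ω 0 (hYi i 0) hω0,
        ofPowerSeries_Hs C (c i) s Y ω b₀ (hYi i b₀) hω0]
      exact hid (c i)
    obtain ⟨k', f1, f2, Yp, q1, q2, q3, q4, q5⟩ := hgn6 k Ω 𝒱 hk harch M κ d B₁ B₂ F hF tt htt0 hB
      (fun l => C.cf (c i) 0 (Y l)) hy0 (Hs C (c i) s Y ω) hcf0
      (fun j => eval_Hs C (c i) s Y ω (hYi i) hω0 (F j)
        (ev_ext C (c i) s (fun q hq => (hs q).1 hq) (hFP j))) (s v₀) hθ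
      (fun l m => Hs_bd 𝒱 hk C (c i) s Y ω l (s v₀) hθ.le (fun j => hv₀ _) m)
      ⟨v₀.1, m, hmB, Hs_att 𝒱 hk C (c i) s Y ω v₀.1 (s v₀) hθ0 hθ hρmem m hm⟩ htt b₀
      (gs Ω C (c i) β γ₀) (gs Ω C (c i) β γ₁) δ hδ hone
      (gs_bd 𝒱 hk C (c i) β γ₀ δ hδ₀) (gs_bd 𝒱 hk C (c i) β γ₁ δ hδ₁)
    exact ⟨i, k', f1, f2, Yp, q1, q2, q3, q4, q5⟩
  -- the numbers
  have hsumR : 0 ≤ ∑ᶠ w, R w := finsum_nonneg hR0
  have hbpos : ∀ n : ℕ, (((B₂ + 1) * n : ℕ) : ℤ) ≤ ∑ᶠ w, R w → S₁.card + n < b := by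
    intro n hn
    have h1 : ((B₂ : ℤ) + 1) * (((B₁ + 1) * S₁.card : ℕ) : ℤ) ≤ (B₂ + 1) * ∑ᶠ w, P w :=
      mul_le_mul_of_nonneg_left hc1 (by positivity)
    have h2 : ((B₁ : ℤ) + 1) * (((B₂ + 1) * n : ℕ) : ℤ) ≤ (B₁ + 1) * ∑ᶠ w, R w :=
      mul_le_mul_of_nonneg_left hn (by positivity)
    push_cast at h1 h2
    by_contra h3
    push Not at h3
    have h4 : ((B₁ : ℤ) + 1) * (B₂ + 1) * b ≤ (B₁ + 1) * (B₂ + 1) * (S₁.card + n) :=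
      mul_le_mul_of_nonneg_left (by exact_mod_cast h3) (by positivity)
    nlinarith
  by_cases hex : ∃ v : Fin (M + 1) × Fin D, v.1 ∈ tt ∧ 1 < 𝒱.valuation (s v)
  · obtain ⟨v₂, hv₂, hv₂'⟩ := hex
    have : Nonempty {v : Fin (M + 1) × Fin D // v.1 ∈ tt} := ⟨⟨v₂, hv₂⟩⟩
    obtain ⟨⟨v₃, hv₃⟩, hmax⟩ := Finite.exists_max
      (fun v : {v : Fin (M + 1) × Fin D // v.1 ∈ tt} => 𝒱.valuation (s v.1))
    have hθ₁ : 1 < 𝒱.valuation (s v₃) := lt_of_lt_of_le hv₂' (hmax ⟨v₂, hv₂⟩)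
    have hmax' : ∀ t ∈ tt, ∀ j, 𝒱.valuation (s (t, j)) ≤ 𝒱.valuation (s v₃) := fun t ht j =>
      hmax ⟨(t, j), ht⟩
    have hθ₁0 := ne_of _ hθ₁
    have hρ'mem : ∀ j, s (v₃.1, j) / s v₃ ∈ 𝒱 := by
      intro j
      rw [← 𝒱.valuation_le_one_iff, map_div₀]
      exact div_le_one_of_le₀ (hmax' _ hv₃ _) zero_le
    obtain ⟨S₂, hS₂⟩ : ∃ S₂ : Finset (Fin b), S₂ = Finset.univ.filter fun i => ∀ m : ℕ, 1 ≤ m →
      m ≤ B₂ → ∑ j, IsLocalRing.residue 𝒱 ⟨s (v₃.1, j) / s v₃, hρ'mem j⟩ *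
        algebraMap k (IsLocalRing.ResidueField 𝒱) (C.cf (c i) m (ω j)) = 0 := ⟨_, rfl⟩
    have hc2 : (((B₂ + 1) * S₂.card : ℕ) : ℤ) ≤ ∑ᶠ w, R w := by
      refine hg1n k Λ (IsLocalRing.ResidueField 𝒱) C D b B₂ P R hR0 hRfin c hc hPc hRc ω hω hωL
        (fun j => IsLocalRing.residue 𝒱 ⟨s (v₃.1, j) / s v₃, hρ'mem j⟩) (hρne v₃ hθ₁0 hρ'mem) ?_
        S₂ ?_
      · intro w i hi
        refine red_zero 𝒱 hk (fun j => s (v₃.1, j)) (s v₃) hθ₁0 hρ'mem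
          (fun j => C.cf w i (ω j)) ?_
        have h1 := (hs _).1 (hpush v₃.1 hv₃ w i hi)
        rw [← ev_coeff, ev_hpt_coeff] at h1
        have h2 : C.cf w i (Y v₃.1) = 0 := hYR v₃.1 hv₃ w i hi
        rw [h2, map_zero, zero_add] at h1
        exact h1
      · intro i hi m h1 h2
        rw [hS₂, Finset.mem_filter] at hi
        exact hi.2 m h1 h2
    have hcard := hbpos _ hc2
    have hex2 : ∃ i : Fin b, i ∉ S₁ ∪ S₂ := by
      by_contra h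
      push Not at h
      have h1 : (Finset.univ : Finset (Fin b)) ⊆ S₁ ∪ S₂ := fun i _ => h i
      have h2 := Finset.card_le_card h1
      have h3 := Finset.card_union_le S₁ S₂
      rw [Finset.card_univ, Fintype.card_fin] at h2
      omega
    obtain ⟨i, hi⟩ := hex2
    rw [Finset.mem_union, not_or] at hi
    refine hend i hi.1 (Or.inr ⟨s v₃, fun t ht m => Hs_bd 𝒱 hk C (c i) s Y ω t (s v₃) hθ₁.le
      (hmax' t ht) m, v₃.1, hv₃, ?_⟩)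
    have hi2 : ∃ m : ℕ, 1 ≤ m ∧ m ≤ B₂ ∧
        ∑ j, IsLocalRing.residue 𝒱 ⟨s (v₃.1, j) / s v₃, hρ'mem j⟩ *
          algebraMap k (IsLocalRing.ResidueField 𝒱) (C.cf (c i) m (ω j)) ≠ 0 := by
      by_contra h
      push Not at h
      apply hi.2
      rw [hS₂, Finset.mem_filter]
      exact ⟨Finset.mem_univ _, h⟩
    obtain ⟨m, hm1, hmB, hm⟩ := hi2
    have h1 := Hs_att 𝒱 hk C (c i) s Y ω v₃.1 (s v₃) hθ₁0 hθ₁ hρ'mem m hm
    exact ⟨m, hmB, ne_of _ (by rw [h1]; exact hθ₁), h1⟩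
  · push Not at hex
    have hcard := hbpos 0 (by simpa using hsumR)
    have hex2 : ∃ i : Fin b, i ∉ S₁ := by
      by_contra h
      push Not at h
      have h1 : (Finset.univ : Finset (Fin b)) ⊆ S₁ := fun i _ => h i
      have h2 := Finset.card_le_card h1
      rw [Finset.card_univ, Fintype.card_fin] at h2
      omega
    obtain ⟨i, hi⟩ := hex2
    refine hend i hi (Or.inl fun t ht m => ?_)
    have h1 := Hs_bd 𝒱 hk C (c i) s Y ω t 1 (by rw [map_one]) (fun j => by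
      rw [map_one]; exact hex (t, j) ht) m
    rwa [map_one] at h1

end Pool.Agent.Lib.MP_410da7_agB
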