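import Pool.Agent.Lib.MP_410da7_agB.SpecG
import Pool.Agent.Lib.MP_410da7_agV.NC1

/-!
# MP_410da7_ag, nef boundary: O1

`L((m+1) P) = L(m P) + y L(m P)` for some `m`. The steps are in `MP_410da7_agV/NC1.lean`.
-/

set_option autoImplicit false

namespace Pool.Agent.Lib.MP_410da7_agB

open Pool.Agent.Lib.MP_410da7_agA
open MvPolynomial Module

open Pool.Agent.Lib.MP_410da7_agV.nC1Aux in
theorem o1 : O1Stmt := by
  classical
  intro k Λ _ _ _ C P y hP hfin hyL hy
  by_cases hP0 : ∀ w, P w = 0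
  · refine ⟨0, fun f hf => ⟨f, ?_, 0, Submodule.zero_mem _, by rw [zero_mul, add_zero]⟩⟩
    have h1 : (((0 : ℕ) : ℤ) + 1) • P = ((0 : ℕ) : ℤ) • P := by
      funext w
      simp [hP0 w]
    rw [← h1]
    exact hf
  push Not at hP0
  obtain ⟨w₀, hw₀⟩ := hP0
  have hmfin : ∀ m : ℕ, {w | mq m P w ≠ 0}.Finite := fun m =>
    hfin.subset fun w hw h => hw (by simp [mq, h])
  have hfd : ∀ m : ℕ, FiniteDimensional k (C.L (mq m P)) := fun m =>
    f2 k Λ C w₀ _ ((hmfin m).subset fun w hw => (ne_of_gt (show 0 < mq m P w from hw)))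
  have hstep : ∀ m : ℕ, (finrank k (C.L (mq (m + 1) P)) : ℤ) ≤
      finrank k (C.L (mq m P)) + ∑ᶠ w, P w := by
    intro m
    have hle : ∀ w, mq m P w ≤ mq (m + 1) P w := by
      intro w
      simp only [mq, Pi.smul_apply, smul_eq_mul, Nat.cast_add, Nat.cast_one]
      have := hP w
      nlinarith
    have h1 := ff8 k Λ C (mq m P) (mq (m + 1) P) hle
      (hfin.subset fun w hw h => hw (by simp [mq, h])) (hfd (m + 1))
    have h2 : ∀ w, mq (m + 1) P w - mq m P w = P w := by
      intro w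
      simp only [mq, Pi.smul_apply, smul_eq_mul, Nat.cast_add, Nat.cast_one]
      ring
    simp only [h2] at h1
    exact h1
  obtain ⟨m, hm⟩ : ∃ m : ℕ, finrank k (C.L (mq (m + 2) P)) + finrank k (C.L (mq m P)) ≤
      finrank k (C.L (mq (m + 1) P)) + finrank k (C.L (mq (m + 1) P)) := by
    by_contra hcon
    push Not at hcon
    have hgrow : ∀ m : ℕ, (m : ℤ) + ((finrank k (C.L (mq 1 P)) : ℤ) - finrank k (C.L (mq 0 P))) ≤
        (finrank k (C.L (mq (m + 1) P)) : ℤ) - finrank k (C.L (mq m P)) := by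
      intro m
      induction m with
      | zero => simp
      | succ m ih =>
        have h1 := hcon m
        have h2 : (finrank k (C.L (mq (m + 1) P)) : ℤ) + finrank k (C.L (mq (m + 1) P)) + 1 ≤
            finrank k (C.L (mq (m + 2) P)) + finrank k (C.L (mq m P)) := by
          exact_mod_cast h1
        have h3 : m + 1 + 1 = m + 2 := rfl
        rw [h3]
        push_cast at ih ⊢
        linarith
    set c : ℤ := (finrank k (C.L (mq 1 P)) : ℤ) - finrank k (C.L (mq 0 P)) with hc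
    have h1 := hgrow ((∑ᶠ w, P w) - c + 1).toNat
    have h2 := hstep ((∑ᶠ w, P w) - c + 1).toNat
    have h3 := hstep 0
    have h5 : c ≤ ∑ᶠ w, P w := by
      have : (finrank k (C.L (mq 1 P)) : ℤ) ≤ finrank k (C.L (mq 0 P)) + ∑ᶠ w, P w := h3
      rw [hc]
      linarith
    have h4 : ((((∑ᶠ w, P w) - c + 1).toNat : ℕ) : ℤ) = (∑ᶠ w, P w) - c + 1 :=
      Int.toNat_of_nonneg (by linarith)
    rw [h4] at h1
    linarith
  refine ⟨m + 1, fun f hf => ?_⟩
  obtain ⟨u, hu, u', hu', h⟩ := step C hP hyL hy hfd m hm f (by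
    have h1 : (((m + 1 : ℕ) : ℤ) + 1) • P = mq (m + 2) P := by
      funext w
      simp only [mq, Pi.smul_apply, smul_eq_mul]
      push_cast
      ring
    rw [← h1]
    exact hf)
  exact ⟨u, hu, u', hu', h⟩

end Pool.Agent.Lib.MP_410da7_agB
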