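import Pool.Agent.Lib.MP_410da7_agB.SpecG
import Pool.Agent.Lib.MP_410da7_agV.NC1

/-!
# MP_410da7_ag, nef boundary: O2

Near `Y` the sections `x_0(h)`, `x_{b₀}(h)` have no common zero.
-/

set_option autoImplicit false

namespace Pool.Agent.Lib.MP_410da7_agB

open Pool.Agent.Lib.MP_410da7_agA
open MvPolynomial Module

namespace o2Aux

open EvW

variable {k Λ Ω : Type} [Field k] [Field Λ] [Algebra k Λ] [Field Ω] [Algebra k Ω]

lemma one_mem (C : Curve k Λ) {P : C.pt → ℤ} (hP : ∀ w, 0 ≤ P w) : (1 : Λ) ∈ C.L P := by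
  intro w i hi
  rw [map_one, HahnSeries.coeff_one, if_neg]
  have := hP w
  omega

/-- The expansion of a linear combination. -/
lemma ev_C_sum (C : Curve k Λ) (w : C.pt) {V : Type} (s : V → Ω) {N : ℕ} (c : Fin N → k)
    (f : Fin N → Λ) : ev C w s (MvPolynomial.C (∑ i, c i • f i)) =
      ∑ i, ev C w s (MvPolynomial.C (f i)) * HahnSeries.C (algebraMap k Ω (c i)) := by
  rw [map_sum, map_sum]
  refine Finset.sum_congr rfl fun i _ => ?_
  rw [Algebra.smul_def, map_mul, map_mul, mul_comm]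
  congr 1
  rw [ev_C, C.exp_alg, mapL_C]

/-- The coordinates of `β h_l` in `k[a]`. -/
noncomputable def Nc {N M D : ℕ} (cY : Fin N → k) (cω : Fin D → Fin N → k) (l : Fin (M + 1))
    (i' : Fin N) : MvPolynomial (Fin (M + 1) × Fin D) k :=
  MvPolynomial.C (cY i') + ∑ j, MvPolynomial.C (cω j i') * X (l, j)

lemma ev_mul_hpt (C : Curve k Λ) (w : C.pt) {M D N : ℕ} (s : Fin (M + 1) × Fin D → Ω)
    (Y : Fin (M + 1) → Λ) (ω : Fin D → Λ) (l : Fin (M + 1)) (β : Λ) (f : Fin N → Λ)
    (cY : Fin N → k) (cω : Fin D → Fin N → k) (hY : β * Y l = ∑ i, cY i • f i)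
    (hω : ∀ j, β * ω j = ∑ i, cω j i • f i) :
    ev C w s (MvPolynomial.C β) * ev C w s (hpt Y ω l) =
      ∑ i, ev C w s (MvPolynomial.C (f i)) * HahnSeries.C (aeval s (Nc cY cω l i)) := by
  have h1 : ev C w s (MvPolynomial.C β) * ev C w s (hpt Y ω l) =
      ev C w s (MvPolynomial.C (β * Y l)) +
        ∑ j, ev C w s (MvPolynomial.C (β * ω j)) * HahnSeries.C (s (l, j)) := by
    rw [hpt, map_add, map_sum, mul_add, Finset.mul_sum, map_mul, map_mul]
    congr 1
    refine Finset.sum_congr rfl fun j _ => ?_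
    rw [map_mul, ev_X, map_mul, map_mul, mul_assoc]
  rw [h1, hY, ev_C_sum]
  simp only [hω, ev_C_sum]
  have h2 : ∀ i, HahnSeries.C (aeval s (Nc cY cω l i)) =
      (HahnSeries.C (algebraMap k Ω (cY i)) +
        ∑ j, HahnSeries.C (algebraMap k Ω (cω j i)) * HahnSeries.C (s (l, j)) :
          LaurentSeries Ω) := by
    intro i
    rw [Nc, map_add, map_sum, map_add, map_sum]
    congr 1
    · rw [← MvPolynomial.algebraMap_eq, AlgHom.commutes]
    · refine Finset.sum_congr rfl fun j _ => ?_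
      rw [map_mul, aeval_X, ← MvPolynomial.algebraMap_eq, AlgHom.commutes, map_mul]
  simp only [h2, mul_add, Finset.sum_add_distrib, Finset.mul_sum, Finset.sum_mul]
  congr 1
  rw [Finset.sum_comm]
  refine Finset.sum_congr rfl fun i _ => Finset.sum_congr rfl fun j _ => ?_
  rw [mul_assoc]

lemma constantCoeff_Nc {N M D : ℕ} (cY : Fin N → k) (cω : Fin D → Fin N → k) (l : Fin (M + 1))
    (i' : Fin N) : constantCoeff (Nc cY cω l i') = cY i' := by
  simp [Nc]

end o2Aux

open EvW o2Aux in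
theorem o2 (h1 : O1Stmt) : O2Stmt := by
  classical
  intro k Λ Ω _ _ _ _ _ C M D P Y b₀ hP hfin hY0 hYP hYb ω hω s hs
  rcases isEmpty_or_nonempty C.pt with hE | ⟨⟨w₀⟩⟩
  · exact ⟨0, 0, Fin.elim0, Fin.elim0, Fin.elim0, fun i => i.elim0, fun w => (hE.false w).elim⟩
  obtain ⟨m, hm⟩ := h1 k Λ C P (Y b₀) hP hfin (hYP b₀) hYb
  have hfd : ∀ c : ℤ, FiniteDimensional k (C.L (c • P)) := fun c =>
    f2 k Λ C w₀ _ (hfin.subset fun w hw h => by
      have h2 : 0 < (c • P) w := hw
      rw [Pi.smul_apply, h, smul_zero] at h2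
      exact lt_irrefl _ h2)
  have i1 := hfd (m : ℤ)
  have i2 := hfd ((m : ℤ) + 1)
  -- bases
  set n := finrank k (C.L ((m : ℤ) • P)) with hn
  set N := finrank k (C.L (((m : ℤ) + 1) • P)) with hN
  let bβ : Basis (Fin n) k (C.L ((m : ℤ) • P)) := finBasis k _
  let bf : Basis (Fin N) k (C.L (((m : ℤ) + 1) • P)) := finBasis k _
  let β : Fin n → Λ := fun i => (bβ i : Λ)
  let f : Fin N → Λ := fun i => (bf i : Λ)
  have hβ : ∀ i, β i ∈ C.L ((m : ℤ) • P) := fun i => (bβ i).2
  have hexp : ∀ x ∈ C.L (((m : ℤ) + 1) • P), ∃ c : Fin N → k, x = ∑ i, c i • f i := by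
    intro x hx
    refine ⟨fun i => bf.repr ⟨x, hx⟩ i, ?_⟩
    have h2 := congrArg (fun z : C.L (((m : ℤ) + 1) • P) => (z : Λ)) (bf.sum_repr ⟨x, hx⟩)
    simp only [Submodule.coe_sum, Submodule.coe_smul] at h2
    exact h2.symm
  have hexpβ : ∀ x ∈ C.L ((m : ℤ) • P), ∃ c : Fin n → k, x = ∑ i, c i • β i := by
    intro x hx
    refine ⟨fun i => bβ.repr ⟨x, hx⟩ i, ?_⟩
    have h2 := congrArg (fun z : C.L ((m : ℤ) • P) => (z : Λ)) (bβ.sum_repr ⟨x, hx⟩)
    simp only [Submodule.coe_sum, Submodule.coe_smul] at h2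
    exact h2.symm
  have hind : ∀ c c' : Fin N → k, ∑ i, c i • f i = ∑ i, c' i • f i → c = c' := by
    intro c c' h
    have h2 : ∑ i, c i • bf i = ∑ i, c' i • bf i := by
      apply Subtype.ext
      simp only [Submodule.coe_sum, Submodule.coe_smul]
      exact h
    have h3 : bf.equivFun.symm c = bf.equivFun.symm c' := by
      rw [Basis.equivFun_symm_apply, Basis.equivFun_symm_apply]
      exact h2
    exact bf.equivFun.symm.injective h3
  have hmul : ∀ x ∈ C.L ((m : ℤ) • P), ∀ z ∈ C.L P, x * z ∈ C.L (((m : ℤ) + 1) • P) := by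
    intro x hx z hz
    have h2 := Pool.Agent.Lib.MP_410da7_agV.nC1Aux.mul_mem C hx hz
    have h3 : (m : ℤ) • P + P = ((m : ℤ) + 1) • P := by rw [add_smul, one_smul]
    rwa [h3] at h2
  -- the coordinates
  have hcY : ∀ (l : Fin (M + 1)) (i : Fin n), ∃ c : Fin N → k, β i * Y l = ∑ i', c i' • f i' :=
    fun l i => hexp _ (hmul _ (hβ i) _ (hYP l))
  have hcω : ∀ (i : Fin n) (j : Fin D), ∃ c : Fin N → k, β i * ω j = ∑ i', c i' • f i' :=
    fun i j => hexp _ (hmul _ (hβ i) _ (hω j))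
  choose cY hcY using hcY
  choose cω hcω using hcω
  obtain ⟨ε, hε⟩ := hexp 1 (one_mem C fun w => by
    rw [Pi.smul_apply, smul_eq_mul]
    have := hP w
    positivity)
  -- the matrix
  let A : Matrix (Fin n ⊕ Fin n) (Fin N) (MvPolynomial (Fin (M + 1) × Fin D) k) :=
    Matrix.of fun r i' => Sum.elim (fun i => Nc (cY 0 i) (cω i) 0 i')
      (fun i => Nc (cY b₀ i) (cω i) b₀ i') r
  have hR : ∀ i' : Fin N, ∃ r : Fin n ⊕ Fin n → k, ∀ i'', ∑ x, r x * constantCoeff (A x i'') =
      if i' = i'' then 1 else 0 := by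
    intro i'
    obtain ⟨g₀, hg₀, g₁, hg₁, hg⟩ := hm (f i') (bf i').2
    obtain ⟨c₀, hc₀⟩ := hexpβ g₀ hg₀
    obtain ⟨c₁, hc₁⟩ := hexpβ g₁ hg₁
    refine ⟨Sum.elim c₀ c₁, fun i'' => ?_⟩
    rw [Fintype.sum_sum_type]
    simp only [Sum.elim_inl, Sum.elim_inr, A, Matrix.of_apply, constantCoeff_Nc]
    have h2 : ∑ j, (∑ i, c₀ i * cY 0 i j + ∑ i, c₁ i * cY b₀ i j) • f j =
        ∑ j, (if i' = j then (1 : k) else 0) • f j := by
      have h3 : ∑ j, (if i' = j then (1 : k) else 0) • f j = f i' := by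
        simp
      rw [h3, hg, hc₀, hc₁]
      simp only [add_smul, Finset.sum_add_distrib, Finset.sum_smul, Finset.sum_mul]
      congr 1
      · rw [Finset.sum_comm]
        refine Finset.sum_congr rfl fun i _ => ?_
        have h4 := hcY 0 i
        rw [hY0, mul_one] at h4
        rw [h4, Finset.smul_sum]
        simp only [mul_smul]
      · rw [Finset.sum_comm]
        refine Finset.sum_congr rfl fun i _ => ?_
        rw [smul_mul_assoc, hcY b₀ i, Finset.smul_sum]
        simp only [mul_smul]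
    exact congrFun (hind _ _ h2) i''
  choose R hR using hR
  let RM : Matrix (Fin N) (Fin n ⊕ Fin n) (MvPolynomial (Fin (M + 1) × Fin D) k) :=
    Matrix.of fun i' x => MvPolynomial.C (R i' x)
  -- the determinant
  have hdet0 : constantCoeff (RM * A).det = 1 := by
    rw [RingHom.map_det]
    have h2 : (constantCoeff : MvPolynomial (Fin (M + 1) × Fin D) k →+* k).mapMatrix (RM * A) =
        1 := by
      ext i' i''
      rw [RingHom.mapMatrix_apply, Matrix.map_apply, Matrix.mul_apply, map_sum,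
        Matrix.one_apply, ← hR i' i'']
      refine Finset.sum_congr rfl fun x _ => ?_
      rw [map_mul]
      simp only [RM, Matrix.of_apply]
      rw [MvPolynomial.constantCoeff_C]
    rw [h2, Matrix.det_one]
  have hdets : aeval s (RM * A).det ≠ 0 := by
    intro h
    have h2 := hs _ h
    rw [mx, RingHom.mem_ker, hdet0] at h2
    exact one_ne_zero h2
  let As : Matrix (Fin n ⊕ Fin n) (Fin N) Ω := A.map (aeval s)
  let Rs : Matrix (Fin N) (Fin n ⊕ Fin n) Ω := Matrix.of fun i' x => algebraMap k Ω (R i' x)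
  have hRAs : (RM * A).map (aeval s) = Rs * As := by
    ext i' i''
    rw [Matrix.map_apply, Matrix.mul_apply, Matrix.mul_apply, map_sum]
    refine Finset.sum_congr rfl fun x _ => ?_
    rw [map_mul]
    congr 1
    simp only [RM, Rs, Matrix.of_apply]
    rw [← MvPolynomial.algebraMap_eq, AlgHom.commutes]
  have hunit : IsUnit (Rs * As).det := by
    rw [← hRAs]
    have h2 := RingHom.map_det (aeval s : MvPolynomial (Fin (M + 1) × Fin D) k →ₐ[k] Ω).toRingHom
      (RM * A)
    have h3 : ((RM * A).map (aeval s)).det = aeval s (RM * A).det := h2.symm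
    rw [h3]
    exact isUnit_iff_ne_zero.2 hdets
  let γ : Fin n ⊕ Fin n → Ω := Matrix.vecMul (Matrix.vecMul (fun i' => algebraMap k Ω (ε i'))
    (Rs * As)⁻¹) Rs
  have hγ : ∀ i', ∑ x, γ x * As x i' = algebraMap k Ω (ε i') := by
    intro i'
    have h2 : Matrix.vecMul γ As = fun i' => algebraMap k Ω (ε i') := by
      simp only [γ]
      rw [Matrix.vecMul_vecMul, Matrix.vecMul_vecMul, Matrix.nonsing_inv_mul _ hunit,
        Matrix.vecMul_one]
    exact congrFun h2 i'
  refine ⟨m, n, β, fun i => γ (Sum.inl i), fun i => γ (Sum.inr i), hβ, fun w => ?_⟩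
  have hmain : ∀ (l : Fin (M + 1)) (g : Fin n → Ω),
      (∑ i, HahnSeries.C (g i) * ev C w s (MvPolynomial.C (β i))) * ev C w s (hpt Y ω l) =
        ∑ i', ev C w s (MvPolynomial.C (f i')) *
          HahnSeries.C (∑ i, g i * aeval s (Nc (cY l i) (cω i) l i')) := by
    intro l g
    rw [Finset.sum_mul]
    have h2 : ∀ i, HahnSeries.C (g i) * ev C w s (MvPolynomial.C (β i)) * ev C w s (hpt Y ω l) =
        ∑ i', ev C w s (MvPolynomial.C (f i')) *
          (HahnSeries.C (g i) * HahnSeries.C (aeval s (Nc (cY l i) (cω i) l i'))) := by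
      intro i
      rw [mul_assoc, ev_mul_hpt C w s Y ω l (β i) f (cY l i) (cω i) (hcY l i) (hcω i),
        Finset.mul_sum]
      refine Finset.sum_congr rfl fun i' _ => ?_
      ring
    simp only [h2]
    rw [Finset.sum_comm]
    refine Finset.sum_congr rfl fun i' _ => ?_
    rw [← Finset.mul_sum, map_sum]
    simp only [map_mul]
  rw [hmain, hmain, ← Finset.sum_add_distrib]
  have h3 : ∀ i', ev C w s (MvPolynomial.C (f i')) *
      HahnSeries.C (∑ i, γ (Sum.inl i) * aeval s (Nc (cY 0 i) (cω i) 0 i')) +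
      ev C w s (MvPolynomial.C (f i')) *
      HahnSeries.C (∑ i, γ (Sum.inr i) * aeval s (Nc (cY b₀ i) (cω i) b₀ i')) =
      ev C w s (MvPolynomial.C (f i')) * HahnSeries.C (algebraMap k Ω (ε i')) := by
    intro i'
    rw [← mul_add, ← map_add, ← hγ i', Fintype.sum_sum_type]
    rfl
  simp only [h3]
  rw [← ev_C_sum, ← hε, map_one, map_one]

end Pool.Agent.Lib.MP_410da7_agB
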