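import Pool.Agent.Lib.MP_410da7_agA.Assembly
import Pool.Agent.Lib.MP_410da7_agB.CN
import Pool.Agent.Lib.MP_410da7_agB.DN18
import Pool.Agent.Lib.MP_410da7_agB.DN17
import Pool.Agent.Lib.MP_410da7_agB.DN16
import Pool.Agent.Lib.MP_410da7_agB.DN15
import Pool.Agent.Lib.MP_410da7_agB.DN13
import Pool.Agent.Lib.MP_410da7_agB.DN5
import Pool.Agent.Lib.MP_410da7_agB.DNg
import Pool.Agent.Lib.MP_410da7_agB.EFGN
import Pool.Agent.Lib.MP_410da7_agB.E3N
import Pool.Agent.Lib.MP_410da7_agB.E7N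
import Pool.Agent.Lib.MP_410da7_agB.E8N
import Pool.Agent.Lib.MP_410da7_agB.E9N
import Pool.Agent.Lib.MP_410da7_agB.GN7
import Pool.Agent.Lib.MP_410da7_agB.GN6
import Pool.Agent.Lib.MP_410da7_agB.GN5
import Pool.Agent.Lib.MP_410da7_agB.GN4
import Pool.Agent.Lib.MP_410da7_agB.GN1
import Pool.Agent.Lib.MP_410da7_agB.G1N
import Pool.Agent.Lib.MP_410da7_agB.O1
import Pool.Agent.Lib.MP_410da7_agB.O2
import Pool.Agent.Lib.MP_410da7_agB.FG16N
import Pool.Agent.Lib.MP_410da7_agB.FG15N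
import Pool.Agent.Lib.MP_410da7_agB.F14N
import Pool.Agent.Lib.MP_410da7_agB.F13N
import Pool.Agent.Lib.MP_410da7_agB.CrossUp
import Pool.Agent.Lib.MP_410da7_agB.CrossDown

/-!
# MP_410da7_ag, nef boundary (C46, T1): assembly of the blocks D, E, F, G
-/

set_option autoImplicit false

namespace Pool.Agent.Lib.MP_410da7_agB

open Pool.Agent.Lib.MP_410da7_agA

theorem gn7All : GN7Stmt := gN7 gN1 g1N (o2 o1) (gN6 (gN5 crossUp) (gN4 crossDown))

theorem fg16NAll : FG16NStmt :=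
  fG16N f4 (f14N f2 f5 f6 f7 (f9 f8) f10 (f11 f10) (f12 f10) (f13N f10)) fG15N gn7All

theorem efgNAll : EFGNStmt := eFGN e3N (e8N e7N) e9N fg16NAll

/-- Log bend and break for a nef boundary: the rational curve through the generic point. -/
theorem cnAll : CNStmt :=
  cN (dN18 dNg (dN16 dN5 dN13) (dN17 dN5 dN13 dN15)) efgNAll

end Pool.Agent.Lib.MP_410da7_agB
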