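import Pool.Agent.Lib.MP_410da7_agB.SpecH

/-!
# MP_410da7_ag, nef boundary (C46, T1): HA, from the chart at a closed point to the center of a valuation
-/

set_option autoImplicit false

namespace Pool.Agent.Lib.MP_410da7_agB

open Pool.Agent.Lib.MP_410da7_agA
open MvPolynomial KaehlerDifferential WithZero Module

theorem hA : HAStmt := by
  intro K _ _ n M s d₀ Y G hG hGne b p v hv hat z lam hch
  obtain ⟨hYb, hp'⟩ := hat
  have hp : ∀ P : MvPolynomial (Fin (M + 1)) ℂ, eval p P ≠ 0 → v (aeval (aff Y b) P) = 1 := hp'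
  have hs : ∀ l, v (aff Y b l) ≤ 1 := by
    intro l
    have h1 : eval p (X l - C (p l + 1) : MvPolynomial (Fin (M + 1)) ℂ) ≠ 0 := by
      rw [map_sub, eval_X, eval_C]
      intro h
      have : (1 : ℂ) = 0 := by linear_combination -h
      exact one_ne_zero this
    have h2 := hp _ h1
    rw [map_sub, aeval_X, aeval_C] at h2
    have h3 : v (algebraMap ℂ K (p l + 1)) ≤ 1 := by
      rcases eq_or_ne (p l + 1) 0 with h0 | h0
      · rw [h0, map_zero, map_zero]; exact zero_le
      · exact (hv _ h0).le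
    calc v (aff Y b l) = v ((aff Y b l - algebraMap ℂ K (p l + 1)) + algebraMap ℂ K (p l + 1)) := by
          rw [sub_add_cancel]
      _ ≤ max (v (aff Y b l - algebraMap ℂ K (p l + 1))) (v (algebraMap ℂ K (p l + 1))) :=
          v.map_add _ _
      _ ≤ 1 := max_le h2.le h3
  have hvb0 : v (Y b) ≠ 0 := by rwa [Valuation.ne_zero_iff]
  have hb : ∀ l, v (Y l) ≤ v (Y b) := by
    intro l
    have h1 : v (Y l / Y b) ≤ 1 := hs l
    rw [map_div₀] at h1
    exact (div_le_one₀ (zero_lt_iff.2 hvb0)).1 h1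
  have hcoord : Submodule.span (pointRing Y b p)
      (Set.range fun i => D ℂ (pointRing Y b p) (z i)) = ⊤ := hch.coord
  have hdiv : Ideal.span (Set.range fun j => chartVal Y b p (G j)) =
      Ideal.span {∏ i, z i ^ lam i} := hch.div
  have hred : (Ideal.span {∏ i, z i ^ lam i}).radical =
      Ideal.span {∏ i with 1 ≤ lam i, z i} := hch.red
  -- the inclusion of the local rings
  have hle : ∀ f ∈ pointRing Y b p, f ∈ locRing Y b v := by
    rintro f ⟨P, Q, hQ, hf⟩
    exact ⟨P, Q, hp Q hQ, hf⟩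
  have hloc1 : ∀ f ∈ locRing Y b v, v f ≤ 1 := by
    rintro f ⟨P, Q, hQ, hf⟩
    have h1 : v f * v (aeval (aff Y b) Q) = v (aeval (aff Y b) P) := by rw [← map_mul, hf]
    rw [hQ, mul_one] at h1
    rw [h1]
    exact ng_aeval_le hv _ hs P
  have hprod : (∏ i with 1 ≤ lam i, (z i : K)) = ∏ i, if lam i = 0 then 1 else (z i : K) := by
    rw [Finset.prod_filter]
    refine Finset.prod_congr rfl fun i _ => ?_
    by_cases hi : lam i = 0
    · rw [if_neg (by omega), if_pos hi]
    · rw [if_pos (by omega), if_neg hi]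
  have hmem : ∀ P : MvPolynomial (Fin (M + 1)) ℂ, aeval (aff Y b) P ∈ pointRing Y b p := fun P =>
    ⟨P, 1, by rw [map_one]; exact one_ne_zero, by rw [map_one, mul_one]; rfl⟩
  have hne0 : ∀ Q : MvPolynomial (Fin (M + 1)) ℂ, v (aeval (aff Y b) Q) = 1 →
      aeval (aff Y b) Q ≠ 0 := by
    intro Q hQ h0
    rw [h0, map_zero] at hQ
    exact zero_ne_one hQ
  have hinv : ∀ Q : MvPolynomial (Fin (M + 1)) ℂ, v (aeval (aff Y b) Q) = 1 →
      (aeval (aff Y b) Q)⁻¹ ∈ locRing Y b v := by
    intro Q hQ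
    refine ⟨1, Q, hQ, ?_⟩
    rw [map_one]
    exact inv_mul_cancel₀ (hne0 Q hQ)
  have hzet : ((∏ i with 1 ≤ lam i, z i : pointRing Y b p) : K) = zet (fun i => (z i : K)) lam := by
    rw [zet, ← hprod]
    exact map_prod (pointRing Y b p).val _ _
  have hzl : ((∏ i, z i ^ lam i : pointRing Y b p) : K) = ∏ i, (z i : K) ^ lam i := by
    have h1 := map_prod (pointRing Y b p).val (fun i => z i ^ lam i) Finset.univ
    refine h1.trans (Finset.prod_congr rfl fun i _ => ?_)
    exact map_pow (pointRing Y b p).val (z i) (lam i)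
  have hG1 : ∀ j, ∃ g : pointRing Y b p, chartVal Y b p (G j) = g * ∏ i, z i ^ lam i := by
    intro j
    have h1 : chartVal Y b p (G j) ∈ Ideal.span {∏ i, z i ^ lam i} := by
      rw [← hdiv]
      exact Ideal.subset_span ⟨j, rfl⟩
    obtain ⟨g, hg⟩ := Ideal.mem_span_singleton'.1 h1
    exact ⟨g, hg.symm⟩
  choose g hg using hG1
  have hgK : ∀ j, aeval (aff Y b) (G j) = (g j : K) * ∏ i, (z i : K) ^ lam i := by
    intro j
    rw [← hzl]
    exact congrArg Subtype.val (hg j)
  have hne : ∏ i, (z i : K) ^ lam i ≠ 0 := by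
    intro h0
    obtain ⟨j, hj⟩ := hGne
    apply hj
    rw [ng_hom_aeval (hG j) hYb, hgK j, h0, mul_zero, mul_zero]
  refine ⟨⟨hYb, hb, fun i => hle _ (z i).2, ?_⟩, fun j => ⟨(g j : K), hle _ (g j).2, hgK j⟩, ?_,
    hne, ?_⟩
  · -- the differentials
    let ι : pointRing Y b p →ₐ[ℂ] locRing Y b v := Subalgebra.inclusion (fun f hf => hle f hf)
    let _ : Algebra (pointRing Y b p) (locRing Y b v) := ι.toRingHom.toAlgebra
    have : IsScalarTower ℂ (pointRing Y b p) (locRing Y b v) :=
      IsScalarTower.of_algebraMap_eq fun c => (ι.commutes c).symm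
    set W : Submodule (locRing Y b v) Ω[locRing Y b v⁄ℂ] :=
      Submodule.span (locRing Y b v) {ω : Ω[locRing Y b v⁄ℂ] |
        ∃ i, ∃ h : (z i : K) ∈ locRing Y b v, ω = D ℂ (locRing Y b v) ⟨z i, h⟩} with hW
    have h1 : ∀ f : pointRing Y b p, D ℂ (locRing Y b v) (ι f) ∈ W := by
      intro f
      have h2 : D ℂ (pointRing Y b p) f ∈ Submodule.span (pointRing Y b p)
          (Set.range fun i => D ℂ (pointRing Y b p) (z i)) := by rw [hcoord]; trivial
      have h3 : KaehlerDifferential.map ℂ ℂ (pointRing Y b p) (locRing Y b v)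
          (D ℂ (pointRing Y b p) f) ∈ W := by
        refine Submodule.span_induction (p := fun ω _ =>
          KaehlerDifferential.map ℂ ℂ (pointRing Y b p) (locRing Y b v) ω ∈ W) ?_ ?_ ?_ ?_ h2
        · rintro _ ⟨i, rfl⟩
          change KaehlerDifferential.map ℂ ℂ (pointRing Y b p) (locRing Y b v)
            (D ℂ (pointRing Y b p) (z i)) ∈ W
          rw [KaehlerDifferential.map_D]
          exact Submodule.subset_span ⟨i, hle _ (z i).2, rfl⟩
        · rw [map_zero]; exact W.zero_mem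
        · intro ω ω' _ _ hω hω'
          rw [map_add]; exact W.add_mem hω hω'
        · intro c ω _ hω
          rw [map_smul, ← algebraMap_smul (locRing Y b v) c]
          exact W.smul_mem _ hω
      rw [KaehlerDifferential.map_D] at h3
      exact h3
    rw [eq_top_iff, ← KaehlerDifferential.span_range_derivation, Submodule.span_le]
    rintro _ ⟨f, rfl⟩
    obtain ⟨P, Q, hQ, hf⟩ := f.2
    have h4 : f * ι ⟨_, hmem Q⟩ = ι ⟨_, hmem P⟩ := Subtype.ext hf
    have h5 : (D ℂ (locRing Y b v)) f =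
        (⟨_, hinv Q hQ⟩ : locRing Y b v) • (D ℂ (locRing Y b v) (ι ⟨_, hmem P⟩) -
          f • D ℂ (locRing Y b v) (ι ⟨_, hmem Q⟩)) := by
      have h6 := congrArg (D ℂ (locRing Y b v)) h4
      rw [Derivation.leibniz] at h6
      rw [← h6, add_sub_cancel_left, smul_smul]
      have h7 : (⟨_, hinv Q hQ⟩ : locRing Y b v) * ι ⟨_, hmem Q⟩ = 1 :=
        Subtype.ext (inv_mul_cancel₀ (hne0 Q hQ))
      rw [h7, one_smul]
    rw [h5]
    exact W.smul_mem _ (W.sub_mem (h1 _) (W.smul_mem _ (h1 _)))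
  · -- some `G_j` is a generator
    have h1 : (∏ i, z i ^ lam i) ∈ Ideal.span (Set.range fun j => chartVal Y b p (G j)) := by
      rw [hdiv]
      exact Ideal.mem_span_singleton_self _
    obtain ⟨c, hc⟩ := (Ideal.mem_span_range_iff_exists_fun).1 h1
    have h2 : ∑ j, (c j : K) * (g j : K) = 1 := by
      have h3 := congrArg (Subtype.val) hc
      rw [hzl] at h3
      have h4 : ((∑ j, c j * chartVal Y b p (G j) : pointRing Y b p) : K) =
          (∑ j, (c j : K) * (g j : K)) * ∏ i, (z i : K) ^ lam i := by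
        rw [Finset.sum_mul]
        have h5 := map_sum (pointRing Y b p).val (fun j => c j * chartVal Y b p (G j)) Finset.univ
        refine h5.trans (Finset.sum_congr rfl fun j _ => ?_)
        have h6 : (pointRing Y b p).val (c j * chartVal Y b p (G j)) =
            (c j : K) * aeval (aff Y b) (G j) := rfl
        rw [h6, hgK j, mul_assoc]
      have h7 := h4.symm.trans h3
      exact mul_right_cancel₀ hne (h7.trans (one_mul _).symm)
    have h3 : ∃ j, v (g j : K) = 1 := by
      by_contra hcon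
      push Not at hcon
      have h4 : ∀ j, v ((c j : K) * (g j : K)) < 1 := by
        intro j
        have h5 : v (g j : K) < 1 := lt_of_le_of_ne (hloc1 _ (hle _ (g j).2)) (hcon j)
        rw [map_mul]
        calc v (c j : K) * v (g j : K) ≤ 1 * v (g j : K) :=
              mul_le_mul' (hloc1 _ (hle _ (c j).2)) le_rfl
          _ = v (g j : K) := one_mul _
          _ < 1 := h5
      have h6 : v (∑ j, (c j : K) * (g j : K)) < 1 :=
        v.map_sum_lt one_ne_zero fun j _ => h4 j
      rw [h2, map_one] at h6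
      exact lt_irrefl _ h6
    obtain ⟨j, hj⟩ := h3
    exact ⟨j, (g j : K), hle _ (g j).2, hj, hgK j⟩
  · -- the reduced boundary
    rintro f ⟨P, Q, hQ, hf⟩ m ⟨g, ⟨P', Q', hQ', hg⟩, hfg⟩
    -- `P Q'` vanishes on the boundary near `p`
    have h1 : (aeval (aff Y b) (P * Q')) ^ (m + 1) =
        aeval (aff Y b) (P * P' * Q ^ m * Q' ^ m) * ∏ i, (z i : K) ^ lam i := by
      rw [map_mul, map_mul, map_mul, map_mul, ← hf, ← hg, map_pow, map_pow]
      have h2 : (f * aeval (aff Y b) Q * aeval (aff Y b) Q') ^ (m + 1) =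
          f ^ m * (f * aeval (aff Y b) Q ^ (m + 1) * aeval (aff Y b) Q' ^ (m + 1)) := by ring
      rw [h2, hfg]
      ring
    have hr1 : (⟨_, hmem (P * Q')⟩ : pointRing Y b p) ∈ (Ideal.span {∏ i, z i ^ lam i}).radical := by
      refine ⟨m + 1, Ideal.mem_span_singleton'.2 ⟨⟨_, hmem (P * P' * Q ^ m * Q' ^ m)⟩, ?_⟩⟩
      apply Subtype.ext
      have h8 : ((∏ i, z i ^ lam i : pointRing Y b p) : K) = ∏ i, (z i : K) ^ lam i := hzl
      change aeval (aff Y b) (P * P' * Q ^ m * Q' ^ m) *
        ((∏ i, z i ^ lam i : pointRing Y b p) : K) = aeval (aff Y b) (P * Q') ^ (m + 1)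
      rw [h8, h1]
    rw [hred] at hr1
    obtain ⟨g', hg'⟩ := Ideal.mem_span_singleton'.1 hr1
    have hg'' : aeval (aff Y b) (P * Q') = (g' : K) * zet (fun i => (z i : K)) lam := by
      rw [← hzet]
      exact (congrArg Subtype.val hg').symm
    refine ⟨(g' : K) * ((aeval (aff Y b) Q)⁻¹ * (aeval (aff Y b) Q')⁻¹),
      mul_mem (hle _ g'.2) (mul_mem (hinv Q hQ) (hinv Q' hQ')), ?_⟩
    rw [map_mul] at hg''
    have hQ0 := hne0 Q hQ
    have hQ0' := hne0 Q' hQ'
    have h3 : f = aeval (aff Y b) P * (aeval (aff Y b) Q)⁻¹ := by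
      rw [← hf, mul_assoc, mul_inv_cancel₀ hQ0, mul_one]
    rw [h3]
    calc aeval (aff Y b) P * (aeval (aff Y b) Q)⁻¹
        = (aeval (aff Y b) P * aeval (aff Y b) Q') *
            ((aeval (aff Y b) Q)⁻¹ * (aeval (aff Y b) Q')⁻¹) := by
          field_simp
      _ = _ := by rw [hg'']; ring

end Pool.Agent.Lib.MP_410da7_agB
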