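import Pool.Agent.Lib.MP_410da7_agB.SpecH

/-!
# MP_410da7_ag, nef boundary (C46, T1), HB: the nef sections at the center of a valuation
-/

set_option autoImplicit false

namespace Pool.Agent.Lib.MP_410da7_agB

open Pool.Agent.Lib.MP_410da7_agA
open MvPolynomial KaehlerDifferential WithZero Module

section

variable {K : Type} [Field K] [Algebra ℂ K] {M : ℕ} {Y : Fin (M + 1) → K} {b : Fin (M + 1)}
  {p : Fin (M + 1) → ℂ} {v : Valuation K ℤᵐ⁰}

theorem hb_aff_le (hv : Triv v) (hat : AtPoint Y b p v) (l : Fin (M + 1)) : v (aff Y b l) ≤ 1 := by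
  have hp : ∀ P : MvPolynomial (Fin (M + 1)) ℂ, eval p P ≠ 0 → v (aeval (aff Y b) P) = 1 := hat.2
  have h1 : eval p (X l - C (p l + 1) : MvPolynomial (Fin (M + 1)) ℂ) ≠ 0 := by
    rw [map_sub, eval_X, eval_C]
    intro h
    have : (1 : ℂ) = 0 := by linear_combination -h
    exact one_ne_zero this
  have h2 := hp _ h1
  rw [map_sub, aeval_X, aeval_C] at h2
  have h3 : v (algebraMap ℂ K (p l + 1)) ≤ 1 := ng_triv_C hv _
  calc v (aff Y b l) = v ((aff Y b l - algebraMap ℂ K (p l + 1)) + algebraMap ℂ K (p l + 1)) := by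
        rw [sub_add_cancel]
    _ ≤ max (v (aff Y b l - algebraMap ℂ K (p l + 1))) (v (algebraMap ℂ K (p l + 1))) :=
        v.map_add _ _
    _ ≤ 1 := max_le h2.le h3

theorem hb_pointRing_le (hat : AtPoint Y b p v) {f : K} (hf : f ∈ pointRing Y b p) :
    f ∈ locRing Y b v := by
  obtain ⟨P, Q, hQ, hf⟩ := hf
  exact ⟨P, Q, hat.2 Q hQ, hf⟩

theorem hb_le_one (hv : Triv v) (hat : AtPoint Y b p v) {f : K} (hf : f ∈ pointRing Y b p) :
    v f ≤ 1 := by
  obtain ⟨P, Q, hQ, hf⟩ := hf
  have h1 := congrArg v hf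
  rw [map_mul, hat.2 Q hQ, mul_one] at h1
  rw [h1]
  exact ng_aeval_le hv _ (hb_aff_le hv hat) P

end

theorem hB : HBStmt := by
  classical
  intro K _ _ n M s d₀ κ e r Y G hG b p v hv hat z lam hch f hspan
  have hYb : Y b ≠ 0 := hat.1
  set h : K := ∏ i, (z i : K) ^ lam i with hh
  -- the span of the equations
  have hI : Submodule.span (pointRing Y b p) (Set.range fun j => aeval Y (G j)) =
      Submodule.span (pointRing Y b p) {h * Y b ^ d₀} := by
    have h0 : Ideal.span (Set.range fun j => chartVal Y b p (G j)) =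
      Ideal.span {∏ i, z i ^ lam i} := hch.div
    have h1 := congrArg (Submodule.map (LinearMap.toSpanSingleton (pointRing Y b p) K (Y b ^ d₀))) h0
    rw [Ideal.span, Ideal.span, Submodule.map_span, Submodule.map_span, Set.image_singleton] at h1
    have h2 : (LinearMap.toSpanSingleton (pointRing Y b p) K (Y b ^ d₀)) ''
        (Set.range fun j => chartVal Y b p (G j)) = Set.range fun j => aeval Y (G j) := by
      rw [← Set.range_comp]
      congr 1
      funext j
      rw [ng_hom_aeval (hG j) hYb]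
      change (aeval (aff Y b) (G j)) * Y b ^ d₀ = _
      ring
    have h3 : (LinearMap.toSpanSingleton (pointRing Y b p) K (Y b ^ d₀)) (∏ i, z i ^ lam i) =
        h * Y b ^ d₀ := by
      change ((∏ i, z i ^ lam i : pointRing Y b p) : K) * Y b ^ d₀ = _
      rw [hh]
      push_cast
      rfl
    rw [h2, h3] at h1
    exact h1
  rw [hI, Submodule.span_pow, Set.singleton_pow] at hspan
  have hpow : (h * Y b ^ d₀) ^ (κ * e) = h ^ (κ * e) * Y b ^ (d₀ * κ * e) := by
    rw [mul_pow, ← pow_mul, mul_assoc d₀]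
  have hpow2 : Y b ^ ((d₀ * κ + 1) * e) = Y b ^ e * Y b ^ (d₀ * κ * e) := by
    rw [← pow_add]
    congr 1
    ring
  have hYp : Y b ^ (d₀ * κ * e) ≠ 0 := pow_ne_zero _ hYb
  -- the estimate
  have hle : ∀ i, ∃ g ∈ pointRing Y b p, f i * h ^ (κ * e) = g * Y b ^ e := by
    intro i
    have h1 : f i * (h * Y b ^ d₀) ^ (κ * e) ∈
        Submodule.span (pointRing Y b p) {Y b ^ ((d₀ * κ + 1) * e)} := by
      rw [← hspan]
      exact Submodule.mul_mem_mul (Submodule.subset_span ⟨i, rfl⟩)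
        (Submodule.subset_span (Set.mem_singleton _))
    obtain ⟨g, hg⟩ := Submodule.mem_span_singleton.1 h1
    refine ⟨g, g.2, ?_⟩
    have h2 : (g : K) * Y b ^ ((d₀ * κ + 1) * e) = f i * (h * Y b ^ d₀) ^ (κ * e) := hg
    rw [hpow, hpow2, ← mul_assoc, ← mul_assoc] at h2
    exact (mul_right_cancel₀ hYp h2).symm
  choose g hg hfg using hle
  -- generation
  have hgen : ∃ a : Fin r → pointRing Y b p, ∑ i, (a i : K) * g i = 1 := by
    have h1 : Y b ^ ((d₀ * κ + 1) * e) ∈ Submodule.span (pointRing Y b p) (Set.range f) *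
        Submodule.span (pointRing Y b p) {(h * Y b ^ d₀) ^ (κ * e)} := by
      rw [hspan]
      exact Submodule.subset_span (Set.mem_singleton _)
    rw [Submodule.mem_mul_span_singleton] at h1
    obtain ⟨y, hy, hy2⟩ := h1
    obtain ⟨a, ha⟩ := (Submodule.mem_span_range_iff_exists_fun _).1 hy
    refine ⟨a, ?_⟩
    have h2 : (∑ i, (a i : K) * g i) * Y b ^ e = 1 * Y b ^ e := by
      rw [Finset.sum_mul, one_mul]
      have h3 : ∀ i ∈ Finset.univ, (a i : K) * g i * Y b ^ e = (a i : K) * f i * h ^ (κ * e) := by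
        intro i _
        rw [mul_assoc, ← hfg i, mul_assoc]
      rw [Finset.sum_congr rfl h3, ← Finset.sum_mul]
      have h4 : ∑ i, (a i : K) * f i = y := by
        rw [← ha]
        rfl
      rw [h4]
      rw [hpow, hpow2, ← mul_assoc] at hy2
      exact mul_right_cancel₀ hYp hy2
    exact mul_right_cancel₀ (pow_ne_zero e hYb) h2
  obtain ⟨a, ha⟩ := hgen
  refine ⟨fun i => ⟨g i, hb_pointRing_le hat (hg i), hfg i⟩, ?_⟩
  by_contra hno
  have hlt : ∀ i, v (g i) < 1 := by
    intro i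
    refine lt_of_le_of_ne (hb_le_one hv hat (hg i)) fun h1 => ?_
    exact hno ⟨i, g i, hb_pointRing_le hat (hg i), h1, hfg i⟩
  have h1 : v (∑ i, (a i : K) * g i) < 1 := by
    refine v.map_sum_lt one_ne_zero fun i _ => ?_
    rw [map_mul]
    calc v (a i : K) * v (g i) ≤ 1 * v (g i) :=
          mul_le_mul' (hb_le_one hv hat (a i).2) le_rfl
      _ = v (g i) := one_mul _
      _ < 1 := hlt i
  rw [ha, map_one] at h1
  exact lt_irrefl _ h1

end Pool.Agent.Lib.MP_410da7_agB
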