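import Pool.Agent.Lib.MP_410da7_agB.SpecH

/-!
# MP_410da7_ag, nef boundary (C46, T1): HC, the linear system of the canonical divisor
-/

set_option autoImplicit false

namespace Pool.Agent.Lib.MP_410da7_agB

open Pool.Agent.Lib.MP_410da7_agA
open MvPolynomial KaehlerDifferential WithZero Module

namespace HCAux

variable {K : Type} [Field K] [Algebra ℂ K]
variable {M : ℕ} {Y : Fin (M + 1) → K} {b : Fin (M + 1)} {v : Valuation K ℤᵐ⁰}

/-- The differentials of the affine coordinates are combinations of the `dz_i`. -/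
theorem hc_ds {n : ℕ} {z : Fin n → K} (hv : Triv v)
    (h : RegAt Y b v z) (f : K) (hf : f ∈ locRing Y b v) :
    ∃ c : Fin n → K, (∀ i, v (c i) ≤ 1) ∧ D ℂ K f = ∑ i, c i • D ℂ K (z i) := by
  let O := locRing Y b v
  have h1 : D ℂ O ⟨f, hf⟩ ∈ Submodule.span O {ω : Ω[O⁄ℂ] |
    ∃ i, ∃ h : z i ∈ O, ω = D ℂ O ⟨z i, h⟩} := by
    rw [h.coord]; trivial
  have key : ∀ ω ∈ Submodule.span O {ω : Ω[O⁄ℂ] | ∃ i, ∃ h : z i ∈ O, ω = D ℂ O ⟨z i, h⟩},
      ∃ c : Fin n → K, (∀ i, v (c i) ≤ 1) ∧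
        KaehlerDifferential.map ℂ ℂ O K ω = ∑ i, c i • D ℂ K (z i) := by
    intro ω hω
    induction hω using Submodule.span_induction with
    | mem ω hω =>
      obtain ⟨i, hi, rfl⟩ := hω
      classical
      refine ⟨fun j => if j = i then 1 else 0, fun j => ?_, ?_⟩
      · dsimp only
        split_ifs
        · rw [map_one]
        · rw [map_zero]; exact zero_le
      · rw [KaehlerDifferential.map_D]
        simp only [ite_smul, one_smul, zero_smul, Finset.sum_ite_eq', Finset.mem_univ, if_true]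
        rfl
    | zero => exact ⟨0, fun i => by rw [Pi.zero_apply, map_zero]; exact zero_le, by simp⟩
    | add ω ω' _ _ h1 h2 =>
      obtain ⟨c, hc, e⟩ := h1
      obtain ⟨c', hc', e'⟩ := h2
      refine ⟨c + c', fun i => (v.map_add _ _).trans (max_le (hc i) (hc' i)), ?_⟩
      rw [map_add, e, e', ← Finset.sum_add_distrib]
      exact Finset.sum_congr rfl fun i _ => by rw [Pi.add_apply, add_smul]
    | smul a ω _ h1 =>
      obtain ⟨c, hc, e⟩ := h1
      refine ⟨fun i => (a : K) * c i, fun i => ?_, ?_⟩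
      · rw [map_mul]; exact mul_le_one' (ng_locRing_le hv h.ne h.max a.2) (hc i)
      · rw [map_smul, e, Finset.smul_sum]
        refine Finset.sum_congr rfl fun i _ => ?_
        rw [mul_smul]
        rfl
  obtain ⟨c, hc, e⟩ := key _ h1
  refine ⟨c, hc, ?_⟩
  rw [← e, KaehlerDifferential.map_D]
  rfl

theorem hc_cone_le {n : ℕ} (Ψ : Ω[K⁄ℂ] [⋀^Fin n]→ₗ[K] K) {z : Fin n → K}
    (hv : Triv v) (h : RegAt Y b v z) (S : Fin (n + 1) → Fin (M + 1)) :
    v (coneDet Ψ (aff Y b) S) ≤ v (Ψ fun i => D ℂ K (z i)) := by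
  unfold coneDet
  refine v.map_sum_le fun i _ => ?_
  rw [map_mul, map_mul, map_pow, Valuation.map_neg, map_one, one_pow, one_mul]
  refine (mul_le_mul' (ng_aff_le h.ne h.max _) le_rfl).trans ?_
  rw [one_mul]
  choose c hc hD using fun a : Fin n => hc_ds hv h (aff Y b (S (i.succAbove a))) (ng_aff_mem _)
  exact ng_psi_le Ψ (fun i => D ℂ K (z i)) _ c v hc hD _ fun f =>
    ng_psi_perm Ψ (fun i => D ℂ K (z i)) v f

theorem hc_le_cone {n : ℕ} (Ψ : Ω[K⁄ℂ] [⋀^Fin n]→ₗ[K] K) {z : Fin n → K}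
    (hv : Triv v) (h : RegAt Y b v z) (B : ℤᵐ⁰)
    (hB : ∀ S : Fin (n + 1) → Fin (M + 1), v (coneDet Ψ (aff Y b) S) ≤ B) :
    v (Ψ fun i => D ℂ K (z i)) ≤ B := by
  choose c hc hD using fun i : Fin n => ng_dz hv h.ne h.max (z i) (h.mem i)
  refine ng_psi_le Ψ (fun l => D ℂ K (aff Y b l)) _ c v hc hD B fun f => ?_
  have h1 := hB (Fin.cons b f)
  have h2 := (d10 K n M Ψ (aff Y b) (Fin.cons b f)).2 (by
    rw [Fin.cons_zero, aff, div_self h.ne])
  rw [h2] at h1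
  simpa only [Fin.cons_succ] using h1

/-- The size of the system of the `coneDet`s. -/
theorem hc_cone_eq {n : ℕ} (Ψ : Ω[K⁄ℂ] [⋀^Fin n]→ₗ[K] K) {z : Fin n → K}
    (hv : Triv v) (h : RegAt Y b v z) :
    (∀ S : Fin (n + 1) → Fin (M + 1), v (coneDet Ψ Y S) ≤
      v (Y b) ^ (n + 1) * v (Ψ fun i => D ℂ K (z i))) ∧
    ∃ S : Fin (n + 1) → Fin (M + 1), v (coneDet Ψ Y S) =
      v (Y b) ^ (n + 1) * v (Ψ fun i => D ℂ K (z i)) := by
  have hY : Y = fun l => Y b * aff Y b l := by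
    funext l
    rw [aff, mul_div_cancel₀ _ h.ne]
  have hsc : ∀ S, v (coneDet Ψ Y S) = v (Y b) ^ (n + 1) * v (coneDet Ψ (aff Y b) S) := by
    intro S
    have h1 := (d10 K n M Ψ (aff Y b) S).1 (Y b)
    rw [← hY] at h1
    rw [h1, map_mul, map_pow]
  obtain ⟨S, -, hS⟩ := Finset.exists_max_image (Finset.univ : Finset (Fin (n + 1) → Fin (M + 1)))
    (fun S => v (coneDet Ψ (aff Y b) S)) ⟨fun _ => b, Finset.mem_univ _⟩
  have h1 : v (coneDet Ψ (aff Y b) S) = v (Ψ fun i => D ℂ K (z i)) :=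
    le_antisymm (hc_cone_le Ψ hv h S) (hc_le_cone Ψ hv h _ fun S' => hS S' (Finset.mem_univ _))
  refine ⟨fun S' => ?_, S, ?_⟩
  · rw [hsc]
    exact mul_le_mul_right (hc_cone_le Ψ hv h S') _
  · rw [hsc, h1]

end HCAux

open HCAux

theorem hC : HCStmt := by
  intro K _ _ n N Ψ x hS
  obtain ⟨l, hl⟩ := a4Aux.exists_ne hS.gen hS.Ψ0
  obtain ⟨W, hW⟩ := exists_row (Set.range fun S : Fin (n + 1) → Fin (N + 1) =>
    coneDet Ψ (cons1 x) S) (Set.finite_range _) ⟨_, ⟨Fin.cons 0 fun i => (l i).succ, rfl⟩, by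
      have h2 := (d10 K n N Ψ (cons1 x) (Fin.cons 0 fun i => (l i).succ)).2 (by
        rw [Fin.cons_zero, cons1, Fin.cons_zero])
      change coneDet Ψ (cons1 x) (Fin.cons 0 fun i => (l i).succ) ≠ 0
      rw [h2]
      exact hl⟩
  refine ⟨W, fun v hv b z h => ?_⟩
  rw [ng_size_eq x h.max]
  obtain ⟨h1, S, h2⟩ := hc_cone_eq Ψ hv h
  refine rsize_eq v ?_ ⟨coneDet Ψ (cons1 x) S, ?_, h2⟩
  · rw [hW]
    rintro _ ⟨S, rfl⟩
    exact h1 S
  · rw [hW]; exact ⟨S, rfl⟩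

end Pool.Agent.Lib.MP_410da7_agB
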