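import Pool.Agent.Lib.MP_410da7_agB.SpecH

/-!
# MP_410da7_ag, nef boundary (C46, T1): HD, the linear system of the reduced boundary
-/

set_option autoImplicit false

namespace Pool.Agent.Lib.MP_410da7_agB

open Pool.Agent.Lib.MP_410da7_agA
open MvPolynomial KaehlerDifferential WithZero Module

namespace HDAux

section

variable {K : Type} [Field K] [Algebra ℂ K] {M s : ℕ} {Y : Fin (M + 1) → K} {b : Fin (M + 1)}
  {v : Valuation K ℤᵐ⁰}

/-- The homogeneous polynomials of degree `t` which vanish on the boundary. -/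
def Dst (Y : Fin (M + 1) → K) (G : Fin (s + 1) → MvPolynomial (Fin (M + 1)) ℂ) (d₀ t : ℕ) :
    Set (MvPolynomial (Fin (M + 1)) ℂ) :=
  {P | P.IsHomogeneous t ∧ ∃ (m d : ℕ) (P' : Fin (s + 1) → MvPolynomial (Fin (M + 1)) ℂ),
    (∀ j, (P' j).IsHomogeneous d) ∧ t * m = d₀ + d ∧
      aeval Y P ^ m = ∑ j, aeval Y (G j) * aeval Y (P' j)}

variable {G : Fin (s + 1) → MvPolynomial (Fin (M + 1)) ℂ} {d₀ : ℕ}

theorem D_le {n : ℕ} {z : Fin n → K} {lam : Fin n → ℕ} (hG : ∀ j, (G j).IsHomogeneous d₀)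
    (hv : Triv v) (h : LSP Y G b v z lam) {t : ℕ} {P : MvPolynomial (Fin (M + 1)) ℂ}
    (hP : P ∈ Dst Y G d₀ t) :
    v (aeval Y P) ≤ v (Y b) ^ t * v (zet z lam) := by
  obtain ⟨hP1, m, d, P', hP', htm, he⟩ := hP
  have hne := h.reg.ne
  have hmem : ∀ P : MvPolynomial (Fin (M + 1)) ℂ, aeval (aff Y b) P ∈ locRing Y b v := fun P =>
    ⟨P, 1, by rw [map_one, map_one], by rw [map_one, mul_one]⟩
  choose g hg hgG using h.bdl
  have h1 : aeval (aff Y b) P ^ m = (∑ j, g j * aeval (aff Y b) (P' j)) * ∏ i, z i ^ lam i := by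
    have e1 : (∑ j, aeval Y (G j) * aeval Y (P' j)) = Y b ^ (d₀ + d) *
        ((∑ j, g j * aeval (aff Y b) (P' j)) * ∏ i, z i ^ lam i) := by
      rw [Finset.sum_mul, Finset.mul_sum]
      refine Finset.sum_congr rfl fun j _ => ?_
      rw [ng_hom_aeval (hG j) hne, ng_hom_aeval (hP' j) hne, hgG j, pow_add]
      ring
    rw [e1, ng_hom_aeval hP1 hne, mul_pow, ← pow_mul, htm] at he
    exact mul_left_cancel₀ (pow_ne_zero _ hne) he
  obtain ⟨g', hg', hfg⟩ := h.rad _ (hmem P) m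
    ⟨_, sum_mem fun j _ => mul_mem (hg j) (hmem (P' j)), h1⟩
  rw [ng_hom_aeval hP1 hne, map_mul, map_pow, hfg, map_mul]
  refine mul_le_mul_right ?_ _
  calc v g' * v (zet z lam) ≤ 1 * v (zet z lam) :=
        mul_le_mul' (ng_locRing_le hv hne h.reg.max hg') le_rfl
    _ = v (zet z lam) := one_mul _

theorem zet_mem {n : ℕ} {z : Fin n → K} {lam : Fin n → ℕ} (h : LSP Y G b v z lam) :
    zet z lam ∈ locRing Y b v := by
  refine prod_mem fun i _ => ?_
  split_ifs
  · exact one_mem _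
  · exact h.reg.mem i

theorem zet_ne {n : ℕ} {z : Fin n → K} {lam : Fin n → ℕ} (h : LSP Y G b v z lam) :
    zet z lam ≠ 0 := by
  have h1 := h.ne0
  rw [Finset.prod_ne_zero_iff] at h1
  refine Finset.prod_ne_zero_iff.mpr fun i hi => ?_
  split_ifs with h2
  · exact one_ne_zero
  · intro h0
    exact h1 i hi (by rw [h0, zero_pow h2])

/-- A power of the reduced equation is a multiple of a section. -/
theorem zet_pow {n : ℕ} {z : Fin n → K} {lam : Fin n → ℕ} (h : LSP Y G b v z lam) :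
    ∃ L : ℕ, 1 ≤ L ∧ ∃ j, ∃ g ∈ locRing Y b v,
      zet z lam ^ L = g * aeval (aff Y b) (G j) := by
  obtain ⟨j, u, hu, hu1, hbd⟩ := h.bdu
  have hu0 : u ≠ 0 := by
    rintro rfl
    rw [map_zero] at hu1
    exact zero_ne_one hu1
  refine ⟨(∑ i, lam i) + 1, Nat.succ_le_succ (Nat.zero_le _), j, u⁻¹ *
    ∏ i, (if lam i = 0 then 1 else z i ^ ((∑ i, lam i) + 1 - lam i)), ?_, ?_⟩
  · refine mul_mem (ng_locRing_inv hu hu1) (prod_mem fun i _ => ?_)
    split_ifs
    · exact one_mem _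
    · exact pow_mem (h.reg.mem i) _
  · have h1 : u⁻¹ * (∏ i, (if lam i = 0 then 1 else z i ^ ((∑ i, lam i) + 1 - lam i))) *
        (u * ∏ i, z i ^ lam i) =
        (∏ i, (if lam i = 0 then 1 else z i ^ ((∑ i, lam i) + 1 - lam i))) * ∏ i, z i ^ lam i := by
      field_simp
    rw [hbd, h1, zet, ← Finset.prod_pow, ← Finset.prod_mul_distrib]
    refine Finset.prod_congr rfl fun i _ => ?_
    have h2 : lam i ≤ ∑ i, lam i := Finset.single_le_sum (fun j _ => Nat.zero_le (lam j))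
      (Finset.mem_univ i)
    split_ifs with h3
    · rw [h3, one_pow, pow_zero, one_mul]
    · rw [← pow_add]
      congr 1
      omega

theorem D_eq {n : ℕ} {z : Fin n → K} {lam : Fin n → ℕ} (hG : ∀ j, (G j).IsHomogeneous d₀)
    (h : LSP Y G b v z lam) :
    ∃ (t : ℕ) (P : MvPolynomial (Fin (M + 1)) ℂ), P ∈ Dst Y G d₀ t ∧
      v (aeval Y P) = v (Y b) ^ t * v (zet z lam) := by
  classical
  have hne := h.reg.ne
  obtain ⟨P1, Q1, hQ1, hz⟩ := zet_mem h
  obtain ⟨L, hL, j, g, hg, hpow⟩ := zet_pow h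
  obtain ⟨P2, Q2, hQ2, hg2⟩ := hg
  set s' := aff Y b with hs
  let G0 := P1 * Q2
  let G1 := P2 * Q1 ^ L * Q2 ^ (L - 1)
  have h1 : aeval s' G0 ^ L = aeval s' (G j) * aeval s' G1 := by
    have hL' : L = L - 1 + 1 := by omega
    have e1 : aeval s' P1 ^ L * aeval s' Q2 = aeval s' (G j) * (aeval s' P2 * aeval s' Q1 ^ L) := by
      rw [← hz, mul_pow, hpow, ← hg2]
      ring
    calc aeval s' G0 ^ L = (aeval s' P1 ^ L * aeval s' Q2) * aeval s' Q2 ^ (L - 1) := by
          change aeval s' (P1 * Q2) ^ L = _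
          rw [map_mul, mul_pow, mul_assoc]
          congr 1
          rw [← pow_succ', ← hL']
      _ = aeval s' (G j) * aeval s' G1 := by
          rw [e1]
          change _ = aeval s' (G j) * aeval s' (P2 * Q1 ^ L * Q2 ^ (L - 1))
          rw [map_mul, map_mul, map_pow, map_pow]
          ring
  let e := G0.totalDegree + G1.totalDegree + d₀
  have he1 : G0.totalDegree ≤ e := by omega
  have heL : e ≤ e * L := Nat.le_mul_of_pos_right _ hL
  have he2 : G1.totalDegree ≤ e * L - d₀ := by omega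
  obtain ⟨hH0, hH0'⟩ := d5 ℂ K M b e G0 he1
  obtain ⟨hH, hH'⟩ := d5 ℂ K M b (e * L - d₀) G1 he2
  refine ⟨e, hom b e G0, ⟨hH0, L, e * L - d₀,
    fun j' => if j' = j then hom b (e * L - d₀) G1 else 0, fun j' => ?_, by omega, ?_⟩, ?_⟩
  · change (if j' = j then hom b (e * L - d₀) G1 else 0).IsHomogeneous (e * L - d₀)
    split_ifs
    · exact hH
    · exact isHomogeneous_zero _ _ _
  · rw [Finset.sum_eq_single j]
    · beta_reduce
      rw [if_pos rfl, hH0' Y hne, hH' Y hne, ng_hom_aeval (hG j) hne, mul_pow, ← pow_mul, h1]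
      have h2 : e * L = d₀ + (e * L - d₀) := by omega
      have h3 : Y b ^ (e * L) = Y b ^ d₀ * Y b ^ (e * L - d₀) := by
        rw [← pow_add, ← h2]
      rw [h3]
      ring
    · intro j' _ hj'
      beta_reduce
      rw [if_neg hj', map_zero, mul_zero]
    · intro hj
      exact absurd (Finset.mem_univ j) hj
  · rw [hH0' Y hne, map_mul, map_pow]
    congr 1
    change v (aeval s' (P1 * Q2)) = _
    rw [map_mul, map_mul, hQ2, mul_one, ← hz, map_mul, hQ1, mul_one]

end

end HDAux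

open HDAux

/-- HD. The linear system of the reduced boundary. -/
theorem hD : HDStmt := by
  classical
  intro K _ _ n N s d₀ x G hG hL
  set Y := cons1 x with hYdef
  let U : Set (MvPolynomial (Fin (N + 1)) ℂ) := {P | ∃ t, P ∈ Dst Y G d₀ t}
  have hfg : (Submodule.span (MvPolynomial (Fin (N + 1)) ℂ) U).FG := IsNoetherian.noetherian _
  rw [Submodule.fg_span_iff_fg_span_finset_subset] at hfg
  obtain ⟨F, hFU, hspan⟩ := hfg
  let dgr : MvPolynomial (Fin (N + 1)) ℂ → ℕ := fun P =>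
    if h : ∃ t, P ∈ Dst Y G d₀ t then h.choose else 0
  have hdgr : ∀ P ∈ F, P ∈ Dst Y G d₀ (dgr P) := by
    intro P hP
    have h := hFU hP
    change ∃ t, P ∈ Dst Y G d₀ t at h
    have h2 : dgr P = h.choose := dif_pos h
    rw [h2]; exact h.choose_spec
  let t₀ := F.sup dgr
  have ht₀ : ∀ P ∈ F, dgr P ≤ t₀ := fun P hP => Finset.le_sup hP
  let T : Set K := {c | ∃ P ∈ F, ∃ l, c = Y l ^ (t₀ - dgr P) * aeval Y P}
  have hTfin : T.Finite := by
    have h1 : T = ⋃ P ∈ F, Set.range fun l => Y l ^ (t₀ - dgr P) * aeval Y P := by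
      ext c
      simp only [T, Set.mem_ofPred_eq, Set.mem_iUnion, Set.mem_range, exists_prop]
      constructor
      · rintro ⟨P, hP, l, rfl⟩; exact ⟨P, hP, l, rfl⟩
      · rintro ⟨P, hP, l, rfl⟩; exact ⟨P, hP, l, rfl⟩
    rw [h1]
    exact F.finite_toSet.biUnion fun P _ => Set.finite_range _
  -- the estimates
  have hle : ∀ (v : Valuation K ℤᵐ⁰), Triv v → ∀ (b : Fin (N + 1)) (z : Fin n → K)
      (lam : Fin n → ℕ), LSP Y G b v z lam → ∀ c ∈ T, v c ≤ v (Y b) ^ t₀ * v (zet z lam) := by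
    rintro v hv b z lam h _ ⟨P, hP, l, rfl⟩
    rw [map_mul, map_pow]
    calc v (Y l) ^ (t₀ - dgr P) * v (aeval Y P)
        ≤ v (Y b) ^ (t₀ - dgr P) * (v (Y b) ^ dgr P * v (zet z lam)) :=
          mul_le_mul' (pow_le_pow_left' (h.reg.max l) _) (D_le hG hv h (hdgr P hP))
      _ = v (Y b) ^ t₀ * v (zet z lam) := by
          rw [← mul_assoc, ← pow_add, Nat.sub_add_cancel (ht₀ P hP)]
  have hex : ∀ (v : Valuation K ℤᵐ⁰), Triv v → ∀ (b : Fin (N + 1)) (z : Fin n → K)
      (lam : Fin n → ℕ), LSP Y G b v z lam → ∃ c ∈ T, v c = v (Y b) ^ t₀ * v (zet z lam) := by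
    intro v hv b z lam h
    obtain ⟨t, P', hP', he⟩ := D_eq (b := b) (v := v) hG h
    have hYb : 0 < v (Y b) := by rw [zero_lt_iff, Ne, Valuation.zero_iff]; exact h.reg.ne
    have hz0 : 0 < v (zet z lam) := by
      rw [zero_lt_iff, Ne, Valuation.zero_iff]; exact zet_ne h
    rw [ng_hom_aeval hP'.1 h.reg.ne, map_mul, map_pow] at he
    have he' : v (aeval (aff Y b) P') = v (zet z lam) :=
      mul_left_cancel₀ (pow_pos hYb t).ne' he
    -- some generator has the right value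
    have hgen : ∃ P ∈ F, v (zet z lam) ≤ v (aeval (aff Y b) P) := by
      by_contra hcon
      push Not at hcon
      have hmem : P' ∈ Submodule.span (MvPolynomial (Fin (N + 1)) ℂ)
          (F : Set (MvPolynomial (Fin (N + 1)) ℂ)) := by
        rw [← hspan]; exact Submodule.subset_span ⟨t, hP'⟩
      have key : ∀ P ∈ Submodule.span (MvPolynomial (Fin (N + 1)) ℂ)
          (F : Set (MvPolynomial (Fin (N + 1)) ℂ)), v (aeval (aff Y b) P) < v (zet z lam) := by
        intro P hP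
        induction hP using Submodule.span_induction with
        | mem P hP => exact hcon P hP
        | zero => rw [map_zero, map_zero]; exact hz0
        | add P P' _ _ h1 h2 =>
          rw [map_add]; exact lt_of_le_of_lt (v.map_add _ _) (max_lt h1 h2)
        | smul a P _ h1 =>
          rw [smul_eq_mul, map_mul, map_mul]
          calc v (aeval (aff Y b) a) * v (aeval (aff Y b) P) ≤ 1 * v (aeval (aff Y b) P) :=
                mul_le_mul' (ng_aeval_le hv _ (ng_aff_le h.reg.ne h.reg.max) a) le_rfl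
            _ < v (zet z lam) := by rw [one_mul]; exact h1
      exact absurd he' (key P' hmem).ne
    obtain ⟨P, hP, hPv⟩ := hgen
    refine ⟨Y b ^ (t₀ - dgr P) * aeval Y P, ⟨P, hP, b, rfl⟩, ?_⟩
    have h1 := D_le hG hv h (hdgr P hP)
    have h2 : v (Y b) ^ dgr P * v (zet z lam) ≤ v (aeval Y P) := by
      rw [ng_hom_aeval (hdgr P hP).1 h.reg.ne, map_mul, map_pow]
      exact mul_le_mul_right hPv _
    rw [map_mul, map_pow, le_antisymm h1 h2, ← mul_assoc, ← pow_add,
      Nat.sub_add_cancel (ht₀ P hP)]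
  have hT0 : ∃ a ∈ T, a ≠ 0 := by
    have htriv : Triv (1 : Valuation K ℤᵐ⁰) := by
      intro c hc
      exact Valuation.one_apply_of_ne_zero (by simpa using hc)
    obtain ⟨b, z, lam, h⟩ := hL 1 htriv
    obtain ⟨c, hc, hvc⟩ := hex 1 htriv b z lam h
    refine ⟨c, hc, ?_⟩
    rintro rfl
    rw [map_zero] at hvc
    have h1 : (1 : Valuation K ℤᵐ⁰) (Y b) ≠ 0 := by rw [Ne, Valuation.zero_iff]; exact h.reg.ne
    have h2 : (1 : Valuation K ℤᵐ⁰) (zet z lam) ≠ 0 := by
      rw [Ne, Valuation.zero_iff]; exact zet_ne h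
    exact mul_ne_zero (pow_ne_zero _ h1) h2 hvc.symm
  obtain ⟨W, hW⟩ := exists_row T hTfin hT0
  refine ⟨t₀, W, fun v hv b z lam h => ?_⟩
  rw [ng_size_eq x h.reg.max]
  refine rsize_eq v ?_ ?_
  · rw [hW]; exact hle v hv b z lam h
  · rw [hW]; exact hex v hv b z lam h

end Pool.Agent.Lib.MP_410da7_agB
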