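import Pool.Agent.Lib.MP_410da7_agB.SpecH

/-!
# MP_410da7_ag, nef boundary (C46, T1), statement HE: the logarithmic frame
-/

set_option autoImplicit false

namespace Pool.Agent.Lib.MP_410da7_agB

open Pool.Agent.Lib.MP_410da7_agA
open Pool.Agent.Lib.MP_410da7_ag (regDiff logDiff regGens logGens)
open MvPolynomial KaehlerDifferential WithZero Module

namespace HEAux

variable {K : Type} [Field K] [Algebra ℂ K] {M s : ℕ}

theorem vmax_eq {Y : Fin (M + 1) → K} {b : Fin (M + 1)} {v : Valuation K ℤᵐ⁰}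
    (hmax : ∀ l, v (Y l) ≤ v (Y b)) : vmax Y v = v (Y b) :=
  le_antisymm (Finset.sup_le fun i _ => hmax i)
    (Finset.le_sup (f := fun i => v (Y i)) (Finset.mem_univ b))

/-- If the center is on `X` then the equation of the boundary is a unit. -/
theorem prod_one {n d₀ : ℕ} {Y : Fin (M + 1) → K} {G : Fin (s + 1) → MvPolynomial (Fin (M + 1)) ℂ}
    (hG : ∀ j, (G j).IsHomogeneous d₀) {b : Fin (M + 1)} {v : Valuation K ℤᵐ⁰}
    {z : Fin n → K} {lam : Fin n → ℕ} (hv : Triv v) (h : LSP Y G b v z lam)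
    (hc : CenterOn d₀ Y G v) : v (∏ i, z i ^ lam i) = 1 := by
  obtain ⟨j, hj⟩ := hc
  rw [vmax_eq h.reg.max, ng_hom_aeval (hG j) h.reg.ne, map_mul, map_pow] at hj
  have hb : v (Y b) ^ d₀ ≠ 0 := pow_ne_zero _ ((Valuation.ne_zero_iff v).mpr h.reg.ne)
  have h1 : v (aeval (aff Y b) (G j)) = 1 := mul_left_cancel₀ hb (by rw [hj, mul_one])
  obtain ⟨g, hg, hgj⟩ := h.bdl j
  have hg1 : v g ≤ 1 := ng_locRing_le hv h.reg.ne h.reg.max hg
  rw [hgj, map_mul] at h1
  refine le_antisymm ?_ ?_
  · rw [map_prod]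
    refine Finset.prod_le_one' fun i _ => ?_
    rw [map_pow]
    exact pow_le_one' (ng_locRing_le hv h.reg.ne h.reg.max (h.reg.mem i)) _
  · rw [← h1]
    exact mul_le_of_le_one_left' hg1

end HEAux

open HEAux in
/-- HE. The logarithmic frame. -/
theorem hE : HEStmt := by
  intro K _ _ n M s d₀ Ψ Y G hG b v z lam hv h
  classical
  have hz : ∀ i, v (z i) ≤ 1 := fun i => ng_locRing_le hv h.reg.ne h.reg.max (h.reg.mem i)
  have hz0 : ∀ i, lam i ≠ 0 → z i ≠ 0 := by
    intro i hi h0
    apply h.ne0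
    refine Finset.prod_eq_zero (Finset.mem_univ i) ?_
    rw [h0, zero_pow hi]
  let c : Fin n → K := fun i => if lam i = 0 then 1 else (z i)⁻¹
  refine ⟨fun i => c i • D ℂ K (z i), fun i => ?_, fun hcent i => ?_, ?_⟩
  · show c i • D ℂ K (z i) ∈ logDiff v
    by_cases hi : lam i = 0
    · have h1 : c i = 1 := if_pos hi
      rw [h1]
      refine AddSubgroup.subset_closure (Or.inl ?_)
      exact ⟨1, z i, by rw [map_one], hz i, rfl⟩
    · have h1 : c i = (z i)⁻¹ := if_neg hi
      rw [h1]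
      refine AddSubgroup.subset_closure (Or.inr ?_)
      exact ⟨1, z i, by rw [map_one], hz0 i hi, by rw [one_div]⟩
  · -- the values `v (z i)` are `1`
    have h2 : ∏ i, v (z i) ^ lam i = 1 := by
      rw [← prod_one hG hv h hcent, map_prod]
      exact Finset.prod_congr rfl fun i _ => (map_pow v (z i) (lam i)).symm
    have h4 : ∀ i, lam i ≠ 0 → v (z i) = 1 := by
      intro i hi
      have h5 : v (z i) ^ lam i = 1 := by
        refine le_antisymm (pow_le_one' (hz i) _) ?_
        rw [← h2]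
        rw [← Finset.mul_prod_erase Finset.univ _ (Finset.mem_univ i)]
        refine mul_le_of_le_one_right' ?_
        exact Finset.prod_le_one' fun j _ => pow_le_one' (hz j) _
      refine le_antisymm (hz i) ?_
      by_contra hcon
      rw [not_le] at hcon
      exact absurd h5 (ne_of_lt (pow_lt_one' hcon hi))
    refine AddSubgroup.subset_closure ?_
    refine ⟨c i, z i, ?_, hz i, rfl⟩
    by_cases hi : lam i = 0
    · have h1 : c i = 1 := if_pos hi
      rw [h1, map_one]
    · have h1 : c i = (z i)⁻¹ := if_neg hi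
      rw [h1, map_inv₀, h4 i hi, inv_one]
  · have h1 : Ψ (fun i => c i • D ℂ K (z i)) = (∏ i, c i) • Ψ (fun i => D ℂ K (z i)) :=
      AlternatingMap.map_smul_univ Ψ c _
    rw [h1, smul_eq_mul, map_mul, map_prod]
    have h2 : ∏ i, v (c i) = (∏ i, if lam i = 0 then (1 : ℤᵐ⁰) else v (z i))⁻¹ := by
      rw [← Finset.prod_inv_distrib]
      refine Finset.prod_congr rfl fun i _ => ?_
      by_cases hi : lam i = 0
      · have h3 : c i = 1 := if_pos hi
        rw [h3, map_one, if_pos hi, inv_one]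
      · have h3 : c i = (z i)⁻¹ := if_neg hi
        rw [h3, map_inv₀, if_neg hi]
    rw [h2, mul_comm, ← div_eq_mul_inv]
    rfl

end Pool.Agent.Lib.MP_410da7_agB
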