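import Pool.Agent.Lib.MP_410da7_agB.SpecH

/-!
# MP_410da7_ag, nef boundary (C46, T1): HF, the negative family
-/

set_option autoImplicit false

namespace Pool.Agent.Lib.MP_410da7_agB

open Pool.Agent.Lib.MP_410da7_agA
open MvPolynomial KaehlerDifferential WithZero Module

namespace HFAux

variable {K : Type} [Field K] [Algebra ℂ K]

theorem zet_ne {n : ℕ} {z : Fin n → K} {lam : Fin n → ℕ} (h : ∏ i, z i ^ lam i ≠ 0) :
    zet z lam ≠ 0 := by
  rw [zet]
  refine Finset.prod_ne_zero_iff.2 fun i _ => ?_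
  by_cases hi : lam i = 0
  · rw [if_pos hi]; exact one_ne_zero
  · rw [if_neg hi]
    have h3 := Finset.prod_ne_zero_iff.1 h i (Finset.mem_univ _)
    exact fun h0 => h3 (by rw [h0, zero_pow hi])

/-- GEO. The canonical divisor of the pair as a difference of two rows. -/
theorem geo (hc : HCStmt) (hd : HDStmt) {n N s d₀ : ℕ} (Ψ : Ω[K⁄ℂ] [⋀^Fin n]→ₗ[K] K)
    (x : Fin N → K) (G : Fin (s + 1) → MvPolynomial (Fin (N + 1)) ℂ)
    (hG : ∀ j, (G j).IsHomogeneous d₀) (hS : Sit Ψ x)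
    (hL : ∀ v : Valuation K ℤᵐ⁰, Triv v → ∃ (b : Fin (N + 1)) (z : Fin n → K) (lam : Fin n → ℕ),
      LSP (cons1 x) G b v z lam) : ∃ (P Q : Row K) (g : K), g ≠ 0 ∧ Bir P ∧ Bir Q ∧
    (∃ j, P.b j = 1) ∧ (∃ j, Q.b j = 1) ∧
    ∀ (v : Valuation K ℤᵐ⁰), Triv v → ∀ (b : Fin (N + 1)) (z : Fin n → K)
      (lam : Fin n → ℕ), LSP (cons1 x) G b v z lam →
      kSize Ψ v z lam * rsize Q _ v = v g * rsize P _ v := by
  obtain ⟨WK, hWK⟩ := hc K n N Ψ x hS
  obtain ⟨t₀, WD, hWD⟩ := hd K n N s d₀ x G hG hL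
  obtain ⟨P, p, hp, hP1, hP2, hPs⟩ := ng_row x hS.gen WK t₀
  obtain ⟨Q, q, hq, hQ1, hQ2, hQs⟩ := ng_row x hS.gen WD (n + 1)
  refine ⟨P, Q, p / q, div_ne_zero hp hq, hP1, hQ1, hP2, hQ2, fun v hv b z lam h => ?_⟩
  have h1 := hPs v
  have h2 := hQs v
  rw [hWK v hv b z h.reg] at h1
  rw [hWD v hv b z lam h] at h2
  have hp0 : v p ≠ 0 := by rw [Ne, Valuation.zero_iff]; exact hp
  have hq0 : v q ≠ 0 := by rw [Ne, Valuation.zero_iff]; exact hq
  have hz0 : v (zet z lam) ≠ 0 := by rw [Ne, Valuation.zero_iff]; exact zet_ne h.ne0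
  have hs0 : size x v ≠ 0 := by
    have : (1 : ℤᵐ⁰) ≤ size x v := le_sup_right
    intro h0
    rw [h0] at this
    exact absurd this (by simp)
  have hk : kSize Ψ v z lam = v (Ψ fun i => D ℂ K (z i)) / v (zet z lam) := by
    rw [kSize, ng_zet_v]
  have e1 : rsize P _ v = v (Ψ fun i => D ℂ K (z i)) * size x v ^ (n + t₀ + 2) / v p := by
    have h3 : size x v ^ (n + 1) * v (Ψ fun i => D ℂ K (z i)) * size x v ^ (t₀ + 1) =
        v (Ψ fun i => D ℂ K (z i)) * size x v ^ (n + t₀ + 2) := by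
      rw [mul_comm (size x v ^ (n + 1)), mul_assoc, ← pow_add]
      congr 2
      omega
    rw [← h3, ← h1, mul_div_cancel_left₀ _ hp0]
  have e2 : rsize Q _ v = v (zet z lam) * size x v ^ (n + t₀ + 2) / v q := by
    have h3 : size x v ^ t₀ * v (zet z lam) * size x v ^ (n + 1 + 1) =
        v (zet z lam) * size x v ^ (n + t₀ + 2) := by
      rw [mul_comm (size x v ^ t₀), mul_assoc, ← pow_add]
      congr 2
      omega
    rw [← h3, ← h2, mul_div_cancel_left₀ _ hq0]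
  rw [hk, e1, e2, map_div₀]
  field_simp

end HFAux

open HFAux

theorem hF (hN : NThmIf) (hc : HCStmt) (hd : HDStmt) (he : HEStmt) : HFStmt := by
  intro K _ _ n N s d₀ δ Ψ x G hG hS hL hδ hvan
  rcases Nat.eq_zero_or_pos n with rfl | hn
  · -- dimension zero
    exfalso
    obtain ⟨θ, hθ⟩ : ∃ θ : Fin 0 → Ω[K⁄ℂ], Ψ θ ≠ 0 := by
      by_contra hcon
      push Not at hcon
      exact hS.Ψ0 (AlternatingMap.ext fun θ => hcon θ)
    refine hθ (hvan 1 0 (by omega) (Ψ θ) fun v hv => ⟨θ, ⟨fun i => i.elim0, fun _ i => i.elim0⟩, ?_⟩)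
    rw [pow_zero, one_mul, pow_one]
  obtain ⟨P, Q, g, hg, hP, hQ, hP1, hQ1, hgeo⟩ := geo hc hd Ψ x G hG hS hL
  obtain ⟨m₀, L, Λ, i1, i2, i3, i4, i5, i6, i7, i8, a, hm₀, ha, htr, hfg, hgen, hw⟩ :=
    hN K n P Q (rowH x) δ hS.trdeg hn ⟨_, Set.finite_range x, hS.gen⟩ hP hQ (bir_rowH x hS.gen)
      hP1 hQ1 ⟨0, rfl⟩ hδ (by
        intro m e hm hem F hF
        have h1 : F * g ^ m ∈ SecH (CenterOn d₀ (cons1 x) G) Ψ x m e := by
          intro v hv
          obtain ⟨b, z, lam, hLS⟩ := hL v hv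
          obtain ⟨θ, hθ1, hθ2, hΨθ⟩ := he K n N s d₀ Ψ (cons1 x) G hG b v z lam hv hLS
          refine ⟨θ, ⟨hθ1, hθ2⟩, ?_⟩
          have h2 := hF v hv
          have h3 := hgeo v hv b z lam hLS
          have hQ0 : rsize Q _ v ≠ 0 := rsize_ne_zero Q v
          rw [rsize_rowH] at h2
          have h4 : v (F * g ^ m) * rsize Q _ v ^ m ≤
              size x v ^ e * v (Ψ θ) ^ m * rsize Q _ v ^ m := by
            calc v (F * g ^ m) * rsize Q _ v ^ m
                = (v F * rsize Q _ v ^ m) * v g ^ m := by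
                  rw [map_mul, map_pow]; ac_rfl
              _ ≤ (rsize P _ v ^ m * size x v ^ e) * v g ^ m := mul_le_mul' h2 le_rfl
              _ = size x v ^ e * (v g * rsize P _ v) ^ m := by
                  rw [mul_pow, mul_comm (v g ^ m), ← mul_assoc, mul_comm (size x v ^ e)]
              _ = size x v ^ e * (v (Ψ θ) * rsize Q _ v) ^ m := by rw [← h3, hΨθ]
              _ = size x v ^ e * v (Ψ θ) ^ m * rsize Q _ v ^ m := by
                  rw [mul_pow, mul_assoc]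
          exact (mul_le_mul_iff_of_pos_right (pow_pos (zero_lt_iff.mpr hQ0) m)).mp h4
        have h5 := hvan m e hem _ h1
        exact (mul_eq_zero.mp h5).resolve_right (pow_ne_zero m hg))
  refine ⟨m₀, L, Λ, i1, i2, i3, i4, i5, i6, i7, i8, a * algebraMap K Λ (g ^ m₀), hm₀,
    mul_ne_zero ha (by simpa using pow_ne_zero m₀ hg), htr, hfg, hgen, ?_⟩
  intro w hwL b z lam hLS
  set v := w.comap (algebraMap K Λ) with hv
  have hvT : Triv v := by
    intro c hc
    rw [hv, Valuation.comap_apply, ← IsScalarTower.algebraMap_apply ℂ K Λ,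
      IsScalarTower.algebraMap_apply ℂ L Λ]
    exact hwL _ (by simpa using hc)
  have h2 := hw w hwL
  rw [← hv, rsize_rowH] at h2
  have h3 := hgeo v hvT b z lam hLS
  have hQ0 : rsize Q _ v ≠ 0 := rsize_ne_zero Q v
  have hg' : w (algebraMap K Λ (g ^ m₀)) = v g ^ m₀ := by
    rw [map_pow, map_pow, hv, Valuation.comap_apply]
  have h4 : size x v * kSize Ψ v z lam ^ m₀ * rsize Q _ v ^ m₀ ≤
      w (a * algebraMap K Λ (g ^ m₀)) * rsize Q _ v ^ m₀ := by
    calc size x v * kSize Ψ v z lam ^ m₀ * rsize Q _ v ^ m₀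
        = size x v * (kSize Ψ v z lam * rsize Q _ v) ^ m₀ := by
          rw [mul_pow, mul_assoc]
      _ = (size x v * rsize P _ v ^ m₀) * v g ^ m₀ := by
          rw [h3, mul_pow]; ac_rfl
      _ ≤ (w a * rsize Q _ v ^ m₀) * v g ^ m₀ := mul_le_mul' h2 le_rfl
      _ = w (a * algebraMap K Λ (g ^ m₀)) * rsize Q _ v ^ m₀ := by
          rw [map_mul, hg']; ac_rfl
  exact (mul_le_mul_iff_of_pos_right (pow_pos (zero_lt_iff.mpr hQ0) m₀)).mp h4

end Pool.Agent.Lib.MP_410da7_agB
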