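import Pool.Agent.Lib.MP_410da7_agB.SpecH
import Pool.Agent.Lib.MP_410da7_agA.A2

/-!
# MP_410da7_ag, nef boundary (C46, T1), statement HG: the last clause
-/

set_option autoImplicit false

namespace Pool.Agent.Lib.MP_410da7_agB

open Pool.Agent.Lib.MP_410da7_agA
open Pool.Agent.Lib.MP_410da7_ag (regDiff logDiff regGens logGens)
open MvPolynomial KaehlerDifferential WithZero Module

namespace HGAux

variable {K : Type} [Field K] [Algebra ℂ K] {n N : ℕ} {HC : Valuation K ℤᵐ⁰ → Prop}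
  {Ψ : Ω[K⁄ℂ] [⋀^Fin n]→ₗ[K] K} {x : Fin N → K}

/-- The frames. -/
def Fr (HC : Valuation K ℤᵐ⁰ → Prop) (v : Valuation K ℤᵐ⁰) (θ : Fin n → Ω[K⁄ℂ]) : Prop :=
  (∀ i, θ i ∈ logDiff v) ∧ (HC v → ∀ i, θ i ∈ regDiff v)

theorem exists_fr {v : Valuation K ℤᵐ⁰} {θ θ' : Fin n → Ω[K⁄ℂ]} (h : Fr HC v θ)
    (h' : Fr HC v θ') :
    ∃ ρ : Fin n → Ω[K⁄ℂ], Fr HC v ρ ∧ v (Ψ θ) ≤ v (Ψ ρ) ∧ v (Ψ θ') ≤ v (Ψ ρ) := by
  rcases le_total (v (Ψ θ)) (v (Ψ θ')) with h1 | h1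
  · exact ⟨θ', h', h1, le_rfl⟩
  · exact ⟨θ, h, le_rfl, h1⟩

theorem sec_zero (m e : ℕ) : (0 : K) ∈ SecH HC Ψ x m e := by
  intro v _
  exact ⟨fun _ => 0, ⟨fun _ => zero_mem _, fun _ _ => zero_mem _⟩, by
    rw [map_zero]; exact zero_le⟩

theorem sec_one : (1 : K) ∈ SecH HC Ψ x 0 0 := by
  intro v _
  exact ⟨fun _ => 0, ⟨fun _ => zero_mem _, fun _ _ => zero_mem _⟩, by
    rw [map_one, pow_zero, pow_zero, mul_one]⟩

theorem sec_add {m e : ℕ} {F G : K} (hF : F ∈ SecH HC Ψ x m e) (hG : G ∈ SecH HC Ψ x m e) :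
    F + G ∈ SecH HC Ψ x m e := by
  intro v hv
  obtain ⟨θ, hθ, h1⟩ := hF v hv
  obtain ⟨θ', hθ', h2⟩ := hG v hv
  obtain ⟨ρ, hρ, h3, h4⟩ := exists_fr (HC := HC) (Ψ := Ψ) hθ hθ'
  exact ⟨ρ, hρ, (v.map_add F G).trans (max_le (h1.trans (a1Aux.bound_mono x v h3))
    (h2.trans (a1Aux.bound_mono x v h4)))⟩

theorem sec_smul {m e : ℕ} {F : K} (hF : F ∈ SecH HC Ψ x m e) (c : ℂ) :
    c • F ∈ SecH HC Ψ x m e := by
  intro v hv
  obtain ⟨θ, hθ, h1⟩ := hF v hv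
  refine ⟨θ, hθ, ?_⟩
  rw [Algebra.smul_def, map_mul]
  by_cases hc : c = 0
  · rw [hc, map_zero, map_zero, zero_mul]
    exact zero_le
  · rw [hv c hc, one_mul]
    exact h1

theorem sec_mul {m e m' e' : ℕ} {F G : K} (hF : F ∈ SecH HC Ψ x m e)
    (hG : G ∈ SecH HC Ψ x m' e') : F * G ∈ SecH HC Ψ x (m + m') (e + e') := by
  intro v hv
  obtain ⟨θ, hθ, h1⟩ := hF v hv
  obtain ⟨θ', hθ', h2⟩ := hG v hv
  obtain ⟨ρ, hρ, h3, h4⟩ := exists_fr (HC := HC) (Ψ := Ψ) hθ hθ'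
  refine ⟨ρ, hρ, ?_⟩
  rw [map_mul, pow_add, pow_add, mul_mul_mul_comm]
  exact mul_le_mul' (h1.trans (a1Aux.bound_mono x v h3)) (h2.trans (a1Aux.bound_mono x v h4))

/-- The adjoint ring. -/
noncomputable def adjH (HC : Valuation K ℤᵐ⁰ → Prop) (Ψ : Ω[K⁄ℂ] [⋀^Fin n]→ₗ[K] K)
    (x : Fin N → K) : Subalgebra ℂ (MvPolynomial (Fin 2) K) :=
  Algebra.adjoin ℂ {p : MvPolynomial (Fin 2) K | ∃ (m e : ℕ) (F : K), F ∈ SecH HC Ψ x m e ∧
      p = C F * X 0 ^ m * X 1 ^ e}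

theorem coeff_mem (p : MvPolynomial (Fin 2) K) (hp : p ∈ adjH HC Ψ x) :
    ∀ ε : Fin 2 →₀ ℕ, p.coeff ε ∈ SecH HC Ψ x (ε 0) (ε 1) := by
  refine Algebra.adjoin_induction (p := fun p _ => ∀ ε, p.coeff ε ∈ SecH HC Ψ x (ε 0) (ε 1))
    ?_ ?_ ?_ ?_ hp
  · rintro p ⟨m, e, F, hF, rfl⟩ ε
    rw [a2Aux.gen_eq, coeff_monomial]
    split_ifs with h
    · subst h
      simpa using hF
    · exact sec_zero _ _
  · intro r ε
    rw [MvPolynomial.algebraMap_apply, coeff_C]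
    split_ifs with h
    · subst h
      rw [Algebra.algebraMap_eq_smul_one]
      exact sec_smul sec_one r
    · exact sec_zero _ _
  · intro p q _ _ hp hq ε
    rw [coeff_add]
    exact sec_add (hp ε) (hq ε)
  · intro p q _ _ hp hq ε
    rw [coeff_mul]
    refine Finset.sum_induction _ (fun F => F ∈ SecH HC Ψ x (ε 0) (ε 1)) (fun a b ha hb =>
      sec_add ha hb) (sec_zero _ _) ?_
    intro ab hab
    rw [Finset.HasAntidiagonal.mem_antidiagonal] at hab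
    rw [← hab]
    exact sec_mul (hp ab.1) (hq ab.2)

/-- The homogeneous generators. -/
theorem gens (hFG : (adjH HC Ψ x).FG) : ∃ (r : ℕ) (m e : Fin r → ℕ) (g : Fin r → K),
    (∀ i, g i ∈ SecH HC Ψ x (m i) (e i)) ∧ (∀ i, g i ≠ 0) ∧
    ∀ m' e' : ℕ, ∀ F ∈ SecH HC Ψ x m' e', F ∈ Submodule.span ℂ (a2Aux.mons m e g m' e') := by
  classical
  obtain ⟨T, hT⟩ := hFG
  let I : Finset (Σ _ : MvPolynomial (Fin 2) K, Fin 2 →₀ ℕ) := T.sigma fun p => p.support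
  let eI := I.equivFin
  let idx : Fin I.card → Σ _ : MvPolynomial (Fin 2) K, Fin 2 →₀ ℕ := fun i => (eI.symm i : I).1
  have hidx : ∀ i, (idx i).1 ∈ T ∧ (idx i).2 ∈ (idx i).1.support := fun i =>
    Finset.mem_sigma.mp (eI.symm i).2
  let ε₀ : Fin I.card → Fin 2 →₀ ℕ := fun i => (idx i).2
  let g : Fin I.card → K := fun i => (idx i).1.coeff (idx i).2
  have hTadj : ∀ p ∈ T, p ∈ adjH HC Ψ x := by
    intro p hp
    rw [← hT]
    exact Algebra.subset_adjoin hp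
  refine ⟨I.card, fun i => ε₀ i 0, fun i => ε₀ i 1, g, ?_, ?_, ?_⟩
  · intro i
    exact coeff_mem _ (hTadj _ (hidx i).1) _
  · intro i
    exact mem_support_iff.mp (hidx i).2
  · intro m' e' F hF
    have h1 : (C F * X 0 ^ m' * X 1 ^ e' : MvPolynomial (Fin 2) K) ∈
        Algebra.adjoin ℂ (Set.range fun i => monomial (ε₀ i) (g i)) := by
      have h2 : (C F * X 0 ^ m' * X 1 ^ e' : MvPolynomial (Fin 2) K) ∈ adjH HC Ψ x :=
        Algebra.subset_adjoin ⟨m', e', F, hF, rfl⟩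
      rw [← hT] at h2
      refine Algebra.adjoin_le ?_ h2
      intro p hp
      have h3 : p = ∑ ε ∈ p.support, monomial ε (p.coeff ε) := p.as_sum
      rw [SetLike.mem_coe, h3]
      refine Subalgebra.sum_mem _ ?_
      intro ε hε
      refine Algebra.subset_adjoin ⟨eI ⟨⟨p, ε⟩, Finset.mem_sigma.mpr ⟨hp, hε⟩⟩, ?_⟩
      simp [ε₀, g, idx]
    have h4 := a2Aux.coeff_span ε₀ g _ h1 (Finsupp.single 0 m' + Finsupp.single 1 e')
    rw [a2Aux.gen_eq, coeff_monomial, if_pos rfl] at h4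
    have e0 : (Finsupp.single (0 : Fin 2) m' + Finsupp.single 1 e' : Fin 2 →₀ ℕ) 0 = m' := by simp
    have e1 : (Finsupp.single (0 : Fin 2) m' + Finsupp.single 1 e' : Fin 2 →₀ ℕ) 1 = e' := by simp
    rw [e0, e1] at h4
    exact h4

end HGAux

open HGAux in
/-- HG. The last clause. -/
theorem hG : HGStmt := by
  intro K _ _ n N HC Ψ x hFG h0
  obtain ⟨r, m, e, g, hg, hg0, hspan⟩ := gens (HC := HC) (Ψ := Ψ) (x := x) hFG
  have he : ∀ i, 1 ≤ m i → 1 ≤ e i := by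
    intro i hi
    by_contra hcon
    have h1 : e i = 0 := by omega
    have h2 := hg i
    rw [h1] at h2
    exact hg0 i (h0 (m i) hi (g i) h2)
  refine ⟨1 + ∑ i, m i, by omega, ?_⟩
  intro m' e' hlt F hF
  have h1 := hspan m' e' F hF
  have h2 : a2Aux.mons m e g m' e' = ∅ := by
    refine Set.eq_empty_of_forall_notMem ?_
    rintro f ⟨a, ha1, ha2, -⟩
    have h3 : m' ≤ e' * (1 + ∑ i, m i) := by
      rw [← ha1, ← ha2, Finset.sum_mul]
      refine Finset.sum_le_sum fun i _ => ?_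
      rw [mul_assoc]
      refine Nat.mul_le_mul_left _ ?_
      rcases Nat.eq_zero_or_pos (m i) with h4 | h4
      · rw [h4]
        exact Nat.zero_le _
      · have h5 : m i ≤ ∑ i, m i :=
          Finset.single_le_sum (f := m) (fun j _ => Nat.zero_le _) (Finset.mem_univ i)
        calc m i ≤ 1 * (1 + ∑ i, m i) := by omega
          _ ≤ e i * (1 + ∑ i, m i) := Nat.mul_le_mul_right _ (he i h4)
    omega
  rw [h2, Submodule.span_empty, Submodule.mem_bot] at h1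
  exact h1

end Pool.Agent.Lib.MP_410da7_agB
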