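import Pool.Agent.Lib.MP_410da7_agB.SpecH

/-!
# MP_410da7_ag, nef boundary (C46, T1), block H: an `𝔸¹`-uniruled complement has a negative log canonical
class
-/

set_option autoImplicit false

namespace Pool.Agent.Lib.MP_410da7_agB

open Pool.Agent.Lib.MP_410da7_agA
open Pool.Agent.Lib.MP_410da7_ag (regDiff logDiff)
open Pool.Agent.Lib.MP_410da7_agV (Line exists_hom exists_homog hom_smul isFractionRing_adjoin
  vanish_of_line)
open MvPolynomial KaehlerDifferential WithZero Module Cardinal

namespace HHAux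

/-- The value of a form of positive degree with coefficients of value at most one is less than one if
all the values of the coordinates are less than one. -/
theorem form_lt {R : Type} [Field R] [Algebra ℂ R] {M d : ℕ} (w : Valuation R ℤᵐ⁰)
    (hw : ∀ c : ℂ, w (algebraMap ℂ R c) ≤ 1) (W : Fin (M + 1) → R) (hW : ∀ l, w (W l) < 1)
    {P : MvPolynomial (Fin (M + 1)) ℂ} (hP : P.IsHomogeneous d) (hd : 1 ≤ d) :
    w (aeval W P) < 1 := by
  rw [MvPolynomial.aeval_def, MvPolynomial.eval₂_eq']
  refine Valuation.map_sum_lt w one_ne_zero fun m hm => ?_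
  have h1 : m.degree = d := by
    have := hP (MvPolynomial.mem_support_iff.mp hm)
    rw [← this]
    simp [Finsupp.degree, Finsupp.weight_apply, Finsupp.sum]
  have h2 : ∃ i, 1 ≤ m i := by
    by_contra h
    push Not at h
    have h3 : m.degree = 0 := by
      rw [Finsupp.degree_eq_sum]
      exact Finset.sum_eq_zero fun i _ => Nat.lt_one_iff.1 (h i)
    omega
  obtain ⟨i, hi⟩ := h2
  rw [map_mul]
  have h4 : w (∏ i, W i ^ m i) < 1 := by
    rw [map_prod, ← Finset.mul_prod_erase Finset.univ _ (Finset.mem_univ i)]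
    have h5 : w (W i ^ m i) < 1 := by
      rw [map_pow]
      exact pow_lt_one₀ zero_le (hW i) (by omega)
    have h6 : ∏ j ∈ Finset.univ.erase i, w (W j ^ m j) ≤ 1 := by
      refine Finset.prod_le_one' fun j _ => ?_
      rw [map_pow]
      exact pow_le_one' (hW j).le _
    calc w (W i ^ m i) * ∏ j ∈ Finset.univ.erase i, w (W j ^ m j) ≤ w (W i ^ m i) * 1 :=
          mul_le_mul_right h6 _
      _ < 1 := by rw [mul_one]; exact h5
  calc w ((algebraMap ℂ R) (MvPolynomial.coeff m P)) * w (∏ i, W i ^ m i)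
      ≤ 1 * w (∏ i, W i ^ m i) := mul_le_mul_left (hw _) _
    _ < 1 := by rw [one_mul]; exact h4

end HHAux

theorem hH : HHStmt := by
  classical
  intro K _ _ n N s d₀ Ψ x G hd hG hx htr hΨ hA
  obtain ⟨B, iB, iD, iA, W, -, htrB, hrel, hspan⟩ := hA
  set Y : Fin (N + 1) → K := Fin.cons 1 x with hYdef
  have hY0 : Y 0 = 1 := rfl
  let j : B →ₐ[ℂ] FractionRing B := IsScalarTower.toAlgHom ℂ B (FractionRing B)
  have hj : Function.Injective j := IsFractionRing.injective B (FractionRing B)
  let ρ : Polynomial B →ₐ[ℂ] RatFunc (FractionRing B) :=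
    (IsScalarTower.toAlgHom ℂ (Polynomial (FractionRing B)) (RatFunc (FractionRing B))).comp
      (Polynomial.mapAlgHom j)
  have hρ : Function.Injective ρ := by
    have h1 : Function.Injective (Polynomial.mapAlgHom j) := Polynomial.map_injective _ hj
    have h2 : Function.Injective (algebraMap (Polynomial (FractionRing B))
      (RatFunc (FractionRing B))) := RatFunc.algebraMap_injective _
    exact h2.comp h1
  have hρ0 : ∀ a, ρ a = 0 → a = 0 := fun a ha => hρ (by rw [ha, map_zero])
  let W' : Fin (N + 1) → RatFunc (FractionRing B) := fun l => ρ (W l)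
  have hae : ∀ P : MvPolynomial (Fin (N + 1)) ℂ, aeval W' P = ρ (aeval W P) := fun P =>
    (MvPolynomial.comp_aeval_apply (R := ℂ) ρ (f := W) P).symm
  have hW0 : W 0 ≠ 0 := by
    intro h0
    have h1 := (hrel 1 (X 0) (isHomogeneous_X ℂ 0)).1 (by rw [aeval_X]; exact h0)
    rw [aeval_X, hY0] at h1
    exact one_ne_zero h1
  have hW0' : W' 0 ≠ 0 := fun h => hW0 (hρ0 _ h)
  let u : (RatFunc (FractionRing B))ˣ := Units.mk0 (W' 0) hW0'
  obtain ⟨ψ, hψ⟩ := exists_hom hY0 u W' rfl (fun d P hP h0 => by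
    rw [hae, (hrel d P hP).2 h0, map_zero])
  have hψinj : Function.Injective ψ := by
    rw [injective_iff_map_eq_zero]
    rintro ⟨a, ha⟩ h0
    have ha' := ha
    rw [Algebra.adjoin_range_eq_range_aeval] at ha'
    obtain ⟨P, rfl⟩ := ha'
    have h1 := hψ P ha
    have h1' : aeval (fun l => ((u⁻¹ : (RatFunc (FractionRing B))ˣ) :
        RatFunc (FractionRing B)) * W' l) P = 0 := by rw [← h1]; exact h0
    obtain ⟨d, G', hG', h2⟩ := exists_homog P
    have h3 := h2 _ u W' rfl
    rw [h1', mul_zero, hae] at h3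
    have h4 := (hrel d G' hG').1 (hρ0 _ h3)
    have h5 := h2 K 1 Y (by rw [hY0]; rfl)
    rw [h4] at h5
    simp only [inv_one, Units.val_one, one_mul, one_pow] at h5
    exact Subtype.ext h5.symm
  have hYt : IntermediateField.adjoin ℂ (Set.range Y) = ⊤ := by
    rw [eq_top_iff, ← hx]
    refine IntermediateField.adjoin.mono _ _ _ ?_
    rintro _ ⟨i, rfl⟩
    exact ⟨i.succ, rfl⟩
  have := isFractionRing_adjoin hYt
  let Φ : K →ₐ[ℂ] RatFunc (FractionRing B) := IsFractionRing.liftAlgHom (K := K) hψinj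
  have hΦ : ∀ P : MvPolynomial (Fin (N + 1)) ℂ, Φ (aeval Y P) =
      aeval (fun l => ((u⁻¹ : (RatFunc (FractionRing B))ˣ) :
        RatFunc (FractionRing B)) * W' l) P := by
    intro P
    have hm : aeval Y P ∈ Algebra.adjoin ℂ (Set.range Y) := by
      rw [Algebra.adjoin_range_eq_range_aeval]; exact ⟨P, rfl⟩
    rw [← hψ P hm]
    have h1 : aeval Y P = algebraMap (Algebra.adjoin ℂ (Set.range Y)) K ⟨aeval Y P, hm⟩ := rfl
    conv_lhs => rw [h1]
    exact IsFractionRing.lift_algebraMap hψinj _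
  have hΦh : ∀ (d : ℕ) (P : MvPolynomial (Fin (N + 1)) ℂ), P.IsHomogeneous d → Φ (aeval Y P) =
      (W' 0)⁻¹ ^ d * ρ (aeval W P) := by
    intro d P hP
    rw [hΦ P, hom_smul W' _ hP, hae]
    rfl
  have hΦY : ∀ l, Φ (Y l) = (W' 0)⁻¹ * W' l := by
    intro l
    have h1 := hΦh 1 (X l) (isHomogeneous_X ℂ l)
    rw [aeval_X, aeval_X, pow_one] at h1
    exact h1
  obtain ⟨c, hc⟩ := (Ideal.mem_span_range_iff_exists_fun (R := Polynomial B)).1
    (show (1 : Polynomial B) ∈ Ideal.span (Set.range fun j => aeval W (G j)) by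
      rw [hspan]; trivial)
  have hHC : ∀ p : IsDedekindDomain.HeightOneSpectrum (Polynomial (FractionRing B)),
      CenterOn d₀ Y G ((p.valuation (RatFunc (FractionRing B))).comap Φ.toRingHom) := by
    intro p
    set w := p.valuation (RatFunc (FractionRing B)) with hw
    have hw1 : ∀ a : Polynomial B, w (ρ a) ≤ 1 := fun a =>
      p.valuation_le_one (K := RatFunc (FractionRing B)) (Polynomial.mapAlgHom j a)
    have hwc : ∀ a : ℂ, w (algebraMap ℂ (RatFunc (FractionRing B)) a) ≤ 1 := by
      intro a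
      have h1 : algebraMap ℂ (RatFunc (FractionRing B)) a = ρ (algebraMap ℂ (Polynomial B) a) :=
        (AlgHom.commutes ρ a).symm
      rw [h1]
      exact hw1 _
    have hex : ∃ i, w (ρ (aeval W (G i))) = 1 := by
      by_contra h
      push Not at h
      have h1 : w (ρ (∑ i, c i * aeval W (G i))) < 1 := by
        rw [map_sum]
        refine Valuation.map_sum_lt w one_ne_zero fun i _ => ?_
        rw [map_mul, map_mul]
        calc w (ρ (c i)) * w (ρ (aeval W (G i))) ≤ 1 * w (ρ (aeval W (G i))) :=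
              mul_le_mul_left (hw1 _) _
          _ < 1 := by rw [one_mul]; exact lt_of_le_of_ne (hw1 _) (h i)
      rw [hc, map_one, map_one] at h1
      exact lt_irrefl _ h1
    obtain ⟨i, hi⟩ := hex
    have hb : ∃ b, w (W' b) = 1 := by
      by_contra h
      push Not at h
      have h1 := HHAux.form_lt w hwc W' (fun l => lt_of_le_of_ne (hw1 _) (h l)) (hG i) hd
      rw [hae, hi] at h1
      exact lt_irrefl _ h1
    obtain ⟨b, hb⟩ := hb
    have hmax : vmax Y (w.comap Φ.toRingHom) = w (W' 0)⁻¹ := by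
      apply le_antisymm
      · refine Finset.sup_le fun l _ => ?_
        change w (Φ (Y l)) ≤ _
        rw [hΦY, map_mul]
        calc w (W' 0)⁻¹ * w (W' l) ≤ w (W' 0)⁻¹ * 1 := mul_le_mul_right (hw1 _) _
          _ = _ := mul_one _
      · have h1 : w (Φ (Y b)) ≤ vmax Y (w.comap Φ.toRingHom) :=
          Finset.le_sup (f := fun l => (w.comap Φ.toRingHom) (Y l)) (Finset.mem_univ b)
        rw [hΦY, map_mul, hb, mul_one] at h1
        exact h1
    refine ⟨i, ?_⟩
    rw [hmax]
    change w (Φ (aeval Y (G i))) = _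
    rw [hΦh d₀ (G i) (hG i), map_mul, hi, mul_one, map_pow]
  have hLn : Algebra.trdeg ℂ (FractionRing B) + 1 = n := by
    have h5 : Algebra.trdeg ℂ B + Algebra.trdeg B (FractionRing B) =
        Algebra.trdeg ℂ (FractionRing B) := trdeg_add_eq ℂ B
    have : Algebra.IsAlgebraic B (FractionRing B) :=
      IsLocalization.isAlgebraic _ (nonZeroDivisors _)
    have h6 : Algebra.trdeg B (FractionRing B) = 0 := trdeg_eq_zero
    rw [← h5, h6, add_zero, htrB]
  exact vanish_of_line Φ (CenterOn d₀ Y G) hHC htr hLn x Ψ hΨ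

end Pool.Agent.Lib.MP_410da7_agB
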