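import Pool.Agent.Lib.MP_410da7_agB.SpecH
import Pool.Agent.Lib.MP_410da7_agA.L.DL5

/-!
# MP_410da7_ag, nef boundary (C46, T1), HL: the local ring of the second embedding
-/

set_option autoImplicit false

namespace Pool.Agent.Lib.MP_410da7_agB

open Pool.Agent.Lib.MP_410da7_agA
open MvPolynomial KaehlerDifferential WithZero Module

open dL5Aux in
theorem hL : HLStmt := by
  classical
  intro K _ _ n M s κ e r Mw Y G f W tt b v z lam hv hW hY hN
  have hYb : Y b ≠ 0 := hY.reg.ne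
  have hvb : v (Y b) ≠ 0 := (Valuation.ne_zero_iff v).mpr hYb
  obtain ⟨i₀, u, hu, hu1, hfu⟩ := hN.eq
  set h : K := (∏ i, z i ^ lam i) ^ (κ * e) with hh
  have hh0 : h ≠ 0 := pow_ne_zero _ hY.ne0
  have hu0 : u ≠ 0 := by
    rw [← Valuation.ne_zero_iff v, hu1]
    exact one_ne_zero
  have hui : u⁻¹ ∈ locRing Y b v := inv_mem Y b v hu hu1
  have hf0 : f i₀ ≠ 0 := by
    intro h0
    rw [h0, zero_mul] at hfu
    exact mul_ne_zero hu0 (pow_ne_zero _ hYb) hfu.symm
  -- the functions `f_i / f_{i₀}`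
  have hfi : ∀ i, f i / f i₀ ∈ locRing Y b v := by
    intro i
    obtain ⟨g, hg, hfg⟩ := hN.le i
    have h1 : f i / f i₀ = g * u⁻¹ := by
      rw [div_eq_iff hf0]
      have h2 : f i * h = g * u⁻¹ * f i₀ * h := by
        rw [mul_assoc (g * u⁻¹), hfu, hfg]
        field_simp
      exact mul_right_cancel₀ hh0 h2
    rw [h1]
    exact Subalgebra.mul_mem _ hg hui
  have hhmem : h ∈ locRing Y b v := by
    rw [hh]
    exact Subalgebra.pow_mem _ (Subalgebra.prod_mem _ fun i _ =>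
      Subalgebra.pow_mem _ (hY.reg.mem i) _) _
  have hYf : Y b ^ e / f i₀ = h * u⁻¹ := by
    rw [div_eq_iff hf0]
    have h2 : h * u⁻¹ * f i₀ = u⁻¹ * (f i₀ * h) := by ring
    rw [h2, hfu]
    field_simp
  have hle1 : ∀ g ∈ locRing Y b v, v g ≤ 1 := fun g hg =>
    ng_locRing_le hv hYb hY.reg.max hg
  obtain ⟨b', hb'⟩ := hW.sec i₀ b
  have hWb : W b' ≠ 0 := by
    rw [hb']
    exact mul_ne_zero hf0 hYb
  -- the monomials
  have hmon : ∀ β : Fin (M + 1) → ℕ, ∑ i, β i = e + 1 →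
      (∏ i, Y i ^ β i) / W b' = (∏ i, aff Y b i ^ β i) * (h * u⁻¹) := by
    intro β hβ
    have h1 : ∏ i, aff Y b i ^ β i = (∏ i, Y i ^ β i) / Y b ^ (e + 1) := by
      have h2 : ∀ i, aff Y b i ^ β i = Y i ^ β i / Y b ^ β i := fun i => div_pow _ _ _
      rw [Finset.prod_congr rfl fun i _ => h2 i, Finset.prod_div_distrib,
        Finset.prod_pow_eq_pow_sum, hβ]
    rw [h1, ← hYf, hb']
    have h3 : (Y b ^ (e + 1) : K) ≠ 0 := pow_ne_zero _ hYb
    field_simp
    ring
  have hmonmem : ∀ β : Fin (M + 1) → ℕ, ∏ i, aff Y b i ^ β i ∈ locRing Y b v := fun β =>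
    Subalgebra.prod_mem _ fun i _ => Subalgebra.pow_mem _ (aff_mem Y b v i) _
  have hWmem : ∀ l, W l / W b' ∈ locRing Y b v := by
    intro l
    by_cases hl : l ∈ tt
    · obtain ⟨β, hβ, hWl⟩ := hW.mon' l hl
      rw [hWl, hmon β hβ]
      exact Subalgebra.mul_mem _ (hmonmem β) (Subalgebra.mul_mem _ hhmem hui)
    · obtain ⟨i, m, hWl⟩ := hW.sec' l hl
      have h1 : W l / W b' = (f i / f i₀) * (Y m / Y b) := by
        rw [hWl, hb']
        field_simp
      rw [h1]
      exact Subalgebra.mul_mem _ (hfi i) (aff_mem Y b v m)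
  have hEq : locRing W b' v = locRing Y b v := by
    apply le_antisymm
    · exact loc_le W b' v _ hWmem (fun g hg hg1 => inv_mem Y b v hg hg1)
    · refine loc_le Y b v _ ?_ (fun g hg hg1 => inv_mem W b' v hg hg1)
      intro m
      obtain ⟨l, hl⟩ := hW.sec i₀ m
      have h1 : Y m / Y b = W l / W b' := by
        rw [hl, hb']
        field_simp
      rw [h1]
      exact aff_mem W b' v l
  have hprod : h = ∏ i, z i ^ (κ * e * lam i) := by
    rw [hh, ← Finset.prod_pow]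
    refine Finset.prod_congr rfl fun i _ => ?_
    rw [← pow_mul, mul_comm (lam i)]
  refine ⟨b', ⟨hWb, ?_, ?_, ?_⟩, ?_, ?_⟩
  · intro l
    have h1 := hle1 _ (hWmem l)
    rw [map_div₀] at h1
    have h2 : 0 < v (W b') := (Valuation.pos_iff v).2 hWb
    exact (div_le_one₀ h2).1 h1
  · intro i
    rw [hEq]
    exact hY.reg.mem i
  · exact coord_of_eq _ _ z hEq hY.reg.coord
  · intro t ht
    obtain ⟨β, hβ, hWl⟩ := hW.mon' t ht
    refine ⟨(∏ i, aff Y b i ^ β i) * u⁻¹, ?_, ?_⟩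
    · rw [hEq]
      exact Subalgebra.mul_mem _ (hmonmem β) hui
    · rw [hWl, hmon β hβ, ← hprod]
      ring
  · obtain ⟨t, ht, hWt⟩ := hW.mon (fun i => if i = b then e + 1 else 0) (by
      rw [Finset.sum_ite_eq' Finset.univ b, if_pos (Finset.mem_univ _)])
    refine ⟨t, ht, ?_⟩
    rw [hWt, hmon _ (by rw [Finset.sum_ite_eq' Finset.univ b, if_pos (Finset.mem_univ _)]),
      ← hprod]
    have h1 : ∏ i, aff Y b i ^ (if i = b then e + 1 else 0) = 1 := by
      refine Finset.prod_eq_one fun i _ => ?_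
      split_ifs with hi
      · rw [hi]
        have h2 : aff Y b b = 1 := div_self hYb
        rw [h2, one_pow]
      · rw [pow_zero]
    rw [h1, one_mul, map_mul, map_inv₀, hu1, inv_one, mul_one]

end Pool.Agent.Lib.MP_410da7_agB
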