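import Pool.Agent.Lib.MP_410da7_agB.SpecH

/-!
# MP_410da7_ag, nef boundary (C46, T1), HW: existence of the second system of coordinates
-/

set_option autoImplicit false

namespace Pool.Agent.Lib.MP_410da7_agB

open Pool.Agent.Lib.MP_410da7_agA
open MvPolynomial KaehlerDifferential WithZero Module

theorem hW : HWStmt := by
  classical
  intro K _ M r e Y f hY0
  let A : Type := {β : Fin (M + 1) → Fin (e + 2) // ∑ i, (β i : ℕ) = e + 1} ⊕ (Fin r × Fin (M + 1))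
  have hsum0 : ∑ i : Fin (M + 1), (((if i = 0 then ⟨e + 1, by omega⟩ else 0 : Fin (e + 2)) : Fin (e + 2)) : ℕ) =
      e + 1 := by
    have h1 : ∀ i ∈ (Finset.univ : Finset (Fin (M + 1))),
        (((if i = 0 then ⟨e + 1, by omega⟩ else 0 : Fin (e + 2)) : Fin (e + 2)) : ℕ) =
        if i = 0 then e + 1 else 0 := by
      intro i _
      split_ifs <;> rfl
    rw [Finset.sum_congr rfl h1, Finset.sum_ite_eq' Finset.univ 0, if_pos (Finset.mem_univ _)]
  let a₀ : A := Sum.inl ⟨fun i => if i = 0 then ⟨e + 1, by omega⟩ else 0, hsum0⟩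
  have hcard : 0 < Fintype.card A := Fintype.card_pos_iff.2 ⟨a₀⟩
  obtain ⟨Mw, hMw⟩ : ∃ Mw, Fintype.card A = Mw + 1 := ⟨Fintype.card A - 1, by omega⟩
  let σ₀ : A ≃ Fin (Mw + 1) := Fintype.equivFinOfCardEq hMw
  let σ : A ≃ Fin (Mw + 1) := σ₀.trans (Equiv.swap (σ₀ a₀) 0)
  have hσ : σ a₀ = 0 := Equiv.swap_apply_left _ _
  have hσ' : σ.symm 0 = a₀ := by rw [← hσ, Equiv.symm_apply_apply]
  let val : A → K := Sum.elim (fun β => ∏ i, Y i ^ (β.1 i : ℕ)) (fun q => f q.1 * Y q.2)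
  refine ⟨Mw, fun l => val (σ.symm l), Finset.univ.filter fun l => (σ.symm l).isLeft = true, ?_⟩
  refine ⟨?_, ?_, ?_, ?_, ?_, ?_⟩
  · rw [hσ']
    change ∏ i, Y i ^ (((if i = 0 then ⟨e + 1, by omega⟩ else 0 : Fin (e + 2)) : Fin (e + 2)) : ℕ) = 1
    refine Finset.prod_eq_one fun i _ => ?_
    split_ifs with hi
    · rw [hi, hY0, one_pow]
    · exact pow_zero _
  · rw [Finset.mem_filter]
    refine ⟨Finset.mem_univ _, ?_⟩
    rw [hσ']
    rfl
  · intro β hβ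
    have hlt : ∀ i, β i < e + 2 := by
      intro i
      have h1 : β i ≤ ∑ i, β i := Finset.single_le_sum (f := β) (fun _ _ => Nat.zero_le _)
        (Finset.mem_univ i)
      omega
    refine ⟨σ (Sum.inl ⟨fun i => ⟨β i, hlt i⟩, hβ⟩), ?_, ?_⟩
    · rw [Finset.mem_filter]
      refine ⟨Finset.mem_univ _, ?_⟩
      rw [Equiv.symm_apply_apply]
      rfl
    · rw [Equiv.symm_apply_apply]
      rfl
  · intro l hl
    rw [Finset.mem_filter] at hl
    obtain ⟨β, hβ⟩ := Sum.isLeft_iff.1 hl.2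
    refine ⟨fun i => (β.1 i : ℕ), β.2, ?_⟩
    rw [hβ]
    rfl
  · intro i m
    refine ⟨σ (Sum.inr (i, m)), ?_⟩
    rw [Equiv.symm_apply_apply]
    rfl
  · intro l hl
    have h1 : ¬ (σ.symm l).isLeft = true := fun h2 => hl (Finset.mem_filter.2 ⟨Finset.mem_univ _, h2⟩)
    rw [Sum.not_isLeft] at h1
    obtain ⟨q, hq⟩ := Sum.isRight_iff.1 h1
    refine ⟨q.1, q.2, ?_⟩
    rw [hq]
    rfl

end Pool.Agent.Lib.MP_410da7_agB
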