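import Pool.Agent.Lib.MP_410da7_agB.AssemblyH
import Pool.Agent.Lib.MP_410da7_agB.AssemblyN
import Pool.Agent.Lib.MP_410da7_agB.HA
import Pool.Agent.Lib.MP_410da7_agB.HB
import Pool.Agent.Lib.MP_410da7_agB.HC
import Pool.Agent.Lib.MP_410da7_agB.HD
import Pool.Agent.Lib.MP_410da7_agB.HE
import Pool.Agent.Lib.MP_410da7_agB.HF
import Pool.Agent.Lib.MP_410da7_agB.HG
import Pool.Agent.Lib.MP_410da7_agB.HH
import Pool.Agent.Lib.MP_410da7_agB.HL
import Pool.Agent.Lib.MP_410da7_agB.HS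
import Pool.Agent.Lib.MP_410da7_agB.HW
import Pool.Agent.Lib.MP_410da7_agA.L.Final

/-!
# MP_410da7_ag, nef boundary (C46, T1): the theorem
-/

set_option autoImplicit false

namespace Pool.Agent.Lib.MP_410da7_agB

open Pool.Agent.Lib.MP_410da7_agA (nThmIfAll)

/-- The theorem T1. -/
theorem t1All : T1Thm :=
  t1Thm hA hB (hF nThmIfAll hC hD hE) hW hL hS hH hG cnAll

end Pool.Agent.Lib.MP_410da7_agB
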