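import Pool.Agent.Lib.MP_410da7_agB.HK
import Pool.Agent.Lib.MP_410da7_agA.L.Closed

/-!
# MP_410da7_ag, nef boundary (C46, T1): the assembly
-/

set_option autoImplicit false

namespace Pool.Agent.Lib.MP_410da7_agB

open Pool.Agent.Lib.MP_410da7_agA
open Pool.Agent.Lib.MP_410da7_ag (regDiff logDiff)
open Pool.Agent.Lib.MP_410da7_agV (Line isFractionRing_adjoin)
open MvPolynomial KaehlerDifferential WithZero Module

namespace asmAux

variable {K : Type} [Field K] [Algebra ℂ K]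

omit [Algebra ℂ K] in
theorem vmax_eq {N : ℕ} (x : Fin N → K) (v : Valuation K ℤᵐ⁰) :
    vmax (cons1 x) v = size x v := by
  rw [vmax, size]
  refine le_antisymm (Finset.sup_le fun i _ => ?_) (sup_le (Finset.sup_le fun l _ => ?_) ?_)
  · refine Fin.cases ?_ (fun l => ?_) i
    · rw [show cons1 x 0 = 1 from rfl, map_one]; exact le_sup_right
    · exact (Finset.le_sup (f := fun l => v (x l)) (Finset.mem_univ l)).trans le_sup_left
  · exact Finset.le_sup (f := fun i => v (cons1 x i)) (Finset.mem_univ l.succ)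
  · have h1 := Finset.le_sup (f := fun i => v (cons1 x i)) (Finset.mem_univ (0 : Fin (N + 1)))
    rwa [show v (cons1 x 0) = 1 from by rw [show cons1 x 0 = 1 from rfl, map_one]] at h1

theorem trdeg_adjoin {N : ℕ} (x : Fin N → K) (hx : IntermediateField.adjoin ℂ (Set.range x) = ⊤) :
    Algebra.trdeg ℂ (Algebra.adjoin ℂ (Set.range (cons1 x))) = Algebra.trdeg ℂ K := by
  have hgen : IntermediateField.adjoin ℂ (Set.range (cons1 x)) = ⊤ := by
    rw [eq_top_iff, ← hx]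
    refine IntermediateField.adjoin.mono _ _ _ ?_
    rintro _ ⟨l, rfl⟩
    exact ⟨l.succ, rfl⟩
  have hfr := isFractionRing_adjoin hgen
  have : Algebra.IsAlgebraic (Algebra.adjoin ℂ (Set.range (cons1 x))) K :=
    IsLocalization.isAlgebraic _ (nonZeroDivisors (Algebra.adjoin ℂ (Set.range (cons1 x))))
  have i2 : FaithfulSMul ℂ (Algebra.adjoin ℂ (Set.range (cons1 x))) :=
    (faithfulSMul_iff_algebraMap_injective _ _).2 (algebraMap ℂ _).injective
  have h1 : Algebra.trdeg ℂ (Algebra.adjoin ℂ (Set.range (cons1 x))) +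
      Algebra.trdeg (Algebra.adjoin ℂ (Set.range (cons1 x))) K = Algebra.trdeg ℂ K :=
    trdeg_add_eq ℂ _
  rw [trdeg_eq_zero (R := Algebra.adjoin ℂ (Set.range (cons1 x))), add_zero] at h1
  exact h1

/-- The two forms of the inequality for the negative family. -/
theorem neg_iff {n : ℕ} {Λ : Type} [Field Λ] [Algebra K Λ] (Ψ : Ω[K⁄ℂ] [⋀^Fin n]→ₗ[K] K)
    (w : Valuation Λ ℤᵐ⁰) (z : Fin n → K) (lam : Fin n → ℕ) (hz : ∏ i, z i ^ lam i ≠ 0)
    (m₀ : ℕ) (S A : ℤᵐ⁰) :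
    S * kSize Ψ (w.comap (algebraMap K Λ)) z lam ^ m₀ ≤ A ↔
      S * w (algebraMap K Λ (Ψ fun i => D ℂ K (z i))) ^ m₀ ≤
        A * (∏ i with 1 ≤ lam i, w (algebraMap K Λ (z i))) ^ m₀ := by
  have hprod : (∏ i with 1 ≤ lam i, w (algebraMap K Λ (z i))) =
      ∏ i, if lam i = 0 then 1 else w (algebraMap K Λ (z i)) := by
    rw [Finset.prod_filter]
    refine Finset.prod_congr rfl fun i _ => ?_
    by_cases hi : lam i = 0
    · rw [if_neg (by omega), if_pos hi]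
    · rw [if_pos (by omega), if_neg hi]
  have hne : (∏ i, if lam i = 0 then 1 else w (algebraMap K Λ (z i))) ≠ 0 := by
    refine Finset.prod_ne_zero_iff.2 fun i _ => ?_
    by_cases hi : lam i = 0
    · rw [if_pos hi]; exact one_ne_zero
    · rw [if_neg hi]
      have h3 := Finset.prod_ne_zero_iff.1 hz i (Finset.mem_univ _)
      have h4 : z i ≠ 0 := fun h0 => h3 (by rw [h0, zero_pow hi])
      rw [Valuation.ne_zero_iff]
      exact (map_ne_zero _).2 h4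
  have hk : kSize Ψ (w.comap (algebraMap K Λ)) z lam =
      w (algebraMap K Λ (Ψ fun i => D ℂ K (z i))) /
        ∏ i, if lam i = 0 then 1 else w (algebraMap K Λ (z i)) := rfl
  rw [hprod, hk, div_pow, mul_div_assoc']
  exact div_le_iff₀ (zero_lt_iff.2 (pow_ne_zero _ hne))

theorem kSize_mul {n : ℕ} (Ψ : Ω[K⁄ℂ] [⋀^Fin n]→ₗ[K] K) (v : Valuation K ℤᵐ⁰) (z : Fin n → K)
    (lam : Fin n → ℕ) (c : ℕ) (hc : 1 ≤ c) :
    kSize Ψ v z (fun i => c * lam i) = kSize Ψ v z lam := by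
  rw [kSize, kSize]
  congr 1
  refine Finset.prod_congr rfl fun i _ => ?_
  by_cases hi : lam i = 0
  · rw [if_pos hi, if_pos (by rw [hi, mul_zero])]
  · rw [if_neg hi, if_neg (Nat.mul_ne_zero (by omega) hi)]

end asmAux

open asmAux HKAux in
/-- From the negative family to the curve. -/
theorem a1_of_neg (hW : HWStmt) (hL : HLStmt) (hC : CNStmt)
    (K : Type) [Field K] [Algebra ℂ K] (n N s d₀ m₀ e₀ : ℕ) (Ψ : Ω[K⁄ℂ] [⋀^Fin n]→ₗ[K] K)
    (x : Fin N → K) (G : Fin (s + 1) → MvPolynomial (Fin (N + 1)) ℂ)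
    (hG : ∀ j, (G j).IsHomogeneous d₀) (hsit : Sit Ψ x)
    (hnef : ∀ κ : ℕ, 1 ≤ κ → ∃ (e r : ℕ) (f : Fin r → K), 1 ≤ e ∧
      ∀ v : Valuation K ℤᵐ⁰, Triv v → ∀ (b : Fin (N + 1)) (p : Fin (N + 1) → ℂ)
        (z : Fin n → pointRing (cons1 x) b p) (lam : Fin n → ℕ), IsPoint (cons1 x) b p →
        AtPoint (cons1 x) b p v → IsPairChart (cons1 x) G b p z lam →
        LSP (cons1 x) G b v (fun i => (z i : K)) lam ∧
        NefAt (cons1 x) f κ e b v (fun i => (z i : K)) lam)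
    (hsm : LogSmoothPair n (cons1 x) G)
    (L Λ : Type) [Field L] [Field Λ] [Algebra ℂ L] [Algebra L Λ] [Algebra K Λ] [Algebra ℂ Λ]
    [IsScalarTower ℂ L Λ] [IsScalarTower ℂ K Λ] (a : Λ)
    (hN : PairNegFamily (cons1 x) G Ψ m₀ e₀ L Λ a) :
    A1UniruledCompl n (cons1 x) G := by
  obtain ⟨e, r, f, he, hf⟩ := hnef (2 * (n + 1) * m₀ + 1) (by omega)
  set κ := 2 * (n + 1) * m₀ + 1 with hκ
  have hκe : 1 ≤ κ * e := Nat.one_le_iff_ne_zero.2 (Nat.mul_ne_zero (by omega) (by omega))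
  obtain ⟨Mw, W, tt, hWS⟩ := hW K N r e (cons1 x) f rfl
  -- the local structure
  have hloc : ∀ v : Valuation K ℤᵐ⁰, Triv v → ∃ (b : Fin (N + 1)) (p : Fin (N + 1) → ℂ)
      (z : Fin n → pointRing (cons1 x) b p) (lam : Fin n → ℕ) (b' : Fin (Mw + 1)),
      AtPoint (cons1 x) b p v ∧ IsPairChart (cons1 x) G b p z lam ∧
      LSP (cons1 x) G b v (fun i => (z i : K)) lam ∧
      LSW W tt b' v (fun i => (z i : K)) (fun i => κ * e * lam i) := by
    intro v hv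
    obtain ⟨b, p, hat, hpt⟩ := exists_atPoint x hv
    obtain ⟨z, lam, hch⟩ := hsm b p hpt
    obtain ⟨h1, h2⟩ := hf v hv b p z lam hpt hat hch
    obtain ⟨b', hb'⟩ := hL K n N s κ e r Mw (cons1 x) G f W tt b v _ lam hv hWS h1 h2
    exact ⟨b, p, z, lam, b', hat, hch, h1, hb'⟩
  have hSN : SitN Ψ W tt x (e + 1) := by
    obtain ⟨i, hi⟩ := exists_idx hWS
    refine ⟨hWS.W0, hWS.tt0, fun l => ⟨i l.succ, (hi l.succ).2⟩, hsit.gen, hsit.trdeg, hsit.Ψ0, ?_⟩
    intro v hv t ht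
    obtain ⟨β, hβ, hWt⟩ := hWS.mon' t ht
    rw [hWt, map_prod, ← hβ, ← Finset.prod_pow_eq_pow_sum]
    refine Finset.prod_le_prod' fun m _ => ?_
    rw [map_pow]
    refine pow_le_pow_left' ?_ _
    rw [← vmax_eq]
    exact Finset.le_sup (f := fun i => v (cons1 x i)) (Finset.mem_univ m)
  have hNC : NegCurveN Ψ W tt x m₀ e₀ L Λ a := by
    refine ⟨hN.m0, hN.e0, hN.a0, hN.trdeg, hN.fg, hN.gen, fun w hw => ?_⟩
    have hv : Triv (w.comap (algebraMap K Λ)) := DAux.triv_comap hw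
    obtain ⟨b, p, z, lam, b', hat, hch, h1, h2⟩ := hloc _ hv
    refine ⟨b', fun i => (z i : K), fun i => κ * e * lam i, h2, ?_⟩
    rw [kSize_mul Ψ _ _ lam (κ * e) hκe, neg_iff Ψ w _ lam h1.ne0, ← vmax_eq]
    exact hN.neg w hw b p z lam hat hch
  have hnum : (n + 1) * m₀ * (e + 1) < (κ * e - 1 + 1) * e₀ := by
    have h1 := hN.e0
    have h2 : (n + 1) * m₀ * (e + 1) ≤ 2 * (n + 1) * m₀ * e := by
      calc (n + 1) * m₀ * (e + 1) ≤ (n + 1) * m₀ * (e + e) := Nat.mul_le_mul_left _ (by omega)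
        _ = 2 * (n + 1) * m₀ * e := by ring
    calc (n + 1) * m₀ * (e + 1) ≤ 2 * (n + 1) * m₀ * e := h2
      _ < 2 * (n + 1) * m₀ * e + e := by omega
      _ = κ * e := by rw [hκ]; ring
      _ = (κ * e - 1 + 1) * 1 := by omega
      _ ≤ (κ * e - 1 + 1) * e₀ := Nat.mul_le_mul_left _ h1
  obtain ⟨Ω', i1, i2, ι, Yp, h1, h2, h3, h4⟩ := hC K n N Mw m₀ e₀ (e + 1) (κ * e - 1) Ψ W tt x hSN
    L Λ a hNC hnum
  obtain ⟨V, hV, hgen⟩ := hK K n N s d₀ κ e r Mw x G f W tt hG hsit.gen hWS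
    (fun v hv => by
      obtain ⟨b, p, z, lam, b', -, -, h5, h6⟩ := hloc v hv
      exact ⟨b, _, lam, b', h5, h6⟩) Ω' ι Yp h1 (by
      have := h2 0 hWS.tt0
      omega) h3 h4
  obtain ⟨B, j1, j2, j3, W', hB, hd, hl, hg⟩ := hV.cut rfl hgen
  refine ⟨B, j1, j2, j3, W', hB, ?_, fun d P hP => ⟨hg d P hP, hl.rel d P hP⟩, ?_⟩
  · rw [hd, trdeg_adjoin x hsit.gen, hsit.trdeg]
  · obtain ⟨c, hc⟩ := hl.miss
    rw [Ideal.eq_top_iff_one, ← hc]
    exact Ideal.sum_mem _ fun j _ => Ideal.mul_mem_left _ _ (Ideal.subset_span ⟨j, rfl⟩)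

open asmAux in
/-- THE THEOREM T1 from the statements of the blocks. -/
theorem t1Thm (hA : HAStmt) (hB : HBStmt) (hF : HFStmt) (hW : HWStmt) (hL : HLStmt) (hS : HSStmt)
    (hH : HHStmt) (hG : HGStmt) (hC : CNStmt) : T1Thm := by
  classical
  intro K _ _ n N s d₀ x G Ψ hx htr hΨ hd₀ hGh hsm hnef0
  have hnef : IsNef d₀ (cons1 x) G := hnef0
  have hsit : Sit Ψ x := ⟨hx, htr, hΨ⟩
  -- the equations do not vanish
  have hG0 : ∃ j, aeval (cons1 x) (G j) ≠ 0 := by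
    by_contra hcon
    push Not at hcon
    obtain ⟨e, r, f, he, hf⟩ := hnef 1 le_rfl
    have htriv : Triv (1 : Valuation K ℤᵐ⁰) := by
      intro c hc
      exact Valuation.one_apply_of_ne_zero (by simpa using hc)
    obtain ⟨b, p, hat, hpt⟩ := exists_atPoint x htriv
    have h1 := hf b p hpt
    have h2 : Submodule.span (pointRing (cons1 x) b p)
        (Set.range fun j => aeval (cons1 x) (G j)) = ⊥ := by
      rw [Submodule.span_eq_bot]
      rintro _ ⟨j, rfl⟩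
      exact hcon j
    have h3 : Submodule.span (pointRing (cons1 x) b p)
        ({cons1 x b ^ ((d₀ * 1 + 1) * e)} : Set K) = ⊥ := by
      rw [← h1, h2]
      have h4 : (1 * e) ≠ 0 := by omega
      obtain ⟨k, hk⟩ := Nat.exists_eq_succ_of_ne_zero h4
      rw [hk, pow_succ, ← mul_assoc, Submodule.mul_bot]
    rw [Submodule.span_singleton_eq_bot] at h3
    exact pow_ne_zero _ hpt.1 h3
  have hlsp : ∀ (v : Valuation K ℤᵐ⁰), Triv v → ∀ (b : Fin (N + 1)) (p : Fin (N + 1) → ℂ)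
      (z : Fin n → pointRing (cons1 x) b p) (lam : Fin n → ℕ), AtPoint (cons1 x) b p v →
      IsPairChart (cons1 x) G b p z lam → LSP (cons1 x) G b v (fun i => (z i : K)) lam :=
    fun v hv b p z lam hat hch => hA K n N s d₀ (cons1 x) G hGh hG0 b p v hv hat z lam hch
  have hloc : ∀ v : Valuation K ℤᵐ⁰, Triv v → ∃ (b : Fin (N + 1)) (z : Fin n → K)
      (lam : Fin n → ℕ), LSP (cons1 x) G b v z lam := by
    intro v hv
    obtain ⟨b, p, hat, hpt⟩ := exists_atPoint x hv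
    obtain ⟨z, lam, hch⟩ := hsm b p hpt
    exact ⟨b, _, lam, hlsp v hv b p z lam hat hch⟩
  have hsec : ∀ (m e : ℕ) (F : K), IsPairSection d₀ (cons1 x) G Ψ m e F ↔
      F ∈ SecH (CenterOn d₀ (cons1 x) G) Ψ x m e := fun m e F => hS K n N s d₀ Ψ x G m e F
  have h12 : A1UniruledCompl n (cons1 x) G → PairNotPseff d₀ (cons1 x) G Ψ := by
    intro h
    obtain ⟨δ, h1, h2⟩ := hH K n N s d₀ Ψ x G hd₀ hGh hx htr hΨ h
    exact ⟨δ, h1, fun m e hme F hF => h2 m e hme F ((hsec m e F).1 hF)⟩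
  have htfae : List.TFAE [A1UniruledCompl n (cons1 x) G, PairNotPseff d₀ (cons1 x) G Ψ,
      ∃ (m₀ e₀ : ℕ) (L Λ : Type) (_ : Field L) (_ : Field Λ) (_ : Algebra ℂ L) (_ : Algebra L Λ)
        (_ : Algebra K Λ) (_ : Algebra ℂ Λ) (_ : IsScalarTower ℂ L Λ) (_ : IsScalarTower ℂ K Λ)
        (a : Λ), PairNegFamily (cons1 x) G Ψ m₀ e₀ L Λ a] := by
    tfae_have 1 → 2 := h12
    tfae_have 2 → 3 := by
      rintro ⟨δ, h1, h2⟩
      obtain ⟨m₀, L, Λ, i1, i2, i3, i4, i5, i6, i7, i8, a, hm, ha, ht, hfg, hgen, hneg⟩ :=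
        hF K n N s d₀ δ Ψ x G hGh hsit hloc h1 fun m e hme F hF => h2 m e hme F
          ((hsec m e F).2 hF)
      refine ⟨m₀, 1, L, Λ, i1, i2, i3, i4, i5, i6, i7, i8, a, hm, le_rfl, ha, ht, hfg, hgen, ?_⟩
      intro w hw b p z lam hat hch
      have hv : Triv (w.comap (algebraMap K Λ)) := DAux.triv_comap hw
      have h3 := hlsp _ hv b p z lam hat hch
      have h4 := hneg w hw b _ lam h3
      rw [neg_iff Ψ w _ lam h3.ne0, ← vmax_eq] at h4
      rw [pow_one]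
      exact h4
    tfae_have 3 → 1 := by
      rintro ⟨m₀, e₀, L, Λ, i1, i2, i3, i4, i5, i6, i7, i8, a, ha⟩
      refine a1_of_neg hW hL hC K n N s d₀ m₀ e₀ Ψ x G hGh hsit ?_ hsm L Λ a ha
      intro κ hκ
      obtain ⟨e, r, f, he, hf⟩ := hnef κ hκ
      exact ⟨e, r, f, he, fun v hv b p z lam hpt hat hch => ⟨hlsp v hv b p z lam hat hch,
        hB K n N s d₀ κ e r (cons1 x) G hGh b p v hv hat z lam hch f (hf b p hpt)⟩⟩
    tfae_finish
  refine ⟨htfae, fun hfg => ⟨fun h => ?_, fun h => ?_⟩⟩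
  · obtain ⟨δ, h1, h2⟩ := h12 h
    exact fun m hm F hF => h2 m 0 (by omega) F hF
  · have h21 : PairNotPseff d₀ (cons1 x) G Ψ → A1UniruledCompl n (cons1 x) G :=
      (htfae.out 1 0).1
    apply h21
    have hset : {p : MvPolynomial (Fin 2) K | ∃ (m e : ℕ) (F : K),
        IsPairSection d₀ (cons1 x) G Ψ m e F ∧ p = C F * X 0 ^ m * X 1 ^ e} =
        {p : MvPolynomial (Fin 2) K | ∃ (m e : ℕ) (F : K),
          F ∈ SecH (CenterOn d₀ (cons1 x) G) Ψ x m e ∧ p = C F * X 0 ^ m * X 1 ^ e} := by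
      ext p
      simp only [Set.mem_ofPred_eq, hsec]
    have hfg' : (Algebra.adjoin ℂ {p : MvPolynomial (Fin 2) K | ∃ (m e : ℕ) (F : K),
        IsPairSection d₀ (cons1 x) G Ψ m e F ∧ p = C F * X 0 ^ m * X 1 ^ e}).FG := hfg
    rw [hset] at hfg'
    obtain ⟨δ, h1, h2⟩ := hG K n N (CenterOn d₀ (cons1 x) G) Ψ x hfg'
      fun m hm F hF => h m hm F ((hsec m 0 F).2 hF)
    exact ⟨δ, h1, fun m e hme F hF => h2 m e hme F ((hsec m e F).1 hF)⟩

end Pool.Agent.Lib.MP_410da7_agB
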