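import Pool.Agent.Lib.MP_410da7_agA.L.Defs

/-!
# MP_410da7_ag, nef boundary (C46, version 3): definitions for the blocks F, G, E, V

As in version 2 (`MP_410da7_agA/L/Defs.lean`), but the boundary `D` is not a hyperplane section: the
projective variety is embedded by `B = e (m₀ H + A) + A`, `H` nef with support `D`, and `tt` is the
set of the indices of the coordinates which vanish on `D` (with multiplicity `e m₀`): they cut out `D`.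
`0 ∈ tt`. `P` is the pole divisor of all the coordinates, `R ≤ P` that of the coordinates in `tt`.
-/

set_option autoImplicit false

namespace Pool.Agent.Lib.MP_410da7_agB

open Pool.Agent.Lib.MP_410da7_agA
open MvPolynomial Module

/-- Relations `x_t χ^N x_b^E = ∏ a_i^{λ_i} q_t` (`t ∈ tt`) modulo the `F j`, homogeneous. -/
structure LogPolyN {k : Type} [Field k] {M κ : ℕ} (F : Fin κ → MvPolynomial (Fin (M + 1)) k)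
    (b₀ : Fin (M + 1)) (tt : Finset (Fin (M + 1))) where
  s : ℕ
  a : Fin s → MvPolynomial (Fin (M + 1)) k
  χ : MvPolynomial (Fin (M + 1)) k
  q : Fin (M + 1) → MvPolynomial (Fin (M + 1)) k
  e : Fin s → ℕ
  lam : Fin s → ℕ
  e₁ : ℕ
  e₂ : ℕ
  N : ℕ
  E : ℕ
  ha : ∀ i, (a i).IsHomogeneous (e i)
  hχ : χ.IsHomogeneous e₁
  hq : ∀ t ∈ tt, (q t).IsHomogeneous e₂
  deg : 1 + N * e₁ + E = ∑ i, lam i * e i + e₂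
  rel : ∀ t ∈ tt, X t * χ ^ N * X b₀ ^ E - (∏ i, a i ^ lam i) * q t ∈ Ideal.span (Set.range F)

/-- `PtDataL` for the nef boundary. -/
structure PtDataN {k Λ : Type} [Field k] [Field Λ] [Algebra k Λ] (C : Curve k Λ) {M κ r d : ℕ}
    (S : System k M κ r d) (tt : Finset (Fin (M + 1))) (Y : Fin (M + 1) → Λ) (P R ℓ μ : C.pt → ℤ)
    (b₀ : Fin (M + 1)) : Prop where
  Y0 : Y 0 = 1
  tt0 : 0 ∈ tt
  YF : ∀ j, aeval Y (S.F j) = 0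
  gY : aeval Y S.g ≠ 0
  mY : minor S.F S.I₀ Y S.J₀ ≠ 0
  R0 : ∀ w, 0 ≤ R w
  RP : ∀ w, R w ≤ P w
  Pfin : {w | P w ≠ 0}.Finite
  YP : ∀ l, Y l ∈ C.L P
  YR : ∀ t ∈ tt, Y t ∈ C.L R
  Yb : ∀ w, 0 < P w → Y b₀ ≠ 0 ∧ C.ord w (Y b₀) = - P w
  ℓfin : {w | ℓ w ≠ 0}.Finite
  hℓ : ∀ w, ∃ J : Fin r → Fin κ, minor S.F S.I₀ Y J ≠ 0 ∧
    C.ord w (minor S.F S.I₀ Y J) + r * ((d : ℤ) - 1) * P w ≤ ℓ w
  μ0 : ∀ w, 0 ≤ μ w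
  μP : ∀ w, P w = 0 → μ w = 0
  log : ∀ w, 0 < P w → ∃ (T : LogPolyN S.F b₀ tt) (μ' : Fin T.s → ℕ), ∑ i, (μ' i : ℤ) ≤ μ w ∧
    aeval Y T.χ ≠ 0 ∧ C.ord w (aeval Y T.χ) = - (T.e₁ * P w) ∧
    (∀ i, ∀ j < (μ' i : ℤ) - T.e i * P w, C.cf w j (aeval Y (T.a i)) = 0) ∧
    P w ≤ R w + ∑ i, (T.lam i : ℤ) * μ' i

/-! ## The certificate -/

/-- `tauL` with `LogPolyN`. -/
noncomputable def tauN {k Λ : Type} [Field k] [Field Λ] [Algebra k Λ] {M κ r d : ℕ}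
    (S : System k M κ r d) {tt : Finset (Fin (M + 1))} (n m₀ e₀ : ℕ) (y : Fin (M + 1) → Λ)
    (b₀ : Fin (M + 1)) (α : Λ) (T : LogPolyN S.F b₀ tt) (J : Fin r → Fin κ) (x : Λ) : Λ :=
  α * minor S.F S.I₀ y J ^ m₀ * y b₀ ^ (((n : ℤ) + 1 - r * ((d : ℤ) - 1)) * m₀) *
    (∏ i, aeval y (T.a i) / y b₀ ^ T.e i) ^ m₀ / x ^ e₀

/-- As `InfDataL`. `t` is the index of a coordinate in `tt` of maximal size. -/
structure InfDataN {k Λ : Type} [Field k] [Field Λ] [Algebra k Λ] {M κ r d : ℕ}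
    (S : System k M κ r d) (tt : Finset (Fin (M + 1))) (n m₀ e₀ E₁ E₂ : ℕ) (y : Fin (M + 1) → Λ)
    (b₀ : Fin (M + 1)) (α g : Λ) (ε : Λ) (T : LogPolyN S.F b₀ tt) (J : Fin r → Fin κ) (x : Λ)
    (t : Fin (M + 1)) : Prop where
  tmem : t ∈ tt
  t0 : y t ≠ 0
  x0 : x ≠ 0
  χ0 : aeval y T.χ ≠ 0
  a0 : ∀ i, aeval y (T.a i) ≠ 0
  J0 : minor S.F S.I₀ y J ≠ 0
  ε_reg : RegInf k (y b₀) ε
  χ_reg : RegInf k (y b₀) (ε / (aeval y T.χ / y b₀ ^ T.e₁))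
  τ_reg : RegInf k (y b₀) (ε / tauN S n m₀ e₀ y b₀ α T J x)
  ζ_reg : RegInf k (y b₀) (ε * ((∏ i, (aeval y (T.a i) / y b₀ ^ T.e i) ^ T.lam i) * y b₀ / y t))
  x_reg : RegInf k (y b₀) (ε * (y b₀ * g / x ^ E₁))
  r_reg : ∀ t' ∈ tt, RegInf k (y b₀) (ε * (y t' / x ^ E₂))

/-- As `CertL`. -/
structure CertN {k Λ : Type} [Field k] [Field Λ] [Algebra k Λ] {M κ r d : ℕ}
    (S : System k M κ r d) (tt : Finset (Fin (M + 1))) (n m₀ e₀ E₁ E₂ : ℕ) (y : Fin (M + 1) → Λ)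
    (b₀ : Fin (M + 1)) (α g : Λ) : Prop where
  dimM : M = n + r
  y0 : y 0 = 1
  tt0 : 0 ∈ tt
  yF : ∀ j, aeval y (S.F j) = 0
  g0 : aeval y S.g ≠ 0
  J0 : minor S.F S.I₀ y S.J₀ ≠ 0
  trans : Transcendental k (y b₀)
  fin : FiniteDimensional (IntermediateField.adjoin k {y b₀}) Λ
  y_fin : ∀ l, RegFin k (y b₀) (y l)
  y_inf : ∀ l, RegInf k (y b₀) (y l / y b₀)
  m0 : 1 ≤ m₀
  e0 : 1 ≤ e₀
  α0 : α ≠ 0
  gne : g ≠ 0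
  g_fin : RegFin k (y b₀) g
  c_fin : ∃ c : (Fin r → Fin κ) → Λ, (∀ J, RegFin k (y b₀) (c J)) ∧
    ∑ J, c J * (α * minor S.F S.I₀ y J ^ m₀) = 1
  c_inf : ∃ (s : ℕ) (ε : Fin s → Λ), ∑ j, ε j = 1 ∧
    ∀ j, ∃ (T : LogPolyN S.F b₀ tt) (J : Fin r → Fin κ) (x : Λ) (t : Fin (M + 1)),
      InfDataN S tt n m₀ e₀ E₁ E₂ y b₀ α g (ε j) T J x t

/-- As `VCertL`. -/
structure VCertN {k Λ : Type} [Field k] [Field Λ] [Algebra k Λ] {M κ r d : ℕ}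
    (S : System k M κ r d) (tt : Finset (Fin (M + 1))) (n m₀ e₀ E₁ E₂ : ℕ) (y : Fin (M + 1) → Λ)
    (b₀ : Fin (M + 1)) (α g : Λ) : Prop where
  dimM : M = n + r
  y0 : y 0 = 1
  tt0 : 0 ∈ tt
  yF : ∀ j, aeval y (S.F j) = 0
  g0 : aeval y S.g ≠ 0
  J0 : minor S.F S.I₀ y S.J₀ ≠ 0
  trans : Transcendental k (y b₀)
  fin : FiniteDimensional (IntermediateField.adjoin k {y b₀}) Λ
  m0 : 1 ≤ m₀
  e0 : 1 ≤ e₀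
  α0 : α ≠ 0
  gne : g ≠ 0
  y_fin : ∀ V : ValuationSubring Λ, (∀ c : k, algebraMap k Λ c ∈ V) → y b₀ ∈ V → ∀ l, y l ∈ V
  y_inf : ∀ V : ValuationSubring Λ, (∀ c : k, algebraMap k Λ c ∈ V) → y b₀ ∉ V →
    ∀ l, y l / y b₀ ∈ V
  g_fin : ∀ V : ValuationSubring Λ, (∀ c : k, algebraMap k Λ c ∈ V) → y b₀ ∈ V → g ∈ V
  c_fin : ∀ V : ValuationSubring Λ, (∀ c : k, algebraMap k Λ c ∈ V) → y b₀ ∈ V →
    ∃ J : Fin r → Fin κ, minor S.F S.I₀ y J ≠ 0 ∧ (α * minor S.F S.I₀ y J ^ m₀)⁻¹ ∈ V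
  c_inf : ∀ V : ValuationSubring Λ, (∀ c : k, algebraMap k Λ c ∈ V) → y b₀ ∉ V →
    ∃ (T : LogPolyN S.F b₀ tt) (J : Fin r → Fin κ) (x : Λ) (t : Fin (M + 1)), t ∈ tt ∧ y t ≠ 0 ∧
      x ≠ 0 ∧ aeval y T.χ ≠ 0 ∧
      (∀ i, aeval y (T.a i) ≠ 0) ∧ minor S.F S.I₀ y J ≠ 0 ∧
      (aeval y T.χ / y b₀ ^ T.e₁)⁻¹ ∈ V ∧
      (tauN S n m₀ e₀ y b₀ α T J x)⁻¹ ∈ V ∧
      (∏ i, (aeval y (T.a i) / y b₀ ^ T.e i) ^ T.lam i) * y b₀ / y t ∈ V ∧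
      y b₀ * g / x ^ E₁ ∈ V ∧ ∀ t' ∈ tt, y t' / x ^ E₂ ∈ V

end Pool.Agent.Lib.MP_410da7_agB
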