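import Pool.Agent.Lib.MP_410da7_agB.SpecE
import Pool.Agent.Lib.MP_410da7_agV.EV6
import Pool.Agent.Lib.MP_410da7_agA.E7b

/-!
# MP_410da7_ag, nef boundary (C46, T1), E7N: the local inequalities at a point (helper66)

After `MP_410da7_agA/L/EL7b.lean`.
-/

set_option autoImplicit false

namespace Pool.Agent.Lib.MP_410da7_agB

open Pool.Agent.Lib.MP_410da7_agA
open MvPolynomial Module

open e7bAux

theorem e7N : E7NStmt := by
  intro k Λ _ _ _ C q M κ r d n m₀ e₀ E₁ E₂ S tt y b₀ α g hc w P R hP hR hR'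
  obtain ⟨V, hkV, hV⟩ := Pool.Agent.Lib.MP_410da7_agV.eV6 k Λ C w
  have hz : y b₀ ≠ 0 := by
    intro h
    have := hc.cert.trans
    rw [h] at this
    exact this isAlgebraic_zero
  have hα := hc.cert.α0
  have hg := hc.cert.gne
  have hR0 : 0 ≤ R := by
    have h1 := hR 0 hc.cert.tt0
    rw [hc.cert.y0, ord_one] at h1
    omega
  have ord_zero : C.ord w 0 = 0 := by
    simp only [Curve.ord]
    rw [map_zero, HahnSeries.order_zero]
  rcases lt_or_ge (C.ord w (y b₀)) 0 with hlt | hge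
  · -- a pole
    have hP' : P = -(C.ord w (y b₀)) := by rw [hP]; exact max_eq_right (by omega)
    have hPpos : 0 < P := by omega
    have hzV : y b₀ ∉ V := by
      rw [hV]
      omega
    have hy : ∀ l, y l ≠ 0 → -P ≤ C.ord w (y l) := by
      intro l hl
      have h2 := hc.cert.y_inf V hkV hzV l
      rw [hV, ord_div C w hl hz] at h2
      omega
    have hRP : R ≤ P := by
      obtain ⟨t, _, ht⟩ := hR'
      by_cases h0 : y t = 0
      · rw [h0, ord_zero] at ht
        omega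
      · have := hy t h0
        omega
    refine ⟨fun l i hi => cf_lt C w fun hl => lt_of_lt_of_le hi (hy l hl), hR0, hRP, ?_⟩
    obtain ⟨s, T₀, hTa₀, hTχ₀, hχ₀, ha₀, hloc⟩ := hc.c_inf
    obtain ⟨i₀, J, l, t, hI⟩ := hloc V hkV hzV
    obtain ⟨T, hT⟩ : ∃ T, T = T₀ i₀ := ⟨_, rfl⟩
    have hTa := hTa₀ i₀
    have hTχ := hTχ₀ i₀
    have hχ0 := hχ₀ i₀
    have ha0 := ha₀ i₀
    rw [← hT] at hI hTa hTχ hχ0 ha0
    have hJ0 := hI.J0
    have hx0 := hI.l0
    have ht0 := hI.t0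
    have g1 := (hV _).1 hI.χV
    have g2 := (hV _).1 hI.τV
    have g3 := (hV _).1 hI.ζV
    have g4 := (hV _).1 hI.xV
    have hza : ∀ i, aeval y (T.a i) / y b₀ ^ T.e i ≠ 0 := fun i =>
      div_ne_zero (ha0 i) (pow_ne_zero _ hz)
    have oza : ∀ i, C.ord w (aeval y (T.a i) / y b₀ ^ T.e i) =
        C.ord w (aeval y (T.a i)) + T.e i * P := fun i => by
      rw [ord_div C w (ha0 i) (pow_ne_zero _ hz), ord_pow, hP']
      ring
    have hzp : ∏ i, aeval y (T.a i) / y b₀ ^ T.e i ≠ 0 :=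
      Finset.prod_ne_zero_iff.2 fun i _ => hza i
    have ozp : C.ord w (∏ i, aeval y (T.a i) / y b₀ ^ T.e i) =
        ∑ i, (C.ord w (aeval y (T.a i)) + T.e i * P) := by
      rw [ord_prod C w _ _ fun i _ => hza i]
      exact Finset.sum_congr rfl fun i _ => oza i
    have hzl : ∏ i, (aeval y (T.a i) / y b₀ ^ T.e i) ^ T.lam i ≠ 0 :=
      Finset.prod_ne_zero_iff.2 fun i _ => pow_ne_zero _ (hza i)
    have ozl : C.ord w (∏ i, (aeval y (T.a i) / y b₀ ^ T.e i) ^ T.lam i) =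
        ∑ i, (T.lam i : ℤ) * (C.ord w (aeval y (T.a i)) + T.e i * P) := by
      rw [ord_prod C w _ _ fun i _ => pow_ne_zero _ (hza i)]
      exact Finset.sum_congr rfl fun i _ => by rw [ord_pow, oza]
    rw [ord_inv C w (div_ne_zero hχ0 (pow_ne_zero _ hz)), ord_div C w hχ0 (pow_ne_zero _ hz),
      ord_pow] at g1
    rw [ord_div C w (mul_ne_zero hzl hz) ht0, ord_mul C w hzl hz, ozl] at g3
    rw [ord_div C w (mul_ne_zero hz hg) (pow_ne_zero _ hx0), ord_mul C w hz hg, ord_pow] at g4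
    have n1 : α * minor S.F S.I₀ y J ^ m₀ ≠ 0 := mul_ne_zero hα (pow_ne_zero _ hJ0)
    have n2 : α * minor S.F S.I₀ y J ^ m₀ *
        y b₀ ^ (((n : ℤ) + 1 - r * ((d : ℤ) - 1)) * m₀) ≠ 0 := mul_ne_zero n1 (zpow_ne_zero _ hz)
    have n3 : α * minor S.F S.I₀ y J ^ m₀ *
        y b₀ ^ (((n : ℤ) + 1 - r * ((d : ℤ) - 1)) * m₀) *
        (∏ i, aeval y (T.a i) / y b₀ ^ T.e i) ^ m₀ ≠ 0 := mul_ne_zero n2 (pow_ne_zero _ hzp)
    have n4 : tauN S n m₀ e₀ y b₀ α T J (y l) ≠ 0 := div_ne_zero n3 (pow_ne_zero _ hx0)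
    have otau : C.ord w (tauN S n m₀ e₀ y b₀ α T J (y l)) =
        C.ord w α + m₀ * C.ord w (minor S.F S.I₀ y J) +
        (((n : ℤ) + 1 - r * ((d : ℤ) - 1)) * m₀) * C.ord w (y b₀) +
        m₀ * ∑ i, (C.ord w (aeval y (T.a i)) + T.e i * P) - e₀ * C.ord w (y l) := by
      unfold tauN
      rw [ord_div C w n3 (pow_ne_zero _ hx0), ord_mul C w n2 (pow_ne_zero _ hzp),
        ord_mul C w n1 (zpow_ne_zero _ hz), ord_mul C w hα (pow_ne_zero _ hJ0), ord_pow,
        ord_zpow C w hz, ord_pow, ord_pow, ozp]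
    rw [ord_inv C w n4, otau] at g2
    have hχge := hom_ge C w P y hy T.χ T.hχ hχ0
    have hage : ∀ i, 0 ≤ C.ord w (aeval y (T.a i)) + T.e i * P := fun i => by
      have := hom_ge C w P y hy (T.a i) (T.ha i) (ha0 i)
      linarith
    have hnat : ∀ i, (((C.ord w (aeval y (T.a i)) + T.e i * P).toNat : ℕ) : ℤ) =
        C.ord w (aeval y (T.a i)) + T.e i * P := fun i => Int.toNat_of_nonneg (hage i)
    have g5 : R ≤ E₂ * -(C.ord w (y l)) := by
      obtain ⟨t', ht', hRt⟩ := hR'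
      by_cases h0 : y t' = 0
      · have h6 := (hV _).1 (hI.rV 0 hc.cert.tt0)
        rw [ord_div C w (by rw [hc.cert.y0]; exact one_ne_zero) (pow_ne_zero _ hx0), ord_pow,
          hc.cert.y0, ord_one] at h6
        rw [h0, ord_zero] at hRt
        linarith
      · have h6 := (hV _).1 (hI.rV t' ht')
        rw [ord_div C w h0 (pow_ne_zero _ hx0), ord_pow] at h6
        linarith
    have e1 : C.ord w (y b₀) = -P := by omega
    refine ⟨J, ∑ i, (C.ord w (aeval y (T.a i)) + T.e i * P), -(C.ord w (y l)), hJ0,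
      Finset.sum_nonneg fun i _ => hage i, ?_, ?_, g5, ?_, ?_⟩
    · intro h; omega
    · rw [e1] at g4
      linarith
    · rw [e1] at g2
      linarith
    · intro _
      have g6 := hR t hI.tmem
      rw [e1] at g1 g3
      refine ⟨T, fun i => (C.ord w (aeval y (T.a i)) + T.e i * P).toNat, hTa, hTχ, ?_, hχ0, ?_,
        ?_, ?_⟩
      · exact le_of_eq (Finset.sum_congr rfl fun i _ => hnat i)
      · linarith
      · intro i i' hi
        refine cf_lt C w fun _ => ?_
        rw [hnat i] at hi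
        linarith
      · have e2 : ∑ i, (T.lam i : ℤ) * (((C.ord w (aeval y (T.a i)) + T.e i * P).toNat : ℕ) : ℤ) =
            ∑ i, (T.lam i : ℤ) * (C.ord w (aeval y (T.a i)) + T.e i * P) :=
          Finset.sum_congr rfl fun i _ => by rw [hnat i]
        rw [e2]
        linarith
  · -- a finite place
    have hP' : P = 0 := by rw [hP]; exact max_eq_left (by omega)
    have hzV : y b₀ ∈ V := (hV _).2 hge
    have hyV : ∀ l, 0 ≤ C.ord w (y l) := fun l => (hV _).1 (hc.cert.y_fin V hkV hzV l)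
    have hRle : R ≤ 0 := by
      obtain ⟨t, _, ht⟩ := hR'
      have := hyV t
      omega
    refine ⟨fun l i hi => ?_, hR0, by omega, ?_⟩
    · refine HahnSeries.coeff_eq_zero_of_lt_order (lt_of_lt_of_le hi ?_)
      rw [hP', neg_zero]
      exact hyV l
    · obtain ⟨J, hm, hJV⟩ := hc.cert.c_fin V hkV hzV
      have ham : α * minor S.F S.I₀ y J ^ m₀ ≠ 0 := mul_ne_zero hα (pow_ne_zero _ hm)
      have h2 := (hV _).1 hJV
      rw [ord_inv C w ham, ord_mul C w hα (pow_ne_zero _ hm), ord_pow] at h2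
      have h3 := (hV _).1 (hc.cert.g_fin V hkV hzV)
      refine ⟨J, 0, 0, hm, le_rfl, fun _ => ⟨rfl, rfl⟩, by rw [hP']; simpa using h3, by simpa using hRle,
        ?_, fun h => by omega⟩
      rw [hP']
      simp only [mul_zero, add_zero, sub_zero]
      linarith

end Pool.Agent.Lib.MP_410da7_agB
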