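import Pool.Agent.Lib.MP_410da7_agB.AllH

/-!
# MP_410da7_ag, nef boundary (C46, T1): the theorem, final form
-/

set_option autoImplicit false

namespace Pool.Agent.Lib.MP_410da7_agB

open MvPolynomial KaehlerDifferential

/-- There is a covering family of curves on `Xbar` on which `K + D` is negative. -/
def HasNegFamily {K : Type} [Field K] [Algebra ℂ K] {M s n : ℕ} (Y : Fin (M + 1) → K)
    (G : Fin (s + 1) → MvPolynomial (Fin (M + 1)) ℂ) (Ψ : Ω[K⁄ℂ] [⋀^Fin n]→ₗ[K] K) : Prop :=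
  ∃ (m₀ e₀ : ℕ) (L Λ : Type) (_ : Field L) (_ : Field Λ) (_ : Algebra ℂ L) (_ : Algebra L Λ)
    (_ : Algebra K Λ) (_ : Algebra ℂ Λ) (_ : IsScalarTower ℂ L Λ) (_ : IsScalarTower ℂ K Λ)
    (a : Λ), PairNegFamily Y G Ψ m₀ e₀ L Λ a

theorem t1Final {K : Type} [Field K] [Algebra ℂ K] {n M s d₀ : ℕ} (Y : Fin (M + 1) → K)
    (G : Fin (s + 1) → MvPolynomial (Fin (M + 1)) ℂ) (Ψ : Ω[K⁄ℂ] [⋀^Fin n]→ₗ[K] K) (hY : Y 0 = 1)
    (hgen : IntermediateField.adjoin ℂ (Set.range Y) = ⊤) (hn : Algebra.trdeg ℂ K = n)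
    (hΨ : Ψ ≠ 0) (hd : 1 ≤ d₀) (hG : ∀ j, (G j).IsHomogeneous d₀) (hs : LogSmoothPair n Y G)
    (hnef : IsNef d₀ Y G) :
    List.TFAE [A1UniruledCompl n Y G, PairNotPseff d₀ Y G Ψ, HasNegFamily Y G Ψ] ∧
    ((pairAdjointRing d₀ Y G Ψ).FG → (A1UniruledCompl n Y G ↔ PairKodairaNegInf d₀ Y G Ψ)) := by
  obtain ⟨x, rfl⟩ : ∃ x : Fin M → K, Y = Fin.cons 1 x := by
    refine ⟨fun l => Y l.succ, ?_⟩
    funext l
    refine Fin.cases ?_ (fun l => ?_) l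
    · rw [Fin.cons_zero, hY]
    · rw [Fin.cons_succ]
  refine t1All K n M s d₀ x G Ψ ?_ hn hΨ hd hG hs hnef
  rw [eq_top_iff, ← hgen, IntermediateField.adjoin_le_iff]
  rintro _ ⟨l, rfl⟩
  refine Fin.cases ?_ (fun l => ?_) l
  · rw [Fin.cons_zero]
    exact one_mem _
  · rw [Fin.cons_succ]
    exact IntermediateField.subset_adjoin _ _ ⟨l, rfl⟩

end Pool.Agent.Lib.MP_410da7_agB
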