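import Pool.Agent.Lib.MP_410da7_agB.HK1

/-!
# MP_410da7_ag, nef boundary (C46, T1): HK, from the rational curve to a curve which misses `D`
-/

set_option autoImplicit false

namespace Pool.Agent.Lib.MP_410da7_agB

open Pool.Agent.Lib.MP_410da7_agA
open Pool.Agent.Lib.MP_410da7_agV (Line hom_smul)
open MvPolynomial (aeval IsHomogeneous rename)
open WithZero IsDedekindDomain Polynomial

namespace HKAux

variable {K : Type} [Field K] [Algebra ℂ K]

/-- A polynomial of small valuation has large degree. -/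
theorem degree_le_of_val {k : Type} [Field k] (p : HeightOneSpectrum k[X]) (q : k[X]) (hq : q ≠ 0)
    (n : ℕ) (h : p.valuation (RatFunc k) (algebraMap k[X] (RatFunc k) q) ≤ exp (-(n : ℤ))) :
    n ≤ q.natDegree := by
  rw [p.valuation_of_algebraMap, p.intValuation_le_pow_iff_mem] at h
  obtain ⟨π, hπ⟩ := (IsPrincipalIdealRing.principal p.asIdeal).principal
  rw [Ideal.submodule_span_eq] at hπ
  rw [hπ, Ideal.span_singleton_pow, Ideal.mem_span_singleton] at h
  have hπ0 : π ≠ 0 := by
    rintro rfl
    apply p.ne_bot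
    rw [hπ, Ideal.span_singleton_eq_bot.2 rfl]
  have h1 := Polynomial.natDegree_le_of_dvd h hq
  rw [Polynomial.natDegree_pow] at h1
  have h2 : 1 ≤ π.natDegree := by
    by_contra hlt
    have h3 : π.natDegree = 0 := by omega
    rw [Polynomial.natDegree_eq_zero] at h3
    obtain ⟨c, hc⟩ := h3
    have hc0 : c ≠ 0 := by
      rintro rfl
      rw [Polynomial.C_0] at hc
      exact hπ0 hc.symm
    apply p.isPrime.ne_top
    rw [hπ, Ideal.span_singleton_eq_top, ← hc, Polynomial.isUnit_C]
    exact isUnit_iff_ne_zero.2 hc0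
  calc n = n * 1 := (mul_one n).symm
    _ ≤ n * π.natDegree := Nat.mul_le_mul_left n h2
    _ ≤ q.natDegree := h1

theorem le_exp_of_lt_one {a : ℤᵐ⁰} (h : a < 1) : a ≤ exp (-1 : ℤ) := by
  rcases eq_or_ne a 0 with rfl | ha
  · exact zero_le
  · rw [← log_le_iff_le_exp ha]
    have h1 : a < exp (0 : ℤ) := by rwa [exp_zero]
    rw [← log_lt_iff_lt_exp ha] at h1
    omega

end HKAux

open HKAux in
theorem hK : HKStmt := by
  classical
  intro K _ _ n N s d₀ κ e r Mw x G f W tt hG hx hW hloc Ω' _ _ ι Yp hrel hdeg hc0 hnp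
  obtain ⟨i, hi⟩ := exists_idx hW
  have hWi : ∀ m, W (i m) = cons1 x m := fun m => (hi m).2
  have hY0 : cons1 x 0 = 1 := rfl
  -- the coordinates of the curve
  let U : Fin (N + 1) → Ω'[X] := fun m => Yp (i m)
  have hU0c : (U 0).coeff 0 = 1 := by
    change (Yp (i 0)).coeff 0 = 1
    rw [hc0, hWi, hY0, map_one]
  have hU0 : U 0 ≠ 0 := by
    intro h
    rw [h, Polynomial.coeff_zero] at hU0c
    exact zero_ne_one hU0c
  have hUrel : ∀ (d : ℕ) (P : MvPolynomial (Fin (N + 1)) ℂ), P.IsHomogeneous d →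
      aeval (cons1 x) P = 0 → aeval U P = 0 := by
    intro d P hP h0
    have h1 := hrel d (rename i P) hP.rename_isHomogeneous (by
      rw [MvPolynomial.aeval_rename]
      have : W ∘ i = cons1 x := funext hWi
      rw [this, h0])
    rw [MvPolynomial.aeval_rename] at h1
    exact h1
  obtain ⟨g, V, c, hgV, hcV⟩ := exists_gcd U hU0
  have hg0 : g ≠ 0 := by
    rintro rfl
    exact hU0 (by rw [hgV 0, zero_mul])
  have hUV : ∀ (d : ℕ) (P : MvPolynomial (Fin (N + 1)) ℂ), P.IsHomogeneous d →
      aeval U P = g ^ d * aeval V P := by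
    intro d P hP
    rw [← hom_smul V g hP]
    congr 2
    funext m
    exact hgV m
  have hVrel : ∀ (d : ℕ) (P : MvPolynomial (Fin (N + 1)) ℂ), P.IsHomogeneous d →
      aeval (cons1 x) P = 0 → aeval V P = 0 := by
    intro d P hP h0
    have h1 := hUrel d P hP h0
    rw [hUV d P hP] at h1
    exact (mul_eq_zero.1 h1).resolve_left (pow_ne_zero _ hg0)
  have hVc : ∀ m, g.coeff 0 * (V m).coeff 0 = ι (cons1 x m) := by
    intro m
    have h1 : (U m).coeff 0 = ι (cons1 x m) := by
      change (Yp (i m)).coeff 0 = _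
      rw [hc0, hWi]
    rw [hgV m, Polynomial.mul_coeff_zero] at h1
    exact h1
  have hgc : g.coeff 0 * (V 0).coeff 0 = 1 := by
    rw [hVc, hY0, map_one]
  have hV0 : (V 0).coeff 0 ≠ 0 := by
    intro h
    rw [h, mul_zero] at hgc
    exact zero_ne_one hgc
  have hV0' : V 0 ≠ 0 := by
    intro h
    rw [h, Polynomial.coeff_zero] at hV0
    exact hV0 rfl
  -- generic
  have hgen : ∀ (d : ℕ) (P : MvPolynomial (Fin (N + 1)) ℂ), P.IsHomogeneous d →
      aeval (fun l => (V l).coeff 0) P = 0 → aeval (cons1 x) P = 0 := by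
    intro d P hP h0
    have h1 : aeval (fun l => ι (cons1 x l)) P = 0 := by
      have h2 : (fun l => ι (cons1 x l)) = fun l => g.coeff 0 * (V l).coeff 0 :=
        funext fun l => (hVc l).symm
      rw [h2, hom_smul _ _ hP, h0, mul_zero]
    have h2 := MvPolynomial.comp_aeval_apply (R := ℂ) ι (f := cons1 x) P
    rw [h1] at h2
    exact (map_eq_zero_iff ι ι.toRingHom.injective).1 h2
  have hcoef : ∀ P : MvPolynomial (Fin (N + 1)) ℂ, aeval (fun l => (V l).coeff 0) P =
      (aeval V P).coeff 0 := by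
    intro P
    have h1 := MvPolynomial.comp_aeval_apply (R := ℂ)
      ((Polynomial.aeval (R := Ω') (0 : Ω')).restrictScalars ℂ) (f := V) P
    have h2 : ∀ q : Ω'[X], ((Polynomial.aeval (R := Ω') (0 : Ω')).restrictScalars ℂ) q =
        q.coeff 0 := fun q => by
      show Polynomial.aeval (0 : Ω') q = _
      rw [Polynomial.coe_aeval_eq_eval, Polynomial.coeff_zero_eq_eval_zero]
    rw [h2] at h1
    rw [h1]
    congr 2
    funext l
    exact (h2 _).symm
  have hViff : ∀ (d : ℕ) (P : MvPolynomial (Fin (N + 1)) ℂ), P.IsHomogeneous d →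
      (aeval (cons1 x) P = 0 ↔ aeval V P = 0) := fun d P hP =>
    ⟨hVrel d P hP, fun h => hgen d P hP (by rw [hcoef, h, Polynomial.coeff_zero])⟩
  refine ⟨V, ⟨hVrel, ?_, ?_, ?_⟩, hgen⟩
  · exact isUnit_iff_ne_zero.2 hV0
  · -- not constant
    by_contra hcon
    push Not at hcon
    have h1 : ∀ l, V l * Polynomial.C ((V 0).coeff 0) = Polynomial.C ((V l).coeff 0) * V 0 := by
      intro l
      ext j
      rw [Polynomial.coeff_mul_C, Polynomial.coeff_C_mul]
      have h2 := hcon l j
      rw [isUnit_iff_ne_zero, not_not, sub_eq_zero] at h2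
      rw [h2, mul_comm]
    have h2 : ∀ m, Yp (i m) = Polynomial.C (ι (cons1 x m)) * Yp (i 0) := by
      intro m
      have h3 : Polynomial.C (g.coeff 0) * Polynomial.C ((V 0).coeff 0) = (1 : Ω'[X]) := by
        rw [← Polynomial.C_mul, hgc, Polynomial.C_1]
      have h4 : U m = Polynomial.C (ι (cons1 x m)) * U 0 := by
        calc U m = g * (V m * Polynomial.C ((V 0).coeff 0)) * Polynomial.C (g.coeff 0) := by
              rw [hgV m]
              linear_combination (- g * V m) * h3
          _ = Polynomial.C (ι (cons1 x m)) * U 0 := by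
              rw [h1 m, ← hVc m, hgV 0, Polynomial.C_mul]
              ring
      exact h4
    obtain ⟨l, hl⟩ := hnp
    apply hl
    let ρ : K →ₐ[ℂ] Ω'[X] := (IsScalarTower.toAlgHom ℂ Ω' Ω'[X]).comp ι
    have h5 := prop_of hx hW hWi ρ Yp hrel hU0 h2 l
    exact h5
  · -- the curve misses `D`
    have hne : Ideal.span (Set.range fun j => aeval V (G j)) = ⊤ := by
      by_contra htop
      obtain ⟨𝔪, h𝔪, hle⟩ := Ideal.exists_le_maximal _ htop
      have h𝔪0 : 𝔪 ≠ ⊥ := Ring.ne_bot_of_isMaximal_of_not_isField h𝔪 (Polynomial.not_isField Ω')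
      let p : HeightOneSpectrum Ω'[X] := ⟨𝔪, h𝔪.isPrime, h𝔪0⟩
      let j : Ω'[X] →ₐ[ℂ] RatFunc Ω' := IsScalarTower.toAlgHom ℂ Ω'[X] (RatFunc Ω')
      have hj : Function.Injective j := IsFractionRing.injective Ω'[X] (RatFunc Ω')
      have hjae : ∀ {m : ℕ} (Z : Fin m → Ω'[X]) (P : MvPolynomial (Fin m) ℂ),
          aeval (fun l => j (Z l)) P = j (aeval Z P) := fun Z P =>
        (MvPolynomial.comp_aeval_apply (R := ℂ) j (f := Z) P).symm
      have hjV0 : j (V 0) ≠ 0 := by
        rw [Ne, map_eq_zero_iff j hj]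
        exact hV0'
      obtain ⟨φ, hφ⟩ := exists_phi hx (fun m => j (V m)) hjV0 (fun d P hP => by
        rw [hViff d P hP]
        have h1 := hjae V P
        rw [h1, map_eq_zero_iff j hj])
      set w := p.valuation (RatFunc Ω') with hw
      have hw1 : ∀ q : Ω'[X], w (j q) ≤ 1 := fun q => p.valuation_le_one q
      have hwC : ∀ c : ℂ, c ≠ 0 → w (algebraMap ℂ (RatFunc Ω') c) = 1 := by
        intro c hc
        have h1 : ∀ c : ℂ, w (algebraMap ℂ (RatFunc Ω') c) ≤ 1 := by
          intro c
          have h2 := hw1 (algebraMap ℂ Ω'[X] c)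
          rwa [AlgHom.commutes] at h2
        refine le_antisymm (h1 c) ?_
        have h2 : w (algebraMap ℂ (RatFunc Ω') c) * w (algebraMap ℂ (RatFunc Ω') c⁻¹) = 1 := by
          rw [← map_mul, ← map_mul, mul_inv_cancel₀ hc, map_one, map_one]
        calc (1 : ℤᵐ⁰) = w (algebraMap ℂ (RatFunc Ω') c) * w (algebraMap ℂ (RatFunc Ω') c⁻¹) :=
              h2.symm
          _ ≤ w (algebraMap ℂ (RatFunc Ω') c) * 1 := mul_le_mul' le_rfl (h1 _)
          _ = _ := mul_one _
      set v : Valuation K ℤᵐ⁰ := w.comap (φ : K →+* RatFunc Ω') with hv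
      have hvφ : ∀ a, v a = w (φ a) := fun a => rfl
      have hvT : Triv v := by
        intro c hc
        rw [hvφ, AlgHom.commutes]
        exact hwC c hc
      obtain ⟨b, z, lam, b', hP, hL⟩ := hloc v hvT
      -- the coordinate `b` is a unit
      have hwV0 : w (j (V 0)) ≠ 0 := by rw [Valuation.ne_zero_iff]; exact hjV0
      have hvm : ∀ m, v (cons1 x m) * w (j (V 0)) = w (j (V m)) := by
        intro m
        rw [hvφ, ← map_mul, hφ m]
      have hVb : ∀ m, w (j (V m)) ≤ w (j (V b)) := by
        intro m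
        rw [← hvm m, ← hvm b]
        exact mul_le_mul' (hP.reg.max m) le_rfl
      have hVb1 : w (j (V b)) = 1 := by
        refine le_antisymm (hw1 _) ?_
        have h1 : w (j (∑ m, c m * V m)) ≤ w (j (V b)) := by
          rw [map_sum]
          refine Valuation.map_sum_le w fun m _ => ?_
          rw [map_mul, map_mul]
          calc w (j (c m)) * w (j (V m)) ≤ 1 * w (j (V b)) := mul_le_mul' (hw1 _) (hVb m)
            _ = _ := one_mul _
        rw [hcV, map_one, map_one] at h1
        exact h1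
      have hYb : cons1 x b ≠ 0 := hP.reg.ne
      -- the values of the equations
      have hGv : ∀ l, v (aeval (aff (cons1 x) b) (G l)) = w (j (aeval V (G l))) := by
        intro l
        have h1 : aeval (cons1 x) (G l) = cons1 x b ^ d₀ * aeval (aff (cons1 x) b) (G l) := by
          rw [← hom_smul _ _ (hG l)]
          congr 2
          funext m
          rw [aff, mul_div_cancel₀ _ hYb]
        have h2 : φ (aeval (cons1 x) (G l)) * j (V 0) ^ d₀ = j (aeval V (G l)) := by
          have h3 : (fun m => j (V m)) = fun m => j (V 0) * φ (cons1 x m) := by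
            funext m
            rw [mul_comm, hφ m]
          have h6 := hjae V (G l)
          rw [h3, hom_smul _ _ (hG l)] at h6
          have h7 : aeval (fun m => φ (cons1 x m)) (G l) = φ (aeval (cons1 x) (G l)) :=
            (MvPolynomial.comp_aeval_apply (R := ℂ) φ (f := cons1 x) (G l)).symm
          rw [h7] at h6
          rw [← h6, mul_comm]
        have h4 : v (aeval (cons1 x) (G l)) * w (j (V 0)) ^ d₀ = w (j (aeval V (G l))) := by
          rw [hvφ, ← h2, map_mul, map_pow]
        rw [h1, map_mul, map_pow] at h4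
        have h5 : v (cons1 x b) ^ d₀ * w (j (V 0)) ^ d₀ = 1 := by
          rw [← mul_pow, hvm b, hVb1, one_pow]
        rw [← h4, mul_right_comm, h5, one_mul]
      have hh1 : v (∏ i, z i ^ lam i) < 1 := by
        obtain ⟨l, u, hu, hu1, hGl⟩ := hP.bdu
        have h1 := hGv l
        rw [hGl, map_mul, hu1, one_mul] at h1
        rw [h1]
        have h2 : aeval V (G l) ∈ p.asIdeal := hle (Ideal.subset_span ⟨l, rfl⟩)
        exact (p.valuation_lt_one_iff_mem (K := RatFunc Ω') _).2 h2
      -- the coordinates `W`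
      have hZ : ∀ l, j (Yp l) = φ (W l) * j (Yp 0) := by
        refine prop_of (T := RatFunc Ω') hx hW hWi φ (fun l => j (Yp l)) (fun d P hP h0 => ?_) ?_ ?_
        · rw [hjae Yp P, hrel d P hP h0, map_zero]
        · rw [Ne, map_eq_zero_iff j hj]
          exact hU0
        · intro m
          change j (U m) = φ (cons1 x m) * j (U 0)
          rw [hgV m, hgV 0, map_mul, map_mul, ← hφ m]
          ring
      have hq : v (W 0) ≤ v (W b') * v (∏ i, z i ^ lam i) ^ (κ * e) := by
        obtain ⟨q, hq, hq'⟩ := hL.div 0 hW.tt0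
        have hWb : W b' ≠ 0 := hL.reg.ne
        have h1 : W 0 = W b' * q * (∏ i, z i ^ lam i) ^ (κ * e) := by
          have h2 : ∏ i, z i ^ (κ * e * lam i) = (∏ i, z i ^ lam i) ^ (κ * e) := by
            rw [← Finset.prod_pow]
            refine Finset.prod_congr rfl fun i _ => ?_
            rw [← pow_mul, mul_comm]
          rw [h2] at hq'
          rw [mul_assoc, ← hq', mul_div_cancel₀ _ hWb]
        rw [h1, map_mul, map_mul, map_pow]
        refine mul_le_mul' ?_ le_rfl
        calc v (W b') * v q ≤ v (W b') * 1 :=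
              mul_le_mul' le_rfl (ng_locRing_le hvT hL.reg.ne hL.reg.max hq)
          _ = _ := mul_one _
      have hYp0 : Yp 0 ≠ 0 := by
        intro h
        have h1 := hc0 0
        rw [h, Polynomial.coeff_zero, hW.W0, map_one] at h1
        exact zero_ne_one h1
      have hfin : w (j (Yp 0)) ≤ exp (-((κ * e : ℕ) : ℤ)) := by
        have h1 : w (j (Yp 0)) = v (W 0) * w (j (Yp 0)) := by
          rw [hW.W0, map_one, one_mul]
        rw [h1]
        calc v (W 0) * w (j (Yp 0)) ≤
              v (W b') * v (∏ i, z i ^ lam i) ^ (κ * e) * w (j (Yp 0)) := mul_le_mul' hq le_rfl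
          _ = w (j (Yp b')) * v (∏ i, z i ^ lam i) ^ (κ * e) := by
              rw [hZ b', map_mul, ← hvφ, mul_right_comm]
          _ ≤ 1 * exp (-1 : ℤ) ^ (κ * e) :=
              mul_le_mul' (hw1 _) (pow_le_pow_left' (le_exp_of_lt_one hh1) _)
          _ = exp (-((κ * e : ℕ) : ℤ)) := by
              rw [one_mul, ← exp_nsmul]
              congr 1
              simp
      have := degree_le_of_val p (Yp 0) hYp0 (κ * e) hfin
      omega
    have h1 : (1 : Ω'[X]) ∈ Ideal.span (Set.range fun j => aeval V (G j)) := by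
      rw [hne]; trivial
    exact Ideal.mem_span_range_iff_exists_fun.1 h1

end Pool.Agent.Lib.MP_410da7_agB
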