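import Pool.Agent.Lib.MP_410da7_agB.SpecH
import Pool.Agent.Lib.MP_410da7_agA.D5

/-!
# MP_410da7_ag, nef boundary (C46, T1): HK, part 1 (algebra)
-/

set_option autoImplicit false

namespace Pool.Agent.Lib.MP_410da7_agB

open Pool.Agent.Lib.MP_410da7_agA
open Pool.Agent.Lib.MP_410da7_agV (Line hom_smul exists_hom exists_homog isFractionRing_adjoin)
open MvPolynomial (aeval IsHomogeneous rename)

namespace HKAux

variable {K : Type} [Field K] [Algebra ℂ K] {N r e Mw : ℕ}

/-- Every element of `K` is a quotient of forms of the same degree. -/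
theorem exists_forms (x : Fin N → K) (hx : IntermediateField.adjoin ℂ (Set.range x) = ⊤) (f : K) :
    ∃ (D : ℕ) (A B : MvPolynomial (Fin (N + 1)) ℂ), A.IsHomogeneous D ∧ B.IsHomogeneous D ∧
      aeval (cons1 x) B ≠ 0 ∧ aeval (cons1 x) B * f = aeval (cons1 x) A := by
  have hf : f ∈ IntermediateField.adjoin ℂ (Set.range x) := by rw [hx]; trivial
  obtain ⟨a, ha, b, hb, hab⟩ := IntermediateField.mem_adjoin_iff_div.1 hf
  rw [Algebra.adjoin_range_eq_range_aeval] at ha hb
  obtain ⟨p, rfl⟩ := ha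
  obtain ⟨q, rfl⟩ := hb
  have hren : ∀ P : MvPolynomial (Fin N) ℂ, aeval (cons1 x) (rename Fin.succ P) = aeval x P := by
    intro P
    rw [MvPolynomial.aeval_rename]
    rfl
  have haff : aff (cons1 x) 0 = cons1 x := by
    funext l
    change cons1 x l / cons1 x 0 = cons1 x l
    rw [show cons1 x 0 = 1 from rfl, div_one]
  have h0 : cons1 x 0 ≠ 0 := one_ne_zero
  have key : ∀ (P : MvPolynomial (Fin N) ℂ) (D : ℕ), (rename Fin.succ P).totalDegree ≤ D →
      ∃ A : MvPolynomial (Fin (N + 1)) ℂ, A.IsHomogeneous D ∧ aeval (cons1 x) A = aeval x P := by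
    intro P D hD
    obtain ⟨h1, h2⟩ := d5 ℂ K N 0 D (rename Fin.succ P) hD
    refine ⟨_, h1, ?_⟩
    rw [h2 _ h0, haff, hren, show cons1 x 0 = 1 from rfl, one_pow, one_mul]
  by_cases hq : aeval x q = 0
  · have hf0 : f = 0 := by
      rw [hab]
      change aeval x p / aeval x q = 0
      rw [hq, div_zero]
    refine ⟨0, 0, 1, MvPolynomial.isHomogeneous_zero _ _ _, MvPolynomial.isHomogeneous_one _ _, ?_, ?_⟩
    · rw [map_one]; exact one_ne_zero
    · rw [hf0, map_zero, mul_zero]
  · obtain ⟨A, hA, hA'⟩ := key p (max (rename Fin.succ p).totalDegree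
      (rename Fin.succ q).totalDegree) (le_max_left _ _)
    obtain ⟨B, hB, hB'⟩ := key q (max (rename Fin.succ p).totalDegree
      (rename Fin.succ q).totalDegree) (le_max_right _ _)
    refine ⟨_, A, B, hA, hB, by rw [hB']; exact hq, ?_⟩
    rw [hA', hB', hab]
    change aeval x q * (aeval x p / aeval x q) = _
    rw [mul_div_cancel₀ _ hq]

/-- The indices of the coordinates `Y_m` in the second embedding. -/
theorem exists_idx {x : Fin N → K} {f : Fin r → K} {W : Fin (Mw + 1) → K}
    {tt : Finset (Fin (Mw + 1))} (hW : WSys (cons1 x) f e W tt) :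
    ∃ i : Fin (N + 1) → Fin (Mw + 1), ∀ m, i m ∈ tt ∧ W (i m) = cons1 x m := by
  have h : ∀ m, ∃ l, l ∈ tt ∧ W l = cons1 x m := by
    intro m
    obtain ⟨l, hl, hl'⟩ := hW.mon (Pi.single 0 e + Pi.single m 1) (by
      simp only [Pi.add_apply, Finset.sum_add_distrib, Finset.sum_pi_single', Finset.mem_univ,
        if_true])
    refine ⟨l, hl, ?_⟩
    rw [hl']
    simp only [Pi.add_apply, pow_add, Finset.prod_mul_distrib]
    have h1 : ∏ j, cons1 x j ^ (Pi.single (0 : Fin (N + 1)) e : Fin (N + 1) → ℕ) j = 1 := by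
      rw [Finset.prod_eq_single 0]
      · rw [show cons1 x 0 = 1 from rfl, one_pow]
      · intro j _ hj
        rw [Pi.single_eq_of_ne hj, pow_zero]
      · intro h; exact absurd (Finset.mem_univ _) h
    have h2 : ∏ j, cons1 x j ^ (Pi.single m 1 : Fin (N + 1) → ℕ) j = cons1 x m := by
      rw [Finset.prod_eq_single m]
      · rw [Pi.single_eq_same, pow_one]
      · intro j _ hj
        rw [Pi.single_eq_of_ne hj, pow_zero]
      · intro h; exact absurd (Finset.mem_univ _) h
    rw [h1, h2, one_mul]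
  choose i hi using h
  exact ⟨i, hi⟩

/-- If the coordinates `Y` are given by a point of `K`, then so are all the coordinates `W`. -/
theorem prop_of {x : Fin N → K} (hx : IntermediateField.adjoin ℂ (Set.range x) = ⊤)
    {f : Fin r → K} {W : Fin (Mw + 1) → K}
    {tt : Finset (Fin (Mw + 1))} (hW : WSys (cons1 x) f e W tt)
    {i : Fin (N + 1) → Fin (Mw + 1)} (hi : ∀ m, W (i m) = cons1 x m)
    {T : Type} [CommRing T] [IsDomain T] [Algebra ℂ T] (ρ : K →ₐ[ℂ] T) (Z : Fin (Mw + 1) → T)
    (hrel : ∀ (d : ℕ) (P : MvPolynomial (Fin (Mw + 1)) ℂ), P.IsHomogeneous d → aeval W P = 0 →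
      aeval Z P = 0) (h0 : Z (i 0) ≠ 0)
    (hZ : ∀ m, Z (i m) = ρ (cons1 x m) * Z (i 0)) : ∀ l, Z l = ρ (W l) * Z 0 := by
  classical
  have hform : ∀ (D : ℕ) (A : MvPolynomial (Fin (N + 1)) ℂ), A.IsHomogeneous D →
      aeval Z (rename i A) = Z (i 0) ^ D * ρ (aeval (cons1 x) A) := by
    intro D A hA
    rw [MvPolynomial.aeval_rename]
    have h1 : (Z ∘ i) = fun m => Z (i 0) * ρ (cons1 x m) := by
      funext m
      rw [Function.comp_apply, hZ m, mul_comm]
    rw [h1, hom_smul _ _ hA]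
    congr 1
    exact (MvPolynomial.comp_aeval_apply (R := ℂ) ρ (f := cons1 x) A).symm
  have hWr : ∀ A : MvPolynomial (Fin (N + 1)) ℂ, aeval W (rename i A) = aeval (cons1 x) A := by
    intro A
    rw [MvPolynomial.aeval_rename]
    congr 2
    funext m
    exact hi m
  have key : ∀ l, Z l = ρ (W l) * Z (i 0) := by
    intro l
    by_cases hl : l ∈ tt
    · obtain ⟨β, hβ, hWl⟩ := hW.mon' l hl
      let Mn : MvPolynomial (Fin (N + 1)) ℂ := ∏ m, MvPolynomial.X m ^ β m
      have hMn : Mn.IsHomogeneous (e + 1) := by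
        rw [← hβ]
        refine IsHomogeneous.prod _ _ _ fun m _ => ?_
        have h2 := (MvPolynomial.isHomogeneous_X ℂ m).pow (β m)
        rwa [one_mul] at h2
      have hMnY : aeval (cons1 x) Mn = ∏ m, cons1 x m ^ β m := by
        rw [map_prod]
        refine Finset.prod_congr rfl fun m _ => ?_
        rw [map_pow, MvPolynomial.aeval_X]
      have h1 := hrel (e + 1) (MvPolynomial.X l * MvPolynomial.X (i 0) ^ e - rename i Mn) (by
        refine IsHomogeneous.sub ?_ (hMn.rename_isHomogeneous)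
        have h2 := (MvPolynomial.isHomogeneous_X ℂ l).mul
          ((MvPolynomial.isHomogeneous_X ℂ (i 0)).pow e)
        rwa [one_mul, add_comm 1 e] at h2) (by
        rw [map_sub, map_mul, map_pow, MvPolynomial.aeval_X, MvPolynomial.aeval_X, hi 0,
          show cons1 x 0 = 1 from rfl, one_pow, mul_one, hWr, hMnY, hWl, sub_self])
      rw [map_sub, map_mul, map_pow, MvPolynomial.aeval_X, MvPolynomial.aeval_X,
        hform _ _ hMn, hMnY, ← hWl, sub_eq_zero] at h1
      apply mul_right_cancel₀ (pow_ne_zero e h0)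
      rw [h1, pow_succ]
      ring
    · obtain ⟨c, m, hWl⟩ := hW.sec' l hl
      obtain ⟨D, A, B, hA, hB, hB0, hAB⟩ := exists_forms x hx (f c)
      have h1 := hrel (D + 1) (rename i B * MvPolynomial.X l - rename i A * MvPolynomial.X (i m)) (by
        exact IsHomogeneous.sub (hB.rename_isHomogeneous.mul (MvPolynomial.isHomogeneous_X ℂ l))
          (hA.rename_isHomogeneous.mul (MvPolynomial.isHomogeneous_X ℂ (i m)))) (by
        rw [map_sub, map_mul, map_mul, MvPolynomial.aeval_X, MvPolynomial.aeval_X, hWr, hWr, hi m,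
          hWl, ← hAB]
        ring)
      rw [map_sub, map_mul, map_mul, MvPolynomial.aeval_X, MvPolynomial.aeval_X,
        hform _ _ hB, hform _ _ hA, hZ m, sub_eq_zero] at h1
      have h2 : Z (i 0) ^ D * ρ (aeval (cons1 x) B) ≠ 0 := by
        refine mul_ne_zero (pow_ne_zero _ h0) ?_
        rw [Ne, map_eq_zero_iff ρ ρ.toRingHom.injective]
        exact hB0
      apply mul_left_cancel₀ h2
      rw [h1, hWl, map_mul, ← hAB, map_mul]
      ring
  intro l
  have h1 := key 0
  rw [hW.W0, map_one, one_mul] at h1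
  rw [key l, h1]

/-- Division by the greatest common divisor. -/
theorem exists_gcd {k : Type} [Field k] {n : ℕ} (U : Fin (n + 1) → Polynomial k) (h0 : U 0 ≠ 0) :
    ∃ (g : Polynomial k) (V c : Fin (n + 1) → Polynomial k), (∀ m, U m = g * V m) ∧
      ∑ m, c m * V m = 1 := by
  obtain ⟨g, hg⟩ := (IsPrincipalIdealRing.principal (Ideal.span (Set.range U))).principal
  have h1 : ∀ m, ∃ q, U m = g * q := by
    intro m
    have h2 : U m ∈ Ideal.span (Set.range U) := Ideal.subset_span ⟨m, rfl⟩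
    rw [hg, Ideal.submodule_span_eq, Ideal.mem_span_singleton] at h2
    exact h2
  choose V hV using h1
  have h3 : g ∈ Ideal.span (Set.range U) := by
    rw [hg, Ideal.submodule_span_eq]
    exact Ideal.mem_span_singleton_self g
  obtain ⟨c, hc⟩ := Ideal.mem_span_range_iff_exists_fun.1 h3
  have hg0 : g ≠ 0 := by
    rintro rfl
    exact h0 (by rw [hV 0, zero_mul])
  refine ⟨g, V, c, hV, ?_⟩
  apply mul_left_cancel₀ hg0
  rw [mul_one, Finset.mul_sum]
  calc ∑ m, g * (c m * V m) = ∑ m, c m * U m :=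
        Finset.sum_congr rfl fun m _ => by rw [hV m]; ring
    _ = g := hc

/-- The homomorphism `K → k(t)` given by a point of `Xbar` over `k(t)`. -/
theorem exists_phi {x : Fin N → K} (hx : IntermediateField.adjoin ℂ (Set.range x) = ⊤)
    {F : Type} [Field F] [Algebra ℂ F] (V : Fin (N + 1) → F) (h0 : V 0 ≠ 0)
    (hrel : ∀ (d : ℕ) (P : MvPolynomial (Fin (N + 1)) ℂ), P.IsHomogeneous d →
      (aeval (cons1 x) P = 0 ↔ aeval V P = 0)) :
    ∃ φ : K →ₐ[ℂ] F, ∀ m, φ (cons1 x m) * V 0 = V m := by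
  have hY0 : cons1 x 0 = 1 := rfl
  obtain ⟨ψ, hψ⟩ := exists_hom hY0 (Units.mk0 (V 0) h0) V rfl (fun d P hP h => (hrel d P hP).1 h)
  have hinj : Function.Injective ψ := by
    rw [injective_iff_map_eq_zero]
    rintro ⟨a, ha⟩ h1
    have ha' := ha
    rw [Algebra.adjoin_range_eq_range_aeval] at ha'
    obtain ⟨P, hP⟩ := ha'
    have hP' : aeval (cons1 x) P = a := hP
    subst hP'
    rw [hψ] at h1
    obtain ⟨d, G, hG, h2⟩ := exists_homog P
    have h3 := h2 F (Units.mk0 (V 0) h0) V rfl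
    rw [h1, mul_zero] at h3
    have h4 := (hrel d G hG).2 h3
    have h5 := h2 K 1 (cons1 x) (by rw [hY0]; rfl)
    rw [h4] at h5
    simp only [inv_one, Units.val_one, one_mul, one_pow] at h5
    exact Subtype.ext h5.symm
  have hgen : IntermediateField.adjoin ℂ (Set.range (cons1 x)) = ⊤ := by
    rw [eq_top_iff, ← hx]
    refine IntermediateField.adjoin.mono _ _ _ ?_
    rintro _ ⟨l, rfl⟩
    exact ⟨l.succ, rfl⟩
  have hfr := isFractionRing_adjoin hgen
  have hli : Function.Injective (ψ : Algebra.adjoin ℂ (Set.range (cons1 x)) →ₐ[ℂ] F) := hinj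
  refine ⟨IsFractionRing.liftAlgHom (K := K) hli, fun m => ?_⟩
  have hm : cons1 x m ∈ Algebra.adjoin ℂ (Set.range (cons1 x)) := Algebra.subset_adjoin ⟨m, rfl⟩
  have h1 : (IsFractionRing.liftAlgHom (K := K) hli) (cons1 x m) = ψ ⟨cons1 x m, hm⟩ :=
    IsFractionRing.lift_algebraMap hli (⟨cons1 x m, hm⟩ :
      Algebra.adjoin ℂ (Set.range (cons1 x)))
  rw [h1]
  have h2 := hψ (MvPolynomial.X m) (by rw [MvPolynomial.aeval_X]; exact hm)
  simp only [MvPolynomial.aeval_X] at h2
  rw [h2, Units.val_inv_eq_inv_val, Units.val_mk0, mul_comm (V 0)⁻¹, mul_assoc,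
    inv_mul_cancel₀ h0, mul_one]

end HKAux

end Pool.Agent.Lib.MP_410da7_agB
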