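import Pool.Agent.Lib.MP_410da7_agB.SpecH

/-!
# MP_410da7_ag, nef boundary (C46, T1), HS: sections
-/

set_option autoImplicit false

namespace Pool.Agent.Lib.MP_410da7_agB

open Pool.Agent.Lib.MP_410da7_agA
open MvPolynomial KaehlerDifferential WithZero Module

theorem hs_vmax {K : Type} [Field K] {N : ℕ} (x : Fin N → K) (v : Valuation K ℤᵐ⁰) :
    vmax (Fin.cons 1 x : Fin (N + 1) → K) v = size x v := by
  rw [vmax, size]
  apply le_antisymm
  · refine Finset.sup_le fun i _ => ?_
    refine Fin.cases ?_ (fun j => ?_) i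
    · rw [Fin.cons_zero, map_one]
      exact le_sup_right
    · rw [Fin.cons_succ]
      exact le_sup_of_le_left
        (Finset.le_sup (f := fun l => v (x l)) (Finset.mem_univ j))
  · refine sup_le (Finset.sup_le fun j _ => ?_) ?_
    · have h1 := Finset.le_sup (f := fun i => v ((Fin.cons 1 x : Fin (N + 1) → K) i))
        (Finset.mem_univ j.succ)
      simpa only [Fin.cons_succ] using h1
    · have h1 := Finset.le_sup (f := fun i => v ((Fin.cons 1 x : Fin (N + 1) → K) i))
        (Finset.mem_univ 0)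
      simpa only [Fin.cons_zero, map_one] using h1

theorem hS : HSStmt := by
  intro K _ _ n N s d₀ Ψ x G m e F
  constructor
  · intro h v hv
    obtain ⟨θ, F₁, h1, h2, h3, h4⟩ := h v hv
    refine ⟨θ, ⟨h1, h2⟩, ?_⟩
    rw [h4, map_mul, map_pow, ← hs_vmax]
    exact mul_le_mul_left h3 _
  · intro h v hv
    obtain ⟨θ, ⟨h1, h2⟩, h3⟩ := h v hv
    rw [← hs_vmax] at h3
    rcases eq_or_ne (Ψ θ) 0 with h0 | h0
    · rcases Nat.eq_zero_or_pos m with rfl | hm
      · refine ⟨θ, F, h1, h2, ?_, ?_⟩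
        · rw [pow_zero, mul_one] at h3
          exact h3
        · rw [pow_zero, mul_one]
      · rw [h0, map_zero, zero_pow hm.ne', mul_zero, le_zero_iff, map_eq_zero] at h3
        refine ⟨θ, 0, h1, h2, ?_, ?_⟩
        · rw [map_zero]
          exact zero_le
        · rw [h3, zero_mul]
    · refine ⟨θ, F / Ψ θ ^ m, h1, h2, ?_, ?_⟩
      · rw [map_div₀, map_pow]
        have h4 : 0 < v (Ψ θ) ^ m := pow_pos (zero_lt_iff.2 (by rwa [ne_eq, map_eq_zero])) m
        rw [div_le_iff₀ h4]
        exact h3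
      · rw [div_mul_cancel₀ _ (pow_ne_zero m h0)]

end Pool.Agent.Lib.MP_410da7_agB
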