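import Pool.Agent.Lib.MP_410da7_agB.Defs
import Pool.Agent.Lib.MP_410da7_agA.SpecE
import Pool.Agent.Lib.MP_410da7_agV.SpecE

/-!
# MP_410da7_ag, nef boundary (C46, T1): the certificate and its specialization to characteristic p

As version 2, but the certificate `CertC` consists of a finite list of relations and of statements about
all the valuation subrings `V ⊇ k` of `Λ`; these specialize by `EV2` (`MP_410da7_agV/EV2.lean`: the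
pattern of a valuation ring in characteristic `p` on a finite set lifts to characteristic `0`), so there
is no partition of unity and no `RegFin`, `RegInf`. TEMPLATES: `MP_410da7_agV/EV3.lean`, `EV7.lean`,
`EV8.lean`, `EV9.lean`, `EFGV.lean` (the same steps for bihomogeneous coordinates, if already on main) and
`MP_410da7_agA/L/EL6b.lean`, `EL6c.lean`, `EL7b.lean`, `EL7c.lean`, `EFGL.lean`.
-/

set_option autoImplicit false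

namespace Pool.Agent.Lib.MP_410da7_agB

open Pool.Agent.Lib.MP_410da7_agA
open MvPolynomial Module

section

variable {k Λ : Type} [Field k] [Field Λ] [Algebra k Λ] {M κ r d : ℕ}

/-- The local data at a valuation ring `V` at infinity (`y_{b₀} ∉ V`): `χ(y)/z^{e₁}` is a unit, `tauN` has
no zero, `∏ ζ_i^{λ_i} z/y_t` has no pole, `z g/x^{E₁}` and the `y_{t'}/x^{E₂}` (`t' ∈ tt`) have no pole,
where `z = y_{b₀}`, `x = y_l`, `ζ_i = a_i(y)/z^{e_i}`. -/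
structure LocInf (S : System k M κ r d) (tt : Finset (Fin (M + 1))) (n m₀ e₀ E₁ E₂ : ℕ)
    (y : Fin (M + 1) → Λ) (b₀ : Fin (M + 1)) (α g : Λ) (T : LogPolyN S.F b₀ tt)
    (J : Fin r → Fin κ) (l t : Fin (M + 1)) (V : ValuationSubring Λ) : Prop where
  J0 : minor S.F S.I₀ y J ≠ 0
  l0 : y l ≠ 0
  tmem : t ∈ tt
  t0 : y t ≠ 0
  χV : (aeval y T.χ / y b₀ ^ T.e₁)⁻¹ ∈ V
  τV : (tauN S n m₀ e₀ y b₀ α T J (y l))⁻¹ ∈ V
  ζV : (∏ i, (aeval y (T.a i) / y b₀ ^ T.e i) ^ T.lam i) * y b₀ / y t ∈ V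
  xV : y b₀ * g / y l ^ E₁ ∈ V
  rV : ∀ t' ∈ tt, y t' / y l ^ E₂ ∈ V

/-- THE CERTIFICATE. -/
structure CertC (S : System k M κ r d) (tt : Finset (Fin (M + 1))) (n m₀ e₀ E₁ E₂ : ℕ)
    (y : Fin (M + 1) → Λ) (b₀ : Fin (M + 1)) (α g : Λ) : Prop where
  dimM : M = n + r
  y0 : y 0 = 1
  tt0 : 0 ∈ tt
  yF : ∀ j, aeval y (S.F j) = 0
  g0 : aeval y S.g ≠ 0
  J0 : minor S.F S.I₀ y S.J₀ ≠ 0
  trans : Transcendental k (y b₀)
  fin : FiniteDimensional (IntermediateField.adjoin k {y b₀}) Λ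
  m0 : 1 ≤ m₀
  e0 : 1 ≤ e₀
  α0 : α ≠ 0
  gne : g ≠ 0
  y_fin : ∀ V : ValuationSubring Λ, (∀ c : k, algebraMap k Λ c ∈ V) → y b₀ ∈ V → ∀ l, y l ∈ V
  y_inf : ∀ V : ValuationSubring Λ, (∀ c : k, algebraMap k Λ c ∈ V) → y b₀ ∉ V →
    ∀ l, y l / y b₀ ∈ V
  g_fin : ∀ V : ValuationSubring Λ, (∀ c : k, algebraMap k Λ c ∈ V) → y b₀ ∈ V → g ∈ V
  c_fin : ∀ V : ValuationSubring Λ, (∀ c : k, algebraMap k Λ c ∈ V) → y b₀ ∈ V →
    ∃ J : Fin r → Fin κ, minor S.F S.I₀ y J ≠ 0 ∧ (α * minor S.F S.I₀ y J ^ m₀)⁻¹ ∈ V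
  c_inf : ∃ (s : ℕ) (T : Fin s → LogPolyN S.F b₀ tt), (∀ i, aeval y (T i).χ ≠ 0) ∧
    (∀ i j, aeval y ((T i).a j) ≠ 0) ∧
    ∀ V : ValuationSubring Λ, (∀ c : k, algebraMap k Λ c ∈ V) → y b₀ ∉ V →
      ∃ (i : Fin s) (J : Fin r → Fin κ) (l t : Fin (M + 1)),
        LocInf S tt n m₀ e₀ E₁ E₂ y b₀ α g (T i) J l t V

/-- A certificate whose polynomials are fixed by `x ↦ x^q`. -/
structure CertCQ (q : ℕ) (S : System k M κ r d) (tt : Finset (Fin (M + 1))) (n m₀ e₀ E₁ E₂ : ℕ)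
    (y : Fin (M + 1) → Λ) (b₀ : Fin (M + 1)) (α g : Λ) : Prop where
  cert : CertC S tt n m₀ e₀ E₁ E₂ y b₀ α g
  F_fix : ∀ j, FixedBy q (S.F j)
  g_fix : FixedBy q S.g
  c_inf : ∃ (s : ℕ) (T : Fin s → LogPolyN S.F b₀ tt), (∀ i j, FixedBy q ((T i).a j)) ∧
    (∀ i, FixedBy q (T i).χ) ∧ (∀ i, aeval y (T i).χ ≠ 0) ∧
    (∀ i j, aeval y ((T i).a j) ≠ 0) ∧
    ∀ V : ValuationSubring Λ, (∀ c : k, algebraMap k Λ c ∈ V) → y b₀ ∉ V →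
      ∃ (i : Fin s) (J : Fin r → Fin κ) (l t : Fin (M + 1)),
        LocInf S tt n m₀ e₀ E₁ E₂ y b₀ α g (T i) J l t V

end

/-- E3N. Transport of the certificate.
PROOF. As E6b, E6c (`MP_410da7_agA/L/EL6b.lean`, `EL6c.lean`), simpler; template
`MP_410da7_agV/EV3.lean`. `S'`: `s.red` of the polynomials, the same `I₀`, `J₀`; `T' i`: `s.red` of the
polynomials of `T i`, the same numbers (`rel`: write the element as `∑ w_j F_j` and put the coefficients of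
the `w_j` into `CL`; for every `t ∈ tt`). `G` (for EV2) = all the nonzero elements among `y_l`,
`y_l / y_{b₀}`, `g`, `(α minor_J^{m₀})⁻¹` and the elements of the conditions of `LocInf` for all `i`, `J`
(with `minor J ≠ 0`), `l`, `t` (with `y_l, y_t ≠ 0`), `t'`; `E` contains `G`, the `y_l`, `α`, `g`, `χ(y)`,
`a_j(y)`, the minors, `g(y)`. `s.v` commutes with products, powers, inverses of the nonzero elements of
`E`, so `s.v` of an element of `G` is the corresponding element over `k`. Given `V'`, EV2 gives `V` with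
the same pattern; apply the certificate at `V` and translate back. `FixedBy`: `Ok.frob`. -/
def E3NStmt : Prop :=
  ∀ (L Λ : Type) [Field L] [Field Λ] [Algebra L Λ] (M κ r d n m₀ e₀ E₁ E₂ : ℕ)
    (S : System L M κ r d) (tt : Finset (Fin (M + 1))) (y : Fin (M + 1) → Λ) (b₀ : Fin (M + 1))
    (α g : Λ), CertC S tt n m₀ e₀ E₁ E₂ y b₀ α g →
    ∃ (CL : Finset L) (E : Finset Λ), (∀ l, y l ∈ E) ∧
      (∀ j, ∀ m ∈ (S.F j).support, coeff m (S.F j) ∈ CL) ∧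
      ∀ (k Λ' : Type) [Field k] [Field Λ'] [Algebra k Λ'] (s : Spz L Λ k Λ') (q : ℕ),
      s.Ok q CL E → Transcendental k (s.v (y b₀)) →
      FiniteDimensional (IntermediateField.adjoin k {s.v (y b₀)}) Λ' →
      ∃ S' : System k M κ r d, (∀ j, S'.F j = s.red (S.F j)) ∧
        CertCQ q S' tt n m₀ e₀ E₁ E₂ (fun l => s.v (y l)) b₀ (s.v α) (s.v g)

/-- E7N. The local inequalities. `P = max(0, - ord z)`, `z = y_{b₀}`, `R` = the maximum of the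
`- ord y_t`, `t ∈ tt`, at `w`.
PROOF. `MP_410da7_agV/EV6.lean`: the valuation ring `V` of `w`. CASE `P = 0`: `z ∈ V`, all `y_l ∈ V`, so
`R = 0` (`0 ∈ tt`, `y_0 = 1`); `g ∈ V`; `c_fin` gives `J`; `μ = h = 0`. CASE `P > 0`: `z ∉ V`, `ord z = - P`,
`y_l / z ∈ V`. For a homogeneous polynomial `G` of degree `e` the element `G(y)/z^e` is a polynomial in the
`y_l/z`, hence in `V`. `LocInf`: `i, J, l, t`. `μ'_j = ord (a_j(y)/z^{e_j}) ≥ 0`, `μ = ∑ μ'_j`; `χV` and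
`χ(y)/z^{e₁} ∈ V`: `ord χ(y) = - e₁ P`; `ζV`: `∑ λ_j μ'_j - P - ord y_t ≥ 0`, and `- ord y_t ≤ R`;
`h = - ord y_l`: `xV`: `- P + ord g + E₁ h ≥ 0`, `rV`: `ord y_{t'} + E₂ h ≥ 0` (for `t' = 0`: `E₂ h ≥ 0`);
`τV`: `ord tauN ≤ 0`:
`ord α + m₀ ord minor_J - (n+1-r(d-1)) m₀ P + m₀ ∑ μ'_j + e₀ h ≤ 0`. -/
def E7NStmt : Prop :=
  ∀ (k Λ : Type) [Field k] [Field Λ] [Algebra k Λ] (C : Curve k Λ)
    (q M κ r d n m₀ e₀ E₁ E₂ : ℕ) (S : System k M κ r d) (tt : Finset (Fin (M + 1)))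
    (y : Fin (M + 1) → Λ) (b₀ : Fin (M + 1)) (α g : Λ),
    CertCQ q S tt n m₀ e₀ E₁ E₂ y b₀ α g → ∀ (w : C.pt) (P R : ℤ),
    P = max 0 (-(C.ord w (y b₀))) → (∀ t ∈ tt, -(C.ord w (y t)) ≤ R) →
    (∃ t ∈ tt, -(C.ord w (y t)) = R) →
    (∀ l, ∀ i : ℤ, i < -P → (C.exp w (y l)).coeff i = 0) ∧ 0 ≤ R ∧ R ≤ P ∧
    ∃ (J : Fin r → Fin κ) (μ h : ℤ), minor S.F S.I₀ y J ≠ 0 ∧ 0 ≤ μ ∧
      (P = 0 → μ = 0 ∧ h = 0) ∧ P ≤ E₁ * h + C.ord w g ∧ R ≤ E₂ * h ∧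
      m₀ * (C.ord w (minor S.F S.I₀ y J) + r * ((d : ℤ) - 1) * P + μ) ≤
        (n + 1) * m₀ * P - C.ord w α - e₀ * h ∧
      (0 < P → ∃ (T : LogPolyN S.F b₀ tt) (μ' : Fin T.s → ℕ), (∀ i, FixedBy q (T.a i)) ∧
        FixedBy q T.χ ∧ ∑ i, (μ' i : ℤ) ≤ μ ∧ aeval y T.χ ≠ 0 ∧
        C.ord w (aeval y T.χ) = - (T.e₁ * P) ∧
        (∀ i, ∀ j < (μ' i : ℤ) - T.e i * P, C.cf w j (aeval y (T.a i)) = 0) ∧
        P ≤ R + ∑ i, (T.lam i : ℤ) * μ' i)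

/-- E8N. The numerical data.
PROOF. As EL7c (`MP_410da7_agA/L/EL7c.lean`). `R w` = the maximum over `tt` of `- ord y_t`. Choose
`J_w, μ_w, h_w` by E7N, `ℓ_w = ord minor_{J_w} + r (d-1) P_w` (`ℓ` has finite support; `h`, `μ` are supported
where `P_w > 0`). Summing over all `w` (`C.sum α`, `C.sum g`):
`m₀ (∑ ℓ + ∑ μ) ≤ (n+1) m₀ ∑ P - e₀ ∑ h`, `∑ P ≤ E₁ ∑ h`, `∑ R ≤ E₂ ∑ h`. `a' = (n+1) ∑ P - ∑ ℓ - ∑ μ`:
`m₀ a' ≥ e₀ ∑ h`, and `∑ P ≥ 1` gives `∑ h ≥ 1`, `a' ≥ 1`. Finally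
`m₀ (n+1) ((B₂+1) ∑P + (B₁+1) ∑R) ≤ (n+1) m₀ ((B₂+1) E₁ + (B₁+1) E₂) ∑ h < (B₁+1)(B₂+1) e₀ ∑ h
≤ (B₁+1)(B₂+1) m₀ a'`. -/
def E8NStmt : Prop :=
  ∀ (k Λ : Type) [Field k] [Field Λ] [Algebra k Λ] (C : Curve k Λ)
    (q M κ r d n m₀ e₀ E₁ E₂ B₁ B₂ : ℕ) (S : System k M κ r d) (tt : Finset (Fin (M + 1)))
    (y : Fin (M + 1) → Λ) (b₀ : Fin (M + 1)) (α g : Λ),
    CertCQ q S tt n m₀ e₀ E₁ E₂ y b₀ α g →
    (n + 1) * m₀ * ((B₂ + 1) * E₁ + (B₁ + 1) * E₂) < (B₁ + 1) * (B₂ + 1) * e₀ →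
    (∃ w, C.ord w (y b₀) < 0) → ∀ P : C.pt → ℤ, (∀ w, P w = max 0 (-(C.ord w (y b₀)))) →
    ∃ (R ℓ μ : C.pt → ℤ) (a' : ℤ), PtDataN C S tt y P R ℓ μ b₀ ∧
      (∀ w, 0 < P w → ∃ (T : LogPolyN S.F b₀ tt) (μ' : Fin T.s → ℕ),
        (∀ i, FixedBy q (T.a i)) ∧ FixedBy q T.χ ∧ ∑ i, (μ' i : ℤ) ≤ μ w ∧ aeval y T.χ ≠ 0 ∧
        C.ord w (aeval y T.χ) = - (T.e₁ * P w) ∧
        (∀ i, ∀ j < (μ' i : ℤ) - T.e i * P w, C.cf w j (aeval y (T.a i)) = 0) ∧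
        P w ≤ R w + ∑ i, (T.lam i : ℤ) * μ' i) ∧
      1 ≤ a' ∧ ∑ᶠ w, ℓ w + ∑ᶠ w, μ w + a' ≤ (n + 1) * ∑ᶠ w, P w ∧
      (n + 1) * ((B₂ + 1) * ∑ᶠ w, P w + (B₁ + 1) * ∑ᶠ w, R w) < (B₁ + 1) * (B₂ + 1) * a'

/-- E9N. Nonexistence of curves is inherited by specializations (degree at most `Bd l` for the
coordinate `l`; the trivial curves `φ(t) y` are allowed).
PROOF. As E8 (`MP_410da7_agA/E8.lean`), `MP_410da7_agV/EV9.lean`. `B` = the maximum of the `Bd l`,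
`V = Fin N × Fin B`, `I ⊆ Λ[a]` generated by the coefficients of all `t^i` in
`F_j(y_l + ∑_m a_{l,m} t^{m+1})` and by the `a_{l,m}` with `m ≥ Bd l`. By hypothesis the polynomials
`a_{l,m} - y_l a_{l₀,m}` vanish at all zeros of `I` over an algebraic closure, so powers of them are in `I`
(Nullstellensatz). `E` = the coefficients of these identities and of the `F_j`, the `y_l`. -/
def E9NStmt : Prop :=
  ∀ (Λ : Type) [Field Λ] (N κ : ℕ) (Bd : Fin N → ℕ) (F : Fin κ → MvPolynomial (Fin N) Λ)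
    (y : Fin N → Λ) (l₀ : Fin N), y l₀ = 1 →
    (¬ ∃ (Ω : Type) (_ : Field Ω) (_ : Algebra Λ Ω) (Y : Fin N → Polynomial Ω),
      (∀ j, aeval Y (F j) = 0) ∧ (∀ l, (Y l).natDegree ≤ Bd l) ∧
      (∀ l, (Y l).coeff 0 = algebraMap Λ Ω (y l)) ∧
      ∃ l, Y l ≠ Polynomial.C ((Y l).coeff 0) * Y l₀) →
    ∃ E : Finset Λ, ∀ (R : Subring Λ), (∀ e ∈ E, e ∈ R) → ∀ (k' : Type) [Field k']
      (ε : R →+* k') (F' : Fin κ → MvPolynomial (Fin N) k'),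
      (∀ j m, ∃ h : coeff m (F j) ∈ R, ε ⟨coeff m (F j), h⟩ = coeff m (F' j)) →
      ∀ Y : Fin N → Polynomial k', (∀ j, aeval Y (F' j) = 0) →
      (∀ l, (Y l).natDegree ≤ Bd l) → (∀ l, ∃ h : y l ∈ R, ε ⟨y l, h⟩ = (Y l).coeff 0) →
      ∀ l, Y l = Polynomial.C ((Y l).coeff 0) * Y l₀

/-- EFGN. THE END THEOREM OF THE BLOCKS E, F, G.
PROOF. As E9 (`MP_410da7_agA/L/EFGL.lean`) and `MP_410da7_agV/EFGV.lean`. Suppose that there is no such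
curve. E9N for `F = map (algebraMap L Λ) (S.F j)`, `Bd l = B₂` for `l ∈ tt` and `B₁` otherwise, `l₀ = 0`:
`E₁'`. E3N: `CL`, `E`. E4 for `z = y_{b₀}`, `CL`, `E ∪ E₁'`: `p, e, k, Λ', s`; `S'`, `CertCQ`. FF1, FF5: the
curve `C` of `Λ'/k`, full; FF7: `y'_{b₀}` has a pole, infinitely many points. E8N with
`P w = max 0 (- ord y'_{b₀})`; FF10: `γ`. `U` = the `w` with `P w = 0` at which all `s.v e`, `e ∈ E ∪ E₁'`,
are regular, infinite. FG16N: `m`, `w ∈ U`, `k'`, `Yp`. The ring homomorphism `ε(u) =` the image of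
`(C.cf w 0 (s.v u))^(q^m)` on `R = {u ∈ s.O : 0 ≤ ord_w (s.v u)}`; contradiction with E9N. -/
def EFGNStmt : Prop :=
  ∀ (L Λ : Type) [Field L] [CharZero L] [Field Λ] [Algebra L Λ]
    (M κ r d n m₀ e₀ E₁ E₂ B₁ B₂ : ℕ) (S : System L M κ r d) (tt : Finset (Fin (M + 1)))
    (y : Fin (M + 1) → Λ) (b₀ : Fin (M + 1)) (α g : Λ), CertC S tt n m₀ e₀ E₁ E₂ y b₀ α g →
    B₂ ≤ B₁ →
    (n + 1) * m₀ * ((B₂ + 1) * E₁ + (B₁ + 1) * E₂) < (B₁ + 1) * (B₂ + 1) * e₀ →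
    ∃ (Λ' : Type) (_ : Field Λ') (_ : Algebra L Λ') (_ : Algebra Λ Λ') (_ : IsScalarTower L Λ Λ')
      (Yp : Fin (M + 1) → Polynomial Λ'),
      (∀ j, aeval Yp (S.F j) = 0) ∧ (∀ l, (Yp l).natDegree ≤ B₁) ∧
      (∀ t ∈ tt, (Yp t).natDegree ≤ B₂) ∧
      (∀ l, (Yp l).coeff 0 = algebraMap Λ Λ' (y l)) ∧
      ∃ l, Yp l ≠ Polynomial.C ((Yp l).coeff 0) * Yp 0

end Pool.Agent.Lib.MP_410da7_agB
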