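import Pool.Agent.Lib.MP_410da7_agA.L.SpecDL
import Pool.Agent.Lib.MP_410da7_agB.SpecE

/-!
# MP_410da7_ag, nef boundary (C46, T1): block D, from the negative family to the rational curve

`K` is the function field of `Xbar`, `W` are homogeneous coordinates of an embedding of `Xbar`, and the
coordinates `W_t`, `t ∈ tt`, generate the ideal of a divisor with support `D` (locally `∏ z_i^{λ_i}`).
The size of the curves is measured by the coordinates `x` (some of the `W`).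
TEMPLATES: `MP_410da7_agA/L/DL5.lean`, `DL13.lean`, `DL15.lean`, `DL16.lean`, `DL17.lean`, `DL18.lean`.
-/

set_option autoImplicit false

namespace Pool.Agent.Lib.MP_410da7_agB

open Pool.Agent.Lib.MP_410da7_agA
open MvPolynomial KaehlerDifferential WithZero Module

section

variable {K : Type} [Field K] [Algebra ℂ K] {M : ℕ}

/-- At the center of `v` the projective variety with homogeneous coordinates `W` is smooth of dimension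
`n`, with local coordinates `z_1, ..., z_n`. -/
structure RegAt {n : ℕ} (W : Fin (M + 1) → K) (b : Fin (M + 1)) (v : Valuation K ℤᵐ⁰)
    (z : Fin n → K) : Prop where
  ne : W b ≠ 0
  max : ∀ l, v (W l) ≤ v (W b)
  mem : ∀ i, z i ∈ locRing W b v
  coord : Submodule.span (locRing W b v) {ω : Ω[locRing W b v⁄ℂ] |
    ∃ i, ∃ h : z i ∈ locRing W b v, ω = D ℂ (locRing W b v) ⟨z i, h⟩} = ⊤

/-- In addition the coordinates `W_t`, `t ∈ tt`, generate the ideal `(∏ z_i^{λ_i})` at the center. -/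
structure LSW {n : ℕ} (W : Fin (M + 1) → K) (tt : Finset (Fin (M + 1))) (b : Fin (M + 1))
    (v : Valuation K ℤᵐ⁰) (z : Fin n → K) (lam : Fin n → ℕ) : Prop where
  reg : RegAt W b v z
  div : ∀ t ∈ tt, ∃ q ∈ locRing W b v, W t / W b = q * ∏ i, z i ^ lam i
  gen : ∃ t ∈ tt, v (W t / W b) = v (∏ i, z i ^ lam i)

/-- The situation. -/
structure SitN {n N : ℕ} (Ψ : Ω[K⁄ℂ] [⋀^Fin n]→ₗ[K] K) (W : Fin (M + 1) → K)
    (tt : Finset (Fin (M + 1))) (x : Fin N → K) (E₂ : ℕ) : Prop where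
  W0 : W 0 = 1
  tt0 : 0 ∈ tt
  xW : ∀ l, ∃ l', W l' = x l
  gen : IntermediateField.adjoin ℂ (Set.range x) = ⊤
  trdeg : Algebra.trdeg ℂ K = n
  Ψ0 : Ψ ≠ 0
  tt_le : ∀ v : Valuation K ℤᵐ⁰, Triv v → ∀ t ∈ tt, v (W t) ≤ size x v ^ E₂

/-- A covering family of curves on `Xbar` which is negative for `K + D` (the generic curve has function
field `Λ` over `L`): `m₀ (K + D) + e₀ A` has degree `≤ 0` on the curve. -/
structure NegCurveN {n N : ℕ} (Ψ : Ω[K⁄ℂ] [⋀^Fin n]→ₗ[K] K) (W : Fin (M + 1) → K)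
    (tt : Finset (Fin (M + 1))) (x : Fin N → K) (m₀ e₀ : ℕ)
    (L Λ : Type) [Field L] [Field Λ] [Algebra ℂ L] [Algebra L Λ] [Algebra K Λ] [Algebra ℂ Λ]
    [IsScalarTower ℂ L Λ] [IsScalarTower ℂ K Λ] (a : Λ) : Prop where
  m0 : 1 ≤ m₀
  e0 : 1 ≤ e₀
  a0 : a ≠ 0
  trdeg : Algebra.trdeg L Λ = 1
  fg : ∃ T : Set Λ, T.Finite ∧ IntermediateField.adjoin L T = ⊤
  gen : IntermediateField.adjoin L (Set.range (algebraMap K Λ)) = ⊤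
  neg : ∀ w : Valuation Λ ℤᵐ⁰, (∀ c : L, c ≠ 0 → w (algebraMap L Λ c) = 1) →
    ∃ (b : Fin (M + 1)) (z : Fin n → K) (lam : Fin n → ℕ),
      LSW W tt b (w.comap (algebraMap K Λ)) z lam ∧
      size x (w.comap (algebraMap K Λ)) ^ e₀ * kSize Ψ (w.comap (algebraMap K Λ)) z lam ^ m₀ ≤ w a

/-- The data of the projective model over `K`: `y` consists of the coordinates `W` and linear forms in
them, `tt'` of the indices of the coordinates in `tt`; `S` is the system of equations of `D7`. -/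
structure ModelN {Mw κ r d : ℕ} (n : ℕ) (W : Fin (Mw + 1) → K) (tt : Finset (Fin (Mw + 1)))
    (y : Fin (M + 1) → K) (tt' : Finset (Fin (M + 1))) (b : Fin (M + 1)) (S : System ℂ M κ r d) :
    Prop where
  y0 : y 0 = 1
  yb : y b ≠ 0
  lin : ∀ l', ∃ c : Fin (Mw + 1) → ℂ, y l' = ∑ l, c l • W l
  sub : ∀ l, ∃ l', y l' = W l
  tt0 : 0 ∈ tt'
  tt1 : ∀ t' ∈ tt', ∃ t ∈ tt, y t' = W t
  tt2 : ∀ t ∈ tt, ∃ t' ∈ tt', y t' = W t
  dimM : M = n + r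
  eqs : Eqs d y S.F
  inj : Function.Injective S.I₀
  I0 : ∀ l, S.I₀ l ≠ 0
  g0 : aeval y S.g ≠ 0
  J0 : minor S.F S.I₀ y S.J₀ ≠ 0

end

/-- DNg. A common denominator.
PROOF. `W_l = p_l(x)/q_l(x)` (`IntermediateField.mem_adjoin_range_iff`, or that `K` is the fraction field
of `ℂ[x]`), `g = ∏ q_l(x)`, `P_l = p_l ∏_{l' ≠ l} q_{l'}`, `E₁` the maximum of the total degrees. -/
def DNgStmt : Prop :=
  ∀ (K : Type) [Field K] [Algebra ℂ K] (N M : ℕ) (x : Fin N → K) (W : Fin M → K),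
    IntermediateField.adjoin ℂ (Set.range x) = ⊤ →
    ∃ (g : K) (E₁ : ℕ) (Q : MvPolynomial (Fin N) ℂ) (P : Fin M → MvPolynomial (Fin N) ℂ),
      g ≠ 0 ∧ g = aeval x Q ∧ ∀ l, (P l).totalDegree ≤ E₁ ∧ g * W l = aeval x (P l)

/-- DN5. Change of the chart and of the homogeneous coordinates.
PROOF. As DL5 (`L/DL5.lean`): `locRing y b' v = locRing W b v`; `y_{t'}/y_{b'} = (W_t/W_b) (W_b/y_{b'})`,
where `W_b/y_{b'}` is a unit of this ring. -/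
def DN5Stmt : Prop :=
  ∀ (K : Type) [Field K] [Algebra ℂ K] (n Mw M : ℕ) (W : Fin (Mw + 1) → K) (y : Fin (M + 1) → K)
    (tt : Finset (Fin (Mw + 1))) (tt' : Finset (Fin (M + 1))) (b : Fin (Mw + 1))
    (b' : Fin (M + 1)) (v : Valuation K ℤᵐ⁰) (z : Fin n → K) (lam : Fin n → ℕ),
    Triv v → (∀ l', ∃ c : Fin (Mw + 1) → ℂ, y l' = ∑ l, c l • W l) →
    (∀ l, ∃ l', y l' = W l) → (∀ t' ∈ tt', ∃ t ∈ tt, y t' = W t) →
    (∀ t ∈ tt, ∃ t' ∈ tt', y t' = W t) →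
    LSW W tt b v z lam → v (y b') = v (W b) → LSW y tt' b' v z lam

/-- DN13. Regularity: a unit minor, and the frame `ds`.
PROOF. The proof of `dL13` (`L/DL13.lean`), which only uses `ne`, `max`, `mem`, `coord` of `LSAt` (also in
the lemmas of `dL6Aux`: `aff_le`, `loc_le`, `diff_eq`, `psiD_le`; copy them with `RegAt`). -/
def DN13Stmt : Prop :=
  ∀ (K : Type) [Field K] [Algebra ℂ K] (n M r κ d : ℕ) (Ψ : Ω[K⁄ℂ] [⋀^Fin n]→ₗ[K] K)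
    (y : Fin (M + 1) → K) (b : Fin (M + 1)) (F : Fin κ → MvPolynomial (Fin (M + 1)) ℂ),
    M = n + r → Eqs d y F → ∀ (v : Valuation K ℤᵐ⁰) (z : Fin n → K), Triv v → RegAt y b v z →
    ∃ (J : Fin r → Fin κ) (e : Fin (n + 1) ⊕ Fin r ≃ Fin (M + 1)), e (Sum.inl 0) = b ∧
      v (minor F (e ∘ Sum.inr) (aff y b) J) = 1 ∧
      v (Ψ fun a => D ℂ K (aff y b (e (Sum.inl a.succ)))) = v (Ψ fun i => D ℂ K (z i))

/-- DN15. The relations `x_t χ x_b^E = ∏ a_i^{λ_i} q_t`.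
PROOF. As DL15 (`L/DL15.lean`). `z_i Q_i(s) = P_i(s)`, `v(Q_i(s)) = 1`, `s = y/y_b`; `I = {i : λ_i ≥ 1}`
enumerated by `Fin s`, `a_i = hom b e_i P_i`. For `t ∈ tt`: `y_t/y_b = q_t ∏ z_i^{λ_i}`,
`q_t Q'_t(s) = P'_t(s)`, `v(Q'_t(s)) = 1`. `R = (∏_{t ∈ tt} Q'_t) ∏_{i ∈ I} Q_i^{λ_i}`, `χ = hom b e₁ R`:
`s_t R(s) = P'_t(s) (∏_{t' ∈ tt, t' ≠ t} Q'_{t'}(s)) ∏ P_i(s)^{λ_i}`. Let `e'` be at least the total degrees
of the `G_t = P'_t ∏_{t' ≠ t} Q'_{t'}`. The homogeneous polynomial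
`X_t χ X_b^(∑ λ_i e_i + e') - (∏ a_i^{λ_i}) (hom b e' G_t) X_b^(e₁+1)` vanishes at `y`; multiply by `X_b^d`
(`Eqs.gen`). `N = 1`, `E = ∑ λ_i e_i + e' + d`, `q_t = (hom b e' G_t) X_b^(e₁+1+d)`,
`e₂ = e' + e₁ + 1 + d`. `t` is given by `LSW.gen`; `∏ z_i^{λ_i} ≠ 0` (`LSW.div` for `0 ∈ tt`, `y_0 = 1`), so
`z_i ≠ 0` for `i ∈ I`, `y_t ≠ 0`, and `v(∏ (a_i(y)/y_b^{e_i})^{λ_i}) = v(∏ z_i^{λ_i}) = v(y_t/y_b)`. -/
def DN15Stmt : Prop :=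
  ∀ (K : Type) [Field K] [Algebra ℂ K] (n M κ d : ℕ) (y : Fin (M + 1) → K)
    (tt : Finset (Fin (M + 1))) (b : Fin (M + 1))
    (F : Fin κ → MvPolynomial (Fin (M + 1)) ℂ), y 0 = 1 → 0 ∈ tt → Eqs d y F →
    ∀ (v : Valuation K ℤᵐ⁰) (z : Fin n → K) (lam : Fin n → ℕ), Triv v → LSW y tt b v z lam →
    ∃ (T : LogPolyN F b tt) (t : Fin (M + 1)), t ∈ tt ∧ y t ≠ 0 ∧
      v (aeval y T.χ / y b ^ T.e₁) = 1 ∧ (∀ i, aeval y (T.a i) ≠ 0) ∧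
      v (∏ i, aeval y (T.a i) / y b ^ T.e i) = ∏ i, (if lam i = 0 then 1 else v (z i)) ∧
      v ((∏ i, (aeval y (T.a i) / y b ^ T.e i) ^ T.lam i) * y b / y t) = 1

/-- DN16. Finite places. `e'` is an enumeration with `e' inl 0 = 0`, `e' inr = I₀`;
`α = a / Ψ(dy_{e' inl})^m₀`.
PROOF. As DL16 (`L/DL16.lean`). D1: `w` for `V`, `v = w|K`; `v(W_l) ≤ 1 = v(W_0)` for all `l`, so
`size x v = 1` (the `x_l` are among the `W`). `NegCurveN.neg`: `b₁, z, lam`, `v(W_{b₁}) = 1`. DN5 with the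
chart `b' = 0` (`v(y_0) = 1`): `LSW y tt' 0 v z lam`. `div` for `t = 0`: `1 = y_0/y_0 = q ∏ z_i^{λ_i}` with
`v q ≤ 1`, `v(z_i) ≤ 1` (elements of `locRing`), so `v(z_i) = 1` if `λ_i ≥ 1`, and
`kSize Ψ v z lam = v(Ψ(dz))`: `v(Ψ(dz))^m₀ ≤ w a`. DN13 with `b = 0`: `J`, `e`; `aff y 0 = y`. D9 and D10:
`v(Ψ(dy_{S₀})) = v(Ψ(dz)) v(minor F I₀ J)`, so `w(α minor^m₀) = w(a)/v(Ψ(dz))^m₀ ≥ 1`. -/
def DN16Stmt : Prop :=
  ∀ (K : Type) [Field K] [Algebra ℂ K] (n N Mw M κ r d m₀ e₀ E₂ : ℕ)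
    (Ψ : Ω[K⁄ℂ] [⋀^Fin n]→ₗ[K] K) (W : Fin (Mw + 1) → K) (tt : Finset (Fin (Mw + 1)))
    (x : Fin N → K) (y : Fin (M + 1) → K) (tt' : Finset (Fin (M + 1))) (b : Fin (M + 1))
    (S : System ℂ M κ r d), SitN Ψ W tt x E₂ → ModelN n W tt y tt' b S →
    ∀ (L Λ : Type) [Field L] [Field Λ] [CharZero L] [Algebra ℂ L] [Algebra L Λ] [Algebra K Λ]
      [Algebra ℂ Λ] [IsScalarTower ℂ L Λ] [IsScalarTower ℂ K Λ] (a : Λ),
    NegCurveN Ψ W tt x m₀ e₀ L Λ a →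
    ∀ (e' : Fin (n + 1) ⊕ Fin r ≃ Fin (M + 1)), e' (Sum.inl 0) = 0 → e' ∘ Sum.inr = S.I₀ →
    ∀ V : ValuationSubring Λ, (∀ c : L, algebraMap L Λ c ∈ V) → (∀ l, algebraMap K Λ (W l) ∈ V) →
      ∃ J : Fin r → Fin κ, minor S.F S.I₀ y J ≠ 0 ∧
        (a / algebraMap K Λ (Ψ fun i => D ℂ K (y (e' (Sum.inl i.succ)))) ^ m₀ *
          algebraMap K Λ (minor S.F S.I₀ y J) ^ m₀)⁻¹ ∈ V

/-- DN17. Places at infinity.
PROOF. As DL17 (`L/DL17.lean`). `v = w|K`; `NegCurveN.neg`: `b₁, z, lam`. `v(y_b) = v(W_{b₁})` (`y_b` is a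
linear combination of the `W`, `W_{b₁}` has maximal value). DN5: `LSW y tt' b v z lam`. DN13: `J, e`.
DN15: `T, t`. `l`: an index with `v(y_l) = size x v`, `y_l` is one of the `x` or `y_0 = 1`. As in DL17
(D9, D10): `v(Ψ(ds_{S'})) v(minor I₀) = v(y_b)^(r(d-1)-(n+1)) v(Ψ(dy_{S₀}))`, `S' = e inl`, so
`w(tauN) = w(a) (∏_{λ_i ≥ 1} v(z_i))^m₀ / (v(Ψ(ds_{S'}))^m₀ size^e₀) ≥ 1`. `g y_b = P(x)` has value
`≤ size^{E₁}` (`size ≥ 1`, `v(x_l) ≤ size`, `v(c) ≤ 1` for `c ∈ ℂ`). `v(y_{t'}) ≤ size^{E₂}`: `SitN.tt_le`,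
`ModelN.tt1`. -/
def DN17Stmt : Prop :=
  ∀ (K : Type) [Field K] [Algebra ℂ K] (n N Mw M κ r d m₀ e₀ E₁ E₂ : ℕ)
    (Ψ : Ω[K⁄ℂ] [⋀^Fin n]→ₗ[K] K) (W : Fin (Mw + 1) → K) (tt : Finset (Fin (Mw + 1)))
    (x : Fin N → K) (y : Fin (M + 1) → K) (tt' : Finset (Fin (M + 1))) (b : Fin (M + 1))
    (S : System ℂ M κ r d), SitN Ψ W tt x E₂ → ModelN n W tt y tt' b S →
    ∀ g : K, (∃ P : MvPolynomial (Fin N) ℂ, P.totalDegree ≤ E₁ ∧ y b * g = aeval x P) →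
    ∀ (L Λ : Type) [Field L] [Field Λ] [CharZero L] [Algebra ℂ L] [Algebra L Λ] [Algebra K Λ]
      [Algebra ℂ Λ] [IsScalarTower ℂ L Λ] [IsScalarTower ℂ K Λ] (a : Λ),
    NegCurveN Ψ W tt x m₀ e₀ L Λ a →
    ∀ (e' : Fin (n + 1) ⊕ Fin r ≃ Fin (M + 1)), e' (Sum.inl 0) = 0 → e' ∘ Sum.inr = S.I₀ →
    ∀ w : Valuation Λ ℤᵐ⁰, (∀ c : L, c ≠ 0 → w (algebraMap L Λ c) = 1) →
      (∀ l, w (algebraMap K Λ (W l)) ≤ w (algebraMap K Λ (y b))) →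
      ∃ (T : LogPolyN S.F b tt') (J : Fin r → Fin κ) (l t : Fin (M + 1)), y l ≠ 0 ∧
        t ∈ tt' ∧ y t ≠ 0 ∧
        w (algebraMap K Λ (aeval y T.χ / y b ^ T.e₁)) = 1 ∧ (∀ i, aeval y (T.a i) ≠ 0) ∧
        minor S.F S.I₀ y J ≠ 0 ∧
        w (algebraMap K Λ ((∏ i, (aeval y (T.a i) / y b ^ T.e i) ^ T.lam i) * y b / y t)) = 1 ∧
        w (algebraMap K Λ (y b * g / y l ^ E₁)) ≤ 1 ∧
        (∀ t' ∈ tt', w (algebraMap K Λ (y t' / y l ^ E₂)) ≤ 1) ∧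
        1 ≤ w (a / algebraMap K Λ (Ψ fun i => D ℂ K (y (e' (Sum.inl i.succ)))) ^ m₀ *
          algebraMap K Λ (minor S.F S.I₀ y J ^ m₀ *
            y b ^ (((n : ℤ) + 1 - r * ((d : ℤ) - 1)) * m₀) *
            (∏ i, aeval y (T.a i) / y b ^ T.e i) ^ m₀ / y l ^ e₀))

/-- DN18. THE CERTIFICATE.
PROOF. As DL18 (`L/DL18.lean`). D2 for the family `algebraMap K Λ (W l)`: the finitely many `w_j` at
infinity. DL4 for `W` (instead of `x`): `z = ∑ c_l W_l` with `w_j(z) = size W` for all `j` (if there is no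
`w_j` then every `x_l` is algebraic over `L`, impossible: `exists_transcendental`). `y = Fin.snoc W z`,
`M = Mw + 1`, `b = Fin.last M`. `tt' = tt.map Fin.castSuccEmb`. D7 over `ℂ`: `S`, `ModelN`; `g, E₁` by DNg
for `x`, `W`; `y_b g = ∑ c_l P_l(x)`. `α = a/Ψ(dy_{S₀})^m₀`. `V ∌ y_b` implies that some `W_l ∉ V`, so `V` is
the ring of some `w_j`, and then `w_j(y_b) = max w_j(W_l) > 1`; `V ∋ y_b` implies that all `W_l ∈ V`, hence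
`g = Q(x) ∈ V`. `c_fin`: DN16. `c_inf`: for every `j` DN17 gives `T_j` (over `ℂ`; base change to `L` as
`dL18Aux.logMapL`), and `J, l, t`; the list is `(T_j)_j`. `System.map` (`SpecD.lean` of version 1). The last
claim: a homogeneous `P` with `P(y) = 0`: `Eqs.gen` with `b = 0`, map to `L`. -/
def DN18Stmt : Prop :=
  ∀ (K : Type) [Field K] [Algebra ℂ K] (n N Mw m₀ e₀ E₂ : ℕ)
    (Ψ : Ω[K⁄ℂ] [⋀^Fin n]→ₗ[K] K) (W : Fin (Mw + 1) → K) (tt : Finset (Fin (Mw + 1)))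
    (x : Fin N → K), SitN Ψ W tt x E₂ →
    ∀ (L Λ : Type) [Field L] [Field Λ] [CharZero L] [Algebra ℂ L] [Algebra L Λ] [Algebra K Λ]
      [Algebra ℂ Λ] [IsScalarTower ℂ L Λ] [IsScalarTower ℂ K Λ] (a : Λ),
    NegCurveN Ψ W tt x m₀ e₀ L Λ a →
    ∃ (c : Fin (Mw + 1) → ℂ) (κ r d E₁ : ℕ) (S : System L (Mw + 1) κ r d) (α g : Λ),
      CertC S (tt.map Fin.castSuccEmb) n m₀ e₀ E₁ E₂
        (fun l => algebraMap K Λ ((Fin.snoc W (∑ l, c l • W l) : Fin (Mw + 2) → K) l))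
        (Fin.last (Mw + 1)) α g ∧
      ∀ (e : ℕ) (P : MvPolynomial (Fin (Mw + 2)) ℂ), P.IsHomogeneous e →
        aeval (Fin.snoc W (∑ l, c l • W l) : Fin (Mw + 2) → K) P = 0 →
        X 0 ^ d * MvPolynomial.map (algebraMap ℂ L) P ∈ Ideal.span (Set.range S.F)

/-- CN. THE END OF THE BLOCKS D, E, F, G: the rational curve through the generic point.
PROOF. DN18; `B₁ ≥ B₂` so large that
`(n+1) m₀ (B₂+1) E₁ < (B₁+1) ((B₂+1) e₀ - (n+1) m₀ E₂)`; EFGN: `Λ'` and `Yp`. `ι : K → Λ → Λ'`; `Λ'` is an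
algebra over `ℂ` through `Λ` (or `L`: `IsScalarTower`). A homogeneous `P` with `P(W) = 0`: its image under
`rename Fin.castSucc` vanishes at `y = Fin.snoc W z`, so `X_0^d P ∈ (F)` over `L`, `Yp_0^d P(Yp) = 0`, and
`Yp_0 ≠ 0` (its constant term is `1`). Not proportional: the last coordinate is the combination
`∑ c_l Yp_l` of the others (`X_last - ∑ c_l X_l` is homogeneous of degree `1`); so if
`Yp_l = C(W_l) Yp_0` for all `l < last` then also for `l = last`. -/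
def CNStmt : Prop :=
  ∀ (K : Type) [Field K] [Algebra ℂ K] (n N Mw m₀ e₀ E₂ B₂ : ℕ)
    (Ψ : Ω[K⁄ℂ] [⋀^Fin n]→ₗ[K] K) (W : Fin (Mw + 1) → K) (tt : Finset (Fin (Mw + 1)))
    (x : Fin N → K), SitN Ψ W tt x E₂ →
    ∀ (L Λ : Type) [Field L] [Field Λ] [Algebra ℂ L] [Algebra L Λ] [Algebra K Λ]
      [Algebra ℂ Λ] [IsScalarTower ℂ L Λ] [IsScalarTower ℂ K Λ] (a : Λ),
    NegCurveN Ψ W tt x m₀ e₀ L Λ a → (n + 1) * m₀ * E₂ < (B₂ + 1) * e₀ →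
    ∃ (Ω' : Type) (_ : Field Ω') (_ : Algebra ℂ Ω') (ι : K →ₐ[ℂ] Ω')
      (Yp : Fin (Mw + 1) → Polynomial Ω'),
      (∀ (e : ℕ) (P : MvPolynomial (Fin (Mw + 1)) ℂ), P.IsHomogeneous e → aeval W P = 0 →
        aeval Yp P = 0) ∧
      (∀ t ∈ tt, (Yp t).natDegree ≤ B₂) ∧ (∀ l, (Yp l).coeff 0 = ι (W l)) ∧
      ∃ l, Yp l ≠ Polynomial.C (ι (W l)) * Yp 0

end Pool.Agent.Lib.MP_410da7_agB
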