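import Pool.Agent.Lib.MP_410da7_agB.SpecF
import Pool.Agent.Lib.MP_410da7_agA.EvW

/-!
# MP_410da7_ag, nef boundary (C46, version 3): block G, the bubble

A one parameter family of maps from a curve to a projective variety, with `b` fixed points, degenerates
at one of the fixed points `c` to a rational curve through the image of `c`. Everything is done with
polynomials over an algebraically closed field `Ω` with a valuation ring `𝒱` of rank one, on discs with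
centre `c`, or with centre a zero of the coordinate `x_0` near `c`.

NOTATION of the docstrings: `|x| = 𝒱.valuation x`; for a polynomial `p` and `τ ∈ Ω` the norm of `p` on the
disc of radius `|τ|` is `|p|_τ = max_m |p_m τ^m|`.
-/

set_option autoImplicit false

namespace Pool.Agent.Lib.MP_410da7_agB

open Pool.Agent.Lib.MP_410da7_agA
open MvPolynomial Module

/-! ## Two lemmas on Newton functions -/

/-- CrossUp. The first disc on which the family `(p, u)` is not close to a multiple of `(1, 0)`.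
PROOF. `Q_m = max(|p_m|, max_l |(u l)_m|)`. An index `m` is called bad if `Q_m ≠ 0` and
`Q_m = max_l |(u l)_m|`. `0` is not bad, `Q_0 ≠ 0`. By hypothesis (take `l, m` with `|(u l)_m|` maximal)
there is a bad index which dominates at radius `1`: `Q_j ≤ Q_m` for all `j`. Let `k` be the smallest
index which is bad and dominates at some radius `≤ 1`, that is, for some `ρ ∈ Ω`, `ρ ≠ 0`, `|ρ| ≤ 1`:
`Q_j |ρ|^j ≤ Q_k |ρ|^k` for all `j`. So `k ≥ 1`. For `j < k`, `Q_j ≠ 0`, let `τ_j ∈ Ω` be a root of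
`τ^(k-j) = x_j / x_k`, where `x_j` is a coefficient of degree `j` with `|x_j| = Q_j` (`Ω` is algebraically
closed), and let `τ` be the `τ_j` of maximal absolute value (`j = 0` is one of the indices). By
definition of `τ_j`: `Q_j |σ|^j ≤ Q_k |σ|^k` iff `|τ_j| ≤ |σ|`. So `|τ| ≤ |ρ| ≤ 1`; `k` dominates all
`j < k` at radius `|τ|`, and all `j > k`: `Q_j |τ|^(j-k) ≤ Q_j |ρ|^(j-k) ≤ Q_k`. Put
`ν = x_k τ^k`. All the monomials have absolute value `≤ |ν|`; the maximizing `j` gives equality,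
`Q_j |τ|^j = |ν|`. Let `o` be the smallest index with `Q_o |τ|^o = |ν|`; so `o < k`, and `o` is not
bad, by the minimality of `k` (`o` dominates at radius `|τ| ≤ 1`): `|(u l)_o| < Q_o = |p_o|` for all `l`. -/
def CrossUpStmt : Prop :=
  ∀ (Ω : Type) [Field Ω] [IsAlgClosed Ω] (𝒱 : ValuationSubring Ω) (N : ℕ) (p : Polynomial Ω)
    (u : Fin N → Polynomial Ω), p.coeff 0 ≠ 0 → (∀ l, (u l).coeff 0 = 0) →
    (∃ l m, ∀ m', 𝒱.valuation (p.coeff m') ≤ 𝒱.valuation ((u l).coeff m)) →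
    ∃ (τ ν : Ω) (o : ℕ), τ ≠ 0 ∧ ν ≠ 0 ∧ 𝒱.valuation τ ≤ 1 ∧
      (∀ m, 𝒱.valuation (p.coeff m * τ ^ m) ≤ 𝒱.valuation ν) ∧
      (∀ l m, 𝒱.valuation ((u l).coeff m * τ ^ m) ≤ 𝒱.valuation ν) ∧
      (∃ l m, 𝒱.valuation ((u l).coeff m * τ ^ m) = 𝒱.valuation ν) ∧
      𝒱.valuation (p.coeff o * τ ^ o) = 𝒱.valuation ν ∧
      (∀ m < o, 𝒱.valuation (p.coeff m * τ ^ m) < 𝒱.valuation ν) ∧
      ∀ l, ∀ m ≤ o, 𝒱.valuation ((u l).coeff m * τ ^ m) < 𝒱.valuation ν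

/-- CrossDown. The same from the outside: `p` dominates `u` strictly on the closed unit disc, but not
at the centre.
PROOF. `Q_m` and bad indices as in CrossUp. `0` is bad (`p_0 = 0`, some `(u l)_0 ≠ 0`), and dominates at
some radius `≤ 1` (a small one: finitely many conditions `Q_j |ρ|^j ≤ Q_0`; `ρ ≠ 0`, `|ρ| ≤ 1`, take for `ρ`
the smallest of `1` and the roots `ρ_j^j = x_0/x_j`). No bad index `k` dominates at radius `1`: otherwise
`|p_m| ≤ Q_k = |(u l)_k|` for all `m`, contradiction with `h`. Let `k` be the largest bad index which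
dominates at some radius `|ρ| ≤ 1` (bounded by the degrees). There is `j > k` with `Q_j ≠ 0` (otherwise
`k` dominates at radius `1` as well: `Q_j |ρ|^j ≤ Q_k |ρ|^k`, `j < k`, gives `Q_j ≤ Q_k |ρ|^(k-j) ≤ Q_k`);
let `τ_j^(j-k) = x_k/x_j` and `τ` the `τ_j`, `j > k`, of minimal absolute value. `k` dominates `j > k` at
radius `|σ|` iff `|σ| ≤ |τ_j|`; so `|ρ| ≤ |τ|`, and `k` dominates at radius `|τ|` (for `j < k` because
`|ρ| ≤ |τ|`). If `|τ| ≥ 1` then `k` dominates at radius `1`: contradiction. `ν = x_k τ^k`. Let `o` be the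
largest index with `Q_o |τ|^o = |ν|`; `o > k`, `o` is not bad (maximality of `k`), so
`|(u l)_o| < Q_o = |p_o|`; for `m > o` all the monomials are `< |ν|`. `o ≤ D₁`: for `m > D₁`,
`Q_m |τ|^m ≤ |p_{D₁}| |τ|^m < |p_{D₁}| |τ|^{D₁} ≤ |ν|` if `p_{D₁} ≠ 0` (it is: otherwise `p = 0` and `h`
fails for any `l`, `m`). -/
def CrossDownStmt : Prop :=
  ∀ (Ω : Type) [Field Ω] [IsAlgClosed Ω] (𝒱 : ValuationSubring Ω) (N D₁ : ℕ) (p : Polynomial Ω)
    (u : Fin N → Polynomial Ω), p.coeff 0 = 0 → (∃ l, (u l).coeff 0 ≠ 0) →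
    (∀ m, 𝒱.valuation (p.coeff m) ≤ 𝒱.valuation (p.coeff D₁)) →
    (∀ l m, 𝒱.valuation ((u l).coeff m) < 𝒱.valuation (p.coeff D₁)) →
    ∃ (τ ν : Ω) (o : ℕ), τ ≠ 0 ∧ ν ≠ 0 ∧ 𝒱.valuation τ < 1 ∧ o ≤ D₁ ∧
      (∀ m, 𝒱.valuation (p.coeff m * τ ^ m) ≤ 𝒱.valuation ν) ∧
      (∀ l m, 𝒱.valuation ((u l).coeff m * τ ^ m) ≤ 𝒱.valuation ν) ∧
      (∃ l m, 𝒱.valuation ((u l).coeff m * τ ^ m) = 𝒱.valuation ν) ∧
      𝒱.valuation (p.coeff o * τ ^ o) = 𝒱.valuation ν ∧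
      (∀ m, o < m → 𝒱.valuation (p.coeff m * τ ^ m) < 𝒱.valuation ν) ∧
      ∀ l m, o ≤ m → 𝒱.valuation ((u l).coeff m * τ ^ m) < 𝒱.valuation ν

/-! ## The bubble for polynomials -/

/-- GN5. The bubble with centre `0`. `P_l` polynomials over `Ω` with constant terms `y_l ∈ k`, `y_0 = 1`, which
satisfy the equations up to the order `d B₁`; on the closed unit disc the monomials of `P_l` of degree
`> Bd l` are strictly smaller than some monomial of degree `≤ Bd l` of some `P_{l₂}`; some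
`u_l = P_l - y_l P_0` is on the unit disc not smaller than `P_0`.
PROOF. CrossUp with `p = P_0`, `u`: `τ`, `ν`, `o`. `P_l = u_l + y_l P_0` and `|y_l| ≤ 1`, so
`q_{l,m} = (P_l)_m τ^m / ν ∈ 𝒱`. Let `Q_l ∈ k'[σ]` be the polynomial with the coefficients
`residue(q_{l,m})`. (i) `natDegree Q_l ≤ Bd l`: for `m > Bd l`, `|(P_l)_m τ^m| ≤ |(P_l)_m| |τ|^{m₂} <
|(P_{l₂})_{m₂} τ^{m₂}| ≤ |ν|` (`m₂ ≤ Bd l < m`, `|τ| ≤ 1`, `τ ≠ 0`). (ii) the coefficients of `Q_l` of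
degree `< o` vanish, and that of degree `o` is `y_l c`, `c = residue(p_o τ^o/ν) ≠ 0`. (iii) `Q_l ≠ y_l Q_0`
for some `l` (`u`-monomial of absolute value `|ν|`). (iv) `F_j(Q) = 0`: it is the reduction of
`F_j(P(τσ)/ν) = ν^(-d) F_j(P)(τσ)`, a polynomial over `𝒱` whose coefficients of degree `≤ d B₁` vanish, while
`natDegree F_j(Q) ≤ d B₁`. Let `Yp_l` be the polynomial with `c σ^o Yp_l = Q_l`. `(c σ^o)^d F_j(Yp) = F_j(Q) = 0`
by homogeneity; `Yp_l(0) = y_l`; `natDegree Yp_l ≤ natDegree Q_l`; `Yp_l ≠ y_l Yp_0` for the `l` of (iii). -/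
def GN5Stmt : Prop :=
  ∀ (k Ω : Type) [Field k] [Field Ω] [IsAlgClosed Ω] [Algebra k Ω] (𝒱 : ValuationSubring Ω)
    (_hk : ∀ x : k, algebraMap k Ω x ∈ 𝒱) (M κ d B₁ : ℕ)
    (F : Fin κ → MvPolynomial (Fin (M + 1)) k), (∀ j, (F j).IsHomogeneous d) →
    ∀ (y : Fin (M + 1) → k), y 0 = 1 → ∀ (Bd : Fin (M + 1) → ℕ), (∀ l, Bd l ≤ B₁) →
    ∀ (P : Fin (M + 1) → Polynomial Ω), (∀ l, (P l).coeff 0 = algebraMap k Ω (y l)) →
    (∀ j, ∀ m ≤ d * B₁, (aeval P (F j)).coeff m = 0) →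
    (∀ l, ∃ l₂, ∃ m₂ ≤ Bd l, ∀ m, Bd l < m →
      𝒱.valuation ((P l).coeff m) < 𝒱.valuation ((P l₂).coeff m₂)) →
    (∃ l m, ∀ m', 𝒱.valuation ((P 0).coeff m') ≤
      𝒱.valuation ((P l - Polynomial.C (algebraMap k Ω (y l)) * P 0).coeff m)) →
    ∃ (k' : Type) (_ : Field k') (_ : Algebra k k') (Yp : Fin (M + 1) → Polynomial k'),
      (∀ j, aeval Yp (F j) = 0) ∧ (∀ l, (Yp l).natDegree ≤ Bd l) ∧
      (∀ l, (Yp l).coeff 0 = algebraMap k k' (y l)) ∧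
      ∃ l, Yp l ≠ Polynomial.C (algebraMap k k' (y l)) * Yp 0

/-- GN4. The bubble at a zero of `x_0`. Here `P_0` dominates all the `u_l = P_l - y_l P_0` strictly on the
closed unit disc, the maximal monomial of `P_0` of highest degree is `D₁` and is greater than `1`;
`G₀ P_0 + G₁ P_{b₀} = 1 + E`, where `E` is small and `G₁` is bounded by `|δ|⁻¹`; the equations are
satisfied up to terms of absolute value `< |δ|^d`.
PROOF. (1) `P_0` has a zero `z`, `|z| < 1`: otherwise `P_0 = P_0(0) ∏ (1 - t/z_i)` with `|z_i| ≥ 1`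
(`P_0(0) = y_0 = 1`) has all its coefficients in `𝒱`, but `|(P_0)_{D₁}| > 1`. (2) `P'_l = P_l(z + t)`
(`Polynomial.taylor z`), `u'_l = P'_l - y_l P'_0 = u_l(z + t)`. For a polynomial `f` whose coefficients
are `≤ |x|` (`< |x|`) those of `f(z + t)` are `≤ |x|` (`< |x|`); the coefficient of degree `D₁` of `P'_0` is
`(P_0)_{D₁} + ∑_{m > D₁} binom(m, D₁) (P_0)_m z^(m-D₁)`, of absolute value `|(P_0)_{D₁}|`. (3)
`(P'_0)_0 = P_0(z) = 0`; `G₀(z) P_0(z) + G₁(z) P_{b₀}(z) = 1 + E(z)`, `|E(z)| < 1`, so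
`|G₁(z) P_{b₀}(z)| = 1`, `|G₁(z)| ≤ |δ|⁻¹`: `|P_{b₀}(z)| ≥ |δ|`; `(u'_{b₀})_0 = P_{b₀}(z) ≠ 0`. (4) CrossDown
for `p = P'_0`, `u'`: `τ`, `ν`, `o ≤ D₁`; `|ν| ≥ |(u'_{b₀})_0| ≥ |δ|`. (5) `q_{l,m} = (P'_l)_m τ^m/ν ∈ 𝒱`,
`Q_l ∈ k'[σ]` the reduction; `natDegree Q_l ≤ o`, `(Q_l)_o = y_l c`, `c = residue(p_o τ^o/ν) ≠ 0`, and
`Q_l ≠ y_l Q_0` for some `l`. `F_j(Q) = 0`: the coefficients of `F_j(P'(τσ)/ν) = ν^(-d) F_j(P)(z + τσ)` are
`< |δ|^d |ν|^(-d) ≤ 1`. (6) `Yp_l = c⁻¹ σ^o Q_l(1/σ)` (`Polynomial.reflect o`): `natDegree ≤ o ≤ D₁`,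
`Yp_l(0) = y_l`, `F_j(Yp) = 0` by homogeneity (in `k'(σ)`: `F_j(Yp) = c^(-d) σ^(od) F_j(Q)(1/σ)`), and
`Yp_l ≠ y_l Yp_0` for some `l` (`reflect` is injective). -/
def GN4Stmt : Prop :=
  ∀ (k Ω : Type) [Field k] [Field Ω] [IsAlgClosed Ω] [Algebra k Ω] (𝒱 : ValuationSubring Ω)
    (_hk : ∀ x : k, algebraMap k Ω x ∈ 𝒱) (M κ d D₁ : ℕ)
    (F : Fin κ → MvPolynomial (Fin (M + 1)) k), (∀ j, (F j).IsHomogeneous d) →
    ∀ (y : Fin (M + 1) → k), y 0 = 1 →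
    ∀ (P : Fin (M + 1) → Polynomial Ω), (P 0).coeff 0 = 1 →
    (∀ l m, 𝒱.valuation ((P l - Polynomial.C (algebraMap k Ω (y l)) * P 0).coeff m) <
      𝒱.valuation ((P 0).coeff D₁)) →
    (∀ m, 𝒱.valuation ((P 0).coeff m) ≤ 𝒱.valuation ((P 0).coeff D₁)) →
    (∀ m, D₁ < m → 𝒱.valuation ((P 0).coeff m) < 𝒱.valuation ((P 0).coeff D₁)) →
    1 < 𝒱.valuation ((P 0).coeff D₁) →
    ∀ (b₀ : Fin (M + 1)) (G₀ G₁ : Polynomial Ω) (δ : Ω), δ ≠ 0 →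
    (∀ m, 𝒱.valuation ((G₀ * P 0 + G₁ * P b₀ - 1).coeff m) < 1) →
    (∀ m, 𝒱.valuation (G₁.coeff m * δ) ≤ 1) →
    (∀ j m, 𝒱.valuation ((aeval P (F j)).coeff m) < 𝒱.valuation (δ ^ d)) →
    ∃ (k' : Type) (_ : Field k') (_ : Algebra k k') (Yp : Fin (M + 1) → Polynomial k'),
      (∀ j, aeval Yp (F j) = 0) ∧ (∀ l, (Yp l).natDegree ≤ D₁) ∧
      (∀ l, (Yp l).coeff 0 = algebraMap k k' (y l)) ∧
      ∃ l, Yp l ≠ Polynomial.C (algebraMap k k' (y l)) * Yp 0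

/-! ## The bubble for power series -/

/-- The valuation ring has rank at most one. -/
def Arch {Ω : Type} [Field Ω] (𝒱 : ValuationSubring Ω) : Prop :=
  ∀ x y : Ω, x ≠ 0 → 𝒱.valuation y < 1 → ∃ n : ℕ, 𝒱.valuation (y ^ n) < 𝒱.valuation x

/-- GN6. The bubble for a point `H` of the cone over the variety with values in `Ω[[t]]`, with constant
term `y ∈ k^(M+1)`, with unbounded coefficients. The coefficients are bounded by `|θ|`, attained in a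
degree `≤ B₁`; the coordinates in `tt` have coefficients bounded by `1`, or by `|θ₁|` attained in a degree
`≤ B₂`; `H_0` and `H_{b₀}` have no common zero (in a bounded sense).
PROOF. Let `ϖ^(B₁+1) = θ⁻¹`; `|ϖ| < 1`, `ϖ ≠ 0`. Let `T` be large, `P_l` the truncation of `H_l(ϖ t)` at
degree `T` (`(P_l)_m = ϖ^m (H_l)_m` for `m ≤ T`), `G'_i` that of `G_i(ϖ t)`. (1) `|(P_l)_m| ≤ |θ| |ϖ|^m`, with
equality for some `(l₁, m₁)`, `m₁ ≤ B₁`; `|(P_{l₁})_{m₁}| ≥ |θ| |ϖ|^{B₁} = |ϖ|⁻¹ > 1`, and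
`|(P_l)_m| < |(P_{l₁})_{m₁}|` for `m > B₁`. (2) for `t ∈ tt`, `m > B₂`: if the coefficients of the `H_t` are
bounded by `1` then `|(P_t)_m| ≤ |ϖ|^m < 1 = |(P_0)_0|`; otherwise `|(P_t)_m| ≤ |θ₁| |ϖ|^m < |θ₁| |ϖ|^{m₂} =
|(P_{t₂})_{m₂}|`, `m₂ ≤ B₂`. (3) CASE A: some `u_l = P_l - y_l P_0` has a coefficient of absolute value at
least that of all the coefficients of `P_0`. Then GN5 with `Bd l = B₂` if `l ∈ tt`, `B₁` otherwise; the
coefficients of degree `≤ T` of `F_j(P)` vanish (`P_l ≡ H_l(ϖ t)` modulo `t^(T+1)`), `T ≥ d B₁`. (4) CASE B: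
all the coefficients of all `u_l` are smaller than the maximal coefficient of `P_0`. Let `D₁` be the highest
degree of a maximal coefficient of `P_0`. All the coefficients of the `P_l = u_l + y_l P_0` are
`≤ |(P_0)_{D₁}|`, so it is `> 1` by (1), and `D₁ ≤ B₂` by (2) with `t = 0 ∈ tt`: `D₁ > B₂` would give
`|(P_0)_{D₁}| < |(P_{t₂})_{m₂}| ≤ |(P_0)_{D₁}|` or `|(P_0)_{D₁}| < |(P_0)_0|`. GN4 with `G'_0, G'_1`, `δ`:
`G'_0 P_0 + G'_1 P_{b₀} - 1` has no coefficients of degree `≤ T`, and the others are bounded by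
`|δ|⁻¹ |θ| |ϖ|^(T+1) < 1`; the coefficients of `F_j(P)` of degree `> T` are bounded by
`|θ|^d |ϖ|^(T+1) < |δ|^d` (the coefficients of `F_j` are in `𝒱`), the others vanish. `Arch` gives `T`. All the
degrees are `≤ D₁ ≤ B₂ ≤ B₁`. -/
def GN6Stmt : Prop :=
  ∀ (k Ω : Type) [Field k] [Field Ω] [IsAlgClosed Ω] [Algebra k Ω] (𝒱 : ValuationSubring Ω)
    (_hk : ∀ x : k, algebraMap k Ω x ∈ 𝒱), Arch 𝒱 → ∀ (M κ d B₁ B₂ : ℕ)
    (F : Fin κ → MvPolynomial (Fin (M + 1)) k), (∀ j, (F j).IsHomogeneous d) →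
    ∀ (tt : Finset (Fin (M + 1))), 0 ∈ tt → B₂ ≤ B₁ →
    ∀ (y : Fin (M + 1) → k), y 0 = 1 →
    ∀ (H : Fin (M + 1) → PowerSeries Ω),
    (∀ l, PowerSeries.coeff 0 (H l) = algebraMap k Ω (y l)) →
    (∀ j, eval₂ ((PowerSeries.C : Ω →+* PowerSeries Ω).comp (algebraMap k Ω)) H (F j) = 0) →
    ∀ (θ : Ω), 1 < 𝒱.valuation θ →
    (∀ l m, 𝒱.valuation (PowerSeries.coeff m (H l)) ≤ 𝒱.valuation θ) →
    (∃ l, ∃ m ≤ B₁, 𝒱.valuation (PowerSeries.coeff m (H l)) = 𝒱.valuation θ) →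
    ((∀ t ∈ tt, ∀ m, 𝒱.valuation (PowerSeries.coeff m (H t)) ≤ 1) ∨
      ∃ θ₁ : Ω, (∀ t ∈ tt, ∀ m, 𝒱.valuation (PowerSeries.coeff m (H t)) ≤ 𝒱.valuation θ₁) ∧
        ∃ t ∈ tt, ∃ m ≤ B₂, PowerSeries.coeff m (H t) ≠ 0 ∧
          𝒱.valuation (PowerSeries.coeff m (H t)) = 𝒱.valuation θ₁) →
    ∀ (b₀ : Fin (M + 1)) (G₀ G₁ : PowerSeries Ω) (δ : Ω), δ ≠ 0 → G₀ * H 0 + G₁ * H b₀ = 1 →
    (∀ m, 𝒱.valuation (PowerSeries.coeff m G₀ * δ) ≤ 1) →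
    (∀ m, 𝒱.valuation (PowerSeries.coeff m G₁ * δ) ≤ 1) →
    ∃ (k' : Type) (_ : Field k') (_ : Algebra k k') (Yp : Fin (M + 1) → Polynomial k'),
      (∀ j, aeval Yp (F j) = 0) ∧ (∀ l, (Yp l).natDegree ≤ B₁) ∧
      (∀ t ∈ tt, (Yp t).natDegree ≤ B₂) ∧
      (∀ l, (Yp l).coeff 0 = algebraMap k k' (y l)) ∧
      ∃ l, Yp l ≠ Polynomial.C (algebraMap k k' (y l)) * Yp 0

/-! ## The valued field -/

/-- GN1. As G3 (`MP_410da7_agA/G3.lean`), with a valuation ring of rank one.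
PROOF. As in `g3`: `Ω` an algebraic closure of the fraction field of `k[a]/𝔓`, `s_v` the class of `a_v`;
some `s_v` is transcendental over `k` (`hnint` there: it is not integral over the field `k`). `Ω` has a
transcendence basis over `k` which contains this `s_v` (`exists_isTranscendenceBasis_superset` or the like);
let `k₁ ⊆ Ω` be the field generated by `k` and the other elements: `s_v` is transcendental over `k₁` and
`Ω` is algebraic over `k₁(s_v)`. `s_v` is not in the integral closure of `k₁` in `Ω`; by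
`Subring.exists_le_valuationSubring_of_isIntegrallyClosedIn` (as in `g3`) there is `𝒱 ⊇` this integral
closure, `s_v ∉ 𝒱`. Put `π = s_v⁻¹`, `0 < |π| < 1`. (i) for `0 ≠ f ∈ k₁[π]`: `|f| = |π|^n`, `n` the lowest
degree of `f` (nonzero elements of `k₁` have absolute value `1`, the monomials have different absolute
values); so for `0 ≠ f ∈ k₁(π)`: `|f| = |π|^n`, `n ∈ ℤ`. (ii) for `0 ≠ y ∈ Ω` there are `i ≥ 1`, `j ∈ ℤ` with
`|y|^i = |π|^j`: `y` satisfies `∑_n f_n y^n = 0`, `f_n ∈ k₁(π)` not all zero, and two nonzero terms must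
have the same absolute value (`Valuation` of a sum with a unique maximal term is not `0`):
`|f_n| |y|^n = |f_m| |y|^m`, `n < m`. (iii) `Arch`: `|x|^i = |π|^j`; `|y| < 1`, `y ≠ 0`, `|y|^i' = |π|^j'` with
`j' ≥ 1` (`|π| < 1`). For `n = i' (|j| + 1)`: `|y^n|^i = |π|^(j' (|j|+1) i) < |π|^j = |x|^i`, since
`j'(|j|+1) i > j`. -/
def GN1Stmt : Prop :=
  ∀ (k V : Type) [Field k] [Fintype V] (𝔓 : Ideal (MvPolynomial V k)), 𝔓.IsPrime →
    𝔓 ≤ mx V k → 𝔓 ≠ mx V k →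
    ∃ (Ω : Type) (_ : Field Ω) (_ : IsAlgClosed Ω) (_ : Algebra k Ω) (s : V → Ω)
      (𝒱 : ValuationSubring Ω), (∀ p, p ∈ 𝔓 ↔ aeval s p = 0) ∧
      (∀ c : k, algebraMap k Ω c ∈ 𝒱) ∧ (∃ v, s v ∉ 𝒱) ∧ Arch 𝒱

/-! ## The number of the bad points -/

/-- G1N. The combination `∑ ρ_j ω_j`, `ρ ≠ 0` over an extension field, has poles at most `Q`; then it has at
most `∑ Q / (B + 1)` zeros of order `> B` among the points `c i`.
PROOF. As G1 (`MP_410da7_agA/G1.lean`). Let `S` be the set of these `i`. Choose a `k`-linear form `φ` on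
`k'` with `φ(ρ_{j₀}) ≠ 0` (`Module.forall_dual_apply_eq_zero_iff`), `y = ∑ φ(ρ_j) ω_j ≠ 0`;
`cf_w^i(y) = φ(∑ ρ_j cf_w^i(ω_j))`. So `y ∈ L(Q)` and the order of `y` at `c i`, `i ∈ S`, is `≥ B + 1`
(the coefficients of degree `≤ 0` vanish because `ω_j ∈ L(P - ∑ c_i)`, `P(c i) = 0`). F3 (`f3`) for the
points `c i`, `i ∈ S` (enumerate `S` by `Fin S.card`), and the divisor `Q`. -/
def G1NStmt : Prop :=
  ∀ (k Λ k' : Type) [Field k] [Field Λ] [Algebra k Λ] [Field k'] [Algebra k k'] (C : Curve k Λ)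
    (D b B : ℕ) (P Q : C.pt → ℤ), (∀ w, 0 ≤ Q w) → {w | Q w ≠ 0}.Finite →
    ∀ (c : Fin b → C.pt), Function.Injective c → (∀ i, P (c i) = 0) → (∀ i, Q (c i) = 0) →
    ∀ (ω : Fin D → Λ), LinearIndependent k ω → (∀ j, ω j ∈ C.L (P - ptDiv c)) →
    ∀ (ρ : Fin D → k'), ρ ≠ 0 →
    (∀ w, ∀ i < - Q w, ∑ j, ρ j * algebraMap k k' (C.cf w i (ω j)) = 0) →
    ∀ (S : Finset (Fin b)), (∀ i ∈ S, ∀ m : ℕ, 1 ≤ m → m ≤ B →
      ∑ j, ρ j * algebraMap k k' (C.cf (c i) m (ω j)) = 0) →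
    (((B + 1) * S.card : ℕ) : ℤ) ≤ ∑ᶠ w, Q w

/-! ## No base points -/

/-- O1. `L((m+1) P) = L(m P) + y L(m P)` for some `m`, if `y` has exactly the poles `P`.
PROOF. If `P = 0` take `m = 0` (`f = f + 0 y`). Otherwise `y ≠ 0`. `d_m = dim L(m P)` (finite, `f2`: there
is a point). For `m ≥ 1` the kernel of `L(m P)² → L((m+1) P)`, `(a, b) ↦ a + b y` (well defined), is
isomorphic to `L((m-1) P)` by `b ↦ (- b y, b)`: if `a + b y = 0` then `b y ∈ L(m P)`, so for `P_w > 0`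
`ord_w b ≥ - m P_w + P_w`, and for `P_w = 0` `b ∈ L(m P)` is regular at `w`. Hence
`2 d_m - d_{m-1} ≤ d_{m+1}`, with equality iff the map is surjective (rank-nullity). So
`δ_m = d_{m+1} - d_m` is nondecreasing for `m ≥ 0`; `δ_m ≤ ∑ P` for all `m` (`L(m P)` is the common kernel
in `L((m+1)P)` of the `∑ P` linear forms `cf_w^i`, `-(m+1) P_w ≤ i < - m P_w`). If the map is not
surjective for any `m ≥ 1` then `δ_m ≥ δ_{m-1} + 1` for all `m ≥ 1`, so `δ_m ≥ m + δ_0 ≥ m`, contradiction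
for `m > ∑ P`. -/
def O1Stmt : Prop :=
  ∀ (k Λ : Type) [Field k] [Field Λ] [Algebra k Λ] (C : Curve k Λ) (P : C.pt → ℤ) (y : Λ),
    (∀ w, 0 ≤ P w) → {w | P w ≠ 0}.Finite → y ∈ C.L P →
    (∀ w, 0 < P w → y ≠ 0 ∧ C.ord w y = - P w) →
    ∃ m : ℕ, ∀ f ∈ C.L (((m : ℤ) + 1) • P), ∃ g₀ ∈ C.L ((m : ℤ) • P), ∃ g₁ ∈ C.L ((m : ℤ) • P),
      f = g₀ + g₁ * y

open EvW in
/-- O2. Semicontinuity: near `Y` (in the Zariski topology of the space of the `a`) the sections `x_0(h)`,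
`x_{b₀}(h)` have no common zero.
PROOF. O1 for `y = Y_{b₀}`: `m`. Let `β_1..β_n` be a basis of `L(m P)` and `f_1..f_N` one of
`L((m+1) P)` (finite dimensional, `f2`; if `C.pt` is empty the last claim is empty, take `n = 0`).
`1 = ∑ ε_{i'} f_{i'}` (`1 ∈ L((m+1)P)`). The polynomial `C(β_i) hpt_l` (`l = 0, b₀`) is
`C(β_i Y_l) + ∑_j C(β_i ω_j) X (l, j)`, and `β_i Y_l, β_i ω_j ∈ L((m+1) P)`: so
`C(β_i) hpt_l = ∑_{i'} C(f_{i'}) map(N^l_{i,i'})`, `N^l_{i,i'} ∈ k[a]`. The constant terms of the `N`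
are the coordinates of `β_i Y_l`; the `2 n` rows `(N^0_i(0), N^{b₀}_i(0))` span `k^N` by O1 (`Y_0 = 1`), so
there is a matrix `R` over `k` with `R N(0) = 1` (`N × 2n`, `2n × N`). `Δ = det(R N) ∈ k[a]` has the constant
term `1`, so `Δ ∉ mx`, `aeval s Δ ≠ 0`: the matrix `R N(s)` over `Ω` is invertible. With
`γ = ε (R N(s))⁻¹ R` (a row of length `2n`): `γ N(s) = ε`. Apply `ev C w s` to the formulas
(`ev_map`, `ev_C`): `∑_i γ_{0,i} ev(C β_i) ev(hpt_0) + ∑_i γ_{1,i} ev(C β_i) ev(hpt_{b₀}) =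
∑_{i'} (γ N(s))_{i'} ev(C f_{i'}) = ev(C (∑ ε_{i'} f_{i'})) = 1`. -/
def O2Stmt : Prop :=
  ∀ (k Λ Ω : Type) [Field k] [Field Λ] [Algebra k Λ] [Field Ω] [Algebra k Ω] (C : Curve k Λ)
    (M D : ℕ) (P : C.pt → ℤ) (Y : Fin (M + 1) → Λ) (b₀ : Fin (M + 1)), (∀ w, 0 ≤ P w) →
    {w | P w ≠ 0}.Finite → Y 0 = 1 → (∀ l, Y l ∈ C.L P) →
    (∀ w, 0 < P w → Y b₀ ≠ 0 ∧ C.ord w (Y b₀) = - P w) →
    ∀ (ω : Fin D → Λ), (∀ j, ω j ∈ C.L P) → ∀ (s : Fin (M + 1) × Fin D → Ω),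
    (∀ q : MvPolynomial (Fin (M + 1) × Fin D) k, aeval s q = 0 → q ∈ mx _ k) →
    ∃ (m n : ℕ) (β : Fin n → Λ) (γ₀ γ₁ : Fin n → Ω), (∀ i, β i ∈ C.L ((m : ℤ) • P)) ∧
      ∀ w, (∑ i, HahnSeries.C (γ₀ i) * ev C w s (MvPolynomial.C (β i))) * ev C w s (hpt Y ω 0) +
        (∑ i, HahnSeries.C (γ₁ i) * ev C w s (MvPolynomial.C (β i))) * ev C w s (hpt Y ω b₀) = 1

/-! ## The end of block G

GN7 (`GN7Stmt` in `SpecF.lean`). PROOF (compare `G4.lean`). GN1: `Ω`, `s`, `𝒱`, `k' =` the residue field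
of `𝒱`. Let `v₀ = (l₀, j₀)` be such that `|s_{v₀}|` is maximal, `θ = s_{v₀}`, `|θ| > 1`;
`ρ_j = residue(s_{l₀,j}/θ)`, `ρ ≠ 0`. The condition of G1N for `Q = P` holds since `ω_j ∈ L(P)`. Hence at
most `∑ P/(B₁+1)` of the `c i` are such that all the `∑ ρ_j cf^m(ω_j)`, `1 ≤ m ≤ B₁`, vanish. If some
`|s_{t,j}| > 1`, `t ∈ tt`: let `v₁ = (t₁, j₁)`, `t₁ ∈ tt`, be maximal among these, `θ₁ = s_{v₁}`,
`ρ'_j = residue(s_{t₁,j}/θ₁)`. For `i < - R w`: `cf_w^i(Y_{t₁}) = 0` and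
`0 = aeval s (push (cf_w^i) (hpt Y ω t₁)) = ∑_j s_{t₁,j} cf_w^i(ω_j)` (`ev_coeff`, `ev_hpt_coeff`); divide by
`θ₁` and reduce: the condition of G1N for `Q = R` (`R(c i) = 0` since `0 ≤ R ≤ P`). Hence at most
`∑ R/(B₂+1)` of the `c i` are bad for `ρ'`. By the numerical hypothesis some `c i` is good for both (and for
the first alone if there is no `v₁`). `H_l = g4Aux.Hs C (c i) s Y ω l`: the constant term is `Y_l(c i)`
(the `ω_j` vanish at `c i`), the coefficients are bounded by `|θ|`, some coefficient of `H_{l₀}` of degree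
`1 ≤ m ≤ B₁` has absolute value `|θ|` (as in `G4.lean`); for `t ∈ tt` they are bounded by `1` if there is
no `v₁` (`|s_{t,j}| ≤ 1`), and otherwise by `|θ₁|`, attained by `H_{t₁}` in a degree `≤ B₂`. `F_j(H) = 0`:
`g4Aux.eval_Hs`. O2 with this `s` (`aeval s q = 0 → q ∈ 𝔓 ⊆ mx`), at `w = c i`: `G₀`, `G₁` are the power
series with `ofPowerSeries G₀ = ∑ C(γ₀ i) ev(C β_i)` (the `β_i` are regular at `c i`, `P(c i) = 0`), with
coefficients bounded by `max |γ|`; `δ` with `|γ₀ i δ| ≤ 1`, `|γ₁ i δ| ≤ 1` for all `i` (`δ = 1` or the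
inverse of the largest). The identity `G₀ H_0 + G₁ H_{b₀} = 1` by injectivity of `ofPowerSeries`
(`g4Aux.ofPowerSeries_Hs`). GN6. -/

end Pool.Agent.Lib.MP_410da7_agB
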