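import Pool.Agent.Lib.MP_410da7_agB.Statement3
import Pool.Agent.Lib.MP_410da7_agB.SpecD
import Pool.Agent.Lib.MP_410da7_agA.NG5
import Pool.Agent.Lib.MP_410da7_agV.LineMain
import Pool.Agent.Lib.MP_410da7_agV.H4Core

/-!
# MP_410da7_ag, nef boundary (C46, T1): block H, the geometry

`Y = cons1 x = (1, x_1, ..., x_N)` are homogeneous coordinates of `Xbar`, `H` is the divisor of the
`G_j` (homogeneous of degree `d₀`), `D` its support. The files of version 2 which are the templates are in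
`MP_410da7_agA` (`L/Closed.lean`, `NG2.lean`, `NG3.lean`, `NG4.lean`, `NG5.lean`, `DL7`, `A1`, `A2`).
-/

set_option autoImplicit false

namespace Pool.Agent.Lib.MP_410da7_agB

open Pool.Agent.Lib.MP_410da7_agA
open Pool.Agent.Lib.MP_410da7_ag (regDiff logDiff)
open Pool.Agent.Lib.MP_410da7_agV (Line)
open MvPolynomial KaehlerDifferential WithZero Module

section

variable {K : Type} [Field K] [Algebra ℂ K] {M s : ℕ}

/-- The pair `(Xbar, D)` at the center of the valuation `v`: local coordinates `z_i` (`RegAt`), the ideal of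
`H` is generated by `∏ z_i^{λ_i}`, that of `D` by `zet z lam = ∏_{λ_i ≥ 1} z_i`. -/
structure LSP {n : ℕ} (Y : Fin (M + 1) → K) (G : Fin (s + 1) → MvPolynomial (Fin (M + 1)) ℂ)
    (b : Fin (M + 1)) (v : Valuation K ℤᵐ⁰) (z : Fin n → K) (lam : Fin n → ℕ) : Prop where
  reg : RegAt Y b v z
  bdl : ∀ j, ∃ g ∈ locRing Y b v, aeval (aff Y b) (G j) = g * ∏ i, z i ^ lam i
  bdu : ∃ j, ∃ u ∈ locRing Y b v, v u = 1 ∧ aeval (aff Y b) (G j) = u * ∏ i, z i ^ lam i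
  ne0 : ∏ i, z i ^ lam i ≠ 0
  rad : ∀ f ∈ locRing Y b v, ∀ m : ℕ, (∃ g ∈ locRing Y b v, f ^ m = g * ∏ i, z i ^ lam i) →
    ∃ g ∈ locRing Y b v, f = g * zet z lam

/-- The functions `f_i` generate `e (κ H + A)` at the center of `v`. -/
structure NefAt {n r : ℕ} (Y : Fin (M + 1) → K) (f : Fin r → K) (κ e : ℕ) (b : Fin (M + 1))
    (v : Valuation K ℤᵐ⁰) (z : Fin n → K) (lam : Fin n → ℕ) : Prop where
  le : ∀ i, ∃ g ∈ locRing Y b v, f i * (∏ i, z i ^ lam i) ^ (κ * e) = g * Y b ^ e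
  eq : ∃ i, ∃ u ∈ locRing Y b v, v u = 1 ∧ f i * (∏ i, z i ^ lam i) ^ (κ * e) = u * Y b ^ e

/-- The coordinates of the second embedding: all the monomials of degree `e + 1` in the `Y_m` (their
indices are the elements of `tt`) and all the products `f_i Y_m`. -/
structure WSys {r Mw : ℕ} (Y : Fin (M + 1) → K) (f : Fin r → K) (e : ℕ) (W : Fin (Mw + 1) → K)
    (tt : Finset (Fin (Mw + 1))) : Prop where
  W0 : W 0 = 1
  tt0 : 0 ∈ tt
  mon : ∀ β : Fin (M + 1) → ℕ, ∑ i, β i = e + 1 → ∃ l ∈ tt, W l = ∏ i, Y i ^ β i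
  mon' : ∀ l ∈ tt, ∃ β : Fin (M + 1) → ℕ, ∑ i, β i = e + 1 ∧ W l = ∏ i, Y i ^ β i
  sec : ∀ i m, ∃ l, W l = f i * Y m
  sec' : ∀ l, l ∉ tt → ∃ i m, W l = f i * Y m

/-- Sections of `m (K + D) + e A`, if `HC v` means that `v` has its center on `X`. -/
def SecH (HC : Valuation K ℤᵐ⁰ → Prop) {n N : ℕ} (Ψ : Ω[K⁄ℂ] [⋀^Fin n]→ₗ[K] K) (x : Fin N → K)
    (m e : ℕ) : Set K :=
  {F | ∀ v : Valuation K ℤᵐ⁰, Triv v → ∃ θ : Fin n → Ω[K⁄ℂ],
    ((∀ i, θ i ∈ logDiff v) ∧ (HC v → ∀ i, θ i ∈ regDiff v)) ∧ v F ≤ size x v ^ e * v (Ψ θ) ^ m}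

end

/-! ## From closed points to centers of valuations -/

/-- HA.
PROOF. The proof of `lsAt_of_chart` (`MP_410da7_agA/L/Closed.lean`), with the following changes. `bdl`: by
`div`, `G_j(s) ∈ O ∏ z^λ` (`chartVal`, `Ideal.mem_span_singleton`), `O = pointRing Y b p ⊆ locRing Y b v`.
`bdu`: `∏ z^λ = ∑ a_j G_j(s) = (∑ a_j g_j) ∏ z^λ` with `a_j, g_j ∈ O` (`div`, `Ideal.mem_span_range_iff_exists_fun`),
`∏ z^λ ≠ 0` by `h0` (some `G_j(Y) = Y_b^{d₀} G_j(s) ≠ 0`, `ng_hom_aeval` in `NG3.lean`), so `1 = ∑ a_j g_j`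
and `v(g_j) = 1` for some `j` (all values are `≤ 1`). `rad`: let `f = P(s)/Q(s)`, `g = P'(s)/Q'(s)`,
`f^m = g ∏ z^λ`. Then `(P Q')(s)^(m+1) = (P P' Q^m Q'^m)(s) ∏ z^λ`, so `(P Q')(s)` is in the radical of
`(∏ z^λ)` in `O`; by `red` it is a multiple of `∏_{λ_i ≥ 1} z_i = zet z lam`; `Q(s)`, `Q'(s)` are units of
`locRing Y b v`. -/
def HAStmt : Prop :=
  ∀ (K : Type) [Field K] [Algebra ℂ K] (n M s d₀ : ℕ) (Y : Fin (M + 1) → K)
    (G : Fin (s + 1) → MvPolynomial (Fin (M + 1)) ℂ), (∀ j, (G j).IsHomogeneous d₀) →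
    (∃ j, aeval Y (G j) ≠ 0) → ∀ (b : Fin (M + 1)) (p : Fin (M + 1) → ℂ)
    (v : Valuation K ℤᵐ⁰), Triv v → AtPoint Y b p v →
    ∀ (z : Fin n → pointRing Y b p) (lam : Fin n → ℕ), IsPairChart Y G b p z lam →
    LSP Y G b v (fun i => (z i : K)) lam

/-- HB.
PROOF. `O = pointRing Y b p ⊆ locRing Y b v`, `v ≤ 1` on `locRing Y b v` (see `lsAt_of_chart`,
`ng_locRing_le`). The `O`-module spanned by the `G_j(Y) = Y_b^{d₀} G_j(s)` is `O Y_b^{d₀} h`,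
`h = ∏ z^λ` (`div`), its power is `O (Y_b^{d₀} h)^{κ e}`, so the hypothesis says
`∑ O f_i h^{κ e} Y_b^{d₀ κ e} = O Y_b^{(d₀ κ + 1) e}`: `f_i h^{κ e} = g_i Y_b^e` with `g_i ∈ O`, and
`1 = ∑ a_i g_i` with `a_i ∈ O`; so `v(g_i) = 1` for some `i`. -/
def HBStmt : Prop :=
  ∀ (K : Type) [Field K] [Algebra ℂ K] (n M s d₀ κ e r : ℕ) (Y : Fin (M + 1) → K)
    (G : Fin (s + 1) → MvPolynomial (Fin (M + 1)) ℂ), (∀ j, (G j).IsHomogeneous d₀) →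
    ∀ (b : Fin (M + 1)) (p : Fin (M + 1) → ℂ) (v : Valuation K ℤᵐ⁰), Triv v → AtPoint Y b p v →
    ∀ (z : Fin n → pointRing Y b p) (lam : Fin n → ℕ), IsPairChart Y G b p z lam →
    ∀ (f : Fin r → K),
      Submodule.span (pointRing Y b p) (Set.range f) *
          Submodule.span (pointRing Y b p) (Set.range fun j => aeval Y (G j)) ^ (κ * e) =
        Submodule.span (pointRing Y b p) {Y b ^ ((d₀ * κ + 1) * e)} →
    NefAt Y f κ e b v (fun i => (z i : K)) lam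

/-! ## The negative family -/

/-- HC. The linear system of the canonical divisor.
PROOF. `ng_ds`, `ng_dz`, `ng_cone_le`, `ng_le_cone`, `ng_cone_eq`, `ng_WK` (`MP_410da7_agA/NG2.lean`): the
fields `bd`, `rad` of `LSAt` are not used there; copy them with `RegAt`. -/
def HCStmt : Prop :=
  ∀ (K : Type) [Field K] [Algebra ℂ K] (n N : ℕ) (Ψ : Ω[K⁄ℂ] [⋀^Fin n]→ₗ[K] K) (x : Fin N → K),
    Sit Ψ x → ∃ W : Row K, ∀ (v : Valuation K ℤᵐ⁰), Triv v → ∀ (b : Fin (N + 1)) (z : Fin n → K),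
      RegAt (cons1 x) b v z → rsize W _ v = size x v ^ (n + 1) * v (Ψ fun i => D ℂ K (z i))

/-- HD. The linear system of the reduced boundary.
PROOF. `NG3.lean` and `ng_WD` (`NG4.lean`) with the following changes. `Dset Y t` is replaced by the set of
the homogeneous `P` of degree `t` such that for some `m`, `d` and homogeneous `P'_j` of degree `d` with
`t m = d₀ + d`: `P(Y)^m = ∑_j G_j(Y) P'_j(Y)`. Estimate: dividing by `Y_b^{t m}`,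
`P(s)^m = ∑ G_j(s) P'_j(s) = g ∏ z^λ` with `g ∈ locRing` (`bdl`), so `P(s) = g' zet` (`rad`), and
`v(P(Y)) ≤ v(Y_b)^t v(zet)`. Existence of a `P` with equality: `zet Q₁(s) = P₁(s)`, `v(Q₁(s)) = 1`;
`zet^L = g ∏ z^λ` (`L = ∑ λ_i + 1`), `g ∈ locRing`, and `∏ z^λ = u⁻¹ G_j(s)` for the `j` of `bdu`; so
`zet^L Q₂(s) = P₂(s) G_j(s)` with `v(Q₂(s)) = 1`, and `(P₁ Q₂)(s)^L = G_j(s) (P₂ Q₁^L Q₂^(L-1))(s)`;
homogenize with powers of `Y_b` (`d5`). `zet ≠ 0` by `ne0`. -/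
def HDStmt : Prop :=
  ∀ (K : Type) [Field K] [Algebra ℂ K] (n N s d₀ : ℕ) (x : Fin N → K)
    (G : Fin (s + 1) → MvPolynomial (Fin (N + 1)) ℂ), (∀ j, (G j).IsHomogeneous d₀) →
    (∀ v : Valuation K ℤᵐ⁰, Triv v → ∃ (b : Fin (N + 1)) (z : Fin n → K) (lam : Fin n → ℕ),
      LSP (cons1 x) G b v z lam) →
    ∃ (t₀ : ℕ) (W : Row K), ∀ (v : Valuation K ℤᵐ⁰), Triv v → ∀ (b : Fin (N + 1)) (z : Fin n → K)
      (lam : Fin n → ℕ), LSP (cons1 x) G b v z lam →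
      rsize W _ v = size x v ^ t₀ * v (zet z lam)

/-- HE. The logarithmic frame.
PROOF. As `dL7` (`MP_410da7_agA/L/DL7.lean`): `θ_i = dz_i/z_i` if `λ_i ≥ 1` (`z_i ≠ 0` by `ne0`), `θ_i = dz_i`
otherwise. If `v` has its center on `X`: `v(G_j(Y)) = v(Y_b)^{d₀}` (`vmax = v(Y_b)`), `v(G_j(s)) = 1`, so
`v(∏ z^λ) = 1` (`bdl`), so `v(z_i) = 1` for `λ_i ≥ 1`, and `dz_i/z_i` is regular. -/
def HEStmt : Prop :=
  ∀ (K : Type) [Field K] [Algebra ℂ K] (n M s d₀ : ℕ) (Ψ : Ω[K⁄ℂ] [⋀^Fin n]→ₗ[K] K)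
    (Y : Fin (M + 1) → K) (G : Fin (s + 1) → MvPolynomial (Fin (M + 1)) ℂ),
    (∀ j, (G j).IsHomogeneous d₀) → ∀ (b : Fin (M + 1)) (v : Valuation K ℤᵐ⁰) (z : Fin n → K)
    (lam : Fin n → ℕ), Triv v → LSP Y G b v z lam →
    ∃ θ : Fin n → Ω[K⁄ℂ], (∀ i, θ i ∈ logDiff v) ∧ (CenterOn d₀ Y G v → ∀ i, θ i ∈ regDiff v) ∧
      v (Ψ θ) = kSize Ψ v z lam

/-- HF. GEO: from `K + D` not pseudo-effective to the negative family.
PROOF. `ng_geo` and `ng_nstmt` (`NG4.lean`, `NG5.lean`) with HC, HD, HE: the rows `P`, `Q` of `ng_row`;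
`kSize * |Q| = |g| |P|` for all `LSP`. If `v F |Q|^m ≤ |P|^m size^e` for all `v` then `F g^m` is a section of
`m (K + D) + e A` (`m ≥ 1`). `n = 0` as there. The conclusion for all `w`, `b`, `z`, `lam` as stated. -/
def HFStmt : Prop :=
  ∀ (K : Type) [Field K] [Algebra ℂ K] (n N s d₀ δ : ℕ) (Ψ : Ω[K⁄ℂ] [⋀^Fin n]→ₗ[K] K)
    (x : Fin N → K) (G : Fin (s + 1) → MvPolynomial (Fin (N + 1)) ℂ),
    (∀ j, (G j).IsHomogeneous d₀) → Sit Ψ x →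
    (∀ v : Valuation K ℤᵐ⁰, Triv v → ∃ (b : Fin (N + 1)) (z : Fin n → K) (lam : Fin n → ℕ),
      LSP (cons1 x) G b v z lam) → 1 ≤ δ →
    (∀ m e : ℕ, e * δ < m → ∀ F ∈ SecH (CenterOn d₀ (cons1 x) G) Ψ x m e, F = 0) →
    ∃ (m₀ : ℕ) (L Λ : Type) (_ : Field L) (_ : Field Λ) (_ : Algebra ℂ L) (_ : Algebra L Λ)
      (_ : Algebra K Λ) (_ : Algebra ℂ Λ) (_ : IsScalarTower ℂ L Λ) (_ : IsScalarTower ℂ K Λ)
      (a : Λ), 1 ≤ m₀ ∧ a ≠ 0 ∧ Algebra.trdeg L Λ = 1 ∧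
      (∃ T : Set Λ, T.Finite ∧ IntermediateField.adjoin L T = ⊤) ∧
      IntermediateField.adjoin L (Set.range (algebraMap K Λ)) = ⊤ ∧
      ∀ w : Valuation Λ ℤᵐ⁰, (∀ c : L, c ≠ 0 → w (algebraMap L Λ c) = 1) →
        ∀ (b : Fin (N + 1)) (z : Fin n → K) (lam : Fin n → ℕ),
        LSP (cons1 x) G b (w.comap (algebraMap K Λ)) z lam →
        size x (w.comap (algebraMap K Λ)) * kSize Ψ (w.comap (algebraMap K Λ)) z lam ^ m₀ ≤ w a

/-! ## The second embedding -/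

/-- HW. Existence of the second system of coordinates.
PROOF. Enumerate the finite type
`{β : Fin (M + 1) → Fin (e + 2) // ∑ β_i = e + 1} ⊕ (Fin r × Fin (M + 1))`, the first element being
`β = (e + 1, 0, ..., 0)` (`Y_0 = 1`); `tt` = the elements of the first summand. -/
def HWStmt : Prop :=
  ∀ (K : Type) [Field K] (M r e : ℕ) (Y : Fin (M + 1) → K) (f : Fin r → K), Y 0 = 1 →
    ∃ (Mw : ℕ) (W : Fin (Mw + 1) → K) (tt : Finset (Fin (Mw + 1))), WSys Y f e W tt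

/-- HL. The local ring of the second embedding.
PROOF. `h = ∏ z^λ`; let `c`, `u` be as in `NefAt.eq`: `f_c h^{κ e} = u Y_b^e`, and `W_{b'} = f_c Y_b`
(`sec`). MAXIMALITY. `W_l = f_i Y_m`: `f_i h^{κ e} = g Y_b^e`, `v g ≤ 1`, so
`v(f_i) v(h)^{κ e} ≤ v(Y_b)^e = v(f_c) v(h)^{κ e}`, `v(f_i) ≤ v(f_c)` (`h ≠ 0`). `W_l = Y^β`:
`v(Y^β) ≤ v(Y_b)^{e+1} = v(f_c) v(h)^{κ e} v(Y_b) ≤ v(f_c Y_b)`. THE RINGS ARE EQUAL:
`Y_m/Y_b = (f_c Y_m)/(f_c Y_b)` is one of the `W_l/W_{b'}`, so `locRing Y b v ⊆ locRing W b' v`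
(`P(Y/Y_b) = P'(W/W_{b'})` with `P' = rename P`). Conversely the `W_l/W_{b'}` are in `locRing Y b v`:
`f_i Y_m/(f_c Y_b) = g u⁻¹ (Y_m/Y_b)` (`ng_locRing_inv`), `Y^β/(f_c Y_b) = (Y^β/Y_b^{e+1}) h^{κ e} u⁻¹`; so
`P(W/W_{b'}) ∈ locRing Y b v` for all `P`, and if it has the value `1` its inverse too. `coord` is
transported along the equality of the rings. `div`: `h^{κ e} = ∏ z_i^{κ e λ_i}` and the last formula.
`gen`: `β_b = e + 1`: `Y_b^{e+1}/(f_c Y_b) = h^{κ e} u⁻¹`. -/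
def HLStmt : Prop :=
  ∀ (K : Type) [Field K] [Algebra ℂ K] (n M s κ e r Mw : ℕ) (Y : Fin (M + 1) → K)
    (G : Fin (s + 1) → MvPolynomial (Fin (M + 1)) ℂ) (f : Fin r → K) (W : Fin (Mw + 1) → K)
    (tt : Finset (Fin (Mw + 1))) (b : Fin (M + 1)) (v : Valuation K ℤᵐ⁰) (z : Fin n → K)
    (lam : Fin n → ℕ), Triv v → WSys Y f e W tt → LSP Y G b v z lam →
    NefAt Y f κ e b v z lam → ∃ b', LSW W tt b' v z (fun i => κ * e * lam i)

/-! ## The line -/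

/-- HK. From the rational curve of block D to a curve on `Xbar` which misses `D`.
PROOF. `U_m = Yp_l` for an index `l` with `W_l = Y_m` (`mon`, `β` = `e` at the index `0` plus `1` at `m`). The
homogeneous relations of the `Y_m` hold for `U`, `U_m(0) = ι(Y_m)`, `U_0(0) = 1`. Divide `U` by its greatest
common divisor: `V`. NOT CONSTANT: otherwise `U_m = Y_m U_0`; write `f_i = A_i(Y)/B_i(Y)` with forms of the
same degree; `B_i(W) W_l = A_i(W) W_m` is a homogeneous relation, so all `Yp_l = W_l U_0`, and then for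
`l = 0`: `U_0 = Yp_0` (relation `W_0 = U`-coordinate). MISSES `D`: otherwise an irreducible polynomial `π`
divides all `G_j(V)`; let `w` be the `π`-adic valuation, `v` its restriction to `K` by
`Y_m ↦ V_m/V_0`; at its center `v(∏ z^λ) < 1`, so `v(W_t) ≤ v(W_{b'}) w(π)^{κ e}` for `t ∈ tt`, so `π^{κ e}`
divides `Yp_0 ≠ 0`, whose degree is `< κ e`. -/
def HKStmt : Prop :=
  ∀ (K : Type) [Field K] [Algebra ℂ K] (n N s d₀ κ e r Mw : ℕ) (x : Fin N → K)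
    (G : Fin (s + 1) → MvPolynomial (Fin (N + 1)) ℂ) (f : Fin r → K) (W : Fin (Mw + 1) → K)
    (tt : Finset (Fin (Mw + 1))), (∀ j, (G j).IsHomogeneous d₀) →
    IntermediateField.adjoin ℂ (Set.range x) = ⊤ → WSys (cons1 x) f e W tt →
    (∀ v : Valuation K ℤᵐ⁰, Triv v → ∃ (b : Fin (N + 1)) (z : Fin n → K) (lam : Fin n → ℕ)
      (b' : Fin (Mw + 1)), LSP (cons1 x) G b v z lam ∧
        LSW W tt b' v z (fun i => κ * e * lam i)) →
    ∀ (Ω' : Type) [Field Ω'] [Algebra ℂ Ω'] (ι : K →ₐ[ℂ] Ω') (Yp : Fin (Mw + 1) → Polynomial Ω'),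
    (∀ (d : ℕ) (P : MvPolynomial (Fin (Mw + 1)) ℂ), P.IsHomogeneous d → aeval W P = 0 →
      aeval Yp P = 0) →
    (Yp 0).natDegree < κ * e → (∀ l, (Yp l).coeff 0 = ι (W l)) →
    (∃ l, Yp l ≠ Polynomial.C (ι (W l)) * Yp 0) →
    ∃ V : Fin (N + 1) → Polynomial Ω', Line Ω' (cons1 x) G V ∧
      ∀ (d : ℕ) (P : MvPolynomial (Fin (N + 1)) ℂ), P.IsHomogeneous d →
        aeval (fun l => (V l).coeff 0) P = 0 → aeval (cons1 x) P = 0

/-! ## The other direction and the last clause -/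

/-- HS. Sections.
PROOF. `vmax (Fin.cons 1 x) v = size x v`. If `F = F₁ Ψ(θ)^m` then `v F ≤ size^e v(Ψ θ)^m`. Conversely, if
`F = 0` take `F₁ = 0`; if `m = 0` take `F₁ = F`; otherwise `Ψ θ ≠ 0` and `F₁ = F/Ψ(θ)^m`. -/
def HSStmt : Prop :=
  ∀ (K : Type) [Field K] [Algebra ℂ K] (n N s d₀ : ℕ) (Ψ : Ω[K⁄ℂ] [⋀^Fin n]→ₗ[K] K)
    (x : Fin N → K) (G : Fin (s + 1) → MvPolynomial (Fin (N + 1)) ℂ) (m e : ℕ) (F : K),
    IsPairSection d₀ (Fin.cons 1 x) G Ψ m e F ↔ F ∈ SecH (CenterOn d₀ (Fin.cons 1 x) G) Ψ x m e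

/-- HH. An `𝔸¹`-uniruled `X`: `K + D` is not pseudo-effective.
PROOF. Let `B`, `W` be as in `A1UniruledCompl`, `Λ₁ = FractionRing B`, `RatFunc Λ₁ ⊇ B[t]`. `W_0 ≠ 0` (the
homogeneous polynomial `X_0` does not vanish at `Y`). The homomorphism `ℂ[Y] → RatFunc Λ₁`, `Y_l ↦ W_l/W_0`
(`exists_hom` of `MP_410da7_agV/Line.lean`) is injective (homogenize, `exists_homog`), and extends to
`Φ : K → RatFunc Λ₁` (`isFractionRing_adjoin` of `MP_410da7_agV/LineCut.lean`, `IsFractionRing.liftAlgHom`). At a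
finite place `𝔭` of `Λ₁[t]`: let `w` be its valuation, `W_b` with `w(W_b)` maximal. As `1 = ∑ c_j G_j(W)`
with `c_j ∈ B[t]` and `w(G_j(W)) ≤ w(W_b)^{d₀}`: `w(W_b) = 1` (all values are `≤ 1`; if `w(W_b) < 1` then all
`w(G_j(W)) < 1`, `d₀ ≥ 1`), and some `w(G_j(W)) = 1`: `CenterOn` for `w ∘ Φ`
(`Φ(G_j(Y)) = G_j(W)/W_0^{d₀}`). Apply `vanish_of_line` (`MP_410da7_agV/H4Core.lean`) with `f = x` and
`HC = CenterOn d₀ (Fin.cons 1 x) G`; `Algebra.trdeg ℂ Λ₁ = Algebra.trdeg ℂ B` (`Algebra.IsAlgebraic.trdeg_le`,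
`IsFractionRing` lemmas). -/
def HHStmt : Prop :=
  ∀ (K : Type) [Field K] [Algebra ℂ K] (n N s d₀ : ℕ) (Ψ : Ω[K⁄ℂ] [⋀^Fin n]→ₗ[K] K)
    (x : Fin N → K) (G : Fin (s + 1) → MvPolynomial (Fin (N + 1)) ℂ), 1 ≤ d₀ →
    (∀ j, (G j).IsHomogeneous d₀) → IntermediateField.adjoin ℂ (Set.range x) = ⊤ →
    Algebra.trdeg ℂ K = n → Ψ ≠ 0 → A1UniruledCompl n (Fin.cons 1 x) G →
    ∃ δ : ℕ, 1 ≤ δ ∧ ∀ m e : ℕ, e * δ < m →
      ∀ F ∈ SecH (CenterOn d₀ (Fin.cons 1 x) G) Ψ x m e, F = 0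

/-- HG. The last clause: if the adjoint ring is finitely generated and `m (K + D)` has no sections for
`m ≥ 1` then `K + D` is not pseudo-effective.
PROOF. The statements A1 (zero, one, sums, multiples, products) for `SecH` (the proofs in
`MP_410da7_agA/A1.lean`; `HC` is arbitrary), and A2 (`A2.lean`): there are finitely many homogeneous
generators `g_i ≠ 0` of degrees `(m_i, e_i)`, and every `F ∈ SecH m e` is a combination of monomials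
`∏ g_i^{a_i}` with `∑ a_i m_i = m`, `∑ a_i e_i = e`. If `m_i ≥ 1` then `e_i ≥ 1` by hypothesis. Put
`δ = 1 + ∑ m_i`. If `e δ < m` and `F ≠ 0` there is such an `a`: `m = ∑ a_i m_i ≤ ∑ a_i e_i δ = e δ`:
contradiction. -/
def HGStmt : Prop :=
  ∀ (K : Type) [Field K] [Algebra ℂ K] (n N : ℕ) (HC : Valuation K ℤᵐ⁰ → Prop)
    (Ψ : Ω[K⁄ℂ] [⋀^Fin n]→ₗ[K] K) (x : Fin N → K),
    (Algebra.adjoin ℂ {p : MvPolynomial (Fin 2) K | ∃ (m e : ℕ) (F : K), F ∈ SecH HC Ψ x m e ∧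
      p = C F * X 0 ^ m * X 1 ^ e}).FG →
    (∀ m : ℕ, 1 ≤ m → ∀ F ∈ SecH HC Ψ x m 0, F = 0) →
    ∃ δ : ℕ, 1 ≤ δ ∧ ∀ m e : ℕ, e * δ < m → ∀ F ∈ SecH HC Ψ x m e, F = 0

end Pool.Agent.Lib.MP_410da7_agB
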