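import Pool.Agent.Lib.MP_410da7_agA.Statement2

/-!
# MP_410da7_ag: definitions for the theorem on the complement of the support of a nef divisor

`K` is the function field of a projective complex variety `Xbar ⊆ ℙ^M` with homogeneous coordinates
`Y_0, ..., Y_M ∈ K` (`Y_0 = 1`), `A` is the hyperplane class. `G_0, ..., G_s` are homogeneous
polynomials of degree `d₀ ≥ 1`; they define an effective divisor `H` of `Xbar` (a section of `d₀ A`
which vanishes on `H` is locally a multiple of the `G_j`), `D` is the support of `H` (reduced), and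
`X = Xbar ∖ D`. (Every effective divisor can be given like this; for `D = ∅` take `G_j = Y_j`.)
-/

set_option autoImplicit false

namespace Pool.Agent.Lib.MP_410da7_agB

open MvPolynomial KaehlerDifferential WithZero
open Pool.Agent.Lib.MP_410da7_ag (regDiff logDiff)
open Pool.Agent.Lib.MP_410da7_agA (IsPoint pointRing AtPoint)

section

variable {K : Type} [Field K] [Algebra ℂ K] {M s : ℕ}

/-- The value of the polynomial `P` in the chart `Y_b ≠ 0`, an element of the local ring at `p`. -/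
noncomputable def chartVal (Y : Fin (M + 1) → K) (b : Fin (M + 1)) (p : Fin (M + 1) → ℂ)
    (P : MvPolynomial (Fin (M + 1)) ℂ) : pointRing Y b p :=
  ⟨aeval (fun l => Y l / Y b) P, P, 1, by rw [map_one]; exact one_ne_zero,
    by rw [map_one, mul_one]⟩

/-- The differentials of the algebra `O` are generated by the `dz_i`. -/
abbrev IsCoord (O : Type) [CommRing O] [Algebra ℂ O] {n : ℕ} (z : Fin n → O) : Prop :=
  Submodule.span O (Set.range fun i => D ℂ O (z i)) = ⊤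

/-- The ideal generated by `∏ z_i^{λ_i}`. -/
abbrev monIdeal {O : Type} [CommRing O] {n : ℕ} (z : Fin n → O) (lam : Fin n → ℕ) : Ideal O :=
  Ideal.span {∏ i, z i ^ lam i}

/-- The ideal generated by `∏_{λ_i ≥ 1} z_i`. -/
abbrev redIdeal {O : Type} [CommRing O] {n : ℕ} (z : Fin n → O) (lam : Fin n → ℕ) : Ideal O :=
  Ideal.span {∏ i with 1 ≤ lam i, z i}

/-- The ideal of `H` in the local ring at the point `p` of the chart `Y_b ≠ 0`. -/
abbrev divIdeal (Y : Fin (M + 1) → K) (G : Fin (s + 1) → MvPolynomial (Fin (M + 1)) ℂ)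
    (b : Fin (M + 1)) (p : Fin (M + 1) → ℂ) : Ideal (pointRing Y b p) :=
  Ideal.span (Set.range fun j => chartVal Y b p (G j))

/-- At the point `p` of the chart `Y_b ≠ 0` the variety `Xbar` is smooth of dimension `n`, with local
coordinates `z_1, ..., z_n`: the differentials of the local ring are generated by the `dz_i`. The
divisor `H` is defined by `∏ z_i^{λ_i}`, and its support `D` is defined by `∏_{λ_i ≥ 1} z_i`: so `D` has
simple normal crossings. -/
structure IsPairChart {n : ℕ} (Y : Fin (M + 1) → K) (G : Fin (s + 1) → MvPolynomial (Fin (M + 1)) ℂ)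
    (b : Fin (M + 1)) (p : Fin (M + 1) → ℂ) (z : Fin n → pointRing Y b p) (lam : Fin n → ℕ) :
    Prop where
  coord : IsCoord (pointRing Y b p) z
  div : divIdeal Y G b p = monIdeal z lam
  red : (monIdeal z lam).radical = redIdeal z lam

/-- `Xbar` is smooth of dimension `n`, the `G_j` define an effective divisor `H`, and its support `D`
has simple normal crossings. -/
def LogSmoothPair (n : ℕ) (Y : Fin (M + 1) → K)
    (G : Fin (s + 1) → MvPolynomial (Fin (M + 1)) ℂ) : Prop :=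
  ∀ (b : Fin (M + 1)) (p : Fin (M + 1) → ℂ), IsPoint Y b p →
    ∃ (z : Fin n → pointRing Y b p) (lam : Fin n → ℕ), IsPairChart Y G b p z lam

/-- The maximum of the values of a finite family of functions. -/
noncomputable def vmax {r : ℕ} (f : Fin r → K) (v : Valuation K ℤᵐ⁰) : ℤᵐ⁰ :=
  Finset.univ.sup fun i => v (f i)

/-- The divisor `H` is nef: for every `κ ≥ 1` some multiple `e (κ H + A)`, `e ≥ 1`, is generated by
finitely many global sections `f_i ∈ K`. (At a closed point of the chart `Y_b ≠ 0` with local ring `O` put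
`I = ∑ O G_j(Y)`, so that `I = O Y_b^{d₀} h` if `h = 0` is the local equation of `H`; the sections of
`e (κ H + A)` are the elements of `O Y_b^e h^{- κ e}`, and the `f_i` generate this module if and only if
`(∑ O f_i) I^{κ e} = O Y_b^{(d₀ κ + 1) e}`. By the theorem of Kleiman all this is equivalent to
`H · C ≥ 0` for all curves `C` in `Xbar`.) -/
def IsNef (d₀ : ℕ) (Y : Fin (M + 1) → K) (G : Fin (s + 1) → MvPolynomial (Fin (M + 1)) ℂ) : Prop :=
  ∀ κ : ℕ, 1 ≤ κ → ∃ (e r : ℕ) (f : Fin r → K), 1 ≤ e ∧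
    ∀ (b : Fin (M + 1)) (p : Fin (M + 1) → ℂ), IsPoint Y b p →
      Submodule.span (pointRing Y b p) (Set.range f) *
          Submodule.span (pointRing Y b p) (Set.range fun j => aeval Y (G j)) ^ (κ * e) =
        Submodule.span (pointRing Y b p) {Y b ^ ((d₀ * κ + 1) * e)}

/-- The valuation `v` has its center on `X = Xbar ∖ D`: some `G_j` does not vanish there. -/
def CenterOn (d₀ : ℕ) (Y : Fin (M + 1) → K) (G : Fin (s + 1) → MvPolynomial (Fin (M + 1)) ℂ)
    (v : Valuation K ℤᵐ⁰) : Prop :=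
  ∃ j, v (aeval Y (G j)) = vmax Y v ^ d₀

/-- The variety `X = Xbar ∖ D` of dimension `n` is `𝔸¹`-uniruled: there are an affine variety `Y'`
(with coordinate ring `B`) of dimension `n - 1` and a dominant morphism `Y' × 𝔸¹ → X` (it is not
constant on `{y} × 𝔸¹` for general `y`, because `dim Y' < dim X`). The morphism is given by its
homogeneous coordinates `W_0, ..., W_M ∈ B[t]`; a homogeneous polynomial vanishes at `W` if and only if
it vanishes on `Xbar`, and the `G_j(W)` have no common zero. -/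
def A1UniruledCompl (n : ℕ) (Y : Fin (M + 1) → K)
    (G : Fin (s + 1) → MvPolynomial (Fin (M + 1)) ℂ) : Prop :=
  ∃ (B : Type) (_ : CommRing B) (_ : IsDomain B) (_ : Algebra ℂ B) (W : Fin (M + 1) → Polynomial B),
    Algebra.FiniteType ℂ B ∧ Algebra.trdeg ℂ B + 1 = n ∧
    (∀ (d : ℕ) (P : MvPolynomial (Fin (M + 1)) ℂ), P.IsHomogeneous d →
      (aeval W P = 0 ↔ aeval Y P = 0)) ∧
    Ideal.span (Set.range fun j => aeval W (G j)) = ⊤

/-- The rational `m`-canonical form `F η ^ m` (`η` the rational form of top degree with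
`θ₁ ∧ ⋯ ∧ θ_n = Ψ (θ₁,…,θ_n) η` for all `θ`) is a section of `m (K + D) + e A`: at every `ℤ`-valued
valuation `v` of `K/ℂ` it can be written as `F₁ (θ₁ ∧ ⋯ ∧ θ_n) ^ m` where `|F₁| ≤ |Y|^e` and the
differentials `θᵢ` have at most logarithmic poles at `v`, and are regular at `v` in case `v` has its
center on `X`. -/
def IsPairSection (d₀ : ℕ) {n : ℕ} (Y : Fin (M + 1) → K)
    (G : Fin (s + 1) → MvPolynomial (Fin (M + 1)) ℂ) (Ψ : Ω[K⁄ℂ] [⋀^Fin n]→ₗ[K] K) (m e : ℕ)
    (F : K) : Prop :=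
  ∀ v : Valuation K ℤᵐ⁰, (∀ c : ℂ, c ≠ 0 → v (algebraMap ℂ K c) = 1) →
    ∃ (θ : Fin n → Ω[K⁄ℂ]) (F₁ : K),
      (∀ i, θ i ∈ logDiff v) ∧ (CenterOn d₀ Y G v → ∀ i, θ i ∈ regDiff v) ∧
      v F₁ ≤ vmax Y v ^ e ∧ F = F₁ * Ψ θ ^ m

/-- `K + D` is not pseudo-effective: there is `δ ≥ 1` such that `m (K + D) + e A` has no sections for
`e δ < m`. -/
def PairNotPseff (d₀ : ℕ) {n : ℕ} (Y : Fin (M + 1) → K)
    (G : Fin (s + 1) → MvPolynomial (Fin (M + 1)) ℂ) (Ψ : Ω[K⁄ℂ] [⋀^Fin n]→ₗ[K] K) : Prop :=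
  ∃ δ : ℕ, 1 ≤ δ ∧ ∀ m e : ℕ, e * δ < m → ∀ F : K, IsPairSection d₀ Y G Ψ m e F → F = 0

/-- The logarithmic Kodaira dimension of `X` is `-∞`: `m (K + D)` has no sections for `m ≥ 1`. -/
def PairKodairaNegInf (d₀ : ℕ) {n : ℕ} (Y : Fin (M + 1) → K)
    (G : Fin (s + 1) → MvPolynomial (Fin (M + 1)) ℂ) (Ψ : Ω[K⁄ℂ] [⋀^Fin n]→ₗ[K] K) : Prop :=
  ∀ m : ℕ, 1 ≤ m → ∀ F : K, IsPairSection d₀ Y G Ψ m 0 F → F = 0

/-- The adjoint ring `⊕_{m, e ≥ 0} H⁰(Xbar, m (K + D) + e A)`, as a subring of `K[s, t]`: it is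
generated by the `F s ^ m t ^ e` for the sections `F η ^ m` of `m (K + D) + e A`. -/
noncomputable def pairAdjointRing (d₀ : ℕ) {n : ℕ} (Y : Fin (M + 1) → K)
    (G : Fin (s + 1) → MvPolynomial (Fin (M + 1)) ℂ) (Ψ : Ω[K⁄ℂ] [⋀^Fin n]→ₗ[K] K) :
    Subalgebra ℂ (MvPolynomial (Fin 2) K) :=
  Algebra.adjoin ℂ {p | ∃ (m e : ℕ) (F : K), IsPairSection d₀ Y G Ψ m e F ∧
    p = C F * X 0 ^ m * X 1 ^ e}

/-- A covering family of curves on `Xbar` on which `K + D` is negative. The generic curve `C` is given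
by its function field `Λ` over `L`; it contains `K`, and `Λ` is generated by `L` and `K`. The rational
section `a η ^ m₀` of `m₀ (K + D) + e₀ A` (`m₀, e₀ ≥ 1`) has no zeros on `C`, so that
`(K + D) · C ≤ - (e₀ / m₀) A · C < 0`: at every place `w` of `C`, and for local coordinates `z` at a point
of `Xbar` in the closure of the center of `w`, we have
`|Y|^{e₀} |Ψ(dz_1, …, dz_n) / ∏_{λ_i ≥ 1} z_i|^{m₀} ≤ |a|` (`dz_1 ∧ ⋯ ∧ dz_n / ∏_{λ_i ≥ 1} z_i` is a
generator of `K + D` at this point). -/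
structure PairNegFamily {n : ℕ} (Y : Fin (M + 1) → K)
    (G : Fin (s + 1) → MvPolynomial (Fin (M + 1)) ℂ) (Ψ : Ω[K⁄ℂ] [⋀^Fin n]→ₗ[K] K) (m₀ e₀ : ℕ)
    (L Λ : Type) [Field L] [Field Λ] [Algebra ℂ L] [Algebra L Λ] [Algebra K Λ] [Algebra ℂ Λ]
    [IsScalarTower ℂ L Λ] [IsScalarTower ℂ K Λ] (a : Λ) : Prop where
  m0 : 1 ≤ m₀
  e0 : 1 ≤ e₀
  a0 : a ≠ 0
  trdeg : Algebra.trdeg L Λ = 1
  fg : ∃ T : Set Λ, T.Finite ∧ IntermediateField.adjoin L T = ⊤
  gen : IntermediateField.adjoin L (Set.range (algebraMap K Λ)) = ⊤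
  neg : ∀ w : Valuation Λ ℤᵐ⁰, (∀ c : L, c ≠ 0 → w (algebraMap L Λ c) = 1) →
    ∀ (b : Fin (M + 1)) (p : Fin (M + 1) → ℂ) (z : Fin n → pointRing Y b p) (lam : Fin n → ℕ),
      AtPoint Y b p (w.comap (algebraMap K Λ)) → IsPairChart Y G b p z lam →
      vmax Y (w.comap (algebraMap K Λ)) ^ e₀ *
          w (algebraMap K Λ (Ψ fun i => D ℂ K (z i : K))) ^ m₀ ≤
        w a * (∏ i with 1 ≤ lam i, w (algebraMap K Λ (z i : K))) ^ m₀

/-- The theorem: the complement `X` of the support `D` of a nef divisor, `D` with simple normal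
crossings, is `𝔸¹`-uniruled if and only if `K + D` is not pseudo-effective. -/
def T1Thm : Prop :=
  ∀ (K : Type) [Field K] [Algebra ℂ K] (n M s d₀ : ℕ) (x : Fin M → K)
    (G : Fin (s + 1) → MvPolynomial (Fin (M + 1)) ℂ) (Ψ : Ω[K⁄ℂ] [⋀^Fin n]→ₗ[K] K),
    IntermediateField.adjoin ℂ (Set.range x) = ⊤ → Algebra.trdeg ℂ K = n → Ψ ≠ 0 → 1 ≤ d₀ →
    (∀ j, (G j).IsHomogeneous d₀) → LogSmoothPair n (Fin.cons 1 x) G →
    IsNef d₀ (Fin.cons 1 x) G →
    List.TFAE [A1UniruledCompl n (Fin.cons 1 x) G, PairNotPseff d₀ (Fin.cons 1 x) G Ψ,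
      ∃ (m₀ e₀ : ℕ) (L Λ : Type) (_ : Field L) (_ : Field Λ) (_ : Algebra ℂ L) (_ : Algebra L Λ)
        (_ : Algebra K Λ) (_ : Algebra ℂ Λ) (_ : IsScalarTower ℂ L Λ) (_ : IsScalarTower ℂ K Λ)
        (a : Λ), PairNegFamily (Fin.cons 1 x) G Ψ m₀ e₀ L Λ a] ∧
    ((pairAdjointRing d₀ (Fin.cons 1 x) G Ψ).FG →
      (A1UniruledCompl n (Fin.cons 1 x) G ↔ PairKodairaNegInf d₀ (Fin.cons 1 x) G Ψ))

end

end Pool.Agent.Lib.MP_410da7_agB
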